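import Mathlib

set_option autoImplicit false

/-!
# PDC: definitions (PD3-groups, finitely generated relation modules, hierarchies)

Project PDC (MP_8a0829_al).  Paper proof: /team-store/pdc_proof.md.
-/

namespace Pool.Agent.PDC

open MonoidAlgebra

/-- `IsPD3 G`: literally the conditions of the frozen statement S02199 on the group `G`
(without the last clause on finite presentability). -/
def IsPD3 (G : Type) [Group G] : Prop :=
    ∃ (P0 P1 P2 P3 : Type)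
      (_ : AddCommGroup P0) (_ : Module (MonoidAlgebra ℤ G) P0)
      (_ : AddCommGroup P1) (_ : Module (MonoidAlgebra ℤ G) P1)
      (_ : AddCommGroup P2) (_ : Module (MonoidAlgebra ℤ G) P2)
      (_ : AddCommGroup P3) (_ : Module (MonoidAlgebra ℤ G) P3),
      Module.Finite (MonoidAlgebra ℤ G) P0 ∧ Module.Projective (MonoidAlgebra ℤ G) P0 ∧
      Module.Finite (MonoidAlgebra ℤ G) P1 ∧ Module.Projective (MonoidAlgebra ℤ G) P1 ∧
      Module.Finite (MonoidAlgebra ℤ G) P2 ∧ Module.Projective (MonoidAlgebra ℤ G) P2 ∧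
      Module.Finite (MonoidAlgebra ℤ G) P3 ∧ Module.Projective (MonoidAlgebra ℤ G) P3 ∧
      ∃ (d1 : P1 →ₗ[MonoidAlgebra ℤ G] P0) (d2 : P2 →ₗ[MonoidAlgebra ℤ G] P1)
        (d3 : P3 →ₗ[MonoidAlgebra ℤ G] P2) (ε : P0 →+ ℤ),
        Function.Injective ⇑d3 ∧
        Function.Exact ⇑d3 ⇑d2 ∧
        Function.Exact ⇑d2 ⇑d1 ∧
        Function.Exact ⇑d1 ⇑ε ∧
        Function.Surjective ⇑ε ∧
        (∀ (g : G) (x : P0), ε (MonoidAlgebra.of ℤ G g • x) = ε x) ∧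
        (∀ φ : P0 →ₗ[MonoidAlgebra ℤ G] MonoidAlgebra ℤ G, φ.comp d1 = 0 → φ = 0) ∧
        (∀ φ : P1 →ₗ[MonoidAlgebra ℤ G] MonoidAlgebra ℤ G, φ.comp d2 = 0 →
          ∃ ψ : P0 →ₗ[MonoidAlgebra ℤ G] MonoidAlgebra ℤ G, φ = ψ.comp d1) ∧
        (∀ φ : P2 →ₗ[MonoidAlgebra ℤ G] MonoidAlgebra ℤ G, φ.comp d3 = 0 →
          ∃ ψ : P1 →ₗ[MonoidAlgebra ℤ G] MonoidAlgebra ℤ G, φ = ψ.comp d2) ∧
        (∃ θ : (P3 →ₗ[MonoidAlgebra ℤ G] MonoidAlgebra ℤ G) →+ ℤ,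
          Function.Surjective ⇑θ ∧
          ∀ φ : P3 →ₗ[MonoidAlgebra ℤ G] MonoidAlgebra ℤ G,
            θ φ = 0 ↔ ∃ ψ : P2 →ₗ[MonoidAlgebra ℤ G] MonoidAlgebra ℤ G, φ = ψ.comp d3)

/-- The data of `IsPD3`, bundled. -/
structure PD3 (G : Type) [Group G] where
  P0 : Type
  P1 : Type
  P2 : Type
  P3 : Type
  i0 : AddCommGroup P0
  m0 : Module (MonoidAlgebra ℤ G) P0
  i1 : AddCommGroup P1
  m1 : Module (MonoidAlgebra ℤ G) P1
  i2 : AddCommGroup P2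
  m2 : Module (MonoidAlgebra ℤ G) P2
  i3 : AddCommGroup P3
  m3 : Module (MonoidAlgebra ℤ G) P3
  fin0 : Module.Finite (MonoidAlgebra ℤ G) P0
  proj0 : Module.Projective (MonoidAlgebra ℤ G) P0
  fin1 : Module.Finite (MonoidAlgebra ℤ G) P1
  proj1 : Module.Projective (MonoidAlgebra ℤ G) P1
  fin2 : Module.Finite (MonoidAlgebra ℤ G) P2
  proj2 : Module.Projective (MonoidAlgebra ℤ G) P2
  fin3 : Module.Finite (MonoidAlgebra ℤ G) P3
  proj3 : Module.Projective (MonoidAlgebra ℤ G) P3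
  d1 : P1 →ₗ[MonoidAlgebra ℤ G] P0
  d2 : P2 →ₗ[MonoidAlgebra ℤ G] P1
  d3 : P3 →ₗ[MonoidAlgebra ℤ G] P2
  ε : P0 →+ ℤ
  inj3 : Function.Injective ⇑d3
  ex2 : Function.Exact ⇑d3 ⇑d2
  ex1 : Function.Exact ⇑d2 ⇑d1
  ex0 : Function.Exact ⇑d1 ⇑ε
  surj : Function.Surjective ⇑ε
  inv : ∀ (g : G) (x : P0), ε (MonoidAlgebra.of ℤ G g • x) = ε x
  h0 : ∀ φ : P0 →ₗ[MonoidAlgebra ℤ G] MonoidAlgebra ℤ G, φ.comp d1 = 0 → φ = 0
  h1 : ∀ φ : P1 →ₗ[MonoidAlgebra ℤ G] MonoidAlgebra ℤ G, φ.comp d2 = 0 →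
          ∃ ψ : P0 →ₗ[MonoidAlgebra ℤ G] MonoidAlgebra ℤ G, φ = ψ.comp d1
  h2 : ∀ φ : P2 →ₗ[MonoidAlgebra ℤ G] MonoidAlgebra ℤ G, φ.comp d3 = 0 →
          ∃ ψ : P1 →ₗ[MonoidAlgebra ℤ G] MonoidAlgebra ℤ G, φ = ψ.comp d2
  θ : (P3 →ₗ[MonoidAlgebra ℤ G] MonoidAlgebra ℤ G) →+ ℤ
  θsurj : Function.Surjective ⇑θ
  θker : ∀ φ : P3 →ₗ[MonoidAlgebra ℤ G] MonoidAlgebra ℤ G,
            θ φ = 0 ↔ ∃ ψ : P2 →ₗ[MonoidAlgebra ℤ G] MonoidAlgebra ℤ G, φ = ψ.comp d3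

attribute [instance] PD3.i0 PD3.m0 PD3.i1 PD3.m1 PD3.i2 PD3.m2 PD3.i3 PD3.m3
attribute [instance] PD3.fin0 PD3.proj0 PD3.fin1 PD3.proj1 PD3.fin2 PD3.proj2 PD3.fin3 PD3.proj3

theorem isPD3_iff (G : Type) [Group G] : IsPD3 G ↔ Nonempty (PD3 G) := by
  constructor
  · rintro ⟨P0, P1, P2, P3, i0, m0, i1, m1, i2, m2, i3, m3, f0, p0, f1, p1, f2, p2, f3, p3,
      d1, d2, d3, ε, inj3, ex2, ex1, ex0, surj, inv, h0, h1, h2, θ, θs, θk⟩
    exact ⟨⟨P0, P1, P2, P3, i0, m0, i1, m1, i2, m2, i3, m3, f0, p0, f1, p1, f2, p2, f3, p3,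
      d1, d2, d3, ε, inj3, ex2, ex1, ex0, surj, inv, h0, h1, h2, θ, θs, θk⟩⟩
  · rintro ⟨X⟩
    exact ⟨X.P0, X.P1, X.P2, X.P3, X.i0, X.m0, X.i1, X.m1, X.i2, X.m2, X.i3, X.m3,
      X.fin0, X.proj0, X.fin1, X.proj1, X.fin2, X.proj2, X.fin3, X.proj3,
      X.d1, X.d2, X.d3, X.ε, X.inj3, X.ex2, X.ex1, X.ex0, X.surj, X.inv, X.h0, X.h1, X.h2,
      X.θ, X.θsurj, X.θker⟩

/-- The boundary map `(ZK)^n → ZK`, `a ↦ ∑ a_j (x_j - 1)`, of a tuple `x` of elements of `K`. -/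
noncomputable def bd {K : Type} [Group K] {n : ℕ} (x : Fin n → K) :
    (Fin n → MonoidAlgebra ℤ K) →ₗ[MonoidAlgebra ℤ K] MonoidAlgebra ℤ K :=
  Fintype.linearCombination (MonoidAlgebra ℤ K) (fun j => MonoidAlgebra.of ℤ K (x j) - 1)

theorem bd_apply {K : Type} [Group K] {n : ℕ} (x : Fin n → K) (a : Fin n → MonoidAlgebra ℤ K) :
    bd x a = ∑ j, a j * (MonoidAlgebra.of ℤ K (x j) - 1) := by
  simp [bd, Fintype.linearCombination_apply, smul_eq_mul]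

/-- `RelFG K`: the relation module of every finite generating tuple of `K` is finitely generated
(for a finitely generated group this is the usual property `FP₂`). -/
def RelFG (K : Type) [Group K] : Prop :=
  ∀ (n : ℕ) (x : Fin n → K), Subgroup.closure (Set.range x) = ⊤ → (LinearMap.ker (bd x)).FG

/-- The smallest class of subgroups of `Γ` which contains all `L` all of whose finitely generated
subgroups are finitely presented, and all `L` which act without inversions on a tree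
with all vertex stabilisers in the class. -/
inductive Hier {Γ : Type} [Group Γ] : Subgroup Γ → Prop
  | base (L : Subgroup Γ)
      (h : ∀ K : Subgroup Γ, K ≤ L → K.FG → Group.IsFinitelyPresented K) : Hier L
  | tree (L : Subgroup Γ) (V : Type) (T : SimpleGraph V) (_ : MulAction L V)
      (hT : T.IsTree) (hadj : ∀ (g : L) (v w : V), T.Adj v w → T.Adj (g • v) (g • w))
      (hinv : ∀ (g : L) (v w : V), T.Adj v w → g • v = w → g • w ≠ v)
      (h : ∀ v : V, Hier ((MulAction.stabilizer L v).map L.subtype)) : Hier L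

/-- A set of group elements contained in finitely many right cosets `H y`. -/
def FinCos {G : Type} [Group G] (H : Subgroup G) (A : Set G) : Prop :=
  ∃ Y : Finset G, ∀ g ∈ A, ∃ y ∈ Y, g * y⁻¹ ∈ H

/-- One-endedness, in the form used here. -/
def OneEnded (G : Type) [Group G] : Prop :=
  ∀ S : Finset G, Subgroup.closure (S : Set G) = ⊤ → ∀ V : Set G,
    (∀ s ∈ S, {g : G | ¬ (g ∈ V ↔ g * s ∈ V)}.Finite) → V.Finite ∨ Vᶜ.Finite

/-- Right multiplication of a functional by an element of the group ring. -/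
noncomputable def rmul {G : Type} [Group G] {M : Type} [AddCommGroup M]
    [Module (MonoidAlgebra ℤ G) M] (μ : M →ₗ[MonoidAlgebra ℤ G] MonoidAlgebra ℤ G)
    (r : MonoidAlgebra ℤ G) : M →ₗ[MonoidAlgebra ℤ G] MonoidAlgebra ℤ G :=
  (LinearMap.toSpanSingleton (MonoidAlgebra ℤ G) (MonoidAlgebra ℤ G) r).comp μ

theorem rmul_apply {G : Type} [Group G] {M : Type} [AddCommGroup M]
    [Module (MonoidAlgebra ℤ G) M] (μ : M →ₗ[MonoidAlgebra ℤ G] MonoidAlgebra ℤ G)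
    (r : MonoidAlgebra ℤ G) (q : M) : rmul μ r q = μ q * r := by
  simp [rmul, LinearMap.toSpanSingleton_apply, smul_eq_mul]

end Pool.Agent.PDC
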