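import Mathlib
import Pool.Agent.PDC.Defs

set_option autoImplicit false

/-!
# PDC: basic tools (inclusion and restriction of group rings, coset representatives,
# augmentation, expansion along coset representatives)
-/

namespace Pool.Agent.PDC

open MonoidAlgebra

/-- An additive statement on the group ring over `ℤ` is enough to be checked on group elements. -/
theorem zg_induction {G : Type} [Group G] {p : MonoidAlgebra ℤ G → Prop}
    (x : MonoidAlgebra ℤ G) (h0 : p 0) (hadd : ∀ x y, p x → p y → p (x + y))
    (hneg : ∀ x, p x → p (-x)) (hof : ∀ g, p (of ℤ G g)) : p x := by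
  induction x using MonoidAlgebra.induction_linear with
  | zero => exact h0
  | add x y hx hy => exact hadd x y hx hy
  | single g n =>
    have key : ∀ m : ℕ, p (single g (m : ℤ)) := by
      intro m
      induction m with
      | zero => simpa using h0
      | succ m ih =>
        have := hadd _ _ ih (hof g)
        rw [of_apply, ← single_add] at this
        simpa using this
    rcases Int.eq_nat_or_neg n with ⟨m, rfl | rfl⟩
    · exact key m
    · have := hneg _ (key m)
      have e : single g (-(m : ℤ)) = -single g (m : ℤ) := by ext; simp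
      rw [e]
      exact this

/-- Additive maps out of the group ring agree if they agree on group elements. -/
theorem zg_hom_ext {G : Type} [Group G] {M : Type*} [AddCommGroup M]
    {F F' : MonoidAlgebra ℤ G →+ M} (h : ∀ g, F (of ℤ G g) = F' (of ℤ G g)) (x : MonoidAlgebra ℤ G) :
    F x = F' x := by
  induction x using zg_induction with
  | h0 => simp
  | hadd x y hx hy => rw [map_add, map_add, hx, hy]
  | hneg x hx => rw [map_neg, map_neg, hx]
  | hof g => exact h g

/-- The augmentation. -/
noncomputable def aug {G : Type} [Group G] : MonoidAlgebra ℤ G →+* ℤ :=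
  (MonoidAlgebra.lift ℤ ℤ G (1 : G →* ℤ)).toRingHom

@[simp] theorem aug_of {G : Type} [Group G] (g : G) : aug (of ℤ G g) = 1 := by
  simp [aug]

/-- The additive extension of a function on the group to the group ring. -/
noncomputable def extZ {G : Type} [Group G] {M : Type*} [AddCommGroup M] (F : G → M) :
    MonoidAlgebra ℤ G →+ M where
  toFun r := r.coeff.sum (fun g n => n • F g)
  map_zero' := by simp
  map_add' x y := by
    rw [coeff_add, Finsupp.sum_add_index']
    · intro g; simp
    · intro g m n; rw [add_smul]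

@[simp] theorem extZ_of {G : Type} [Group G] {M : Type*} [AddCommGroup M] (F : G → M) (g : G) :
    extZ F (of ℤ G g) = F g := by
  change (of ℤ G g).coeff.sum (fun g n => n • F g) = F g
  simp [of_apply]

section
variable {G : Type} [Group G] (H : Subgroup G)

/-- The inclusion of group rings `ZH → ZG`. -/
noncomputable def inc : MonoidAlgebra ℤ H →+* MonoidAlgebra ℤ G :=
  MonoidAlgebra.mapDomainRingHom ℤ H.subtype

@[simp] theorem inc_of (h : H) : inc H (of ℤ H h) = of ℤ G (h : G) := by
  simp [inc, of_apply]

theorem inc_injective : Function.Injective (inc H) := by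
  have : Function.Injective (MonoidAlgebra.mapDomain (R := ℤ) (H.subtype : H → G)) :=
    mapDomain_injective H.subtype_injective
  exact this

/-- The restriction `ZG → ZH` (forget the coefficients outside `H`). -/
noncomputable def resH : MonoidAlgebra ℤ G →+ MonoidAlgebra ℤ H :=
  comapDomainAddMonoidHom (H.subtype : H → G) H.subtype_injective

theorem resH_of_mem {g : G} (hg : g ∈ H) : resH H (of ℤ G g) = of ℤ H ⟨g, hg⟩ :=
  comapDomain_single_map (H.subtype : H → G) H.subtype_injective ⟨g, hg⟩ 1

theorem resH_of_not_mem {g : G} (hg : g ∉ H) : resH H (of ℤ G g) = 0 := by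
  have : g ∉ Set.range (H.subtype : H → G) := by
    rintro ⟨h, rfl⟩
    exact hg h.2
  exact comapDomain_single_of_not_mem_range this H.subtype_injective

theorem coeff_resH (r : MonoidAlgebra ℤ G) (h : H) : (resH H r).coeff h = r.coeff (h : G) := by
  rfl

@[simp] theorem resH_inc (a : MonoidAlgebra ℤ H) : resH H (inc H a) = a := by
  refine zg_hom_ext (F := (resH H).comp (inc H).toAddMonoidHom) (F' := AddMonoidHom.id _) ?_ a
  intro h
  change resH H (inc H (of ℤ H h)) = of ℤ H h
  rw [inc_of, resH_of_mem H h.2]

theorem resH_inc_mul (a : MonoidAlgebra ℤ H) (r : MonoidAlgebra ℤ G) :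
    resH H (inc H a * r) = a * resH H r := by
  induction a using zg_induction with
  | h0 => simp
  | hadd x y hx hy => rw [map_add, add_mul, map_add, hx, hy, add_mul]
  | hneg x hx => rw [map_neg, neg_mul, map_neg, hx, neg_mul]
  | hof h =>
    induction r using zg_induction with
    | h0 => simp
    | hadd x y hx hy => rw [mul_add, map_add, hx, hy, map_add, mul_add]
    | hneg x hx => rw [mul_neg, map_neg, hx, map_neg, mul_neg]
    | hof g =>
      rw [inc_of, ← map_mul]
      by_cases hg : g ∈ H
      · rw [resH_of_mem H hg, resH_of_mem H (H.mul_mem h.2 hg), ← map_mul]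
        rfl
      · rw [resH_of_not_mem H hg, mul_zero, resH_of_not_mem]
        intro h'
        exact hg ((H.mul_mem_cancel_left h.2).1 h')

theorem resH_mul_inc (r : MonoidAlgebra ℤ G) (a : MonoidAlgebra ℤ H) :
    resH H (r * inc H a) = resH H r * a := by
  induction a using zg_induction with
  | h0 => simp
  | hadd x y hx hy => rw [map_add, mul_add, map_add, hx, hy, mul_add]
  | hneg x hx => rw [map_neg, mul_neg, map_neg, hx, mul_neg]
  | hof h =>
    induction r using zg_induction with
    | h0 => simp
    | hadd x y hx hy => rw [add_mul, map_add, hx, hy, map_add, add_mul]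
    | hneg x hx => rw [neg_mul, map_neg, hx, map_neg, neg_mul]
    | hof g =>
      rw [inc_of, ← map_mul]
      by_cases hg : g ∈ H
      · rw [resH_of_mem H hg, resH_of_mem H (H.mul_mem hg h.2), ← map_mul]
        rfl
      · rw [resH_of_not_mem H hg, zero_mul, resH_of_not_mem]
        intro h'
        exact hg ((H.mul_mem_cancel_right h.2).1 h')

/-- A representative of the right coset `H g` (it depends on `g` only through `H g`). -/
noncomputable def tr (g : G) : G :=
  (Quotient.out (Quotient.mk (QuotientGroup.rightRel H) g) : G)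

theorem tr_mem (g : G) : g * (tr H g)⁻¹ ∈ H := by
  have h : (Quotient.mk (QuotientGroup.rightRel H) (tr H g)) =
      Quotient.mk (QuotientGroup.rightRel H) g := Quotient.out_eq _
  exact QuotientGroup.rightRel_apply.1 (Quotient.exact h)

theorem tr_mul {h : G} (hh : h ∈ H) (g : G) : tr H (h * g) = tr H g := by
  unfold tr
  congr 1
  apply Quotient.sound
  change QuotientGroup.rightRel H (h * g) g
  rw [QuotientGroup.rightRel_apply]
  have : g * (h * g)⁻¹ = h⁻¹ := by group
  rw [this]
  exact H.inv_mem hh

theorem tr_eq_iff (g g' : G) : tr H g = tr H g' ↔ g * g'⁻¹ ∈ H := by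
  constructor
  · intro h
    have h1 := tr_mem H g
    have h2 := tr_mem H g'
    rw [← h] at h2
    have := H.mul_mem h1 (H.inv_mem h2)
    have e : g * (tr H g)⁻¹ * (g' * (tr H g)⁻¹)⁻¹ = g * g'⁻¹ := by group
    rwa [e] at this
  · intro h
    have := tr_mul H h g'
    rwa [inv_mul_cancel_right] at this

theorem tr_tr (g : G) : tr H (tr H g) = tr H g := by
  rw [tr_eq_iff]
  have := H.inv_mem (tr_mem H g)
  simpa using this

/-- Expansion of an `H`-linear map on `ZG` along coset representatives. -/
theorem expand {M : Type*} [AddCommGroup M] [Module (MonoidAlgebra ℤ H) M]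
    (Λ : MonoidAlgebra ℤ G →+ M) (hΛ : ∀ (a : MonoidAlgebra ℤ H) r, Λ (inc H a * r) = a • Λ r)
    (r : MonoidAlgebra ℤ G) (Y : Finset G) (hY : ∀ y ∈ Y, tr H y = y)
    (hr : ∀ g, r.coeff g ≠ 0 → tr H g ∈ Y) :
    Λ r = ∑ y ∈ Y, resH H (r * of ℤ G y⁻¹) • Λ (of ℤ G y) := by
  classical
  have hr' : r = r.coeff.sum (fun g n => n • of ℤ G g) := by
    conv_lhs => rw [← sum_coeff_single r]
    refine Finsupp.sum_congr ?_
    intro g _
    rw [of_apply, smul_single]
    simp
  have key : ∀ g, tr H g ∈ Y →
      Λ (of ℤ G g) = ∑ y ∈ Y, resH H (of ℤ G g * of ℤ G y⁻¹) • Λ (of ℤ G y) := by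
    intro g hg
    rw [Finset.sum_eq_single (tr H g)]
    · have h1 := tr_mem H g
      rw [← map_mul, resH_of_mem H h1, ← hΛ, inc_of, ← map_mul]
      simp
    · intro y hy hne
      rw [← map_mul, resH_of_not_mem, zero_smul]
      intro h
      apply hne
      rw [← hY y hy]
      exact ((tr_eq_iff H g y).2 h).symm
    · intro h
      exact absurd hg h
  have hl : Λ r = r.coeff.sum (fun g n => n • Λ (of ℤ G g)) := by
    conv_lhs => rw [hr']
    rw [Finsupp.sum, map_sum]
    refine Finset.sum_congr rfl ?_
    intro g _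
    rw [map_zsmul]
  rw [hl]
  have e : ∀ y ∈ Y, resH H (r * of ℤ G y⁻¹) • Λ (of ℤ G y) =
      r.coeff.sum (fun g n => n • (resH H (of ℤ G g * of ℤ G y⁻¹) • Λ (of ℤ G y))) := by
    intro y _
    conv_lhs => rw [hr']
    rw [Finsupp.sum, Finset.sum_mul, map_sum, Finset.sum_smul, Finsupp.sum]
    refine Finset.sum_congr rfl ?_
    intro g _
    rw [smul_mul_assoc, map_zsmul, smul_assoc]
  rw [Finset.sum_congr rfl e, Finsupp.sum]
  simp only [Finsupp.sum]
  rw [Finset.sum_comm]
  refine Finset.sum_congr rfl ?_
  intro g hg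
  rw [key g (hr g (Finsupp.mem_support_iff.1 hg)), Finset.smul_sum]

/-- The function `g ↦ ∑ a, d_a f(res_H(μ(q_a) g⁻¹))`, i.e. the image of `∑ d_a ⊗ q_a` under `1 ⊗ μ`,
seen as a function `G → D`. -/
noncomputable def zeta {D : Type} [DivisionRing D] (f : MonoidAlgebra ℤ G →+* D)
    {M : Type} [AddCommGroup M] [Module (MonoidAlgebra ℤ G) M]
    {I : Type} [Fintype I] (d : I → D) (q : I → M)
    (μ : M →ₗ[MonoidAlgebra ℤ G] MonoidAlgebra ℤ G) (g : G) : D :=
  ∑ a, d a * f (inc H (resH H (μ (q a) * of ℤ G g⁻¹)))

end

end Pool.Agent.PDC
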