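import Mathlib
import Pool.Agent.PDC.Basic

set_option autoImplicit false

/-!
# PDC-AugI: the augmentation ideal is generated by the x_j - 1

PLAN.  First: for k in K (= closure of the x_j) the element of k - 1 is in the range of `bd x`
(a left ideal = submodule `LinearMap.range (bd x)`): `Subgroup.closure_induction`:
 x_j: bd x (Pi.single j 1); k k' - 1 = of k * (of k' - 1) + (of k - 1); k⁻¹ - 1 = - of k⁻¹ * (of k - 1).
For a with aug a = 0: a = ∑_g a(g) (of g - 1) + (aug a) • 1; e.g. prove by `zg_induction` that
for every a, a - (aug a) • 1 is in the range.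
-/

namespace Pool.Agent.PDC

open MonoidAlgebra

theorem bd_aug {K : Type} [Group K] {n : ℕ} (x : Fin n → K) (p : Fin n → MonoidAlgebra ℤ K) :
    aug (bd x p) = 0 := by
  rw [bd_apply, map_sum]
  refine Finset.sum_eq_zero ?_
  intro j _
  rw [map_mul, map_sub, aug_of, map_one, sub_self, mul_zero]

private theorem of_sub_one_mem_range {K : Type} [Group K] {n : ℕ} (x : Fin n → K) (k : K)
    (hk : k ∈ Subgroup.closure (Set.range x)) :
    of ℤ K k - 1 ∈ LinearMap.range (bd x) := by
  induction hk using Subgroup.closure_induction with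
  | mem y hy =>
    obtain ⟨j, rfl⟩ := hy
    refine ⟨Pi.single j 1, ?_⟩
    rw [bd_apply, Finset.sum_eq_single j]
    · rw [Pi.single_eq_same, one_mul]
    · intro i _ hi
      rw [Pi.single_eq_of_ne hi, zero_mul]
    · intro hj
      exact absurd (Finset.mem_univ j) hj
  | one =>
    rw [map_one, sub_self]
    exact Submodule.zero_mem _
  | mul y z _ _ hy hz =>
    have e : of ℤ K (y * z) - 1 = of ℤ K y • (of ℤ K z - 1) + (of ℤ K y - 1) := by
      rw [map_mul, smul_eq_mul, mul_sub, mul_one]
      abel
    rw [e]
    exact Submodule.add_mem _ (Submodule.smul_mem _ _ hz) hy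
  | inv y _ hy =>
    have e : of ℤ K y⁻¹ - 1 = -(of ℤ K y⁻¹ • (of ℤ K y - 1)) := by
      rw [smul_eq_mul, mul_sub, mul_one, ← map_mul, inv_mul_cancel, map_one]
      abel
    rw [e]
    exact Submodule.neg_mem _ (Submodule.smul_mem _ _ hy)

theorem aug_exact {K : Type} [Group K] {n : ℕ} (x : Fin n → K)
    (hx : Subgroup.closure (Set.range x) = ⊤) (a : MonoidAlgebra ℤ K) (ha : aug a = 0) :
    ∃ p, bd x p = a := by
  have key : ∀ b : MonoidAlgebra ℤ K, b - aug b • 1 ∈ LinearMap.range (bd x) := by
    intro b
    induction b using zg_induction with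
    | h0 =>
      rw [map_zero, zero_smul, sub_zero]
      exact Submodule.zero_mem _
    | hadd b c hb hc =>
      have e : b + c - aug (b + c) • (1 : MonoidAlgebra ℤ K) =
          (b - aug b • 1) + (c - aug c • 1) := by
        rw [map_add, add_smul]
        abel
      rw [e]
      exact Submodule.add_mem _ hb hc
    | hneg b hb =>
      have e : -b - aug (-b) • (1 : MonoidAlgebra ℤ K) = -(b - aug b • 1) := by
        rw [map_neg, neg_smul]
        abel
      rw [e]
      exact Submodule.neg_mem _ hb
    | hof g =>
      rw [aug_of, one_smul]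
      exact of_sub_one_mem_range x g (by rw [hx]; exact Subgroup.mem_top g)
  have h := key a
  rw [ha, zero_smul, sub_zero] at h
  exact h

end Pool.Agent.PDC
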