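import Mathlib
import Pool.Agent.PDC.Basic

set_option autoImplicit false

/-!
# PDC part B: definitions (walks in multigraphs, words, edge ideals, graph data)
-/

namespace Pool.Agent.PDC

open MonoidAlgebra

/-! ### Walks in an oriented multigraph with vertices `W`, edges `Ed`, end points `sr`, `tg` -/

section
variable {W Ed : Type} (sr tg : Ed → W)

/-- A dart is an oriented edge: `(e, true)` runs from `sr e` to `tg e`, `(e, false)` backwards. -/
def dsrc (d : Ed × Bool) : W := if d.2 then sr d.1 else tg d.1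

/-- The end of a dart. -/
def dtgt (d : Ed × Bool) : W := if d.2 then tg d.1 else sr d.1

/-- `IsW v L w`: the list of darts `L` is a walk from `v` to `w`. -/
def IsW : W → List (Ed × Bool) → W → Prop
  | v, [], w => v = w
  | v, d :: L, w => dsrc sr tg d = v ∧ IsW (dtgt sr tg d) L w

end

/-- The chain of a list of darts. -/
noncomputable def chn {Ed : Type} : List (Ed × Bool) → (Ed →₀ ℤ)
  | [] => 0
  | d :: L => Finsupp.single d.1 (if d.2 then 1 else -1) + chn L

/-! ### Words -/

section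
variable {F K R E : Type} [Group F] [Group K]

/-- start type of the edge letter `(e, s)` -/
def sE (o t : E → R) (e : E) (s : Bool) : R := if s then o e else t e

/-- end type of the edge letter `(e, s)` -/
def tE (o t : E → R) (e : E) (s : Bool) : R := if s then t e else o e

/-- `g` or its inverse -/
def sg (g : F) (s : Bool) : F := if s then g else g⁻¹

/-- value of a word `c₁ τ_{e₁}^{±} c₂ τ_{e₂}^{±} … b` -/
def val (τ : E → F) : List (F × E × Bool) → F → F
  | [], b => b
  | c :: l, b => c.1 * sg (τ c.2.1) c.2.2 * val τ l b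

/-- validity of a word from the type `x` to the type `y` over the subgroups `B` -/
def Valid (o t : E → R) (B : R → Subgroup F) : R → List (F × E × Bool) → F → R → Prop
  | x, [], b, y => x = y ∧ b ∈ B x
  | x, c :: l, b, y => sE o t c.2.1 c.2.2 = x ∧ c.1 ∈ B x ∧ Valid o t B (tE o t c.2.1 c.2.2) l b y

/-- the darts (in the graph with edges `Σ e, K ⧸ C e`) of a word read from the position `k` -/
def darts (π : F →* K) (τ : E → F) (C : E → Subgroup K) :
    K → List (F × E × Bool) → List ((Σ e : E, K ⧸ C e) × Bool)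
  | _, [] => []
  | k, c :: l =>
    (⟨c.2.1, (if c.2.2 then ((k * π c.1 : K) : K ⧸ C c.2.1)
        else ((k * π c.1 * (π (τ c.2.1))⁻¹ : K) : K ⧸ C c.2.1))⟩, c.2.2) ::
      darts π τ C (k * π c.1 * sg (π (τ c.2.1)) c.2.2) l

end

/-! ### The left ideals `J C` (kernel of `ZK → Z[K/C]`) -/

/-- The push-forward `ZK → Z[K/C]`. -/
noncomputable def psh {K : Type} [Group K] (C : Subgroup K) :
    MonoidAlgebra ℤ K →+ ((K ⧸ C) →₀ ℤ) :=
  extZ (fun k => Finsupp.single ((k : K) : K ⧸ C) (1 : ℤ))

/-! ### Graph data -/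

open scoped Classical in
/-- Graph data over a group `K`: finitely many vertex types `R`, edge types `E`, letters `Y`; the map
`π : FreeGroup Y → K`, for every vertex type a finite set of elements `A x`, for every edge type
an element `τ e` (a letter, or `1` for the edges of a maximal tree), and derivations `D e`. -/
structure GD (K : Type) [Group K] where
  R : Type
  E : Type
  Y : Type
  fR : Finite R
  fE : Finite E
  fY : Finite Y
  o : E → R
  t : E → R
  r0 : R
  π : FreeGroup Y →* K
  πsurj : Function.Surjective π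
  A : R → Set (FreeGroup Y)
  fA : ∀ x, (A x).Finite
  τ : E → FreeGroup Y
  n : R → E → ℤ
  n0 : ∀ e, n r0 e = 0
  D : E → FreeGroup Y → MonoidAlgebra ℤ K
  Dmul : ∀ e u v, D e (u * v) = D e u + of ℤ K (π u) * D e v
  DA : ∀ e x, ∀ a ∈ A x, D e a = n x e • (1 - of ℤ K (π a))
  Dτ : ∀ e e', D e (τ e') =
    n (o e') e • 1 + (if e = e' then 1 else 0) - n (t e') e • of ℤ K (π (τ e'))
  words : ∀ u : FreeGroup Y, ∃ l b,
    Valid o t (fun x => Subgroup.closure (A x)) r0 l b r0 ∧ val τ l b = u

attribute [instance] GD.fR GD.fE GD.fY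

/-- The relation of graph data `X` over `K` to an action of `K` on the graph `T`. -/
structure TA {K : Type} [Group K] (X : GD K) (V : Type) (T : SimpleGraph V) [MulAction K V] where
  xr : X.R → V
  stabA : ∀ x, ∀ a ∈ X.A x, X.π a • xr x = xr x
  adj : ∀ e, T.Adj (xr (X.o e)) (X.π (X.τ e) • xr (X.t e))
  ineq : ∀ (k : K) e e', k • xr (X.o e) = xr (X.o e') →
    k • X.π (X.τ e) • xr (X.t e) = X.π (X.τ e') • xr (X.t e') → e = e'
  noinv : ∀ (k : K) e e', k • xr (X.o e) = X.π (X.τ e') • xr (X.t e') →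
    k • X.π (X.τ e) • xr (X.t e) ≠ xr (X.o e')

/-- The stabiliser of the oriented edge `(xr (o e), π(τ e) • xr (t e))`. -/
def KE {K : Type} [Group K] {X : GD K} {V : Type} {T : SimpleGraph V} [MulAction K V]
    (Z : TA X V T) (e : X.E) : Subgroup K :=
  MulAction.stabilizer K (Z.xr (X.o e)) ⊓ MulAction.stabilizer K (X.π (X.τ e) • Z.xr (X.t e))

/-- The smallest family of subsets of `F` containing the letters `A x`, closed under the group
operations and under transport along the edges (for elements of the edge stabilisers). -/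
inductive BT {K : Type} [Group K] {X : GD K} {V : Type} {T : SimpleGraph V} [MulAction K V]
    (Z : TA X V T) : X.R → FreeGroup X.Y → Prop
  | letter (x : X.R) (a : FreeGroup X.Y) (ha : a ∈ X.A x) : BT Z x a
  | one (x : X.R) : BT Z x 1
  | mul (x : X.R) (a b : FreeGroup X.Y) (ha : BT Z x a) (hb : BT Z x b) : BT Z x (a * b)
  | inv (x : X.R) (a : FreeGroup X.Y) (ha : BT Z x a) : BT Z x a⁻¹
  | up (e : X.E) (c : FreeGroup X.Y) (hc : BT Z (X.t e) c)
      (h : X.π (X.τ e * c * (X.τ e)⁻¹) ∈ KE Z e) : BT Z (X.o e) (X.τ e * c * (X.τ e)⁻¹)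
  | dn (e : X.E) (c : FreeGroup X.Y) (hc : BT Z (X.o e) c)
      (h : X.π c ∈ KE Z e) : BT Z (X.t e) ((X.τ e)⁻¹ * c * X.τ e)

/-- Edge group (in `K`) of a finite stage `Ψ`. -/
def CP {K : Type} [Group K] (X : GD K) (Ψ : X.E → Finset (FreeGroup X.Y)) (e : X.E) : Subgroup K :=
  Subgroup.closure (X.π '' (Ψ e : Set (FreeGroup X.Y)))

/-- Vertex group (in `F`) of a finite stage `Ψ`. -/
def BP {K : Type} [Group K] (X : GD K) (Ψ : X.E → Finset (FreeGroup X.Y)) (x : X.R) :
    Subgroup (FreeGroup X.Y) :=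
  Subgroup.closure (X.A x ∪ {u | ∃ e, X.o e = x ∧ u ∈ Ψ e} ∪
    {u | ∃ e, X.t e = x ∧ ∃ c ∈ Ψ e, u = (X.τ e)⁻¹ * c * X.τ e})

/-- Admissible finite stages. -/
def Adm {K : Type} [Group K] {X : GD K} {V : Type} {T : SimpleGraph V} [MulAction K V]
    (Z : TA X V T) (Ψ : X.E → Finset (FreeGroup X.Y)) : Prop :=
  (∀ e, ∀ c ∈ Ψ e, X.π c ∈ KE Z e) ∧
  ∀ e, ∀ c ∈ Ψ e, ∀ e', psh (CP X Ψ e') (X.D e' c - X.n (X.o e) e' • (1 - of ℤ K (X.π c))) = 0

end Pool.Agent.PDC
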