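import Mathlib
import Pool.Agent.PDC.BDefs

set_option autoImplicit false

/-!
# PDC-BPsh: the push-forward ZK → Z[K/C]
-/

namespace Pool.Agent.PDC

open MonoidAlgebra

section
variable {K : Type} [Group K] (C : Subgroup K)

theorem psh_of (k : K) : psh C (of ℤ K k) = Finsupp.single ((k : K) : K ⧸ C) (1 : ℤ) := by
  rw [psh, extZ_of]

theorem psh_of_mul_eq (k c : K) (hc : c ∈ C) : psh C (of ℤ K (k * c)) = psh C (of ℤ K k) := by
  rw [psh_of, psh_of]
  congr 1
  rw [QuotientGroup.eq]
  have : (k * c)⁻¹ * k = c⁻¹ := by group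
  rw [this]
  exact C.inv_mem hc

theorem psh_one_sub {c : K} (hc : c ∈ C) : psh C (1 - of ℤ K c) = 0 := by
  have h1 := psh_of_mul_eq C 1 c hc
  rw [one_mul, map_one] at h1
  rw [map_sub, h1, sub_self]

/-- left translation on the push-forward -/
theorem psh_of_mul (k : K) (z : MonoidAlgebra ℤ K) :
    psh C (of ℤ K k * z) = (psh C z).mapDomain (fun q => k • q) := by
  refine zg_hom_ext (F := (psh C).comp (AddMonoidHom.mulLeft (of ℤ K k)))
    (F' := (Finsupp.mapDomain.addMonoidHom (fun q : K ⧸ C => k • q)).comp (psh C)) ?_ z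
  intro g
  change psh C (of ℤ K k * of ℤ K g) = (psh C (of ℤ K g)).mapDomain (fun q => k • q)
  rw [← map_mul, psh_of, psh_of, Finsupp.mapDomain_single]
  rfl

theorem psh_mul_zero (a z : MonoidAlgebra ℤ K) (hz : psh C z = 0) : psh C (a * z) = 0 := by
  induction a using zg_induction with
  | h0 => simp
  | hadd x y hx hy => rw [add_mul, map_add, hx, hy, add_zero]
  | hneg x hx => rw [neg_mul, map_neg, hx, neg_zero]
  | hof k => rw [psh_of_mul, hz, Finsupp.mapDomain_zero]

theorem psh_mono {C' : Subgroup K} (h : C ≤ C') (z : MonoidAlgebra ℤ K) (hz : psh C z = 0) :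
    psh C' z = 0 := by
  have key : psh C' z = (psh C z).mapDomain
      (Quotient.lift (s := QuotientGroup.leftRel C) (fun k : K => ((k : K) : K ⧸ C')) (by
        intro a b hab
        rw [QuotientGroup.eq]
        exact h (QuotientGroup.leftRel_apply.1 hab))) := by
    refine zg_hom_ext (F := psh C') (F' := (Finsupp.mapDomain.addMonoidHom _).comp (psh C)) ?_ z
    intro g
    rw [AddMonoidHom.comp_apply, psh_of, psh_of]
    change _ = Finsupp.mapDomain _ _
    rw [Finsupp.mapDomain_single]
    rfl
  rw [key, hz, Finsupp.mapDomain_zero]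

/-- The left ideal of elements with zero push-forward. -/
noncomputable def JC : Submodule (MonoidAlgebra ℤ K) (MonoidAlgebra ℤ K) where
  carrier := {z | psh C z = 0}
  add_mem' := by
    intro a b ha hb
    change psh C (a + b) = 0
    rw [map_add, show psh C a = 0 from ha, show psh C b = 0 from hb, add_zero]
  zero_mem' := map_zero _
  smul_mem' := by
    intro c z hz
    exact psh_mul_zero C c z hz

theorem mem_JC {z : MonoidAlgebra ℤ K} : z ∈ JC C ↔ psh C z = 0 := Iff.rfl

end

end Pool.Agent.PDC
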