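import Mathlib
import Pool.Agent.PDC.BPsh

set_option autoImplicit false

/-!
# PDC-BAdmA: the derivations on the vertex groups of an admissible stage

PLAN adm_B: `Subgroup.closure_induction` over BP X Ψ x.  Write ≡ for equality modulo psh (CP X Ψ e') = 0, a left ideal
(`psh_mul_zero`, `mem_JC`).  n := X.n x e'.
 * one: D 1 = 0 (from Dmul 1 1).  mul: D(b b') - n(1 - πb πb') = (D b - n(1-πb)) + πb (D b' - n(1-πb')).
 * inv: D b⁻¹ = - πb⁻¹ D b, D b⁻¹ - n(1-πb⁻¹) = -πb⁻¹ (D b - n(1-πb)).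
 * a ∈ A x: difference is 0 by X.DA.  c ∈ Ψ e, o e = x: `Adm`.
 * b = τ⁻¹ c τ, t e = x, c ∈ Ψ e, g = π(τ e), γ = π c: D b = g⁻¹ ((γ - 1) D τ + D c), D τ = n_o + δ - n_t g (X.Dτ, δ = 1 iff e' = e),
   D c ≡ n_o (1 - γ): D b ≡ δ g⁻¹ (γ - 1) + n_t (1 - g⁻¹ γ g); for δ = 1 (e' = e) γ ∈ CP X Ψ e, so γ - 1 ≡ 0 (`psh_one_sub`).
PLAN adm_stab: closure induction; A: Z.stabA; c ∈ Ψ e: π c ∈ KE e fixes xr (o e); τ⁻¹ c τ: π c fixes π(τ e) • xr (t e).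
PLAN mono: CP, BP monotone in Ψ (`Subgroup.closure_mono`); Adm of the union Ψ ∪ Ψ' by `psh_mono`.
PLAN adm_up (c ∈ BP (t e), π(τ c τ⁻¹) ∈ KE e): Ψ' := Ψ with τ c τ⁻¹ added at e (Function.update; classical).
  For the new element c1 = τ c τ⁻¹, γ = π c1 ∈ CP X Ψ' e: D c1 = (1 - γ) D τ + g D c, D c ≡ n_t (1 - π c) (adm_B for Ψ, then psh_mono),
  g (1 - π c) = (1 - γ) g; D c1 ≡ n_o(1-γ) + δ(1-γ) ≡ n_o (1-γ).
PLAN adm_dn (c ∈ BP (o e), π c ∈ KE e): add c at e; D c ≡ n_o(1-π c) is adm_B.  Then τ⁻¹ c τ ∈ BP X Ψ' (t e).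
-/

namespace Pool.Agent.PDC

open MonoidAlgebra

section
variable {K : Type} [Group K] {X : GD K}

private theorem D_one (X : GD K) (e' : X.E) : X.D e' 1 = 0 := by
  have h := X.Dmul e' 1 1
  rw [mul_one, map_one, map_one, one_mul] at h
  exact left_eq_add.1 h

private theorem D_inv (X : GD K) (e' : X.E) (b : FreeGroup X.Y) :
    X.D e' b⁻¹ = -(of ℤ K (X.π b⁻¹) * X.D e' b) := by
  have h := X.Dmul e' b⁻¹ b
  rw [inv_mul_cancel, D_one] at h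
  exact eq_neg_of_add_eq_zero_left h.symm

private theorem of_inv_mul (X : GD K) (b : FreeGroup X.Y) :
    of ℤ K (X.π b⁻¹) * of ℤ K (X.π b) = 1 := by
  rw [← map_mul, ← map_mul, inv_mul_cancel, map_one, map_one]

private theorem of_mul_inv (X : GD K) (b : FreeGroup X.Y) :
    of ℤ K (X.π b) * of ℤ K (X.π b⁻¹) = 1 := by
  rw [← map_mul, ← map_mul, mul_inv_cancel, map_one, map_one]

private theorem q_mul (X : GD K) (e' : X.E) (n : ℤ) (b b' : FreeGroup X.Y) :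
    X.D e' (b * b') - n • (1 - of ℤ K (X.π (b * b'))) =
      (X.D e' b - n • (1 - of ℤ K (X.π b))) +
        of ℤ K (X.π b) * (X.D e' b' - n • (1 - of ℤ K (X.π b'))) := by
  rw [X.Dmul, map_mul, map_mul]
  simp only [mul_sub, smul_sub, mul_smul_comm, mul_one]
  abel

private theorem q_inv (X : GD K) (e' : X.E) (n : ℤ) (b : FreeGroup X.Y) :
    X.D e' b⁻¹ - n • (1 - of ℤ K (X.π b⁻¹)) =
      -(of ℤ K (X.π b⁻¹) * (X.D e' b - n • (1 - of ℤ K (X.π b)))) := by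
  rw [D_inv]
  simp only [mul_sub, smul_sub, mul_smul_comm, mul_one]
  rw [of_inv_mul]
  abel

private theorem conj_dn (X : GD K) (e' e : X.E) (c : FreeGroup X.Y) :
    ∃ δ : MonoidAlgebra ℤ K, (e' = e → δ = 1) ∧ (e' ≠ e → δ = 0) ∧
    X.D e' ((X.τ e)⁻¹ * c * X.τ e) -
        X.n (X.t e) e' • (1 - of ℤ K (X.π ((X.τ e)⁻¹ * c * X.τ e))) =
      of ℤ K (X.π (X.τ e)⁻¹) * (X.D e' c - X.n (X.o e) e' • (1 - of ℤ K (X.π c))) +
        of ℤ K (X.π (X.τ e)⁻¹) * ((of ℤ K (X.π c) - 1) * δ) := by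
  classical
  refine ⟨if e' = e then 1 else 0, fun h => if_pos h, fun h => if_neg h, ?_⟩
  rw [X.Dmul, X.Dmul, D_inv, X.Dτ]
  have h := of_inv_mul X (X.τ e)
  simp only [map_mul]
  simp only [mul_sub, sub_mul, smul_sub, mul_add, mul_smul_comm, mul_one, one_mul, h, mul_assoc]
  abel

private theorem conj_up (X : GD K) (e' e : X.E) (c : FreeGroup X.Y) :
    ∃ δ : MonoidAlgebra ℤ K, (e' = e → δ = 1) ∧ (e' ≠ e → δ = 0) ∧
    X.D e' (X.τ e * c * (X.τ e)⁻¹) -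
        X.n (X.o e) e' • (1 - of ℤ K (X.π (X.τ e * c * (X.τ e)⁻¹))) =
      (1 - of ℤ K (X.π (X.τ e * c * (X.τ e)⁻¹))) * δ +
        of ℤ K (X.π (X.τ e)) * (X.D e' c - X.n (X.t e) e' • (1 - of ℤ K (X.π c))) := by
  classical
  refine ⟨if e' = e then 1 else 0, fun h => if_pos h, fun h => if_neg h, ?_⟩
  rw [X.Dmul, X.Dmul, D_inv, X.Dτ]
  have h := of_inv_mul X (X.τ e)
  simp only [map_mul]
  simp only [mul_sub, sub_mul, smul_sub, mul_add, mul_smul_comm, mul_one, one_mul, h, mul_assoc,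
    mul_neg]
  abel

/-- add one element to a stage -/
private noncomputable def addS (Ψ : X.E → Finset (FreeGroup X.Y)) (e : X.E)
    (c : FreeGroup X.Y) : X.E → Finset (FreeGroup X.Y) := by
  classical
  exact fun f => if f = e then insert c (Ψ f) else Ψ f

private theorem mem_addS {Ψ : X.E → Finset (FreeGroup X.Y)} {e f : X.E}
    {c c' : FreeGroup X.Y} : c' ∈ addS Ψ e c f ↔ c' ∈ Ψ f ∨ (f = e ∧ c' = c) := by
  classical
  unfold addS
  by_cases h : f = e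
  · rw [if_pos h, Finset.mem_insert]
    constructor
    · rintro (h1 | h1)
      · exact Or.inr ⟨h, h1⟩
      · exact Or.inl h1
    · rintro (h1 | h1)
      · exact Or.inr h1
      · exact Or.inl h1.2
  · rw [if_neg h]
    constructor
    · intro h1
      exact Or.inl h1
    · rintro (h1 | h1)
      · exact h1
      · exact absurd h1.1 h

private theorem sub_addS (Ψ : X.E → Finset (FreeGroup X.Y)) (e : X.E) (c : FreeGroup X.Y)
    (f : X.E) : Ψ f ⊆ addS Ψ e c f := fun _ h => mem_addS.2 (Or.inl h)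

end

section
variable {K : Type} [Group K] {X : GD K} {V : Type} {T : SimpleGraph V} [MulAction K V]
  (Z : TA X V T)

theorem adm_B (Ψ : X.E → Finset (FreeGroup X.Y)) (h : Adm Z Ψ) (x : X.R) (b : FreeGroup X.Y)
    (hb : b ∈ BP X Ψ x) (e' : X.E) :
    psh (CP X Ψ e') (X.D e' b - X.n x e' • (1 - of ℤ K (X.π b))) = 0 := by
  unfold BP at hb
  induction hb using Subgroup.closure_induction with
  | mem b hb =>
    rcases hb with (hb | hb) | hb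
    · rw [X.DA e' x b hb, sub_self, map_zero]
    · obtain ⟨e, rfl, hc⟩ := hb
      exact h.2 e b hc e'
    · obtain ⟨e, rfl, c, hc, rfl⟩ := hb
      obtain ⟨δ, d1, d0, hδ⟩ := conj_dn X e' e c
      rw [hδ, map_add, psh_mul_zero _ _ _ (h.2 e c hc e'), zero_add]
      refine psh_mul_zero _ _ _ ?_
      by_cases he : e' = e
      · have hγ : X.π c ∈ CP X Ψ e' := by
          rw [he]
          exact Subgroup.subset_closure ⟨c, hc, rfl⟩
        have h1 := psh_one_sub (CP X Ψ e') hγ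
        rw [d1 he, mul_one, ← neg_sub, map_neg, h1, neg_zero]
      · rw [d0 he, mul_zero, map_zero]
  | one =>
    rw [D_one, map_one, map_one, sub_self, smul_zero, sub_zero, map_zero]
  | mul b b' _ _ h1 h2 =>
    rw [q_mul, map_add, h1, zero_add]
    exact psh_mul_zero _ _ _ h2
  | inv b _ h1 =>
    rw [q_inv, map_neg, psh_mul_zero _ _ _ h1, neg_zero]

theorem adm_stab (Ψ : X.E → Finset (FreeGroup X.Y)) (h : Adm Z Ψ) (x : X.R) (b : FreeGroup X.Y)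
    (hb : b ∈ BP X Ψ x) : X.π b • Z.xr x = Z.xr x := by
  unfold BP at hb
  induction hb using Subgroup.closure_induction with
  | mem b hb =>
    rcases hb with (hb | hb) | hb
    · exact Z.stabA x b hb
    · obtain ⟨e, rfl, hc⟩ := hb
      exact (h.1 e b hc).1
    · obtain ⟨e, rfl, c, hc, rfl⟩ := hb
      have h2 : X.π c • (X.π (X.τ e) • Z.xr (X.t e)) = X.π (X.τ e) • Z.xr (X.t e) :=
        (h.1 e c hc).2
      rw [map_mul, map_mul, mul_smul, mul_smul, h2, map_inv, inv_smul_smul]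
  | one => rw [map_one, one_smul]
  | mul b b' _ _ h1 h2 => rw [map_mul, mul_smul, h2, h1]
  | inv b _ h1 =>
    rw [map_inv, inv_smul_eq_iff, h1]

theorem CP_mono {Ψ Ψ' : X.E → Finset (FreeGroup X.Y)} (h : ∀ e, Ψ e ⊆ Ψ' e) (e : X.E) :
    CP X Ψ e ≤ CP X Ψ' e := by
  refine Subgroup.closure_mono (Set.image_mono ?_)
  intro c hc
  exact h e hc

theorem BP_mono {Ψ Ψ' : X.E → Finset (FreeGroup X.Y)} (h : ∀ e, Ψ e ⊆ Ψ' e) (x : X.R) :
    BP X Ψ x ≤ BP X Ψ' x := by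
  refine Subgroup.closure_mono ?_
  rintro u ((hu | hu) | hu)
  · exact Or.inl (Or.inl hu)
  · obtain ⟨e, he, hc⟩ := hu
    exact Or.inl (Or.inr ⟨e, he, h e hc⟩)
  · obtain ⟨e, he, c, hc, hu⟩ := hu
    exact Or.inr ⟨e, he, c, h e hc, hu⟩

theorem adm_sup (Ψ Ψ' : X.E → Finset (FreeGroup X.Y)) (h : Adm Z Ψ) (h' : Adm Z Ψ') :
    ∃ Ψ'' : X.E → Finset (FreeGroup X.Y), Adm Z Ψ'' ∧ (∀ e, Ψ e ⊆ Ψ'' e) ∧ ∀ e, Ψ' e ⊆ Ψ'' e := by
  classical
  have s1 : ∀ e, Ψ e ⊆ Ψ e ∪ Ψ' e := fun e => Finset.subset_union_left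
  have s2 : ∀ e, Ψ' e ⊆ Ψ e ∪ Ψ' e := fun e => Finset.subset_union_right
  refine ⟨fun e => Ψ e ∪ Ψ' e, ⟨?_, ?_⟩, s1, s2⟩
  · intro e c hc
    rcases Finset.mem_union.1 hc with hc | hc
    · exact h.1 e c hc
    · exact h'.1 e c hc
  · intro e c hc e'
    rcases Finset.mem_union.1 hc with hc | hc
    · exact psh_mono _ (CP_mono s1 e') _ (h.2 e c hc e')
    · exact psh_mono _ (CP_mono s2 e') _ (h'.2 e c hc e')

private theorem adm_add (Ψ : X.E → Finset (FreeGroup X.Y)) (h : Adm Z Ψ) (e : X.E)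
    (c : FreeGroup X.Y) (hk : X.π c ∈ KE Z e)
    (hD : ∀ e', psh (CP X (addS Ψ e c) e')
      (X.D e' c - X.n (X.o e) e' • (1 - of ℤ K (X.π c))) = 0) :
    Adm Z (addS Ψ e c) := by
  refine ⟨?_, ?_⟩
  · intro f c' hc'
    rcases mem_addS.1 hc' with h1 | ⟨rfl, rfl⟩
    · exact h.1 f c' h1
    · exact hk
  · intro f c' hc' e'
    rcases mem_addS.1 hc' with h1 | ⟨rfl, rfl⟩
    · exact psh_mono _ (CP_mono (sub_addS Ψ e c) e') _ (h.2 f c' h1 e')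
    · exact hD e'

theorem adm_up (Ψ : X.E → Finset (FreeGroup X.Y)) (h : Adm Z Ψ) (e : X.E) (c : FreeGroup X.Y)
    (hc : c ∈ BP X Ψ (X.t e)) (hk : X.π (X.τ e * c * (X.τ e)⁻¹) ∈ KE Z e) :
    ∃ Ψ' : X.E → Finset (FreeGroup X.Y), Adm Z Ψ' ∧ (∀ e, Ψ e ⊆ Ψ' e) ∧
      X.τ e * c * (X.τ e)⁻¹ ∈ BP X Ψ' (X.o e) := by
  have hmem : X.τ e * c * (X.τ e)⁻¹ ∈ addS Ψ e (X.τ e * c * (X.τ e)⁻¹) e :=
    mem_addS.2 (Or.inr ⟨rfl, rfl⟩)
  refine ⟨addS Ψ e (X.τ e * c * (X.τ e)⁻¹), adm_add Z Ψ h e _ hk ?_, sub_addS Ψ e _,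
    Subgroup.subset_closure (Or.inl (Or.inr ⟨e, rfl, hmem⟩))⟩
  intro e'
  obtain ⟨δ, d1, d0, hδ⟩ := conj_up X e' e c
  rw [hδ, map_add]
  have h2 := psh_mul_zero (CP X (addS Ψ e (X.τ e * c * (X.τ e)⁻¹)) e')
    (of ℤ K (X.π (X.τ e))) _
    (psh_mono _ (CP_mono (sub_addS Ψ e (X.τ e * c * (X.τ e)⁻¹)) e') _
      (adm_B Z Ψ h (X.t e) c hc e'))
  rw [h2, add_zero]
  by_cases he : e' = e
  · rw [d1 he, mul_one]
    refine psh_one_sub _ ?_
    rw [he]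
    exact Subgroup.subset_closure ⟨_, hmem, rfl⟩
  · rw [d0 he, mul_zero, map_zero]

theorem adm_dn (Ψ : X.E → Finset (FreeGroup X.Y)) (h : Adm Z Ψ) (e : X.E) (c : FreeGroup X.Y)
    (hc : c ∈ BP X Ψ (X.o e)) (hk : X.π c ∈ KE Z e) :
    ∃ Ψ' : X.E → Finset (FreeGroup X.Y), Adm Z Ψ' ∧ (∀ e, Ψ e ⊆ Ψ' e) ∧
      (X.τ e)⁻¹ * c * X.τ e ∈ BP X Ψ' (X.t e) := by
  have hmem : c ∈ addS Ψ e c e := mem_addS.2 (Or.inr ⟨rfl, rfl⟩)
  refine ⟨addS Ψ e c, adm_add Z Ψ h e c hk ?_, sub_addS Ψ e c,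
    Subgroup.subset_closure (Or.inr ⟨e, rfl, c, hmem, rfl⟩)⟩
  intro e'
  exact psh_mono _ (CP_mono (sub_addS Ψ e c) e') _ (adm_B Z Ψ h (X.o e) c hc e')

end

end Pool.Agent.PDC
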