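import Mathlib
import Pool.Agent.PDC.BAdmA

set_option autoImplicit false

/-!
# PDC-BAdmB: every finite set of elements of the closure BT lies in an admissible finite stage

PLAN adm_exists: induction on BT.  letter, one: Ψ = ∅ (fun _ => ∅) is admissible (vacuous), BP contains A x.
 mul: adm_sup + BP_mono.  inv: same Ψ.  up: adm_up.  dn: adm_dn.
adm_finset: Finset induction with adm_sup and BP_mono.
-/

namespace Pool.Agent.PDC

open MonoidAlgebra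

section
variable {K : Type} [Group K] {X : GD K} {V : Type} {T : SimpleGraph V} [MulAction K V]
  (Z : TA X V T)

theorem adm_exists (x : X.R) (u : FreeGroup X.Y) (h : BT Z x u) :
    ∃ Ψ : X.E → Finset (FreeGroup X.Y), Adm Z Ψ ∧ u ∈ BP X Ψ x := by
  induction h with
  | letter x a ha =>
    refine ⟨fun _ => ∅, ⟨fun e c hc => absurd hc (by simp), fun e c hc => absurd hc (by simp)⟩, ?_⟩
    exact Subgroup.subset_closure (Or.inl (Or.inl ha))
  | one x =>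
    exact ⟨fun _ => ∅, ⟨fun e c hc => absurd hc (by simp), fun e c hc => absurd hc (by simp)⟩,
      Subgroup.one_mem _⟩
  | mul x a b _ _ iha ihb =>
    obtain ⟨Ψ, h1, h2⟩ := iha
    obtain ⟨Ψ', h1', h2'⟩ := ihb
    obtain ⟨Ψ'', h3, h4, h5⟩ := adm_sup Z Ψ Ψ' h1 h1'
    exact ⟨Ψ'', h3, Subgroup.mul_mem _ (BP_mono h4 x h2) (BP_mono h5 x h2')⟩
  | inv x a _ iha =>
    obtain ⟨Ψ, h1, h2⟩ := iha
    exact ⟨Ψ, h1, Subgroup.inv_mem _ h2⟩
  | up e c _ hk ih =>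
    obtain ⟨Ψ, h1, h2⟩ := ih
    obtain ⟨Ψ', h3, _, h5⟩ := adm_up Z Ψ h1 e c h2 hk
    exact ⟨Ψ', h3, h5⟩
  | dn e c _ hk ih =>
    obtain ⟨Ψ, h1, h2⟩ := ih
    obtain ⟨Ψ', h3, _, h5⟩ := adm_dn Z Ψ h1 e c h2 hk
    exact ⟨Ψ', h3, h5⟩

theorem adm_finset (Rj : Finset (FreeGroup X.Y)) (h : ∀ u ∈ Rj, BT Z X.r0 u) :
    ∃ Ψ : X.E → Finset (FreeGroup X.Y), Adm Z Ψ ∧ ∀ u ∈ Rj, u ∈ BP X Ψ X.r0 := by
  classical
  induction Rj using Finset.induction_on with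
  | empty =>
    exact ⟨fun _ => ∅, ⟨fun e c hc => absurd hc (by simp), fun e c hc => absurd hc (by simp)⟩,
      fun u hu => absurd hu (by simp)⟩
  | insert a s _ ih =>
    obtain ⟨Ψ, h1, h2⟩ := ih fun u hu => h u (Finset.mem_insert_of_mem hu)
    obtain ⟨Ψ', h1', h2'⟩ := adm_exists Z X.r0 a (h a (Finset.mem_insert_self a s))
    obtain ⟨Ψ'', h3, h4, h5⟩ := adm_sup Z Ψ Ψ' h1 h1'
    refine ⟨Ψ'', h3, fun u hu => ?_⟩
    rcases Finset.mem_insert.1 hu with rfl | hu'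
    · exact BP_mono h5 _ h2'
    · exact BP_mono h4 _ (h2 u hu')

end

end Pool.Agent.PDC
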