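import Mathlib
import Pool.Agent.PDC.BDefs

set_option autoImplicit false

/-!
# PDC-BWalk: if closed walks have zero chain, then closed walks of positive length have a backtrack

PLAN.  Strong induction on the length of L.  L = d :: L'.  The coefficient of d.1 in chn L is 0, the first dart
contributes ±1 (sign given by d.2); if no dart of L' is (d.1, !d.2), all other darts on the edge d.1 contribute
the same sign: the coefficient would be ≠ 0 (small lemma: if (e, !s) ∉ L' then sgn(s) * (chn L' e) ≥ 0).  So
L' = a ++ (d.1, !d.2) :: b (`List.append_of_mem`).  IsW splits over ++ (lemma: IsW v (L1 ++ L2) w ↔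
∃ u, IsW v L1 u ∧ IsW u L2 w): a is a walk from dtgt d to dsrc (d.1, !d.2) = dtgt d, closed.
If a = [] we have the backtrack at the front; otherwise induction for a (shorter), giving a backtrack inside L.
-/

namespace Pool.Agent.PDC

theorem IsW_append {W Ed : Type} (sr tg : Ed → W) (v w : W) (L1 L2 : List (Ed × Bool)) :
    IsW sr tg v (L1 ++ L2) w ↔ ∃ u, IsW sr tg v L1 u ∧ IsW sr tg u L2 w := by
  induction L1 generalizing v with
  | nil =>
    constructor
    · intro h
      exact ⟨v, rfl, h⟩
    · rintro ⟨u, h1, h2⟩
      have h3 : v = u := h1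
      rw [h3]
      exact h2
  | cons d L ih =>
    constructor
    · rintro ⟨h1, h2⟩
      obtain ⟨u, h3, h4⟩ := (ih _).1 h2
      exact ⟨u, ⟨h1, h3⟩, h4⟩
    · rintro ⟨u, ⟨h1, h3⟩, h4⟩
      exact ⟨h1, (ih _).2 ⟨u, h3, h4⟩⟩

theorem chn_append {Ed : Type} (L1 L2 : List (Ed × Bool)) : chn (L1 ++ L2) = chn L1 + chn L2 := by
  induction L1 with
  | nil => simp [chn]
  | cons d L ih =>
    rw [List.cons_append]
    change Finsupp.single d.1 (if d.2 then (1 : ℤ) else -1) + chn (L ++ L2) =
      Finsupp.single d.1 (if d.2 then (1 : ℤ) else -1) + chn L + chn L2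
    rw [ih, add_assoc]

private theorem chn_sign {Ed : Type} (e : Ed) (s : Bool) (L : List (Ed × Bool))
    (h : (e, !s) ∉ L) : 0 ≤ (if s then (1 : ℤ) else -1) * chn L e := by
  classical
  induction L with
  | nil => simp [chn]
  | cons d L ih =>
    have h1 : (e, !s) ∉ L := fun h2 => h (List.mem_cons_of_mem _ h2)
    have h2 := ih h1
    have h3 : chn (d :: L) e = (Finsupp.single d.1 (if d.2 then (1 : ℤ) else -1)) e + chn L e := rfl
    rw [h3, mul_add]
    refine add_nonneg ?_ h2
    rw [Finsupp.single_apply]
    by_cases hd : d.1 = e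
    · have h4 : d.2 = s := by
        by_contra hne
        apply h
        have h5 : d.2 = !s := by
          cases hs : s <;> cases hd2 : d.2 <;> simp_all
        have h6 : d = (e, !s) := Prod.ext hd h5
        rw [← h6]
        exact List.mem_cons_self
      rw [if_pos hd, h4]
      cases s <;> simp
    · rw [if_neg hd, mul_zero]

private theorem backtrack_aux {W Ed : Type} (sr tg : Ed → W)
    (hZ : ∀ v L, IsW sr tg v L v → chn L = 0) (n : ℕ) : ∀ (v : W) (L : List (Ed × Bool)),
    L.length ≤ n → IsW sr tg v L v → L ≠ [] →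
    ∃ (L1 : List (Ed × Bool)) (d : Ed × Bool) (L2 : List (Ed × Bool)),
      L = L1 ++ d :: (d.1, !d.2) :: L2 := by
  induction n with
  | zero =>
    intro v L hn _ hne
    exact absurd (List.length_eq_zero_iff.1 (Nat.le_zero.1 hn)) hne
  | succ n ih =>
    intro v L hn hL hne
    cases L with
    | nil => exact absurd rfl hne
    | cons d L' =>
      have hmem : (d.1, !d.2) ∈ L' := by
        by_contra hcon
        have h1 := chn_sign d.1 d.2 L' hcon
        have h2 : chn (d :: L') d.1 = 0 := by rw [hZ v _ hL]; rfl
        have h3 : chn (d :: L') d.1 =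
            (Finsupp.single d.1 (if d.2 then (1 : ℤ) else -1)) d.1 + chn L' d.1 := rfl
        rw [h3, Finsupp.single_eq_same] at h2
        cases hd : d.2 with
        | true =>
          rw [hd] at h1 h2
          simp at h1 h2
          omega
        | false =>
          rw [hd] at h1 h2
          simp at h1 h2
          omega
      obtain ⟨a, b, hab⟩ := List.append_of_mem hmem
      obtain ⟨h1, h2⟩ := hL
      rw [hab] at h2
      obtain ⟨u, h3, h4⟩ := (IsW_append sr tg _ _ a _).1 h2
      have h5 : dsrc sr tg (d.1, !d.2) = dtgt sr tg d := by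
        unfold dsrc dtgt
        cases d.2 <;> simp
      have h6 : u = dtgt sr tg d := by
        rw [← h5]
        exact h4.1.symm
      rw [h6] at h3
      by_cases ha : a = []
      · refine ⟨[], d, b, ?_⟩
        rw [hab, ha]
        rfl
      · have hlen : a.length ≤ n := by
          have : (d :: L').length ≤ n + 1 := hn
          rw [hab] at this
          simp at this
          omega
        obtain ⟨a1, d', a2, ha'⟩ := ih _ a hlen h3 ha
        refine ⟨d :: a1, d', a2 ++ (d.1, !d.2) :: b, ?_⟩
        rw [hab, ha']
        simp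

theorem backtrack {W Ed : Type} (sr tg : Ed → W)
    (hZ : ∀ v L, IsW sr tg v L v → chn L = 0) (v : W) (L : List (Ed × Bool))
    (hL : IsW sr tg v L v) (hne : L ≠ []) :
    ∃ (L1 : List (Ed × Bool)) (d : Ed × Bool) (L2 : List (Ed × Bool)),
      L = L1 ++ d :: (d.1, !d.2) :: L2 :=
  backtrack_aux sr tg hZ L.length v L le_rfl hL hne

end Pool.Agent.PDC
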