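import Mathlib
import Pool.Agent.PDC.BWalk

set_option autoImplicit false

/-!
# PDC-BWords: elementary facts on words, and darts of a valid word form a walk

PLAN.  All by induction on the list l (generalizing the position k and the type x); `sg`, `sE`, `tE` by cases on the Bool.
For `isW_darts`: dsrc of the first dart: s = true: sr ⟨e, k π(c)⟩ = vtx (k π c) (o e) = vtx k x (hv, c ∈ B x, x = o e);
 s = false: tg ⟨e, k π(c) g⁻¹⟩ = vtx (k π c g⁻¹ g) (t e) = vtx (k π c) x = vtx k x.  End of the dart:
 s = true: tg ⟨e, k π c⟩ = vtx (k π c g) (t e), the new position; s = false: sr ⟨e, k π c g⁻¹⟩ = vtx (k π c g⁻¹) (o e).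
`darts_split`: if darts k l = L1 ++ d :: d' :: L2 then l = l1 ++ c :: c' :: l2 with the positions computed.
-/

namespace Pool.Agent.PDC

section
variable {F K R E W : Type} [Group F] [Group K] (π : F →* K) (o t : E → R) (τ : E → F)
  (B : R → Subgroup F) (C : E → Subgroup K)

private theorem map_sg (g : F) (s : Bool) : π (sg g s) = sg (π g) s := by
  cases s <;> simp [sg]

theorem val_append (l1 l2 : List (F × E × Bool)) (b : F) :
    val τ (l1 ++ l2) b = val τ l1 1 * val τ l2 b := by
  induction l1 with
  | nil => simp [val]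
  | cons c l ih =>
    simp only [List.cons_append, val, ih, mul_assoc]

theorem valid_append (x y : R) (l1 l2 : List (F × E × Bool)) (b : F) :
    Valid o t B x (l1 ++ l2) b y ↔ ∃ z, Valid o t B x l1 1 z ∧ Valid o t B z l2 b y := by
  induction l1 generalizing x with
  | nil =>
    simp only [List.nil_append, Valid]
    constructor
    · intro h
      exact ⟨x, ⟨rfl, one_mem _⟩, h⟩
    · rintro ⟨z, ⟨rfl, -⟩, h⟩
      exact h
  | cons c l ih =>
    simp only [List.cons_append, Valid, ih]
    constructor
    · rintro ⟨h1, h2, z, h3, h4⟩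
      exact ⟨z, ⟨h1, h2, h3⟩, h4⟩
    · rintro ⟨z, ⟨h1, h2, h3⟩, h4⟩
      exact ⟨h1, h2, z, h3, h4⟩

theorem darts_append (k : K) (l1 l2 : List (F × E × Bool)) :
    darts π τ C k (l1 ++ l2) = darts π τ C k l1 ++ darts π τ C (k * π (val τ l1 1)) l2 := by
  induction l1 generalizing k with
  | nil => simp [val, darts]
  | cons c l ih =>
    simp only [List.cons_append, darts, ih, val, map_mul, map_sg, mul_assoc]

theorem length_darts (k : K) (l : List (F × E × Bool)) : (darts π τ C k l).length = l.length := by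
  induction l generalizing k with
  | nil => rfl
  | cons c l ih =>
    simp only [darts, List.length_cons, ih]

theorem isW_darts (vtx : K → R → W) (hv : ∀ k x, ∀ b ∈ B x, vtx (k * π b) x = vtx k x)
    (sr tg : (Σ e : E, K ⧸ C e) → W)
    (hs : ∀ e (k : K), sr ⟨e, (k : K ⧸ C e)⟩ = vtx k (o e))
    (ht : ∀ e (k : K), tg ⟨e, (k : K ⧸ C e)⟩ = vtx (k * π (τ e)) (t e))
    (k : K) (x y : R) (l : List (F × E × Bool)) (b : F) (h : Valid o t B x l b y) :
    IsW sr tg (vtx k x) (darts π τ C k l) (vtx (k * π (val τ l b)) y) := by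
  induction l generalizing k x with
  | nil =>
    obtain ⟨rfl, hb⟩ := h
    simp only [darts, IsW, val]
    exact (hv k x b hb).symm
  | cons c l ih =>
    obtain ⟨c, e, s⟩ := c
    obtain ⟨rfl, hc, h3⟩ := h
    have ih' := ih (k * π c * sg (π (τ e)) s) _ h3
    have e2 : k * π c * sg (π (τ e)) s * π (val τ l b) = k * π (val τ ((c, e, s) :: l) b) := by
      simp only [val, map_mul, map_sg, mul_assoc]
    rw [e2] at ih'
    refine ⟨?_, ?_⟩
    · cases s
      · simp only [dsrc, sE, Bool.false_eq_true, if_false] at hc ⊢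
        rw [ht, inv_mul_cancel_right]
        exact hv k _ c hc
      · simp only [dsrc, sE, if_true] at hc ⊢
        rw [hs]
        exact hv k _ c hc
    · have e1 : dtgt sr tg ((⟨e, (if s then ((k * π c : K) : K ⧸ C e)
          else ((k * π c * (π (τ e))⁻¹ : K) : K ⧸ C e))⟩, s) : (Σ e : E, K ⧸ C e) × Bool) =
          vtx (k * π c * sg (π (τ e)) s) (tE o t e s) := by
        cases s
        · simp only [dtgt, tE, sg, Bool.false_eq_true, if_false]
          rw [hs]
        · simp only [dtgt, tE, sg, if_true]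
          rw [ht]
      simp only [darts]
      rw [e1]
      exact ih'

/-- Splitting the word according to a splitting of its darts. -/
theorem darts_split (k : K) (l : List (F × E × Bool)) (L1 : List ((Σ e : E, K ⧸ C e) × Bool))
    (d d' : (Σ e : E, K ⧸ C e) × Bool) (L2 : List ((Σ e : E, K ⧸ C e) × Bool))
    (h : darts π τ C k l = L1 ++ d :: d' :: L2) :
    ∃ (l1 : List (F × E × Bool)) (c c' : F × E × Bool) (l2 : List (F × E × Bool)),
      l = l1 ++ c :: c' :: l2 ∧
      d = (⟨c.2.1, (if c.2.2 then ((k * π (val τ l1 1) * π c.1 : K) : K ⧸ C c.2.1)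
        else ((k * π (val τ l1 1) * π c.1 * (π (τ c.2.1))⁻¹ : K) : K ⧸ C c.2.1))⟩, c.2.2) ∧
      d' = (⟨c'.2.1, (if c'.2.2 then
          ((k * π (val τ l1 1) * π c.1 * sg (π (τ c.2.1)) c.2.2 * π c'.1 : K) : K ⧸ C c'.2.1)
        else ((k * π (val τ l1 1) * π c.1 * sg (π (τ c.2.1)) c.2.2 * π c'.1 *
          (π (τ c'.2.1))⁻¹ : K) : K ⧸ C c'.2.1))⟩, c'.2.2) := by
  induction L1 generalizing k l with
  | nil =>
    match l, h with
    | [], h => simp [darts] at h
    | [c], h => simp [darts] at h
    | c :: c' :: l2, h =>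
      simp only [darts, List.nil_append, List.cons.injEq] at h
      obtain ⟨h1, h2, h3⟩ := h
      refine ⟨[], c, c', l2, rfl, ?_, ?_⟩
      · simp only [val, map_one, mul_one]
        exact h1.symm
      · simp only [val, map_one, mul_one]
        exact h2.symm
  | cons d0 L1 ih =>
    match l, h with
    | [], h => simp [darts] at h
    | c0 :: l, h =>
      simp only [darts, List.cons_append, List.cons.injEq] at h
      obtain ⟨l1, c, c', l2, e1, e2, e3⟩ := ih _ l h.2
      have e4 : k * π c0.1 * sg (π (τ c0.2.1)) c0.2.2 * π (val τ l1 1) =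
          k * π (val τ (c0 :: l1) 1) := by
        simp only [val, map_mul, map_sg, mul_assoc]
      rw [e4] at e2 e3
      exact ⟨c0 :: l1, c, c', l2, by rw [e1]; rfl, e2, e3⟩
end

end Pool.Agent.PDC
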