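import Mathlib
import Pool.Agent.PDC.BPsh
import Pool.Agent.PDC.BWords

set_option autoImplicit false

/-!
# PDC-BChain: the chain of a word is computed by the derivations

PLAN.  Induction on l generalizing k, x.  Write g = π(τ e1) for the edge letter e1, δ = 1 if e = e1 else 0.
 l = []: x = y, b ∈ B x: D e b - n x e + n x e π b = D e b - n x e • (1 - π b): push-forward 0 (hB and `psh_mul_zero`), chn [] = 0.
 l = (c, e1, s) :: l', v' = val τ l' b, z the next type:
  s = true (x = o e1, z = t e1): D(c τ v') - n_x + n_y π(..) =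
     [D c - n_x(1 - π c)] + π c [D τ - n_x + n_z g] + π c g [D v' - n_z + n_y π v'],   middle bracket = δ (X.Dτ).
  s = false (x = t e1, z = o e1): D τ⁻¹ = -g⁻¹ D τ = -g⁻¹ n_z - g⁻¹ δ + n_x, so
     [D c - n_x(1 - π c)] + π c [D τ⁻¹ - n_x + n_z g⁻¹] + π c g⁻¹ [D v' - n_z + n_y π v'],  middle = -g⁻¹ δ.
 psh of (of k * π c * δ) = δ • single (k π c) 1 = first dart's contribution to the coefficient at ⟨e, q⟩
 (Finsupp.single on the sigma type evaluated at ⟨e, q⟩: if e1 ≠ e it is 0, if e1 = e compare q; subst).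
-/

namespace Pool.Agent.PDC

open MonoidAlgebra

private theorem D_one {K : Type} [Group K] (X : GD K) (e : X.E) : X.D e 1 = 0 := by
  have h := X.Dmul e 1 1
  rw [mul_one, map_one, map_one, one_mul] at h
  exact left_eq_add.1 h

private theorem D_inv {K : Type} [Group K] (X : GD K) (e : X.E) (u : FreeGroup X.Y) :
    X.D e u⁻¹ = -(of ℤ K (X.π u)⁻¹ * X.D e u) := by
  have h := X.Dmul e u⁻¹ u
  rw [inv_mul_cancel, D_one, map_inv] at h
  exact eq_neg_of_add_eq_zero_left h.symm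

private theorem mid_true {K : Type} [Group K] (X : GD K) (e e1 : X.E) :
    (e = e1 → X.D e (X.τ e1) - X.n (X.o e1) e • 1 + X.n (X.t e1) e • of ℤ K (X.π (X.τ e1)) = 1) ∧
    (e ≠ e1 → X.D e (X.τ e1) - X.n (X.o e1) e • 1 + X.n (X.t e1) e • of ℤ K (X.π (X.τ e1)) = 0) := by
  rw [X.Dτ e e1]
  constructor
  · intro h
    rw [if_pos h]
    abel
  · intro h
    rw [if_neg h]
    abel

private theorem mid_false {K : Type} [Group K] (X : GD K) (e e1 : X.E) :
    (e = e1 → X.D e (X.τ e1)⁻¹ - X.n (X.t e1) e • 1 + X.n (X.o e1) e • of ℤ K (X.π (X.τ e1)⁻¹) =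
      -of ℤ K (X.π (X.τ e1))⁻¹) ∧
    (e ≠ e1 → X.D e (X.τ e1)⁻¹ - X.n (X.t e1) e • 1 +
      X.n (X.o e1) e • of ℤ K (X.π (X.τ e1)⁻¹) = 0) := by
  have hg : of ℤ K (X.π (X.τ e1))⁻¹ * of ℤ K (X.π (X.τ e1)) = 1 := by
    rw [← map_mul, inv_mul_cancel, map_one]
  rw [D_inv, X.Dτ e e1, map_inv X.π]
  constructor
  · intro h
    rw [if_pos h, mul_sub, mul_add, mul_smul_comm, mul_smul_comm, hg, mul_one]
    abel
  · intro h
    rw [if_neg h, mul_sub, mul_add, mul_smul_comm, mul_smul_comm, hg, mul_one, mul_zero]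
    abel

private theorem single_sigma {E : Type} {Q : E → Type} (e1 : E) (a : Q e1) (n : ℤ) (e : E)
    (q : Q e) (h : e ≠ e1) : (Finsupp.single (⟨e1, a⟩ : Σ e, Q e) n) ⟨e, q⟩ = 0 := by
  classical
  rw [Finsupp.single_apply, if_neg]
  intro h1
  exact h (congrArg Sigma.fst h1).symm

private theorem single_sigma_same {E : Type} {Q : E → Type} (e : E) (a : Q e) (n : ℤ)
    (q : Q e) : (Finsupp.single (⟨e, a⟩ : Σ e, Q e) n) ⟨e, q⟩ = (Finsupp.single a n) q := by
  classical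
  rw [Finsupp.single_apply, Finsupp.single_apply]
  by_cases h : a = q
  · rw [if_pos h, if_pos (by rw [h])]
  · rw [if_neg h, if_neg]
    intro h1
    exact h (eq_of_heq (Sigma.mk.inj h1).2)

private theorem split3 {K : Type} [Group K] (Dc Ds Dv : MonoidAlgebra ℤ K) (a b v : K)
    (nx ny nz : ℤ) (k : K) :
    of ℤ K k * (Dc + of ℤ K a * Ds + of ℤ K (a * b) * Dv - nx • 1 + ny • of ℤ K (a * b * v)) =
      of ℤ K k * (Dc - nx • (1 - of ℤ K a)) +
      of ℤ K (k * a) * (Ds - nx • 1 + nz • of ℤ K b) +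
      of ℤ K (k * a * b) * (Dv - nz • 1 + ny • of ℤ K v) := by
  simp only [map_mul, mul_add, mul_sub, mul_smul_comm, mul_one, smul_sub, mul_assoc]
  abel

theorem chain_word {K : Type} [Group K] (X : GD K)
    (B : X.R → Subgroup (FreeGroup X.Y)) (C : X.E → Subgroup K)
    (hB : ∀ x, ∀ b ∈ B x, ∀ e', psh (C e') (X.D e' b - X.n x e' • (1 - of ℤ K (X.π b))) = 0)
    (l : List (FreeGroup X.Y × X.E × Bool)) (b : FreeGroup X.Y) (x y : X.R)
    (h : Valid X.o X.t B x l b y) (k : K) (e : X.E) (q : K ⧸ C e) :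
    (chn (darts X.π X.τ C k l)) ⟨e, q⟩ =
      psh (C e) (of ℤ K k * (X.D e (val X.τ l b) - X.n x e • 1 +
        X.n y e • of ℤ K (X.π (val X.τ l b)))) q := by
  induction l generalizing k x with
  | nil =>
    obtain ⟨hxy, hb⟩ := h
    subst hxy
    have h0 : X.D e b - X.n x e • 1 + X.n x e • of ℤ K (X.π b) =
        X.D e b - X.n x e • (1 - of ℤ K (X.π b)) := by
      rw [smul_sub]
      abel
    change (0 : ((Σ e : X.E, K ⧸ C e) →₀ ℤ)) ⟨e, q⟩ =
      psh (C e) (of ℤ K k * (X.D e b - X.n x e • 1 + X.n x e • of ℤ K (X.π b))) q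
    rw [h0, psh_mul_zero _ _ _ (hB x b hb e)]
    rfl
  | cons c l ih =>
    obtain ⟨c, e1, s⟩ := c
    obtain ⟨hx, hc, hl⟩ := h
    have ih' := ih _ hl (k * X.π c * sg (X.π (X.τ e1)) s)
    have hsg : X.π (sg (X.τ e1) s) = sg (X.π (X.τ e1)) s := by
      cases s
      · exact map_inv _ _
      · rfl
    have hval : val X.τ ((c, e1, s) :: l) b = c * sg (X.τ e1) s * val X.τ l b := rfl
    have hchn : chn (darts X.π X.τ C k ((c, e1, s) :: l)) =
        Finsupp.single (⟨e1, (if s then ((k * X.π c : K) : K ⧸ C e1)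
          else ((k * X.π c * (X.π (X.τ e1))⁻¹ : K) : K ⧸ C e1))⟩ : Σ e : X.E, K ⧸ C e)
          (if s then (1 : ℤ) else -1) +
        chn (darts X.π X.τ C (k * X.π c * sg (X.π (X.τ e1)) s) l) := rfl
    have hπ1 : X.π (c * sg (X.τ e1) s) = X.π c * sg (X.π (X.τ e1)) s := by
      rw [map_mul X.π, hsg]
    have hπ2 : X.π (c * sg (X.τ e1) s * val X.τ l b) =
        X.π c * sg (X.π (X.τ e1)) s * X.π (val X.τ l b) := by
      rw [map_mul X.π, hπ1]
    rw [hval, hchn, X.Dmul, X.Dmul, hπ2, hπ1,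
      split3 _ _ _ _ _ _ _ _ (X.n (tE X.o X.t e1 s) e), map_add, map_add,
      psh_mul_zero _ _ _ (hB x c hc e), zero_add, Finsupp.add_apply, Finsupp.add_apply, ih']
    congr 1
    cases s with
    | true =>
      have hx' : X.o e1 = x := hx
      subst hx'
      change (Finsupp.single (⟨e1, ((k * X.π c : K) : K ⧸ C e1)⟩ : Σ e : X.E, K ⧸ C e)
        (1 : ℤ)) ⟨e, q⟩ = psh (C e) (of ℤ K (k * X.π c) *
          (X.D e (X.τ e1) - X.n (X.o e1) e • 1 + X.n (X.t e1) e • of ℤ K (X.π (X.τ e1)))) q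
      by_cases he : e = e1
      · subst he
        rw [(mid_true X e e).1 rfl, mul_one, psh_of, single_sigma_same]
      · rw [(mid_true X e e1).2 he, mul_zero, map_zero, single_sigma _ _ _ _ _ he]
        rfl
    | false =>
      have hx' : X.t e1 = x := hx
      subst hx'
      change (Finsupp.single (⟨e1, ((k * X.π c * (X.π (X.τ e1))⁻¹ : K) : K ⧸ C e1)⟩ :
        Σ e : X.E, K ⧸ C e) (-1 : ℤ)) ⟨e, q⟩ = psh (C e) (of ℤ K (k * X.π c) *
          (X.D e (X.τ e1)⁻¹ - X.n (X.t e1) e • 1 + X.n (X.o e1) e • of ℤ K (X.π (X.τ e1))⁻¹)) q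
      rw [← map_inv X.π (X.τ e1)]
      by_cases he : e = e1
      · subst he
        rw [(mid_false X e e).1 rfl, mul_neg, ← map_mul, map_neg, psh_of, single_sigma_same,
          Finsupp.single_neg, map_inv X.π]
      · rw [(mid_false X e e1).2 he, mul_zero, map_zero, single_sigma _ _ _ _ _ he]
        rfl

end Pool.Agent.PDC
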