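import Mathlib
import Pool.Agent.PDC.BWords

set_option autoImplicit false

/-!
# PDC-BCore: reduction of closed words

PLAN.  Strong induction on l.length.  l = []: b ∈ B x, c := b (M ∋ 1).
l ≠ []: by `isW_darts` at k = 1 the darts form a walk from vtx 1 x to vtx (1 * π (val τ l b)) x = vtx 1 x, so `backtrack`
and `darts_split` give l = l1 ++ c1 :: c2 :: l2 with opposite signs and equal edges: e = e' (first components of the
sigma types; `Sigma.mk.inj_iff`, substitute) and equality of cosets (`QuotientGroup.eq`).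
Case signs (true, false): k π(c1) ~ k π(c1) g π(c2) g⁻¹ mod C e, so π (τ e * c2 * (τ e)⁻¹) ∈ C e; hup gives c' ∈ B (o e).
  val l b = P * c1 * τ e * c2 * (τ e)⁻¹ * Q with P = val τ l1 1, Q = val τ l2 b; the types match: Valid gives
  sE e true = o e = type of c1, c2 ∈ B (t e), then (after the second letter (e, false)) type o e again.
Case (false, true): k π(c1) g⁻¹ ~ k π(c1) g⁻¹ π(c2), so π c2 ∈ C e; hdn gives c' ∈ B (t e).
New word: if l2 = c3 :: l3 take l1 ++ (c1 * c' * c3.1, c3.2) :: l3 with final b; if l2 = [] take l1 with final element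
c1 * c' * b, i.e. replace (l1 ++ [], b): for l2 = [] the word is (l1, c1 * c' * b).  It is valid from x to x, of length
l.length - 2, its value v' = P * c1 * c' * Q, and val l b * v'⁻¹ = (P c1) * (τ c2 τ⁻¹ c'⁻¹) * (P c1)⁻¹ ∈ M
(M normal).  π of the values agree since M ≤ ker π.  Induction.
-/

namespace Pool.Agent.PDC

/-- Multiplying a valid word on the left by an element of the vertex subgroup. -/
private theorem prep {F R E : Type} [Group F] (o t : E → R) (τ : E → F) (B : R → Subgroup F)
    (z x : R) (l2 : List (F × E × Bool)) (b g : F) (hg : g ∈ B z) (h : Valid o t B z l2 b x) :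
    ∃ (l' : List (F × E × Bool)) (b' : F), l'.length = l2.length ∧ Valid o t B z l' b' x ∧
      val τ l' b' = g * val τ l2 b := by
  cases l2 with
  | nil =>
    obtain ⟨h1, h2⟩ := h
    exact ⟨[], g * b, rfl, ⟨h1, (B z).mul_mem hg h2⟩, rfl⟩
  | cons c l3 =>
    obtain ⟨h1, h2, h3⟩ := h
    refine ⟨(g * c.1, c.2.1, c.2.2) :: l3, b, rfl, ⟨h1, (B z).mul_mem hg h2, h3⟩, ?_⟩
    simp only [val, mul_assoc]

theorem core {F K R E W : Type} [Group F] [Group K] (π : F →* K) (o t : E → R) (τ : E → F)
    (B : R → Subgroup F) (C : E → Subgroup K)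
    (vtx : K → R → W) (hv : ∀ k x, ∀ b ∈ B x, vtx (k * π b) x = vtx k x)
    (sr tg : (Σ e : E, K ⧸ C e) → W)
    (hs : ∀ e (k : K), sr ⟨e, (k : K ⧸ C e)⟩ = vtx k (o e))
    (ht : ∀ e (k : K), tg ⟨e, (k : K ⧸ C e)⟩ = vtx (k * π (τ e)) (t e))
    (hZ : ∀ v L, IsW sr tg v L v → chn L = 0)
    (M : Subgroup F) [M.Normal] (hM : M ≤ π.ker)
    (hup : ∀ e, ∀ c ∈ B (t e), π (τ e * c * (τ e)⁻¹) ∈ C e →
      ∃ c' ∈ B (o e), τ e * c * (τ e)⁻¹ * c'⁻¹ ∈ M)
    (hdn : ∀ e, ∀ c ∈ B (o e), π c ∈ C e → ∃ c' ∈ B (t e), (τ e)⁻¹ * c * τ e * c'⁻¹ ∈ M)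
    (x : R) (l : List (F × E × Bool)) (b : F) (h : Valid o t B x l b x)
    (hcl : vtx (π (val τ l b)) x = vtx 1 x) :
    ∃ c ∈ B x, val τ l b * c⁻¹ ∈ M := by
  have key : ∀ (N : ℕ) (l : List (F × E × Bool)) (b : F), l.length ≤ N → Valid o t B x l b x →
      vtx (π (val τ l b)) x = vtx 1 x → ∃ c ∈ B x, val τ l b * c⁻¹ ∈ M := by
    intro N
    induction N with
    | zero =>
      intro l b hlen h _
      have hl : l = [] := List.eq_nil_of_length_eq_zero (Nat.le_zero.1 hlen)
      subst hl
      refine ⟨b, h.2, ?_⟩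
      simp only [val, mul_inv_cancel]
      exact M.one_mem
    | succ N ih =>
      intro l b hlen h hcl
      by_cases hl : l = []
      · subst hl
        refine ⟨b, h.2, ?_⟩
        simp only [val, mul_inv_cancel]
        exact M.one_mem
      have hwalk := isW_darts π o t τ B C vtx hv sr tg hs ht 1 x x l b h
      rw [one_mul, hcl] at hwalk
      have hne : darts π τ C 1 l ≠ [] := by
        intro h0
        have h1 := length_darts π τ C 1 l
        rw [h0] at h1
        exact hl (List.eq_nil_of_length_eq_zero h1.symm)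
      obtain ⟨L1, d, L2, hL⟩ := backtrack sr tg hZ _ _ hwalk hne
      obtain ⟨l1, c1, c2, l2, hl12, hd1, hd2⟩ := darts_split π τ C 1 l L1 d (d.1, !d.2) L2 hL
      obtain ⟨a1, e1, s1⟩ := c1
      obtain ⟨a2, e2, s2⟩ := c2
      subst hl12
      subst hd1
      -- a general reduction step
      have step : ∀ (z : R) (c' : F), Valid o t B x l1 1 z → a1 ∈ B z → c' ∈ B z →
          Valid o t B z l2 b x →
          (val τ ((a1, e1, s1) :: (a2, e2, s2) :: l2) b) * (a1 * c' * val τ l2 b)⁻¹ ∈ M →
          ∃ c ∈ B x, val τ (l1 ++ (a1, e1, s1) :: (a2, e2, s2) :: l2) b * c⁻¹ ∈ M := by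
        intro z c' hz ha1 hc' hl2 hmem
        obtain ⟨l', b', hlen', hval', hv'⟩ :=
          prep o t τ B z x l2 b (a1 * c') ((B z).mul_mem ha1 hc') hl2
        have hv1 : val τ (l1 ++ (a1, e1, s1) :: (a2, e2, s2) :: l2) b *
            (val τ (l1 ++ l') b')⁻¹ ∈ M := by
          rw [val_append, val_append, hv']
          have h2 := ‹M.Normal›.conj_mem _ hmem (val τ l1 1)
          convert h2 using 1
          group
        have hpi : π (val τ (l1 ++ l') b') =
            π (val τ (l1 ++ (a1, e1, s1) :: (a2, e2, s2) :: l2) b) := by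
          have h2 := hM hv1
          rw [MonoidHom.mem_ker, map_mul, map_inv, mul_inv_eq_one] at h2
          exact h2.symm
        obtain ⟨c, hc, hcM⟩ := ih (l1 ++ l') b' (by
          simp only [List.length_append, List.length_cons] at hlen ⊢
          omega) ((valid_append o t B x x l1 l' b').2 ⟨z, hz, hval'⟩) (by rw [hpi, hcl])
        refine ⟨c, hc, ?_⟩
        have h2 := M.mul_mem hv1 hcM
        convert h2 using 1
        group
      obtain ⟨z, hz, hsz, ha1, hrest⟩ := (valid_append o t B x x l1 _ b).1 h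
      obtain ⟨hsz2, ha2, hl2⟩ := hrest
      simp only at hsz ha1 hsz2 ha2 hl2 hd2
      rw [Prod.mk.injEq] at hd2
      obtain ⟨hd3, hd4⟩ := hd2
      rw [Sigma.mk.injEq] at hd3
      obtain ⟨he, hco⟩ := hd3
      subst he
      have hco := eq_of_heq hco
      cases s1 with
      | true =>
        have hs2 : s2 = false := by rw [← hd4]; rfl
        subst hs2
        simp only [sE, tE, sg, if_true, Bool.false_eq_true, if_false] at hsz ha1 hsz2 ha2 hl2 hco
        rw [QuotientGroup.eq] at hco
        have hC : π (τ e1 * a2 * (τ e1)⁻¹) ∈ C e1 := by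
          convert hco using 1
          simp only [map_mul, map_inv]
          group
        obtain ⟨c', hc', hcM⟩ := hup e1 a2 ha2 hC
        subst hsz
        refine step (o e1) c' hz ha1 hc' hl2 ?_
        have h2 := ‹M.Normal›.conj_mem _ hcM a1
        convert h2 using 1
        simp only [val, sg, if_true, Bool.false_eq_true, if_false]
        group
      | false =>
        have hs2 : s2 = true := by rw [← hd4]; rfl
        subst hs2
        simp only [sE, tE, sg, if_true, Bool.false_eq_true, if_false] at hsz ha1 hsz2 ha2 hl2 hco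
        rw [QuotientGroup.eq] at hco
        have hC : π a2 ∈ C e1 := by
          convert hco using 1
          group
        obtain ⟨c', hc', hcM⟩ := hdn e1 a2 ha2 hC
        subst hsz
        refine step (t e1) c' hz ha1 hc' hl2 ?_
        have h2 := ‹M.Normal›.conj_mem _ hcM a1
        convert h2 using 1
        simp only [val, sg, if_true, Bool.false_eq_true, if_false]
        group
  exact key l.length l b le_rfl h hcl

end Pool.Agent.PDC
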