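import Mathlib

set_option autoImplicit false

/-!
# PDC-BCut: the cut function of an edge of a tree

PLAN.  Every edge of a tree is a bridge (`SimpleGraph.isAcyclic_iff_forall_edge_isBridge`,
`SimpleGraph.isBridge_iff`): T' := T \ fromEdgeSet {s(a, b)} (or T.deleteEdges {s(a,b)}) does not connect a and b.
h z := if T'.Reachable b z then 1 else 0.  For T.Adj y z with {y,z} ≠ {a,b} we have T'.Adj y z, so h y = h z.
h b = 1, h a = 0.  The two ifs cannot hold at once (a ≠ b).
-/

namespace Pool.Agent.PDC

open scoped Classical in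
theorem cut_fun {V : Type} (T : SimpleGraph V) (hT : T.IsAcyclic) (a b : V) (hab : T.Adj a b) :
    ∃ h : V → ℤ, ∀ y z, T.Adj y z →
      h z - h y = (if y = a ∧ z = b then 1 else 0) - (if y = b ∧ z = a then 1 else 0) := by
  have hbr := SimpleGraph.isAcyclic_iff_forall_adj_isBridge.1 hT hab
  rw [SimpleGraph.isBridge_iff] at hbr
  have hne : a ≠ b := hab.ne
  refine ⟨fun z => if (T.deleteEdges {s(a, b)}).Reachable b z then 1 else 0, fun y z hyz => ?_⟩
  have hb : (T.deleteEdges {s(a, b)}).Reachable b b := SimpleGraph.Reachable.refl b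
  have ha : ¬ (T.deleteEdges {s(a, b)}).Reachable b a := fun h => hbr h.symm
  by_cases h1 : y = a ∧ z = b
  · have h2 : ¬ (y = b ∧ z = a) := fun h => hne (h1.1.symm.trans h.1)
    rw [if_pos h1, if_neg h2]
    obtain ⟨h3, h4⟩ := h1
    subst h3
    subst h4
    change (if (T.deleteEdges {s(y, z)}).Reachable z z then (1 : ℤ) else 0) -
      (if (T.deleteEdges {s(y, z)}).Reachable z y then 1 else 0) = 1 - 0
    rw [if_pos hb, if_neg ha]
  · by_cases h2 : y = b ∧ z = a
    · rw [if_neg h1, if_pos h2]
      obtain ⟨h3, h4⟩ := h2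
      subst h3
      subst h4
      change (if (T.deleteEdges {s(z, y)}).Reachable y z then (1 : ℤ) else 0) -
        (if (T.deleteEdges {s(z, y)}).Reachable y y then 1 else 0) = 0 - 1
      rw [if_pos hb, if_neg ha]
    · rw [if_neg h1, if_neg h2]
      have h3 : (T.deleteEdges {s(a, b)}).Adj y z := by
        rw [SimpleGraph.deleteEdges_adj]
        refine ⟨hyz, fun h => ?_⟩
        rw [Set.mem_singleton_iff, Sym2.eq_iff] at h
        rcases h with h | h
        · exact h1 h
        · exact h2 h
      have h4 : (T.deleteEdges {s(a, b)}).Reachable b z ↔ (T.deleteEdges {s(a, b)}).Reachable b y :=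
        ⟨fun h => h.trans h3.reachable.symm, fun h => h.trans h3.reachable⟩
      change (if (T.deleteEdges {s(a, b)}).Reachable b z then (1 : ℤ) else 0) -
        (if (T.deleteEdges {s(a, b)}).Reachable b y then 1 else 0) = 0 - 0
      by_cases h5 : (T.deleteEdges {s(a, b)}).Reachable b y
      · rw [if_pos h5, if_pos (h4.2 h5)]
        rfl
      · rw [if_neg h5, if_neg fun h => h5 (h4.1 h)]

end Pool.Agent.PDC
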