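import Mathlib
import Pool.Agent.PDC.Basic

set_option autoImplicit false

/-!
# PDC-BFoxA: derivations on a free group

PLAN der_exists: T y : N ≃ N, m ↦ vals y + of (π (of y)) • m (inverse m ↦ of (π (of y))⁻¹ • (m - vals y)), an element of
`Equiv.Perm N`; Φ := FreeGroup.lift T : FreeGroup Y →* Equiv.Perm N; D u := Φ u 0.  Show Φ u m = D u + of (π u) • m
by `FreeGroup.induction_on` (or: the set of σ : Perm N of the form m ↦ n + of k • m ...), then D (u v) = Φ u (Φ v 0).
PLAN der_unique: `FreeGroup.induction_on` ({u | D u = D' u} is closed under products and inverses; D 1 = 0,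
 D u⁻¹ = - of (π u)⁻¹ • D u).
-/

namespace Pool.Agent.PDC

open MonoidAlgebra

section
variable {K Y : Type} [Group K] (π : FreeGroup Y →* K) {N : Type} [AddCommGroup N]
  [Module (MonoidAlgebra ℤ K) N]

/-- the affine permutation attached to a generator -/
private noncomputable def foxT (vals : Y → N) (y : Y) : Equiv.Perm N where
  toFun m := vals y + of ℤ K (π (FreeGroup.of y)) • m
  invFun m := of ℤ K (π (FreeGroup.of y))⁻¹ • (m - vals y)
  left_inv m := by
    change of ℤ K (π (FreeGroup.of y))⁻¹ • (vals y + of ℤ K (π (FreeGroup.of y)) • m - vals y) = m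
    rw [add_sub_cancel_left, ← mul_smul, ← map_mul, inv_mul_cancel, map_one, one_smul]
  right_inv m := by
    change vals y + of ℤ K (π (FreeGroup.of y)) • of ℤ K (π (FreeGroup.of y))⁻¹ • (m - vals y) = m
    rw [← mul_smul, ← map_mul, mul_inv_cancel, map_one, one_smul, add_sub_cancel]

private theorem foxT_aff (vals : Y → N) (u : FreeGroup Y) :
    ∀ m : N, FreeGroup.lift (foxT π vals) u m =
      FreeGroup.lift (foxT π vals) u 0 + of ℤ K (π u) • m := by
  refine FreeGroup.induction_on u ?_ ?_ ?_ ?_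
  · intro m
    rw [map_one, map_one, map_one, one_smul]
    change m = 0 + m
    rw [zero_add]
  · intro y m
    change FreeGroup.lift (foxT π vals) (FreeGroup.of y) m =
      FreeGroup.lift (foxT π vals) (FreeGroup.of y) 0 + of ℤ K (π (FreeGroup.of y)) • m
    rw [FreeGroup.lift_apply_of]
    change vals y + of ℤ K (π (FreeGroup.of y)) • m =
      (vals y + of ℤ K (π (FreeGroup.of y)) • (0 : N)) + of ℤ K (π (FreeGroup.of y)) • m
    rw [smul_zero, add_zero]
  · intro y ih m
    have key : ∀ m' : N, FreeGroup.lift (foxT π vals) (FreeGroup.of y)⁻¹ m' =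
        of ℤ K (π (FreeGroup.of y))⁻¹ • (m' - FreeGroup.lift (foxT π vals) (FreeGroup.of y) 0) := by
      intro m'
      have h1 := ih (FreeGroup.lift (foxT π vals) (FreeGroup.of y)⁻¹ m')
      have h2 : FreeGroup.lift (foxT π vals) (FreeGroup.of y)
          (FreeGroup.lift (foxT π vals) (FreeGroup.of y)⁻¹ m') = m' := by
        rw [map_inv]
        exact Equiv.apply_symm_apply _ _
      rw [h2] at h1
      have h3 : m' - FreeGroup.lift (foxT π vals) (FreeGroup.of y) 0 =
          of ℤ K (π (FreeGroup.of y)) • FreeGroup.lift (foxT π vals) (FreeGroup.of y)⁻¹ m' :=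
        sub_eq_iff_eq_add'.2 h1
      rw [h3, ← mul_smul, ← map_mul, inv_mul_cancel, map_one, one_smul]
    have hpi : π (FreeGroup.of y)⁻¹ = (π (FreeGroup.of y))⁻¹ := map_inv π _
    rw [key m, key 0, hpi, ← smul_add]
    congr 1
    abel
  · intro x y hx hy m
    rw [map_mul, map_mul, map_mul, Equiv.Perm.mul_apply, Equiv.Perm.mul_apply,
      hx (FreeGroup.lift (foxT π vals) y m), hy m,
      hx (FreeGroup.lift (foxT π vals) y 0), smul_add, mul_smul, add_assoc]

theorem der_exists (vals : Y → N) :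
    ∃ D : FreeGroup Y → N, (∀ u v, D (u * v) = D u + of ℤ K (π u) • D v) ∧
      ∀ y, D (FreeGroup.of y) = vals y := by
  refine ⟨fun u => FreeGroup.lift (foxT π vals) u 0, ?_, ?_⟩
  · intro u v
    change FreeGroup.lift (foxT π vals) (u * v) 0 = FreeGroup.lift (foxT π vals) u 0 +
      of ℤ K (π u) • FreeGroup.lift (foxT π vals) v 0
    rw [map_mul, Equiv.Perm.mul_apply, foxT_aff]
  · intro y
    change FreeGroup.lift (foxT π vals) (FreeGroup.of y) 0 = vals y
    rw [FreeGroup.lift_apply_of]
    change vals y + of ℤ K (π (FreeGroup.of y)) • (0 : N) = vals y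
    rw [smul_zero, add_zero]

theorem der_one (D : FreeGroup Y → N) (hD : ∀ u v, D (u * v) = D u + of ℤ K (π u) • D v) :
    D 1 = 0 := by
  have h := hD 1 1
  rw [mul_one, map_one, map_one, one_smul] at h
  exact left_eq_add.1 h

theorem der_inv (D : FreeGroup Y → N) (hD : ∀ u v, D (u * v) = D u + of ℤ K (π u) • D v)
    (u : FreeGroup Y) : D u⁻¹ = -(of ℤ K (π u)⁻¹ • D u) := by
  have h := hD u⁻¹ u
  rw [inv_mul_cancel, der_one π D hD, map_inv] at h
  exact eq_neg_of_add_eq_zero_left h.symm

theorem der_unique (D D' : FreeGroup Y → N) (hD : ∀ u v, D (u * v) = D u + of ℤ K (π u) • D v)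
    (hD' : ∀ u v, D' (u * v) = D' u + of ℤ K (π u) • D' v)
    (h : ∀ y, D (FreeGroup.of y) = D' (FreeGroup.of y)) (u : FreeGroup Y) : D u = D' u := by
  refine FreeGroup.induction_on u ?_ ?_ ?_ ?_
  · rw [der_one π D hD, der_one π D' hD']
  · intro y
    exact h y
  · intro y ih
    rw [der_inv π D hD, der_inv π D' hD', ih]
  · intro x y hx hy
    rw [hD, hD', hx, hy]

end

end Pool.Agent.PDC
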