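import Mathlib
import Pool.Agent.PDC.BFoxA

set_option autoImplicit false

/-!
# PDC-BFoxB: finitely many relators detect derivations on the kernel (from RelFG)

PLAN.  Finite Y: e : Fin n ≃ Y (`Finite.exists_equiv_fin`), x i := π (of (e i)); closure (range x) = ⊤ because π is
surjective and FreeGroup Y is generated by the `of y`.  hrel: ker (bd x) is the span of a finite set.
Fox derivatives: fx i : FreeGroup Y → ZK, `der_exists` with vals = Pi.single (e i) 1 (N = ZK, smul = mul).
(1) for every derivation D : FreeGroup Y → ZK: D u = ∑ i, fx i u * D (of (e i))  (`der_unique`).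
(2) ∑ i, fx i u * (of (x i) - 1) = of (π u) - 1 ((1) for D u := of (π u) - 1).
(3) Surjectivity: for a ∈ ker (bd x) there is r with π r = 1 and (fun i => fx i r) = a.
    Choose sec : K → FreeGroup Y with π (sec k) = k.  For k, i: r_{k,i} := sec k * of (e i) * (sec (k * x i))⁻¹ ∈ ker π and
    fx (r_{k,i}) = fx (sec k) + of k • Pi.single i 1 - fx (sec (k * x i))      (vectors).
    On ker π the map r ↦ fx r is additive (multiplicative to additive), so the set {fx r | π r = 1} is an additive
    subgroup U of Fin n → ZK.  L : ZK →+ (Fin n → ZK), L (of k) = fx (sec k) (`extZ`).  For every a: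
    a - L (bd x a) ∈ U  [a ↦ a - L (bd x a) is additive; it is enough to check a = Pi.single i (of k):
     bd x a = of (k x i) - of k, a - L(..) = fx (r_{k,i}) ∈ U].  For a ∈ ker: a ∈ U.
(4) Rj := choose for each of the finitely many generators of ker (bd x) such an r.  If D r ∈ J for r ∈ Rj, then for
    π r = 1: (fx i r) ∈ ker (bd x) by (2), = ∑ c_j • (fx (r_j)), so D r = ∑ i fx i r * D(of (e i)) = ∑_j c_j * D r_j ∈ J.
    (Or: the map a ↦ ∑ a i * D (of (e i)) is ZK-linear; comap of J contains the span.)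
-/

namespace Pool.Agent.PDC

open MonoidAlgebra

section
variable {K Y : Type} [Group K] (π : FreeGroup Y →* K) {N : Type} [AddCommGroup N]
  [Module (MonoidAlgebra ℤ K) N]

/-- values of a derivation on the kernel form an additive subgroup -/
private def kerVals (Φ : FreeGroup Y → N)
    (hΦ : ∀ u v, Φ (u * v) = Φ u + of ℤ K (π u) • Φ v) : AddSubgroup N where
  carrier := {a | ∃ r, π r = 1 ∧ Φ r = a}
  zero_mem' := ⟨1, map_one π, der_one π Φ hΦ⟩
  add_mem' := by
    rintro a b ⟨r, hr, rfl⟩ ⟨s, hs, rfl⟩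
    refine ⟨r * s, by rw [map_mul, hr, hs, mul_one], ?_⟩
    rw [hΦ, hr, map_one, one_smul]
  neg_mem' := by
    rintro a ⟨r, hr, rfl⟩
    refine ⟨r⁻¹, by rw [map_inv, hr, inv_one], ?_⟩
    rw [der_inv π Φ hΦ, hr, inv_one, map_one, one_smul]

private theorem mem_kerVals (Φ : FreeGroup Y → N)
    (hΦ : ∀ u v, Φ (u * v) = Φ u + of ℤ K (π u) • Φ v) (a : N) :
    a ∈ kerVals π Φ hΦ ↔ ∃ r, π r = 1 ∧ Φ r = a := Iff.rfl

end

private theorem bd_single {K : Type} [Group K] {n : ℕ} (x : Fin n → K) (i : Fin n)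
    (c : MonoidAlgebra ℤ K) : bd x (Pi.single i c) = c * (of ℤ K (x i) - 1) := by
  rw [bd_apply, Finset.sum_eq_single i]
  · rw [Pi.single_eq_same]
  · intro j _ hj
    rw [Pi.single_eq_of_ne hj, zero_mul]
  · intro h
    exact absurd (Finset.mem_univ i) h

theorem fox_fin {K Y : Type} [Group K] [Finite Y] (π : FreeGroup Y →* K)
    (hπ : Function.Surjective π) (hrel : RelFG K) :
    ∃ Rj : Finset (FreeGroup Y), (∀ r ∈ Rj, π r = 1) ∧
      ∀ (D : FreeGroup Y → MonoidAlgebra ℤ K) (_ : ∀ u v, D (u * v) = D u + of ℤ K (π u) * D v)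
        (J : Submodule (MonoidAlgebra ℤ K) (MonoidAlgebra ℤ K)),
        (∀ r ∈ Rj, D r ∈ J) → ∀ r, π r = 1 → D r ∈ J := by
  classical
  obtain ⟨n, ⟨e⟩⟩ := Finite.exists_equiv_fin Y
  -- `e : Y ≃ Fin n`
  set x : Fin n → K := fun i => π (FreeGroup.of (e.symm i)) with hx
  have hcl : Subgroup.closure (Set.range x) = ⊤ := by
    have h1 : Set.range x = π '' (Set.range (FreeGroup.of : Y → FreeGroup Y)) := by
      ext k
      constructor
      · rintro ⟨i, rfl⟩
        exact ⟨FreeGroup.of (e.symm i), ⟨_, rfl⟩, rfl⟩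
      · rintro ⟨_, ⟨y, rfl⟩, rfl⟩
        exact ⟨e y, by simp [hx]⟩
    rw [h1, ← MonoidHom.map_closure, FreeGroup.closure_range_of, ← MonoidHom.range_eq_map,
      MonoidHom.range_eq_top.2 hπ]
  obtain ⟨Φ, hΦ, hΦv⟩ := der_exists π (N := Fin n → MonoidAlgebra ℤ K)
    (fun y => Pi.single (e y) 1)
  -- (2)
  have h2 : ∀ u, bd x (Φ u) = of ℤ K (π u) - 1 := by
    apply der_unique π (fun u => bd x (Φ u)) (fun u => of ℤ K (π u) - 1)
    · intro u v
      rw [hΦ, map_add, map_smul]
    · intro u v
      rw [map_mul, map_mul, smul_eq_mul, mul_sub, mul_one]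
      abel
    · intro y
      rw [hΦv, bd_single, one_mul]
      simp [hx]
  -- (3)
  choose sec hsec using hπ
  set L : MonoidAlgebra ℤ K →+ (Fin n → MonoidAlgebra ℤ K) := extZ (fun k => Φ (sec k)) with hL
  have hgen : ∀ i k, Pi.single i (of ℤ K k) - L (bd x (Pi.single i (of ℤ K k))) ∈
      kerVals π Φ hΦ := by
    intro i k
    rw [mem_kerVals]
    refine ⟨sec k * FreeGroup.of (e.symm i) * (sec (k * x i))⁻¹, ?_, ?_⟩
    · rw [map_mul, map_mul, map_inv, hsec, hsec]
      simp [hx]
    · rw [hΦ, hΦ, map_mul, hsec, hΦv, der_inv π Φ hΦ, hsec, bd_single, mul_sub, mul_one,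
        ← map_mul, map_sub, hL, extZ_of, extZ_of, Equiv.apply_symm_apply]
      have e1 : π (FreeGroup.of (e.symm i)) = x i := rfl
      rw [e1, smul_neg, smul_smul, ← map_mul, mul_inv_cancel, map_one, one_smul]
      have e2 : of ℤ K k • (Pi.single i 1 : Fin n → MonoidAlgebra ℤ K) =
          Pi.single i (of ℤ K k) := by
        rw [← Pi.single_smul, smul_eq_mul, mul_one]
      rw [e2]
      abel
  have hsingle : ∀ i c, Pi.single i c - L (bd x (Pi.single i c)) ∈ kerVals π Φ hΦ := by
    intro i c
    induction c using zg_induction with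
    | h0 =>
      rw [Pi.single_zero, map_zero, map_zero, sub_zero]
      exact zero_mem _
    | hadd a b ha hb =>
      have e3 : (Pi.single i (a + b) : Fin n → MonoidAlgebra ℤ K) =
          Pi.single i a + Pi.single i b :=
        Pi.single_add (f := fun _ => MonoidAlgebra ℤ K) i a b
      rw [e3, map_add, map_add]
      have := add_mem ha hb
      convert this using 1
      abel
    | hneg a ha =>
      have e3 : (Pi.single i (-a) : Fin n → MonoidAlgebra ℤ K) = -Pi.single i a :=
        Pi.single_neg (f := fun _ => MonoidAlgebra ℤ K) i a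
      rw [e3, map_neg, map_neg]
      have := neg_mem ha
      convert this using 1
      abel
    | hof k => exact hgen i k
  have hall : ∀ a : Fin n → MonoidAlgebra ℤ K, a - L (bd x a) ∈ kerVals π Φ hΦ := by
    intro a
    have e3 : a = ∑ i, Pi.single i (a i) := (Finset.univ_sum_single a).symm
    have e4 : a - L (bd x a) = ∑ i, (Pi.single i (a i) - L (bd x (Pi.single i (a i)))) := by
      rw [Finset.sum_sub_distrib, ← map_sum, ← map_sum, ← e3]
    rw [e4]
    exact sum_mem (fun i _ => hsingle i (a i))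
  have hker : ∀ a ∈ LinearMap.ker (bd x), ∃ r, π r = 1 ∧ Φ r = a := by
    intro a ha
    have := hall a
    rw [LinearMap.mem_ker.1 ha, map_zero, sub_zero] at this
    exact (mem_kerVals π Φ hΦ a).1 this
  -- (4)
  obtain ⟨S, hS⟩ := hrel n x hcl
  have hSk : ∀ s ∈ S, s ∈ LinearMap.ker (bd x) := by
    intro s hs
    rw [← hS]
    exact Submodule.subset_span hs
  have hch : ∀ s : Fin n → MonoidAlgebra ℤ K, ∃ r, s ∈ S → (π r = 1 ∧ Φ r = s) := by
    intro s
    by_cases hs : s ∈ S
    · obtain ⟨r, hr⟩ := hker s (hSk s hs)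
      exact ⟨r, fun _ => hr⟩
    · exact ⟨1, fun h => absurd h hs⟩
  choose g hg using hch
  refine ⟨S.image g, ?_, ?_⟩
  · intro r hr
    obtain ⟨s, hs, rfl⟩ := Finset.mem_image.1 hr
    exact (hg s hs).1
  · intro D hD J hJ r hr
    set lin : (Fin n → MonoidAlgebra ℤ K) →ₗ[MonoidAlgebra ℤ K] MonoidAlgebra ℤ K :=
      Fintype.linearCombination (MonoidAlgebra ℤ K) (fun i => D (FreeGroup.of (e.symm i)))
      with hlin
    have hlin1 : ∀ u, D u = lin (Φ u) := by
      apply der_unique π D (fun u => lin (Φ u))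
      · intro u v
        rw [hD, smul_eq_mul]
      · intro u v
        rw [hΦ, map_add, map_smul]
      · intro y
        rw [hΦv, hlin, Fintype.linearCombination_apply, Finset.sum_eq_single (e y)]
        · rw [Pi.single_eq_same, one_smul, Equiv.symm_apply_apply]
        · intro j _ hj
          rw [Pi.single_eq_of_ne hj, zero_smul]
        · intro h
          exact absurd (Finset.mem_univ _) h
    have hspan : LinearMap.ker (bd x) ≤ J.comap lin := by
      rw [← hS, Submodule.span_le]
      intro s hs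
      show lin s ∈ J
      have hs' : s ∈ S := hs
      rw [← (hg s hs').2, ← hlin1]
      exact hJ _ (Finset.mem_image_of_mem g hs')
    rw [hlin1]
    have hm : Φ r ∈ LinearMap.ker (bd x) := by
      rw [LinearMap.mem_ker, h2, hr, map_one, sub_self]
    exact hspan hm

end Pool.Agent.PDC
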