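import Mathlib
import Pool.Agent.PDC.BWords

set_option autoImplicit false

/-!
# PDC-BLift: walks in the approximating graph lift to words

The graph: vertices W = Σ x, K ⧸ (B x).map π, edges Σ e, K ⧸ C e.

PLAN.  Induction on L generalizing k, x.  L = []: l = [], b = 1, y = x (val = 1).
L = (⟨e, q⟩, s) :: L', q = κ mod C e (`QuotientGroup.mk_surjective`).
 s = true: dsrc = sr ⟨e, κ⟩ = ⟨o e, κ⟩ = ⟨x, k⟩: subst x = o e, and k⁻¹ * κ ∈ (B x).map π (`QuotientGroup.eq`, symmetrised), so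
  κ = k * π c, c ∈ B x.  First letter (c, e, true), next position k * π c * π(τ e) = κ * π(τ e), dtgt = ⟨t e, κ π(τ e)⟩.
 s = false: dsrc = tg ⟨e, κ⟩ = ⟨t e, κ π(τ e)⟩ = ⟨x, k⟩: x = t e, κ * π(τ e) = k * π c, c ∈ B x.  First letter (c, e, false), dart
  ⟨e, k π c (π(τ e))⁻¹⟩ = ⟨e, κ⟩, next position κ, dtgt = ⟨o e, κ⟩.
Value: val (c :: l') b = c * sg (τ e) s * val l' b.
-/

namespace Pool.Agent.PDC

theorem lift_word {F K R E : Type} [Group F] [Group K] (π : F →* K) (o t : E → R) (τ : E → F)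
    (B : R → Subgroup F) (C : E → Subgroup K)
    (sr tg : (Σ e : E, K ⧸ C e) → (Σ x : R, K ⧸ (B x).map π))
    (hs : ∀ e (k : K), sr ⟨e, (k : K ⧸ C e)⟩ = ⟨o e, ((k : K) : K ⧸ (B (o e)).map π)⟩)
    (ht : ∀ e (k : K), tg ⟨e, (k : K ⧸ C e)⟩ =
      ⟨t e, ((k * π (τ e) : K) : K ⧸ (B (t e)).map π)⟩)
    (L : List ((Σ e : E, K ⧸ C e) × Bool)) (k : K) (x : R) (w : Σ x : R, K ⧸ (B x).map π)
    (hL : IsW sr tg ⟨x, ((k : K) : K ⧸ (B x).map π)⟩ L w) :
    ∃ (l : List (F × E × Bool)) (b : F) (y : R), Valid o t B x l b y ∧ darts π τ C k l = L ∧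
      w = ⟨y, ((k * π (val τ l b) : K) : K ⧸ (B y).map π)⟩ := by
  induction L generalizing k x with
  | nil =>
    refine ⟨[], 1, x, ⟨rfl, (B x).one_mem⟩, rfl, ?_⟩
    have h : (⟨x, ((k : K) : K ⧸ (B x).map π)⟩ : Σ x : R, K ⧸ (B x).map π) = w := hL
    rw [← h]
    simp [val]
  | cons d L ih =>
    obtain ⟨⟨e, q⟩, s⟩ := d
    obtain ⟨κ, rfl⟩ := QuotientGroup.mk_surjective q
    obtain ⟨h1, h2⟩ := hL
    cases s with
    | true =>
      have h3 : (⟨o e, ((κ : K) : K ⧸ (B (o e)).map π)⟩ : Σ x : R, K ⧸ (B x).map π) =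
          ⟨x, ((k : K) : K ⧸ (B x).map π)⟩ := (hs e κ).symm.trans h1
      obtain ⟨hx, hq⟩ := Sigma.mk.inj_iff.1 h3
      subst hx
      have hq2 := QuotientGroup.eq.1 (eq_of_heq hq).symm
      obtain ⟨c, hc, hcq⟩ := Subgroup.mem_map.1 hq2
      have hκ : κ = k * π c := by rw [hcq, mul_inv_cancel_left]
      subst hκ
      have h4 : IsW sr tg (⟨t e, ((k * π c * π (τ e) : K) : K ⧸ (B (t e)).map π)⟩ :
          Σ x : R, K ⧸ (B x).map π) L w := by
        rw [← ht e (k * π c)]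
        exact h2
      obtain ⟨l, b, y, hv, hd, hw⟩ := ih (k * π c * π (τ e)) (t e) h4
      refine ⟨(c, e, true) :: l, b, y, ⟨rfl, hc, hv⟩, ?_, ?_⟩
      · show (_ :: darts π τ C (k * π c * sg (π (τ e)) true) l) = _
        rw [← hd]
        rfl
      · rw [hw]
        have e1 : k * π c * π (τ e) * π (val τ l b) = k * π (val τ ((c, e, true) :: l) b) := by
          show _ = k * π (c * (τ e) * val τ l b)
          rw [map_mul, map_mul]
          simp only [mul_assoc]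
        rw [e1]
    | false =>
      have h3 : (⟨t e, ((κ * π (τ e) : K) : K ⧸ (B (t e)).map π)⟩ :
          Σ x : R, K ⧸ (B x).map π) = ⟨x, ((k : K) : K ⧸ (B x).map π)⟩ := (ht e κ).symm.trans h1
      obtain ⟨hx, hq⟩ := Sigma.mk.inj_iff.1 h3
      subst hx
      have hq2 := QuotientGroup.eq.1 (eq_of_heq hq).symm
      obtain ⟨c, hc, hcq⟩ := Subgroup.mem_map.1 hq2
      have hκ : κ = k * π c * (π (τ e))⁻¹ := by
        rw [hcq, mul_inv_cancel_left, mul_inv_cancel_right]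
      subst hκ
      have h4 : IsW sr tg (⟨o e, ((k * π c * (π (τ e))⁻¹ : K) : K ⧸ (B (o e)).map π)⟩ :
          Σ x : R, K ⧸ (B x).map π) L w := by
        rw [← hs e (k * π c * (π (τ e))⁻¹)]
        exact h2
      obtain ⟨l, b, y, hv, hd, hw⟩ := ih (k * π c * (π (τ e))⁻¹) (o e) h4
      refine ⟨(c, e, false) :: l, b, y, ⟨rfl, hc, hv⟩, ?_, ?_⟩
      · show (_ :: darts π τ C (k * π c * sg (π (τ e)) false) l) = _
        rw [← hd]
        rfl
      · rw [hw]
        have e1 : k * π c * (π (τ e))⁻¹ * π (val τ l b) =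
            k * π (val τ ((c, e, false) :: l) b) := by
          show _ = k * π (c * (τ e)⁻¹ * val τ l b)
          rw [map_mul, map_mul, map_inv]
          simp only [mul_assoc]
        rw [e1]

end Pool.Agent.PDC
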