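import Mathlib
import Pool.Agent.PDC.BLift
import Pool.Agent.PDC.BChain

set_option autoImplicit false

/-!
# PDC-BGam: closed walks in the approximating graph have zero chain

PLAN.  v = ⟨x, k⟩ (`QuotientGroup.mk_surjective`).  `lift_word`: l, b, y with darts = L and v = ⟨y, k π(val l b)⟩, so y = x and
π (val l b) ∈ (B x).map π (`QuotientGroup.eq`): β ∈ B x, π β = π (val l b).  b' := b * β⁻¹: Valid again (only the last element
changes: small lemma val τ l (b * β⁻¹) = val τ l b * β⁻¹ and Valid with b * β⁻¹; the last type is x), the darts do not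
depend on b, π (val τ l b') = 1.  `chain_word`: chn L at ⟨e, q⟩ is psh (of k * (D e (val l b') - n x e • 1 + n x e • of 1)) q =
psh (of k * D e (val l b')) q = 0 (hker, `psh_mul_zero`).  Finsupp.ext.
-/

namespace Pool.Agent.PDC

open MonoidAlgebra

private theorem val_mul_r {F E : Type} [Group F] (τ : E → F) (l : List (F × E × Bool)) (b c : F) :
    val τ l (b * c) = val τ l b * c := by
  induction l with
  | nil => rfl
  | cons a l ih =>
    change a.1 * sg (τ a.2.1) a.2.2 * val τ l (b * c) = a.1 * sg (τ a.2.1) a.2.2 * val τ l b * c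
    rw [ih, ← mul_assoc]

private theorem valid_mul_r {F R E : Type} [Group F] (o t : E → R) (B : R → Subgroup F)
    (l : List (F × E × Bool)) (x y : R) (b c : F) (h : Valid o t B x l b y) (hc : c ∈ B y) :
    Valid o t B x l (b * c) y := by
  induction l generalizing x with
  | nil =>
    obtain ⟨h1, h2⟩ := h
    subst h1
    exact ⟨rfl, (B x).mul_mem h2 hc⟩
  | cons a l ih =>
    obtain ⟨h1, h2, h3⟩ := h
    exact ⟨h1, h2, ih _ h3⟩

theorem gamma_zero {K : Type} [Group K] (X : GD K)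
    (B : X.R → Subgroup (FreeGroup X.Y)) (C : X.E → Subgroup K)
    (hB : ∀ x, ∀ b ∈ B x, ∀ e', psh (C e') (X.D e' b - X.n x e' • (1 - of ℤ K (X.π b))) = 0)
    (hker : ∀ r, X.π r = 1 → ∀ e, psh (C e) (X.D e r) = 0)
    (sr tg : (Σ e : X.E, K ⧸ C e) → (Σ x : X.R, K ⧸ (B x).map X.π))
    (hs : ∀ e (k : K), sr ⟨e, (k : K ⧸ C e)⟩ = ⟨X.o e, ((k : K) : K ⧸ (B (X.o e)).map X.π)⟩)
    (ht : ∀ e (k : K), tg ⟨e, (k : K ⧸ C e)⟩ =
      ⟨X.t e, ((k * X.π (X.τ e) : K) : K ⧸ (B (X.t e)).map X.π)⟩)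
    (v : Σ x : X.R, K ⧸ (B x).map X.π) (L : List ((Σ e : X.E, K ⧸ C e) × Bool))
    (hL : IsW sr tg v L v) : chn L = 0 := by
  obtain ⟨x, q0⟩ := v
  obtain ⟨k, rfl⟩ := QuotientGroup.mk_surjective q0
  obtain ⟨l, b, y, hV, hd, hw⟩ := lift_word X.π X.o X.t X.τ B C sr tg hs ht L k x _ hL
  have hxy : x = y := congrArg Sigma.fst hw
  subst hxy
  have hq := eq_of_heq (Sigma.mk.inj hw).2
  rw [QuotientGroup.eq] at hq
  obtain ⟨β, hβ, hβ2⟩ := Subgroup.mem_map.1 hq
  have hβ3 : X.π β = X.π (val X.τ l b) := by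
    rw [hβ2]; group
  have hV' := valid_mul_r X.o X.t B l x x b β⁻¹ hV ((B x).inv_mem hβ)
  have hval : X.π (val X.τ l (b * β⁻¹)) = 1 := by
    rw [val_mul_r, map_mul, map_inv, hβ3, mul_inv_cancel]
  ext ⟨e, q⟩
  rw [← hd, chain_word X B C hB l (b * β⁻¹) x x hV' k e q, hval, map_one, sub_add_cancel,
    psh_mul_zero _ _ _ (hker _ hval e)]
  rfl

end Pool.Agent.PDC
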