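import Mathlib
import Pool.Agent.PDC.BDefs
import Pool.Agent.PDC.BCut

set_option autoImplicit false

/-!
# PDC-BTreeZ: in the tree closed walks have zero chain

PLAN.  Fix an edge ε0 = ⟨e0, k0⟩ (`Quotient.inductionOn` / `QuotientGroup.mk_surjective`); a := k0 • xr (o e0),
b := k0 • π(τ e0) • xr (t e0), adjacent (hadj, Z.adj).  h from `cut_fun`.  For a dart d = (⟨e, k⟩, s) with source y and
target z: T.Adj y z and
   h z - h y = (Finsupp.single d.1 (if s then 1 else -1)) ε0.                            (1)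
s = true: (y, z) = (k xr(o e), k g_e xr(t e)).  (y,z) = (a,b) iff ⟨e,k⟩ = ε0: if equal, with k1 = k0⁻¹ k: Z.ineq gives e = e0 and
then k1 ∈ KE e0, so the cosets agree (`QuotientGroup.eq`); conversely the cosets equal gives equal ends.  (y,z) = (b,a)
impossible by Z.noinv.  s = false: swap.
Sum (1) over the walk: h w - h v = (chn L) ε0 for IsW v L w.  v = w: (chn L) ε0 = 0.  `Finsupp.ext`.
-/

namespace Pool.Agent.PDC

theorem tree_zero {K : Type} [Group K] {X : GD K} {V : Type} {T : SimpleGraph V} [MulAction K V]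
    (hT : T.IsAcyclic) (hadj : ∀ (g : K) (v w : V), T.Adj v w → T.Adj (g • v) (g • w))
    (Z : TA X V T)
    (sr tg : (Σ e : X.E, K ⧸ KE Z e) → V)
    (hs : ∀ e (k : K), sr ⟨e, (k : K ⧸ KE Z e)⟩ = k • Z.xr (X.o e))
    (ht : ∀ e (k : K), tg ⟨e, (k : K ⧸ KE Z e)⟩ = (k * X.π (X.τ e)) • Z.xr (X.t e))
    (v : V) (L : List ((Σ e : X.E, K ⧸ KE Z e) × Bool)) (hL : IsW sr tg v L v) : chn L = 0 := by
  classical
  have key : ∀ ε0 : (Σ e : X.E, K ⧸ KE Z e), ∃ h : V → ℤ, ∀ d : (Σ e : X.E, K ⧸ KE Z e),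
      h (tg d) - h (sr d) = if d = ε0 then 1 else 0 := by
    rintro ⟨e0, c0⟩
    obtain ⟨k0, rfl⟩ := QuotientGroup.mk_surjective c0
    have hab : T.Adj (k0 • Z.xr (X.o e0)) ((k0 * X.π (X.τ e0)) • Z.xr (X.t e0)) := by
      rw [mul_smul]
      exact hadj k0 _ _ (Z.adj e0)
    obtain ⟨h, hh⟩ := cut_fun T hT _ _ hab
    refine ⟨h, ?_⟩
    rintro ⟨e, c⟩
    obtain ⟨k, rfl⟩ := QuotientGroup.mk_surjective c
    have hadj' : T.Adj (k • Z.xr (X.o e)) ((k * X.π (X.τ e)) • Z.xr (X.t e)) := by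
      rw [mul_smul]
      exact hadj k _ _ (Z.adj e)
    rw [hs, ht, hh _ _ hadj']
    have mv : ∀ (u : K) (p q : V), k • p = (k0 * u) • q → (k0⁻¹ * k) • p = u • q := by
      intro u p q hpq
      rw [mul_smul, hpq, ← mul_smul, inv_mul_cancel_left]
    have h2 : ¬ (k • Z.xr (X.o e) = (k0 * X.π (X.τ e0)) • Z.xr (X.t e0) ∧
        (k * X.π (X.τ e)) • Z.xr (X.t e) = k0 • Z.xr (X.o e0)) := by
      rintro ⟨h3, h4⟩
      refine Z.noinv (k0⁻¹ * k) e e0 (mv _ _ _ h3) ?_
      have h5 := mv 1 (X.π (X.τ e) • Z.xr (X.t e)) (Z.xr (X.o e0)) (by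
        rw [← mul_smul, h4, mul_one])
      rwa [one_smul] at h5
    rw [if_neg h2, sub_zero]
    by_cases h1 : k • Z.xr (X.o e) = k0 • Z.xr (X.o e0) ∧
        (k * X.π (X.τ e)) • Z.xr (X.t e) = (k0 * X.π (X.τ e0)) • Z.xr (X.t e0)
    · rw [if_pos h1, if_pos]
      have h6 := mv 1 (Z.xr (X.o e)) (Z.xr (X.o e0)) (by rw [mul_one]; exact h1.1)
      rw [one_smul] at h6
      have h7 := mv (X.π (X.τ e0)) (X.π (X.τ e) • Z.xr (X.t e)) (Z.xr (X.t e0)) (by
        rw [← mul_smul]; exact h1.2)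
      have he : e = e0 := Z.ineq (k0⁻¹ * k) e e0 h6 h7
      subst he
      have hc : ((k : K) : K ⧸ KE Z e) = ((k0 : K) : K ⧸ KE Z e) := by
        symm
        rw [QuotientGroup.eq]
        exact ⟨h6, h7⟩
      rw [hc]
    · rw [if_neg h1, if_neg]
      intro h3
      apply h1
      have h4 := congrArg sr h3
      have h5 := congrArg tg h3
      rw [hs, hs] at h4
      rw [ht, ht] at h5
      exact ⟨h4, h5⟩
  have walk : ∀ (ε0 : (Σ e : X.E, K ⧸ KE Z e)) (h : V → ℤ),
      (∀ d : (Σ e : X.E, K ⧸ KE Z e), h (tg d) - h (sr d) = if d = ε0 then 1 else 0) →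
      ∀ (L : List ((Σ e : X.E, K ⧸ KE Z e) × Bool)) (v w : V), IsW sr tg v L w →
        h w - h v = (chn L) ε0 := by
    intro ε0 h hh L
    induction L with
    | nil =>
      intro v w hL
      have e : v = w := hL
      rw [e, sub_self]
      rfl
    | cons d L ih =>
      intro v w hL
      obtain ⟨h1, h2⟩ := hL
      have h3 := ih _ _ h2
      have h4 : h (dtgt sr tg d) - h v = (Finsupp.single d.1 (if d.2 then (1 : ℤ) else -1)) ε0 := by
        rw [← h1, Finsupp.single_apply]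
        obtain ⟨d, s⟩ := d
        have h5 := hh d
        cases s with
        | true =>
          simp only [dtgt, dsrc, if_true]
          exact h5
        | false =>
          simp only [dtgt, dsrc, if_false, Bool.false_eq_true]
          have h6 : h (sr d) - h (tg d) = - (h (tg d) - h (sr d)) := by ring
          rw [h6, h5]
          split_ifs <;> simp
      change h w - h v = (Finsupp.single d.1 (if d.2 then (1 : ℤ) else -1) + chn L) ε0
      rw [Finsupp.add_apply, ← h3, ← h4]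
      ring
  refine Finsupp.ext fun ε0 => ?_
  obtain ⟨h, hh⟩ := key ε0
  rw [← walk ε0 h hh L v v hL, sub_self]
  rfl

end Pool.Agent.PDC
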