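import Mathlib
import Pool.Agent.PDC.BCore
import Pool.Agent.PDC.BTreeZ

set_option autoImplicit false

/-!
# PDC-BTree: elements of F whose image fixes the base vertex are in the closure BT

PLAN.  B x := the subgroup with carrier {u | BT Z x u} (BT.one, mul, inv).
bt_stab: BT Z x u → π u • xr x = xr x, by induction on BT: letters stabA; mul, inv clear; up: the hypothesis
 π(τ c τ⁻¹) ∈ KE e ≤ stabilizer (xr (o e)); dn: π c fixes π(τ e) • xr (t e), so π(τ⁻¹ c τ) fixes xr (t e).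
Apply `core` with W := V, C := KE Z, vtx k x := k • xr x, hv from bt_stab (mul_smul), M := ⊥, sr, tg the obvious maps on
the quotients (define by Quotient.lift / `Quotient.out`: e.g. sr ⟨e, q⟩ := q.out • xr (o e); hs: the representative
differs by an element of KE e, which fixes both ends), hZ := `tree_zero`, hup := BT.up (c' := τ c τ⁻¹, the product is 1),
hdn := BT.dn.  Given u: X.words gives a valid word over closure (A x) from r0 to r0 with value u; closure (A x) ≤ B x
(Valid is monotone in B, easy induction).  core: u * c⁻¹ ∈ ⊥, c ∈ B r0.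
-/

namespace Pool.Agent.PDC

theorem bt_stab {K : Type} [Group K] {X : GD K} {V : Type} {T : SimpleGraph V} [MulAction K V]
    (Z : TA X V T) (x : X.R) (u : FreeGroup X.Y) (h : BT Z x u) : X.π u • Z.xr x = Z.xr x := by
  induction h with
  | letter x a ha => exact Z.stabA x a ha
  | one x => rw [map_one, one_smul]
  | mul x a b _ _ iha ihb => rw [map_mul, mul_smul, ihb, iha]
  | inv x a _ iha => rw [map_inv, inv_smul_eq_iff, iha]
  | up e c _ h _ => exact h.1
  | dn e c _ h _ =>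
    have h2 : X.π c • X.π (X.τ e) • Z.xr (X.t e) = X.π (X.τ e) • Z.xr (X.t e) := h.2
    rw [map_mul, map_mul, map_inv, mul_smul, mul_smul, h2, inv_smul_smul]

private theorem valid_mono {F R E : Type} [Group F] (o t : E → R) (B1 B2 : R → Subgroup F)
    (hB : ∀ x, B1 x ≤ B2 x) (l : List (F × E × Bool)) (b : F) (y : R) :
    ∀ x, Valid o t B1 x l b y → Valid o t B2 x l b y := by
  induction l with
  | nil => exact fun x h => ⟨h.1, hB x h.2⟩
  | cons c l ih => exact fun x h => ⟨h.1, hB x h.2.1, ih _ h.2.2⟩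

theorem bt_of_fix {K : Type} [Group K] {X : GD K} {V : Type} {T : SimpleGraph V} [MulAction K V]
    (hT : T.IsAcyclic) (hadj : ∀ (g : K) (v w : V), T.Adj v w → T.Adj (g • v) (g • w))
    (Z : TA X V T) (u : FreeGroup X.Y) (hu : X.π u • Z.xr X.r0 = Z.xr X.r0) : BT Z X.r0 u := by
  let B : X.R → Subgroup (FreeGroup X.Y) := fun x =>
    { carrier := {u | BT Z x u}
      mul_mem' := fun {a b} ha hb => BT.mul x a b ha hb
      one_mem' := BT.one x
      inv_mem' := fun {a} ha => BT.inv x a ha }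
  have hB : ∀ x, Subgroup.closure (X.A x) ≤ B x := fun x =>
    (Subgroup.closure_le _).2 fun a ha => BT.letter x a ha
  have hmem : ∀ x a, a ∈ B x ↔ BT Z x a := fun x a => Iff.rfl
  let vtx : K → X.R → V := fun k x => k • Z.xr x
  have hv : ∀ k x, ∀ b ∈ B x, vtx (k * X.π b) x = vtx k x := by
    intro k x b hb
    change (k * X.π b) • Z.xr x = k • Z.xr x
    rw [mul_smul, bt_stab Z x b hb]
  let sr : (Σ e : X.E, K ⧸ KE Z e) → V := fun p => p.2.out • Z.xr (X.o p.1)
  let tg : (Σ e : X.E, K ⧸ KE Z e) → V := fun p => (p.2.out * X.π (X.τ p.1)) • Z.xr (X.t p.1)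
  have hs : ∀ e (k : K), sr ⟨e, (k : K ⧸ KE Z e)⟩ = k • Z.xr (X.o e) := by
    intro e k
    obtain ⟨h, hh⟩ := QuotientGroup.mk_out_eq_mul (KE Z e) k
    have h1 : (h : K) • Z.xr (X.o e) = Z.xr (X.o e) := h.2.1
    change ((k : K ⧸ KE Z e).out) • Z.xr (X.o e) = k • Z.xr (X.o e)
    rw [hh, mul_smul, h1]
  have ht : ∀ e (k : K), tg ⟨e, (k : K ⧸ KE Z e)⟩ = (k * X.π (X.τ e)) • Z.xr (X.t e) := by
    intro e k
    obtain ⟨h, hh⟩ := QuotientGroup.mk_out_eq_mul (KE Z e) k
    have h1 : (h : K) • X.π (X.τ e) • Z.xr (X.t e) = X.π (X.τ e) • Z.xr (X.t e) := h.2.2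
    change ((k : K ⧸ KE Z e).out * X.π (X.τ e)) • Z.xr (X.t e) = (k * X.π (X.τ e)) • Z.xr (X.t e)
    rw [hh, mul_smul, mul_smul, mul_smul, h1]
  have hZ : ∀ v L, IsW sr tg v L v → chn L = 0 := fun v L hL =>
    tree_zero hT hadj Z sr tg hs ht v L hL
  obtain ⟨l, b, hval, hvu⟩ := X.words u
  have hval' := valid_mono X.o X.t _ B hB l b X.r0 X.r0 hval
  obtain ⟨c, hc, hcM⟩ := core X.π X.o X.t X.τ B (KE Z) vtx hv sr tg hs ht hZ ⊥ bot_le
    (fun e c hc h => ⟨X.τ e * c * (X.τ e)⁻¹, BT.up e c hc h, by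
      rw [mul_inv_cancel]
      exact Subgroup.one_mem _⟩)
    (fun e c hc h => ⟨(X.τ e)⁻¹ * c * X.τ e, BT.dn e c hc h, by
      rw [mul_inv_cancel]
      exact Subgroup.one_mem _⟩)
    X.r0 l b hval' (by
      change X.π (val X.τ l b) • Z.xr X.r0 = (1 : K) • Z.xr X.r0
      rw [hvu, hu, one_smul])
  rw [hvu, Subgroup.mem_bot, mul_inv_eq_one] at hcM
  rw [hcM]
  exact hc

end Pool.Agent.PDC
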