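import Mathlib
import Pool.Agent.Helper13.FPTools
import Pool.Agent.PDC.BFoxB
import Pool.Agent.PDC.BTree
import Pool.Agent.PDC.BAdmB
import Pool.Agent.PDC.BGam

set_option autoImplicit false

/-!
# PDC-BFin: finite presentability from graph data

PLAN.  Rj from `fox_fin` (π = X.π, X.πsurj, hrel).  Each r ∈ Rj has π r = 1, so `bt_of_fix` gives BT Z r0 r; `adm_finset`:
Ψ admissible with all r ∈ Rj in BP X Ψ r0.  C e := CP X Ψ e, B x := BP X Ψ x.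
 * for r ∈ Rj, all e: psh (C e) (D e r) = 0: `adm_B` at r0, X.n0 and π r = 1.  So for all r with π r = 1 (fox_fin with J = JC (C e),
   D = X.D e, X.Dmul): psh (C e) (D e r) = 0.
 * C e ≤ (B (o e)).map π and (π(τ e))⁻¹ C e π(τ e) ≤ (B (t e)).map π (closure (Ψ e) maps onto C e: `Subgroup.map_closure`/
   `MonoidHom.map_closure`; closure (Ψ e) ≤ B (o e), and τ⁻¹ closure(Ψ e) τ ≤ B (t e)).  So sr, tg are well defined (define them with
   `Quotient.out`: sr ⟨e, q⟩ := ⟨o e, q.out⟩ and check hs, ht by `QuotientGroup.eq`).  `gamma_zero` = hZ.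
 * (B x).map π is finitely generated (A x finite, E finite, Ψ e finite) and fixes Z.xr x (`adm_stab`), hence finitely presented by
   hst.  The surjection B x → (B x).map π (`MonoidHom.subgroupMap`) has, by `Pool.Agent.Helper13.ker_fng`, kernel the normal
   closure (in B x) of a finite set Σ x.  M := normalClosure of the union over x of the images of Σ x in FreeGroup Y: finite set;
   M ≤ ker π; and every u ∈ B x with π u = 1 is in M (the image of the normal closure in B x is in M: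
   comap of M under (B x).subtype is normal and contains Σ x).
 * `core` with W = Σ x, K ⧸ (B x).map π, vtx k x = ⟨x, k⟩:
   hup: c ∈ B (t e), π(τ c τ⁻¹) ∈ C e: choose ψ ∈ closure (Ψ e) with π ψ = π(τ c τ⁻¹); ψ ∈ B (o e), c'' := τ⁻¹ ψ τ ∈ B (t e), π c'' = π c,
     c c''⁻¹ ∈ B (t e) ∩ ker ⊆ M; τ c τ⁻¹ ψ⁻¹ = τ (c c''⁻¹) τ⁻¹ ∈ M.
   hdn: c ∈ B (o e), π c ∈ C e: ψ ∈ closure (Ψ e), π ψ = π c, c ψ⁻¹ ∈ M, c' := τ⁻¹ ψ τ ∈ B (t e), τ⁻¹ c τ c'⁻¹ = τ⁻¹ (c ψ⁻¹) τ ∈ M.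
 * u ∈ ker π: X.words gives a valid word over closure (A x) ≤ B x (monotone), core (closed: π u = 1): u c⁻¹ ∈ M, c ∈ B r0,
   π c = 1 (M ≤ ker), so c ∈ M, u ∈ M.  So ker π = M is finitely normally generated;
   `Group.IsFinitelyPresented.of_surjective` with FreeGroup Y (instance for Finite Y).
-/

namespace Pool.Agent.PDC

open MonoidAlgebra

private theorem CP_lift {K : Type} [Group K] (X : GD K) (Ψ : X.E → Finset (FreeGroup X.Y))
    (e : X.E) (k : K) (hk : k ∈ CP X Ψ e) :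
    ∃ ψ ∈ Subgroup.closure (Ψ e : Set (FreeGroup X.Y)), X.π ψ = k := by
  unfold CP at hk
  rw [← MonoidHom.map_closure] at hk
  obtain ⟨ψ, h1, h2⟩ := hk
  exact ⟨ψ, h1, h2⟩

private theorem clo_o {K : Type} [Group K] (X : GD K) (Ψ : X.E → Finset (FreeGroup X.Y))
    (e : X.E) : Subgroup.closure (Ψ e : Set (FreeGroup X.Y)) ≤ BP X Ψ (X.o e) := by
  rw [Subgroup.closure_le]
  intro u hu
  exact Subgroup.subset_closure (Or.inl (Or.inr ⟨e, rfl, hu⟩))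

private theorem clo_t {K : Type} [Group K] (X : GD K) (Ψ : X.E → Finset (FreeGroup X.Y)) (e : X.E)
    (ψ : FreeGroup X.Y) (hψ : ψ ∈ Subgroup.closure (Ψ e : Set (FreeGroup X.Y))) :
    (X.τ e)⁻¹ * ψ * X.τ e ∈ BP X Ψ (X.t e) := by
  induction hψ using Subgroup.closure_induction with
  | mem u hu => exact Subgroup.subset_closure (Or.inr ⟨e, rfl, u, hu, rfl⟩)
  | one =>
    rw [mul_one, inv_mul_cancel]
    exact Subgroup.one_mem _
  | mul a b _ _ ha hb =>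
    have h := mul_mem ha hb
    have h3 : (X.τ e)⁻¹ * (a * b) * X.τ e =
        (X.τ e)⁻¹ * a * X.τ e * ((X.τ e)⁻¹ * b * X.τ e) := by group
    rw [h3]
    exact h
  | inv a _ ha =>
    have h := inv_mem ha
    have h3 : (X.τ e)⁻¹ * a⁻¹ * X.τ e = ((X.τ e)⁻¹ * a * X.τ e)⁻¹ := by group
    rw [h3]
    exact h

private theorem BP_fg {K : Type} [Group K] (X : GD K) (Ψ : X.E → Finset (FreeGroup X.Y))
    (x : X.R) : (BP X Ψ x).FG := by
  rw [Subgroup.fg_iff]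
  refine ⟨_, rfl, ?_⟩
  refine Set.Finite.union (Set.Finite.union (X.fA x) ?_) ?_
  · refine Set.Finite.subset (Set.finite_iUnion (fun e : X.E => (Ψ e).finite_toSet)) ?_
    rintro u ⟨e, _, hu⟩
    exact Set.mem_iUnion.2 ⟨e, hu⟩
  · refine Set.Finite.subset (Set.finite_iUnion (fun e : X.E =>
      ((Ψ e).finite_toSet.image (fun c => (X.τ e)⁻¹ * c * X.τ e)))) ?_
    rintro u ⟨e, _, c, hc, rfl⟩
    exact Set.mem_iUnion.2 ⟨e, c, hc, rfl⟩

private theorem map_fg {F K : Type} [Group F] [Group K] (π : F →* K) (B : Subgroup F)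
    (hB : B.FG) : (B.map π).FG := by
  rw [Subgroup.fg_iff] at hB ⊢
  obtain ⟨S, hS, hSf⟩ := hB
  exact ⟨π '' S, by rw [← MonoidHom.map_closure, hS], hSf.image _⟩

private theorem ker_piece {F K : Type} [Group F] [Group K] (π : F →* K) (B : Subgroup F)
    (hB : B.FG) (hfp : Group.IsFinitelyPresented (B.map π)) :
    ∃ S : Set F, S.Finite ∧ (∀ s ∈ S, π s = 1) ∧
      ∀ M : Subgroup F, M.Normal → S ⊆ M → ∀ u ∈ B, π u = 1 → u ∈ M := by
  haveI : Group.FG B := (Group.fg_iff_subgroup_fg B).2 hB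
  haveI := hfp
  obtain ⟨S, hS, hSk⟩ := Pool.Agent.Helper13.ker_fng (π.subgroupMap B)
    (π.subgroupMap_surjective B)
  refine ⟨Subtype.val '' S, hS.image _, ?_, ?_⟩
  · rintro _ ⟨s, hs, rfl⟩
    have h1 : s ∈ (π.subgroupMap B).ker := by
      rw [← hSk]
      exact Subgroup.subset_normalClosure hs
    exact congrArg Subtype.val (MonoidHom.mem_ker.1 h1)
  · intro M hM hSM u hu hu1
    have h1 : (⟨u, hu⟩ : B) ∈ (π.subgroupMap B).ker := by
      rw [MonoidHom.mem_ker]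
      exact Subtype.ext hu1
    rw [← hSk] at h1
    haveI := hM
    have h2 : Subgroup.normalClosure S ≤ M.comap B.subtype :=
      Subgroup.normalClosure_le_normal (fun s hs => hSM ⟨s, hs, rfl⟩)
    exact h2 h1

private theorem Valid_mono {F R E : Type} [Group F] {o t : E → R} {B B' : R → Subgroup F}
    (h : ∀ x, B x ≤ B' x) (l : List (F × E × Bool)) : ∀ (x : R) (b : F) (y : R),
    Valid o t B x l b y → Valid o t B' x l b y := by
  induction l with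
  | nil =>
    rintro x b y ⟨h1, h2⟩
    exact ⟨h1, h _ h2⟩
  | cons c l ih =>
    rintro x b y ⟨h1, h2, h3⟩
    exact ⟨h1, h _ h2, ih _ _ _ h3⟩

theorem fp_of_data {K : Type} [Group K] (X : GD K) {V : Type} {T : SimpleGraph V}
    [MulAction K V] (hT : T.IsAcyclic)
    (hadj : ∀ (g : K) (v w : V), T.Adj v w → T.Adj (g • v) (g • w))
    (Z : TA X V T) (hrel : RelFG K)
    (hst : ∀ v : V, ∀ B : Subgroup K, B ≤ MulAction.stabilizer K v → B.FG →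
      Group.IsFinitelyPresented B) : Group.IsFinitelyPresented K := by
  classical
  obtain ⟨Rj, hRj1, hRj2⟩ := fox_fin X.π X.πsurj hrel
  have hBT : ∀ u ∈ Rj, BT Z X.r0 u := fun u hu =>
    bt_of_fix hT hadj Z u (by rw [hRj1 u hu, one_smul])
  obtain ⟨Ψ, hΨ, hΨR⟩ := adm_finset Z Rj hBT
  have hB := adm_B Z Ψ hΨ
  have hker : ∀ r, X.π r = 1 → ∀ e, psh (CP X Ψ e) (X.D e r) = 0 := by
    intro r hr e
    have h0 : ∀ r' ∈ Rj, X.D e r' ∈ JC (CP X Ψ e) := by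
      intro r' hr'
      rw [mem_JC]
      have h1 := hB X.r0 r' (hΨR r' hr') e
      rw [X.n0, zero_smul, sub_zero] at h1
      exact h1
    exact (mem_JC _).1 (hRj2 (X.D e) (X.Dmul e) (JC (CP X Ψ e)) h0 r hr)
  have hCo : ∀ e, ∀ k ∈ CP X Ψ e, k ∈ (BP X Ψ (X.o e)).map X.π := by
    intro e k hk
    obtain ⟨ψ, h1, h2⟩ := CP_lift X Ψ e k hk
    exact ⟨ψ, clo_o X Ψ e h1, h2⟩
  have hCt : ∀ e, ∀ k ∈ CP X Ψ e,
      (X.π (X.τ e))⁻¹ * k * X.π (X.τ e) ∈ (BP X Ψ (X.t e)).map X.π := by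
    intro e k hk
    obtain ⟨ψ, h1, h2⟩ := CP_lift X Ψ e k hk
    exact ⟨_, clo_t X Ψ e ψ h1, by rw [map_mul, map_mul, map_inv, h2]⟩
  let sr : (Σ e : X.E, K ⧸ CP X Ψ e) → (Σ x : X.R, K ⧸ (BP X Ψ x).map X.π) :=
    fun p => ⟨X.o p.1, ((p.2.out : K) : K ⧸ (BP X Ψ (X.o p.1)).map X.π)⟩
  let tg : (Σ e : X.E, K ⧸ CP X Ψ e) → (Σ x : X.R, K ⧸ (BP X Ψ x).map X.π) :=
    fun p => ⟨X.t p.1, ((p.2.out * X.π (X.τ p.1) : K) : K ⧸ (BP X Ψ (X.t p.1)).map X.π)⟩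
  have hs : ∀ e (k : K), sr ⟨e, (k : K ⧸ CP X Ψ e)⟩ =
      ⟨X.o e, ((k : K) : K ⧸ (BP X Ψ (X.o e)).map X.π)⟩ := by
    intro e k
    obtain ⟨c, hc⟩ := QuotientGroup.mk_out_eq_mul (CP X Ψ e) k
    have h1 : (((k : K ⧸ CP X Ψ e).out : K) : K ⧸ (BP X Ψ (X.o e)).map X.π) =
        ((k : K) : K ⧸ (BP X Ψ (X.o e)).map X.π) := by
      rw [hc, QuotientGroup.eq]
      have h2 : (k * (c : K))⁻¹ * k = (c : K)⁻¹ := by group
      rw [h2]
      exact inv_mem (hCo e _ c.2)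
    change (⟨X.o e, (((k : K ⧸ CP X Ψ e).out : K) : K ⧸ (BP X Ψ (X.o e)).map X.π)⟩ :
      (Σ x : X.R, K ⧸ (BP X Ψ x).map X.π)) = _
    rw [h1]
  have ht : ∀ e (k : K), tg ⟨e, (k : K ⧸ CP X Ψ e)⟩ =
      ⟨X.t e, ((k * X.π (X.τ e) : K) : K ⧸ (BP X Ψ (X.t e)).map X.π)⟩ := by
    intro e k
    obtain ⟨c, hc⟩ := QuotientGroup.mk_out_eq_mul (CP X Ψ e) k
    have h1 : (((k : K ⧸ CP X Ψ e).out * X.π (X.τ e) : K) : K ⧸ (BP X Ψ (X.t e)).map X.π) =
        ((k * X.π (X.τ e) : K) : K ⧸ (BP X Ψ (X.t e)).map X.π) := by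
      rw [hc, QuotientGroup.eq]
      have h2 : (k * (c : K) * X.π (X.τ e))⁻¹ * (k * X.π (X.τ e)) =
          ((X.π (X.τ e))⁻¹ * (c : K) * X.π (X.τ e))⁻¹ := by group
      rw [h2]
      exact inv_mem (hCt e _ c.2)
    change (⟨X.t e, (((k : K ⧸ CP X Ψ e).out * X.π (X.τ e) : K) :
      K ⧸ (BP X Ψ (X.t e)).map X.π)⟩ : (Σ x : X.R, K ⧸ (BP X Ψ x).map X.π)) = _
    rw [h1]
  have hZ : ∀ v L, IsW sr tg v L v → chn L = 0 := fun v L hL =>
    gamma_zero X (BP X Ψ) (CP X Ψ) hB hker sr tg hs ht v L hL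
  -- the finitely many relators
  have hst' : ∀ x, (BP X Ψ x).map X.π ≤ MulAction.stabilizer K (Z.xr x) := by
    rintro x _ ⟨b, hb, rfl⟩
    exact adm_stab Z Ψ hΨ x b hb
  have hfp : ∀ x, Group.IsFinitelyPresented ((BP X Ψ x).map X.π) := fun x =>
    hst (Z.xr x) _ (hst' x) (map_fg X.π _ (BP_fg X Ψ x))
  choose S hSf hS1 hS2 using fun x => ker_piece X.π (BP X Ψ x) (BP_fg X Ψ x) (hfp x)
  have hUf : (⋃ x, S x).Finite := Set.finite_iUnion hSf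
  obtain ⟨M, hMdef⟩ : ∃ M : Subgroup (FreeGroup X.Y), M = Subgroup.normalClosure (⋃ x, S x) :=
    ⟨_, rfl⟩
  haveI hMn : M.Normal := by
    rw [hMdef]
    infer_instance
  have hMk : M ≤ X.π.ker := by
    rw [hMdef]
    apply Subgroup.normalClosure_le_normal
    intro s hs'
    obtain ⟨x, hx⟩ := Set.mem_iUnion.1 hs'
    exact MonoidHom.mem_ker.2 (hS1 x s hx)
  have hBM : ∀ x, ∀ u ∈ BP X Ψ x, X.π u = 1 → u ∈ M := by
    intro x u hu hu1
    refine hS2 x M hMn ?_ u hu hu1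
    intro s hs'
    rw [hMdef]
    exact Subgroup.subset_normalClosure (Set.mem_iUnion.2 ⟨x, hs'⟩)
  have hup : ∀ e, ∀ c ∈ BP X Ψ (X.t e), X.π (X.τ e * c * (X.τ e)⁻¹) ∈ CP X Ψ e →
      ∃ c' ∈ BP X Ψ (X.o e), X.τ e * c * (X.τ e)⁻¹ * c'⁻¹ ∈ M := by
    intro e c hc hk
    obtain ⟨ψ, h1, h2⟩ := CP_lift X Ψ e _ hk
    refine ⟨ψ, clo_o X Ψ e h1, ?_⟩
    have h3 := clo_t X Ψ e ψ h1
    have h4 : c * ((X.τ e)⁻¹ * ψ * X.τ e)⁻¹ ∈ M := by
      refine hBM (X.t e) _ (mul_mem hc (inv_mem h3)) ?_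
      rw [map_mul, map_inv, map_mul, map_mul, map_inv, h2, map_mul, map_mul, map_inv]
      group
    have h5 := hMn.conj_mem _ h4 (X.τ e)
    have h6 : X.τ e * (c * ((X.τ e)⁻¹ * ψ * X.τ e)⁻¹) * (X.τ e)⁻¹ =
        X.τ e * c * (X.τ e)⁻¹ * ψ⁻¹ := by group
    rw [h6] at h5
    exact h5
  have hdn : ∀ e, ∀ c ∈ BP X Ψ (X.o e), X.π c ∈ CP X Ψ e →
      ∃ c' ∈ BP X Ψ (X.t e), (X.τ e)⁻¹ * c * X.τ e * c'⁻¹ ∈ M := by
    intro e c hc hk
    obtain ⟨ψ, h1, h2⟩ := CP_lift X Ψ e _ hk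
    refine ⟨(X.τ e)⁻¹ * ψ * X.τ e, clo_t X Ψ e ψ h1, ?_⟩
    have h4 : c * ψ⁻¹ ∈ M := by
      refine hBM (X.o e) _ (mul_mem hc (inv_mem (clo_o X Ψ e h1))) ?_
      rw [map_mul, map_inv, h2, mul_inv_cancel]
    have h5 := hMn.conj_mem _ h4 (X.τ e)⁻¹
    have h6 : (X.τ e)⁻¹ * (c * ψ⁻¹) * (X.τ e)⁻¹⁻¹ =
        (X.τ e)⁻¹ * c * X.τ e * ((X.τ e)⁻¹ * ψ * X.τ e)⁻¹ := by group
    rw [h6] at h5
    exact h5
  have hkM : X.π.ker = M := by
    refine le_antisymm ?_ hMk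
    intro u hu
    have hu1 : X.π u = 1 := MonoidHom.mem_ker.1 hu
    obtain ⟨l, b, hV, hval⟩ := X.words u
    have hV' : Valid X.o X.t (BP X Ψ) X.r0 l b X.r0 := by
      refine Valid_mono ?_ l _ _ _ hV
      intro x
      apply Subgroup.closure_mono
      intro a ha
      exact Or.inl (Or.inl ha)
    obtain ⟨c, hc, hcM⟩ := core X.π X.o X.t X.τ (BP X Ψ) (CP X Ψ)
      (fun k x => (⟨x, ((k : K) : K ⧸ (BP X Ψ x).map X.π)⟩ :
        (Σ x : X.R, K ⧸ (BP X Ψ x).map X.π)))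
      (by
        intro k x b hb
        have h1 : ((k * X.π b : K) : K ⧸ (BP X Ψ x).map X.π) = ((k : K) : K ⧸ _) := by
          rw [QuotientGroup.eq]
          have h2 : (k * X.π b)⁻¹ * k = (X.π b)⁻¹ := by group
          rw [h2]
          exact inv_mem ⟨b, hb, rfl⟩
        change (⟨x, ((k * X.π b : K) : K ⧸ (BP X Ψ x).map X.π)⟩ :
          (Σ x : X.R, K ⧸ (BP X Ψ x).map X.π)) = _
        rw [h1])
      sr tg hs ht hZ M hMk hup hdn X.r0 l b hV' (by rw [hval, hu1])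
    rw [hval] at hcM
    have h1 : X.π c = 1 := by
      have h2 := MonoidHom.mem_ker.1 (hMk hcM)
      rw [map_mul, map_inv, hu1, one_mul, inv_eq_one] at h2
      exact h2
    have h3 : c ∈ M := hBM X.r0 c hc h1
    have h4 := mul_mem hcM h3
    rw [inv_mul_cancel_right] at h4
    exact h4
  refine Group.IsFinitelyPresented.of_surjective X.π X.πsurj ?_
  exact ⟨⋃ x, S x, hUf, by rw [hkM, hMdef]⟩

end Pool.Agent.PDC
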