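import Mathlib
import Pool.Agent.PDC.Defs

set_option autoImplicit false

/-!
# PDC-CayT: the Cayley graph of a free group is a tree; homs to free groups give members of Hier

PLAN cayley_tree.  T.Adj u v := ∃ a : α, v = u * of a ∨ u = v * of a (loopless since of a ≠ 1).  Connected: from 1 to u by
induction on u (`FreeGroup.induction_on`, multiply on the right: or use u = mk L, induction on the reduced word from the right).
Acyclic: e.g. via `SimpleGraph.isAcyclic_of_path_unique`/ every closed walk without backtracking spells a reduced word equal to 1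
(`FreeGroup.toWord`, `FreeGroup.reduce`, `FreeGroup.isReduced..`), so it is empty; or: each vertex u ≠ 1 has exactly one neighbour
with smaller norm (`FreeGroup.norm`) and norms of adjacent vertices differ by exactly one: a cycle has a vertex of maximal norm,
whose two distinct neighbours in the cycle both have smaller norm, contradiction.
No inversions: g * v = w, g * w = v, w = v * of a (or v = w * of a): g = w v⁻¹ = v w⁻¹ so with w = v c (c = of a or its inverse)
v c v⁻¹ = v c⁻¹ v⁻¹, c * c = 1: impossible in a free group (torsion free, `FreeGroup.of_ne_one`; or norm (of a * of a) = 2).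
PLAN hier_of_hom_free: L acts on FreeGroup α by g • u = f g * u (`MulAction.compHom`), stabiliser of every u is f.ker.
-/

namespace Pool.Agent.PDC

private theorem toWord_letter {α : Type} [DecidableEq α] (c : α × Bool) :
    (FreeGroup.mk [c]).toWord = [c] := by
  rw [FreeGroup.toWord_mk]
  exact FreeGroup.reduce_singleton c

private theorem letter_ne_one {α : Type} (c : α × Bool) : FreeGroup.mk [c] ≠ 1 := by
  classical
  intro h
  have h1 := toWord_letter c
  rw [h, FreeGroup.toWord_one] at h1
  exact absurd h1 (by simp)

private theorem letter_sq_ne_one {α : Type} (c : α × Bool) :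
    FreeGroup.mk [c] * FreeGroup.mk [c] ≠ 1 := by
  classical
  intro h
  have h1 := congrArg FreeGroup.toWord h
  rw [FreeGroup.toWord_mul, toWord_letter, FreeGroup.toWord_one, List.singleton_append,
    FreeGroup.reduce.cons, FreeGroup.reduce_singleton] at h1
  simp at h1

private theorem letter_inv {α : Type} (c : α × Bool) :
    (FreeGroup.mk [c])⁻¹ = FreeGroup.mk [(c.1, !c.2)] := by
  rw [FreeGroup.inv_mk]
  simp [FreeGroup.invRev]

/-- The Cayley graph. -/
private def cayG (α : Type) : SimpleGraph (FreeGroup α) where
  Adj u v := ∃ c : α × Bool, v = u * FreeGroup.mk [c]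
  symm := by
    refine ⟨?_⟩
    rintro u v ⟨c, hc⟩
    refine ⟨(c.1, !c.2), ?_⟩
    rw [hc, ← letter_inv, mul_inv_cancel_right]
  loopless := by
    refine ⟨?_⟩
    rintro u ⟨c, hc⟩
    exact letter_ne_one c (left_eq_mul.1 hc)

private theorem cayG_down {α : Type} [DecidableEq α] {u v : FreeGroup α}
    (h : (cayG α).Adj u v)
    (hl : (v⁻¹).toWord.length ≤ (u⁻¹).toWord.length) :
    (v⁻¹).toWord = ((u⁻¹).toWord).tail := by
  obtain ⟨c, hc⟩ := h
  have h1 : (v⁻¹).toWord = FreeGroup.reduce ((c.1, !c.2) :: (u⁻¹).toWord) := by
    rw [hc, mul_inv_rev, letter_inv, FreeGroup.toWord_mul, toWord_letter, List.singleton_append]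
  rw [FreeGroup.reduce.cons, FreeGroup.reduce_toWord] at h1
  cases hu : (u⁻¹).toWord with
  | nil =>
    rw [hu] at h1 hl
    simp only at h1
    rw [h1] at hl
    simp at hl
  | cons hd tl =>
    rw [hu] at h1 hl
    simp only at h1
    split_ifs at h1 with h2
    · rw [h1]
      rfl
    · rw [h1] at hl
      simp at hl

private theorem cayG_acyclic (α : Type) : (cayG α).IsAcyclic := by
  classical
  intro v c hc
  obtain ⟨m, hm, hmax⟩ := Finset.exists_max_image c.support.toFinset
    (fun u => (u⁻¹ : FreeGroup α).toWord.length) ⟨v, by simp⟩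
  have hm' : m ∈ c.support := by simpa using hm
  have hc' := hc.rotate hm'
  have hne := hc'.snd_ne_penultimate
  have hnil : ¬ (c.rotate m hm').Nil := hc'.not_nil
  have h1 := (c.rotate m hm').adj_snd hnil
  have h2 := (c.rotate m hm').adj_penultimate hnil
  have hmem : ∀ w ∈ (c.rotate m hm').support, w ∈ c.support := by
    intro w hw
    exact (SimpleGraph.Walk.mem_support_rotate_iff _ _ hm').1 hw
  have h3 : ((c.rotate m hm').snd)⁻¹.toWord.length ≤ (m⁻¹).toWord.length :=
    hmax _ (by
      rw [List.mem_toFinset]
      exact hmem _ ((c.rotate m hm').getVert_mem_support 1))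
  have h4 : ((c.rotate m hm').penultimate)⁻¹.toWord.length ≤ (m⁻¹).toWord.length :=
    hmax _ (by
      rw [List.mem_toFinset]
      exact hmem _ ((c.rotate m hm').getVert_mem_support _))
  have h5 := cayG_down h1 h3
  have h6 := cayG_down h2.symm h4
  exact hne (inv_injective (FreeGroup.toWord_injective (h5.trans h6.symm)))

theorem cayley_tree (α : Type) : ∃ T : SimpleGraph (FreeGroup α), T.IsTree ∧
    (∀ g v w, T.Adj v w → T.Adj (g * v) (g * w)) ∧ ∀ g v w, T.Adj v w → g * v = w → g * w ≠ v := by
  refine ⟨cayG α, ⟨⟨?_⟩, cayG_acyclic α⟩, ?_, ?_⟩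
  · have key : ∀ x u : FreeGroup α, (cayG α).Reachable u (u * x) := by
      intro x
      induction x using FreeGroup.induction_on with
      | C1 =>
        intro u
        rw [mul_one]
      | of a =>
        intro u
        exact SimpleGraph.Adj.reachable ⟨(a, true), rfl⟩
      | inv_of a _ =>
        intro u
        refine SimpleGraph.Adj.reachable ⟨(a, false), ?_⟩
        have h1 : (FreeGroup.of a)⁻¹ = FreeGroup.mk [(a, false)] := letter_inv (a, true)
        rw [h1]
      | mul x y hx hy =>
        intro u
        rw [← mul_assoc]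
        exact (hx u).trans (hy _)
    intro u v
    have h := key (u⁻¹ * v) u
    rwa [mul_inv_cancel_left] at h
  · rintro g v w ⟨c, hc⟩
    exact ⟨c, by rw [hc, mul_assoc]⟩
  · rintro g v w ⟨c, hc⟩ h1 h2
    apply letter_sq_ne_one c
    have h3 : g = w * v⁻¹ := by
      rw [← h1, mul_inv_cancel_right]
    rw [h3, hc] at h2
    have h4 : v * (FreeGroup.mk [c] * FreeGroup.mk [c]) = v := by
      calc v * (FreeGroup.mk [c] * FreeGroup.mk [c])
          = v * FreeGroup.mk [c] * v⁻¹ * (v * FreeGroup.mk [c]) := by group
        _ = v := h2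
    exact mul_eq_left.1 h4

theorem hier_of_hom_free {Γ : Type} [Group Γ] (L : Subgroup Γ) (α : Type) (f : L →* FreeGroup α)
    (h : Hier (f.ker.map L.subtype)) : Hier L := by
  obtain ⟨T, hT, hadj, hinv⟩ := cayley_tree α
  let act : MulAction L (FreeGroup α) := MulAction.compHom (FreeGroup α) f
  have hsm : ∀ (g : L) (v : FreeGroup α), g • v = f g * v := fun _ _ => rfl
  refine Hier.tree L (FreeGroup α) T act hT ?_ ?_ ?_
  · intro g v w h1
    rw [hsm, hsm]
    exact hadj _ _ _ h1
  · intro g v w h1 h2
    rw [hsm] at h2 ⊢
    exact hinv _ _ _ h1 h2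
  · intro v
    have h1 : MulAction.stabilizer L v = f.ker := by
      ext g
      rw [MulAction.mem_stabilizer_iff, hsm, MonoidHom.mem_ker, mul_eq_right]
    rw [h1]
    exact h

end Pool.Agent.PDC
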