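import Mathlib
import Pool.Agent.PDC.Basic

set_option autoImplicit false

/-!
# PDC-DualB: dual bases and the lift `τ` of the augmentation
-/

namespace Pool.Agent.PDC

open MonoidAlgebra

theorem dual_basis (R : Type) [Ring R] (M : Type) [AddCommGroup M] [Module R M]
    [hf : Module.Finite R M] [hp : Module.Projective R M] :
    ∃ (m : ℕ) (e : Fin m → M) (μ : Fin m → (M →ₗ[R] R)), ∀ q : M, q = ∑ k, μ k q • e k := by
  obtain ⟨m, π, hπ⟩ := Module.Finite.exists_fin' R M
  obtain ⟨s, hs⟩ := Module.projective_lifting_property π LinearMap.id hπ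
  refine ⟨m, fun k => π (Pi.single k 1), fun k => (LinearMap.proj k).comp s, ?_⟩
  intro q
  have h1 : π (s q) = q := by
    have := congrArg (fun F => F q) hs
    simpa using this
  conv_lhs => rw [← h1]
  have h2 : s q = ∑ k, (s q k) • (Pi.single k (1 : R) : Fin m → R) := by
    funext j
    simp [Finset.sum_apply, Pi.single_apply]
  conv_lhs => rw [h2]
  rw [map_sum]
  refine Finset.sum_congr rfl ?_
  intro k _
  rw [map_smul]
  rfl

theorem eps_smul {G : Type} [Group G] (X : PD3 G) (r : MonoidAlgebra ℤ G) (q : X.P0) :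
    X.ε (r • q) = aug r * X.ε q := by
  induction r using zg_induction with
  | h0 => simp
  | hadd x y hx hy => rw [add_smul, map_add, hx, hy, map_add, add_mul]
  | hneg x hx => rw [neg_smul, map_neg, hx, map_neg, neg_mul]
  | hof g => rw [X.inv, aug_of, one_mul]

/-- There is an `R`-linear `τ : P0 → R` with `aug ∘ τ = ε`. -/
theorem tau_exists {G : Type} [Group G] (X : PD3 G) :
    ∃ τ : X.P0 →ₗ[MonoidAlgebra ℤ G] MonoidAlgebra ℤ G, ∀ q, aug (τ q) = X.ε q := by
  obtain ⟨m, e, μ, h⟩ := dual_basis (MonoidAlgebra ℤ G) X.P0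
  refine ⟨∑ k, X.ε (e k) • μ k, ?_⟩
  intro q
  conv_rhs => rw [h q]
  rw [map_sum, LinearMap.sum_apply, map_sum]
  refine Finset.sum_congr rfl ?_
  intro k _
  rw [LinearMap.smul_apply, map_zsmul, eps_smul, smul_eq_mul, mul_comm]

end Pool.Agent.PDC
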