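import Mathlib
import Pool.Agent.PDC.DualB
import Pool.Agent.PDC.AugI

set_option autoImplicit false

/-!
# PDC-Comp: comparison maps between the resolution and the beginning of the resolution over ZH

PLAN.  ε p0 = 1 (`X.surj`).  τ from `tau_exists`.
κ : ZG →+ ZH, κ := extZ (fun g => of ℤ H ⟨g * (tr H g)⁻¹, tr_mem H g⟩): H-linear, κ (inc a * r) = a * κ r
  (zg_induction twice; tr (h g) = tr g), aug (κ r) = aug r.
g0 : P0 →+ ZH, g0 q = κ (τ q): g0 (inc a • q) = a * g0 q, aug (g0 q) = ε q.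
y j: ε ((of (x j) - 1) • p0) = 0, so `X.ex0` gives y j with d1 (y j) = (of (x j) - 1) • p0.
dual basis b i, ν i (i : Fin m) of P1 (`dual_basis`).
For t : G and i: aug (g0 (d1 (of t • b i))) = ε (d1 ..) = 0, so `aug_exact` gives c t i with
  bd x (c t i) = g0 (d1 (of t • b i)).
Ci : ZG →+ (Fin n → ZH), Ci := extZ (fun g => (of ℤ H ⟨g (tr g)⁻¹, _⟩) • c (tr H g) i): H-linear
  Ci (inc a * r) = a • Ci r; bd x (Ci r) = g0 (d1 (r • b i)) (check on r = of g:
  of ⟨g (tr g)⁻¹⟩ • g0 (d1 (of (tr g) • b i)) = g0 (d1 (of g • b i)) by H-linearity).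
g1 q := ∑ i, Ci (ν i q).  g1 (inc a • q) = a • g1 q;  bd x (g1 q) = ∑ g0(d1(ν i q • b i)) = g0 (d1 q).
s : aug (g0 p0 - 1) = 0, `aug_exact`: bd x s = g0 p0 - 1.
σ j := g1 (y j) - Pi.single j 1 - (of (x j) - 1) • s.
  bd x (σ j) = g0 (d1 (y j)) - (of (x j) - 1) - (of (x j) - 1) * (g0 p0 - 1)
             = (of (x j) - 1) * g0 p0 - (of (x j) - 1) * g0 p0 = 0.
For p with bd x p = 0: d1 (∑ inc (p j) • y j) = ∑ inc (p j) * (of (x j) - 1) • p0 = inc (bd x p) • p0 = 0.
  ∑ p j • σ j = g1 (∑ inc (p j) • y j) - p - (bd x p) • s = g1 (..) - p.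
bd x (g1 z) = g0 (d1 z) = 0 for d1 z = 0.
-/

namespace Pool.Agent.PDC

open MonoidAlgebra

/-- The `ZH`-linear map on `ZG` with prescribed values on the coset representatives. -/
private noncomputable def kap {G : Type} [Group G] (H : Subgroup G) {M : Type} [AddCommGroup M]
    [Module (MonoidAlgebra ℤ H) M] (c : G → M) : MonoidAlgebra ℤ G →+ M :=
  extZ (fun g => of ℤ H ⟨g * (tr H g)⁻¹, tr_mem H g⟩ • c (tr H g))

private theorem kap_of {G : Type} [Group G] (H : Subgroup G) {M : Type} [AddCommGroup M]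
    [Module (MonoidAlgebra ℤ H) M] (c : G → M) (g : G) :
    kap H c (of ℤ G g) = of ℤ H ⟨g * (tr H g)⁻¹, tr_mem H g⟩ • c (tr H g) := by
  unfold kap
  rw [extZ_of]

private theorem kap_inc {G : Type} [Group G] (H : Subgroup G) {M : Type} [AddCommGroup M]
    [Module (MonoidAlgebra ℤ H) M] (c : G → M) (a : MonoidAlgebra ℤ H) (r : MonoidAlgebra ℤ G) :
    kap H c (inc H a * r) = a • kap H c r := by
  induction a using zg_induction with
  | h0 => simp
  | hadd x y hx hy => rw [map_add, add_mul, map_add, hx, hy, add_smul]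
  | hneg x hx => rw [map_neg, neg_mul, map_neg, hx, neg_smul]
  | hof h =>
    induction r using zg_induction with
    | h0 => simp
    | hadd x y hx hy => rw [mul_add, map_add, hx, hy, map_add, smul_add]
    | hneg x hx => rw [mul_neg, map_neg, hx, map_neg, smul_neg]
    | hof g =>
      have e : (⟨(h : G) * g * (tr H ((h : G) * g))⁻¹, tr_mem H ((h : G) * g)⟩ : H)
          = h * ⟨g * (tr H g)⁻¹, tr_mem H g⟩ := by
        apply Subtype.ext
        rw [Subgroup.coe_mul]
        simp only [tr_mul H h.2 g, mul_assoc]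
      rw [inc_of, ← map_mul, kap_of, kap_of, e, tr_mul H h.2 g, map_mul, mul_smul]

private theorem bd_single {K : Type} [Group K] {n : ℕ} (x : Fin n → K) (j : Fin n) :
    bd x (Pi.single j 1) = of ℤ K (x j) - 1 := by
  rw [bd_apply, Finset.sum_eq_single j]
  · rw [Pi.single_eq_same, one_mul]
  · intro k _ hk
    rw [Pi.single_eq_of_ne hk, zero_mul]
  · intro h
    exact absurd (Finset.mem_univ j) h

theorem comparison {G : Type} [Group G] (X : PD3 G) (H : Subgroup G) {n : ℕ} (x : Fin n → H)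
    (hx : Subgroup.closure (Set.range x) = ⊤) :
    ∃ (y : Fin n → X.P1) (g1 : X.P1 →+ (Fin n → MonoidAlgebra ℤ H))
      (σ : Fin n → (Fin n → MonoidAlgebra ℤ H)),
      (∀ (a : MonoidAlgebra ℤ H) (q : X.P1), g1 (inc H a • q) = a • g1 q) ∧
      (∀ z : X.P1, X.d1 z = 0 → bd x (g1 z) = 0) ∧
      (∀ j, bd x (σ j) = 0) ∧
      ∀ p : Fin n → MonoidAlgebra ℤ H, bd x p = 0 →
        X.d1 (∑ j, inc H (p j) • y j) = 0 ∧
        p = g1 (∑ j, inc H (p j) • y j) - ∑ j, p j • σ j := by
  classical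
  obtain ⟨p0, hp0⟩ := X.surj 1
  obtain ⟨τ, hτ⟩ := tau_exists X
  obtain ⟨m, b, ν, hb⟩ := dual_basis (MonoidAlgebra ℤ G) X.P1
  obtain ⟨κ, κdef⟩ : ∃ κ : MonoidAlgebra ℤ G →+ MonoidAlgebra ℤ H,
      κ = kap H (M := MonoidAlgebra ℤ H) (fun _ => 1) := ⟨_, rfl⟩
  have κlin : ∀ (a : MonoidAlgebra ℤ H) (r : MonoidAlgebra ℤ G), κ (inc H a * r) = a * κ r := by
    intro a r
    rw [κdef, kap_inc, smul_eq_mul]
  have κaug : ∀ r : MonoidAlgebra ℤ G, aug (κ r) = aug r := by
    intro r
    induction r using zg_induction with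
    | h0 => simp
    | hadd x y hx hy => rw [map_add, map_add, hx, hy, map_add]
    | hneg x hx => rw [map_neg, map_neg, hx, map_neg]
    | hof g => rw [κdef, kap_of, smul_eq_mul, mul_one, aug_of, aug_of]
  obtain ⟨g0, g0def⟩ : ∃ g0 : X.P0 →+ MonoidAlgebra ℤ H, ∀ q, g0 q = κ (τ q) :=
    ⟨κ.comp τ.toAddMonoidHom, fun q => rfl⟩
  have g0lin : ∀ (a : MonoidAlgebra ℤ H) (q : X.P0), g0 (inc H a • q) = a * g0 q := by
    intro a q
    rw [g0def, g0def, map_smul, smul_eq_mul, κlin]
  have g0aug : ∀ q, aug (g0 q) = X.ε q := by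
    intro q
    rw [g0def, κaug, hτ]
  have hd1 : ∀ q, X.ε (X.d1 q) = 0 := fun q => (X.ex0 (X.d1 q)).2 ⟨q, rfl⟩
  have hy0 : ∀ j : Fin n, ∃ y : X.P1, X.d1 y = (of ℤ G (x j : G) - 1) • p0 := by
    intro j
    refine (X.ex0 _).1 ?_
    rw [eps_smul, map_sub, aug_of, map_one, sub_self, zero_mul]
  choose y hy using hy0
  have hc0 : ∀ (i : Fin m) (t : G), ∃ c : Fin n → MonoidAlgebra ℤ H,
      bd x c = g0 (X.d1 (of ℤ G t • b i)) := by
    intro i t
    refine aug_exact x hx _ ?_
    rw [g0aug, hd1]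
  choose c hc using hc0
  obtain ⟨C, Cdef⟩ : ∃ C : Fin m → (MonoidAlgebra ℤ G →+ (Fin n → MonoidAlgebra ℤ H)),
      ∀ i, C i = kap H (c i) := ⟨fun i => kap H (c i), fun i => rfl⟩
  have Clin : ∀ i (a : MonoidAlgebra ℤ H) (r : MonoidAlgebra ℤ G),
      C i (inc H a * r) = a • C i r := by
    intro i a r
    rw [Cdef, kap_inc]
  have Cbd : ∀ i (r : MonoidAlgebra ℤ G), bd x (C i r) = g0 (X.d1 (r • b i)) := by
    intro i r
    induction r using zg_induction with
    | h0 => simp
    | hadd u v hu hv => rw [map_add, map_add, hu, hv, add_smul, map_add, map_add]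
    | hneg u hu => rw [map_neg, map_neg, hu, neg_smul, map_neg, map_neg]
    | hof g =>
      rw [Cdef, kap_of, map_smul, hc, smul_eq_mul, ← g0lin, ← map_smul, inc_of, smul_smul,
        ← map_mul, inv_mul_cancel_right]
  obtain ⟨g1, g1def⟩ : ∃ g1 : X.P1 →+ (Fin n → MonoidAlgebra ℤ H),
      ∀ q, g1 q = ∑ i, C i (ν i q) := by
    refine ⟨∑ i, (C i).comp (ν i).toAddMonoidHom, fun q => ?_⟩
    rw [AddMonoidHom.finsetSum_apply]
    rfl
  have g1lin : ∀ (a : MonoidAlgebra ℤ H) (q : X.P1), g1 (inc H a • q) = a • g1 q := by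
    intro a q
    rw [g1def, g1def, Finset.smul_sum]
    refine Finset.sum_congr rfl ?_
    intro i _
    rw [map_smul, smul_eq_mul, Clin]
  have g1bd : ∀ q, bd x (g1 q) = g0 (X.d1 q) := by
    intro q
    rw [g1def, map_sum]
    conv_rhs => rw [hb q]
    rw [map_sum, map_sum]
    refine Finset.sum_congr rfl ?_
    intro i _
    rw [Cbd]
  obtain ⟨s, hs⟩ := aug_exact x hx (g0 p0 - 1) (by
    rw [map_sub, g0aug, hp0, map_one, sub_self])
  refine ⟨y, g1, fun j => g1 (y j) - Pi.single j 1 - (of ℤ H (x j) - 1) • s, g1lin, ?_, ?_, ?_⟩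
  · intro z hz
    rw [g1bd, hz, map_zero]
  · intro j
    have hg0 : g0 ((of ℤ G (x j : G) - 1) • p0) = (of ℤ H (x j) - 1) * g0 p0 := by
      have h1 : inc H (of ℤ H (x j) - 1) = of ℤ G (x j : G) - 1 := by
        rw [map_sub, inc_of, map_one]
      rw [← h1, g0lin]
    rw [map_sub, map_sub, map_smul, g1bd, hy, hs, bd_single, hg0, smul_eq_mul, mul_sub, mul_one]
    abel
  · intro p hp
    have hsum : ∑ j, inc H (p j) * (of ℤ G (x j : G) - 1) = 0 := by
      have h1 : ∑ j, inc H (p j) * (of ℤ G (x j : G) - 1) = inc H (bd x p) := by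
        rw [bd_apply, map_sum]
        refine Finset.sum_congr rfl ?_
        intro j _
        rw [map_mul, map_sub, inc_of, map_one]
      rw [h1, hp, map_zero]
    refine ⟨?_, ?_⟩
    · rw [map_sum]
      have h2 : ∀ j ∈ Finset.univ, X.d1 (inc H (p j) • y j)
          = (inc H (p j) * (of ℤ G (x j : G) - 1)) • p0 := by
        intro j _
        rw [map_smul, hy, smul_smul]
      rw [Finset.sum_congr rfl h2, ← Finset.sum_smul, hsum, zero_smul]
    · have h3 : g1 (∑ j, inc H (p j) • y j) = ∑ j, p j • g1 (y j) := by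
        rw [map_sum]
        refine Finset.sum_congr rfl ?_
        intro j _
        rw [g1lin]
      have h4 : ∑ j, p j • (Pi.single j (1 : MonoidAlgebra ℤ H) : Fin n → MonoidAlgebra ℤ H)
          = p := by
        funext k
        rw [Finset.sum_apply, Finset.sum_eq_single k]
        · rw [Pi.smul_apply, Pi.single_eq_same, smul_eq_mul, mul_one]
        · intro j _ hj
          rw [Pi.smul_apply, Pi.single_eq_of_ne hj.symm, smul_zero]
        · intro h
          exact absurd (Finset.mem_univ k) h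
      have h5 : ∑ j, p j • ((of ℤ H (x j) - 1) • s) = 0 := by
        have h6 : ∀ j ∈ Finset.univ, p j • ((of ℤ H (x j) - 1) • s)
            = (p j * (of ℤ H (x j) - 1)) • s := by
          intro j _
          rw [smul_smul]
        rw [Finset.sum_congr rfl h6, ← Finset.sum_smul, ← bd_apply, hp, zero_smul]
      rw [h3]
      simp only [smul_sub, Finset.sum_sub_distrib]
      rw [h4]
      simp only [sub_smul] at h5
      simp only [smul_sub, Finset.sum_sub_distrib] at h5
      simp only [sub_smul, smul_sub, Finset.sum_sub_distrib]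
      rw [h5]
      abel

end Pool.Agent.PDC
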