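import Mathlib
import Pool.Agent.PDC.DualB

set_option autoImplicit false

/-!
# PDC-Der: H^1(G; ZG) = 0 in derivation form

PLAN.  cb := extZ c : ZG →+ ZG (so cb (of g) = c g).  By `zg_induction` on r:
  cb (of k * r) = of k * cb r + aug r • c k      (for r = of g this is hc).       (1)
τ from `tau_exists` (aug τ = ε).  φ : P1 → R, φ q = cb (τ (d1 q)); it is R-linear:
additive, and for r = of k: φ(of k • q) = cb(of k * τ(d1 q)) = of k * φ q + aug(τ(d1 q)) • c k and
aug (τ (d1 q)) = ε (d1 q) = 0 (`X.ex0`); general r by `zg_induction`.  φ ∘ d2 = 0 (d1 d2 = 0, `X.ex1`).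
So φ = ψ ∘ d1 (`X.h1`).  p0 with ε p0 = 1.  For k: ε((of k - 1) • p0) = 0 so (of k - 1)•p0 = d1 q,
 ψ((of k - 1) • p0) = φ q = cb(τ((of k -1)•p0)) = cb(of k * τ p0) - cb(τ p0) = (of k - 1) * cb(τ p0) + c k
by (1) and aug(τ p0) = 1.  So c k = (of k - 1) * (ψ p0 - cb (τ p0)).
-/

namespace Pool.Agent.PDC

open MonoidAlgebra

theorem der_inner {G : Type} [Group G] (X : PD3 G) (c : G → MonoidAlgebra ℤ G)
    (hc : ∀ k k', c (k * k') = c k + of ℤ G k * c k') :
    ∃ a : MonoidAlgebra ℤ G, ∀ k, c k = (of ℤ G k - 1) * a := by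
  -- (1)
  have h1 : ∀ (k : G) (r : MonoidAlgebra ℤ G),
      extZ c (of ℤ G k * r) = of ℤ G k * extZ c r + aug r • c k := by
    intro k r
    induction r using zg_induction with
    | h0 => simp
    | hadd x y hx hy =>
      rw [mul_add, map_add, hx, hy, map_add, map_add, mul_add, add_smul]
      abel
    | hneg x hx =>
      rw [mul_neg, map_neg, hx, map_neg, map_neg, mul_neg, neg_smul]
      abel
    | hof g =>
      rw [← map_mul, extZ_of, extZ_of, aug_of, one_smul, hc]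
      abel
  obtain ⟨τ, hτ⟩ := tau_exists X
  have hd10 : ∀ q : X.P1, X.ε (X.d1 q) = 0 := fun q => X.ex0.apply_apply_eq_zero q
  have hlin : ∀ (r : MonoidAlgebra ℤ G) (q : X.P1),
      extZ c (τ (X.d1 (r • q))) = r • extZ c (τ (X.d1 q)) := by
    intro r q
    induction r using zg_induction with
    | h0 => simp
    | hadd x y hx hy => rw [add_smul, map_add, map_add, map_add, hx, hy, add_smul]
    | hneg x hx => rw [neg_smul, map_neg, map_neg, map_neg, hx, neg_smul]
    | hof g =>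
      rw [map_smul, map_smul, smul_eq_mul, h1, hτ, hd10, zero_smul, add_zero, smul_eq_mul]
  let φ : X.P1 →ₗ[MonoidAlgebra ℤ G] MonoidAlgebra ℤ G :=
    { toFun := fun q => extZ c (τ (X.d1 q))
      map_add' := fun q q' => by rw [map_add, map_add, map_add]
      map_smul' := fun r q => hlin r q }
  have hφ : φ.comp X.d2 = 0 := by
    ext q
    have h2 : X.d1 (X.d2 q) = 0 := X.ex1.apply_apply_eq_zero q
    have h3 : φ (X.d2 q) = 0 := by
      change extZ c (τ (X.d1 (X.d2 q))) = 0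
      rw [h2, map_zero, map_zero]
    rw [LinearMap.comp_apply, h3]
    rfl
  obtain ⟨ψ, hψ⟩ := X.h1 φ hφ
  obtain ⟨p0, hp0⟩ := X.surj 1
  refine ⟨ψ p0 - extZ c (τ p0), fun k => ?_⟩
  have h4 : X.ε ((of ℤ G k - 1) • p0) = 0 := by
    rw [sub_smul, map_sub, X.inv, one_smul, sub_self]
  obtain ⟨q, hq⟩ := (X.ex0 _).1 h4
  have h5 : ψ ((of ℤ G k - 1) • p0) = extZ c (τ ((of ℤ G k - 1) • p0)) := by
    rw [← hq]
    have h6 : φ q = ψ (X.d1 q) := by rw [hψ]; rfl
    exact h6.symm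
  rw [map_smul, smul_eq_mul, map_smul, smul_eq_mul, sub_mul (of ℤ G k) 1 (τ p0), one_mul, map_sub,
    h1, hτ, hp0, one_smul] at h5
  rw [mul_sub, h5]
  rw [sub_mul, one_mul]
  abel

end Pool.Agent.PDC
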