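import Mathlib
import Pool.Agent.PDC.Der

set_option autoImplicit false

/-!
# PDC-End1: a PD3-group is one-ended (in the form `OneEnded`)

chi : G → ℤ is the indicator function of V.
(a) For every k in G the set {g | ¬(g ∈ V ↔ g k ∈ V)} is finite.
(b) c k := the element of ZG with coefficients (c k)(g) = chi(g⁻¹ k) - chi(g⁻¹).
(c) `der_inner`: c k = (of k - 1) a, so x ↦ chi x - a(x⁻¹) is constant.
-/

namespace Pool.Agent.PDC

open MonoidAlgebra

private theorem fin_all {G : Type} [Group G] {S : Finset G}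
    (hS : Subgroup.closure (S : Set G) = ⊤) {V : Set G}
    (hV : ∀ s ∈ S, {g : G | ¬ (g ∈ V ↔ g * s ∈ V)}.Finite) (k : G) :
    {g : G | ¬ (g ∈ V ↔ g * k ∈ V)}.Finite := by
  have hk : k ∈ Subgroup.closure (S : Set G) := by rw [hS]; trivial
  induction hk using Subgroup.closure_induction with
  | mem x hx => exact hV x hx
  | one =>
    have : {g : G | ¬ (g ∈ V ↔ g * 1 ∈ V)} = ∅ := by
      ext g; simp
    rw [this]
    exact Set.finite_empty
  | mul x y _ _ hx hy =>
    have hp : ((fun g => g * x) ⁻¹' {g : G | ¬ (g ∈ V ↔ g * y ∈ V)}).Finite :=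
      hy.preimage (mul_left_injective x).injOn
    refine (hx.union hp).subset ?_
    intro g hg
    by_contra hn
    rw [Set.mem_union, not_or] at hn
    obtain ⟨h1, h2⟩ := hn
    simp only [Set.mem_ofPred_eq, not_not, Set.mem_preimage] at h1 h2 hg
    apply hg
    rw [h1, h2, mul_assoc]
  | inv x _ hx =>
    have hp : ((fun g => g * x⁻¹) ⁻¹' {g : G | ¬ (g ∈ V ↔ g * x ∈ V)}).Finite :=
      hx.preimage (mul_left_injective x⁻¹).injOn
    refine hp.subset ?_
    intro g hg
    simp only [Set.mem_ofPred_eq, Set.mem_preimage, inv_mul_cancel_right] at hg ⊢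
    intro h
    exact hg h.symm

theorem oneEnded_of_PD3 {G : Type} [Group G] (X : PD3 G) : OneEnded G := by
  classical
  intro S hS V hV
  set chi : G → ℤ := fun g => if g ∈ V then 1 else 0 with hchi
  have hiff : ∀ x y : G, (x ∈ V ↔ y ∈ V) → chi x = chi y := by
    intro x y h
    simp only [hchi]
    by_cases hx : x ∈ V
    · rw [if_pos hx, if_pos (h.1 hx)]
    · rw [if_neg hx, if_neg (fun hy => hx (h.2 hy))]
  have hsupp : ∀ k : G, (Function.support fun g : G => chi (g⁻¹ * k) - chi g⁻¹).Finite := by
    intro k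
    have hp : ((fun g : G => g⁻¹) ⁻¹' {g : G | ¬ (g ∈ V ↔ g * k ∈ V)}).Finite :=
      (fin_all hS hV k).preimage inv_injective.injOn
    refine hp.subset ?_
    intro g hg
    rw [Function.mem_support] at hg
    intro h
    apply hg
    rw [sub_eq_zero]
    exact (hiff _ _ h).symm
  set c : G → MonoidAlgebra ℤ G := fun k =>
    ofCoeff (Finsupp.ofSupportFinite (fun g : G => chi (g⁻¹ * k) - chi g⁻¹) (hsupp k)) with hc
  have hcc : ∀ k g, (c k).coeff g = chi (g⁻¹ * k) - chi g⁻¹ := fun k g => rfl
  have hder : ∀ k k', c (k * k') = c k + of ℤ G k * c k' := by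
    intro k k'
    ext g
    rw [coeff_add, Finsupp.add_apply, of_apply, coeff_single_mul_apply, hcc, hcc, hcc]
    rw [mul_inv_rev, inv_inv, mul_assoc]
    ring
  obtain ⟨a, ha⟩ := der_inner X c hder
  have h1 : ∀ k x : G, chi (x * k) - chi x = a.coeff (k⁻¹ * x⁻¹) - a.coeff x⁻¹ := by
    intro k x
    have h2 := congrArg (fun r : MonoidAlgebra ℤ G => r.coeff x⁻¹) (ha k)
    simp only [hcc, inv_inv] at h2
    rw [h2, sub_mul, one_mul, coeff_sub, Finsupp.sub_apply, of_apply, coeff_single_mul_apply,
      one_mul]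
  have h3 : ∀ k : G, chi k = (chi 1 - a.coeff 1) + a.coeff k⁻¹ := by
    intro k
    have h := h1 k 1
    rw [one_mul, inv_one, mul_one] at h
    linarith
  have hfin : ((fun g : G => g⁻¹) ⁻¹' (a.coeff.support : Set G)).Finite :=
    (Finset.finite_toSet _).preimage inv_injective.injOn
  have hout : ∀ k : G, k ∉ ((fun g : G => g⁻¹) ⁻¹' (a.coeff.support : Set G)) →
      chi k = chi 1 - a.coeff 1 := by
    intro k hk
    have : a.coeff k⁻¹ = 0 := by
      by_contra hne
      exact hk (by simpa using hne)
    rw [h3 k, this, add_zero]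
  by_cases h0 : chi 1 - a.coeff 1 = 1
  · right
    refine hfin.subset ?_
    intro g hg
    by_contra hn
    have := hout g hn
    rw [h0] at this
    simp only [hchi] at this
    rw [if_neg hg] at this
    exact zero_ne_one this
  · left
    refine hfin.subset ?_
    intro g hg
    by_contra hn
    have := hout g hn
    simp only [hchi] at this
    rw [if_pos hg] at this
    exact h0 this.symm

end Pool.Agent.PDC
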