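import Mathlib
import Pool.Agent.PDC.Basic

set_option autoImplicit false

/-!
# PDC-Zeta: basic properties of `zeta`

PLAN.  Everything from `resH_inc_mul`, `resH_mul_inc`, `map_mul` and `Finset.sum` manipulations.
 * zeta_left: of (h g)⁻¹ = of g⁻¹ * of h⁻¹, of h⁻¹ = inc (of h⁻¹), `resH_mul_inc`.
 * zeta_rmul_of: μ(q) * of k * of g⁻¹ = μ(q) * of (g k⁻¹)⁻¹.
 * zeta_rmul: additive in r: both sides are additive maps of r; `zg_hom_ext` / `zg_induction`.
 * zeta_fin: if zeta μ g ≠ 0 some summand is ≠ 0, so resH (μ (q a) * of g⁻¹) ≠ 0, so some coefficient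
   (μ (q a) * of g⁻¹)(h) = (μ (q a)).coeff (h g) ≠ 0 (`coeff_mul_single_apply`): h g = y in the support of
   μ (q a), g y⁻¹ = h⁻¹ ∈ H.  Y := ⋃_a (μ (q a)).coeff.support.
-/

namespace Pool.Agent.PDC

open MonoidAlgebra

section
variable {G : Type} [Group G] (H : Subgroup G) {D : Type} [DivisionRing D]
  (f : MonoidAlgebra ℤ G →+* D) {M : Type} [AddCommGroup M] [Module (MonoidAlgebra ℤ G) M]
  {I : Type} [Fintype I] (d : I → D) (q : I → M)

theorem zeta_left (μ : M →ₗ[MonoidAlgebra ℤ G] MonoidAlgebra ℤ G) {h : G} (hh : h ∈ H) (g : G) :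
    zeta H f d q μ (h * g) = zeta H f d q μ g * f (of ℤ G h⁻¹) := by
  have e : of ℤ G (h * g)⁻¹ = of ℤ G g⁻¹ * inc H (of ℤ H (⟨h⁻¹, H.inv_mem hh⟩ : H)) := by
    rw [inc_of, ← map_mul, mul_inv_rev]
  have e2 : (inc H (of ℤ H (⟨h⁻¹, H.inv_mem hh⟩ : H))) = of ℤ G h⁻¹ := by
    rw [inc_of]
  unfold zeta
  rw [e, Finset.sum_mul]
  refine Finset.sum_congr rfl fun a _ => ?_
  rw [← mul_assoc, resH_mul_inc, map_mul (inc H), map_mul f, e2, mul_assoc]

theorem zeta_add (μ ν : M →ₗ[MonoidAlgebra ℤ G] MonoidAlgebra ℤ G) (g : G) :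
    zeta H f d q (μ + ν) g = zeta H f d q μ g + zeta H f d q ν g := by
  unfold zeta
  rw [← Finset.sum_add_distrib]
  refine Finset.sum_congr rfl fun a _ => ?_
  rw [LinearMap.add_apply, add_mul, map_add, map_add, map_add, mul_add]

theorem zeta_zsmul (n : ℤ) (μ : M →ₗ[MonoidAlgebra ℤ G] MonoidAlgebra ℤ G) (g : G) :
    zeta H f d q (n • μ) g = n • zeta H f d q μ g := by
  unfold zeta
  rw [Finset.smul_sum]
  refine Finset.sum_congr rfl fun a _ => ?_
  rw [LinearMap.smul_apply, smul_mul_assoc, map_zsmul, map_zsmul, map_zsmul, mul_smul_comm]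

theorem zeta_sub (μ ν : M →ₗ[MonoidAlgebra ℤ G] MonoidAlgebra ℤ G) (g : G) :
    zeta H f d q (μ - ν) g = zeta H f d q μ g - zeta H f d q ν g := by
  unfold zeta
  rw [← Finset.sum_sub_distrib]
  refine Finset.sum_congr rfl fun a _ => ?_
  rw [LinearMap.sub_apply, sub_mul, map_sub, map_sub, map_sub, mul_sub]

theorem zeta_rmul_of (μ : M →ₗ[MonoidAlgebra ℤ G] MonoidAlgebra ℤ G) (k g : G) :
    zeta H f d q (rmul μ (of ℤ G k)) g = zeta H f d q μ (g * k⁻¹) := by
  unfold zeta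
  refine Finset.sum_congr rfl fun a _ => ?_
  have e : k * g⁻¹ = (g * k⁻¹)⁻¹ := by group
  rw [rmul_apply, mul_assoc, ← map_mul, e]

theorem zeta_rmul (μ : M →ₗ[MonoidAlgebra ℤ G] MonoidAlgebra ℤ G) (r : MonoidAlgebra ℤ G) (g : G) :
    zeta H f d q (rmul μ r) g = extZ (fun k => zeta H f d q μ (g * k⁻¹)) r := by
  have hadd : ∀ x y : MonoidAlgebra ℤ G, rmul μ (x + y) = rmul μ x + rmul μ y := by
    intro x y
    ext z
    rw [LinearMap.add_apply, rmul_apply, rmul_apply, rmul_apply, mul_add]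
  exact zg_hom_ext (F := AddMonoidHom.mk' (fun r => zeta H f d q (rmul μ r) g)
    (fun x y => by rw [hadd, zeta_add])) (F' := extZ (fun k => zeta H f d q μ (g * k⁻¹)))
    (fun k => by
      rw [extZ_of]
      exact zeta_rmul_of H f d q μ k g) r

theorem zeta_fin (μ : M →ₗ[MonoidAlgebra ℤ G] MonoidAlgebra ℤ G) :
    FinCos H {g : G | zeta H f d q μ g ≠ 0} := by
  classical
  refine ⟨Finset.univ.biUnion fun a => (μ (q a)).coeff.support, ?_⟩
  intro g hg
  obtain ⟨a, -, ha⟩ := Finset.exists_ne_zero_of_sum_ne_zero hg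
  have h1 : resH H (μ (q a) * of ℤ G g⁻¹) ≠ 0 := by
    intro h0
    apply ha
    rw [h0, map_zero, map_zero, mul_zero]
  have h2 : ∃ h : H, (resH H (μ (q a) * of ℤ G g⁻¹)).coeff h ≠ 0 := by
    by_contra hcon
    push Not at hcon
    apply h1
    ext h
    simpa using hcon h
  obtain ⟨h, hh⟩ := h2
  rw [coeff_resH, of_apply, coeff_mul_single_apply, mul_one, inv_inv] at hh
  refine ⟨h * g, ?_, ?_⟩
  · rw [Finset.mem_biUnion]
    exact ⟨a, Finset.mem_univ _, Finsupp.mem_support_iff.2 hh⟩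
  · have : g * ((h : G) * g)⁻¹ = (h : G)⁻¹ := by group
    rw [this]
    exact H.inv_mem h.2

end

end Pool.Agent.PDC
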