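import Mathlib
import Pool.Agent.PDC.DualB
import Pool.Agent.PDC.Zeta

set_option autoImplicit false

/-!
# PDC-Eta: the element comes from P3

PLAN.  Dual basis e l, L l (l : Fin m) of P3 (`dual_basis`).  For λ in P3^* choose (X.θker; θ(λ - θ(λ) • l0) = 0)
 M λ : P2 →ₗ ZG with (M λ) ∘ d3 = λ - θ λ • l0.   η λ g := zeta (M λ) g + θ λ • φ g.
 (0) zeta μ only depends on μ ∘ d3 (hz and `zeta_sub`).
 (1) η is additive in λ (M λ + M λ' is a valid choice for λ + λ').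
 (2) η (rmul λ (of k)) g = η λ (g k⁻¹):
     rmul λ (of k) - θ(rmul λ (of k)) • l0 = rmul (λ - θ λ • l0) (of k) + θ λ • (rmul l0 (of k) - w k • l0), so
     zeta (M (rmul λ (of k))) g = zeta (M λ) (g k⁻¹) + θ λ • zeta μ_k g, with zeta μ_k g = φ (g k⁻¹) - w k • φ g (hφ2),
     θ(rmul λ (of k)) = w k * θ λ.
 (3) η (rmul λ r) g = extZ (fun k => η λ (g k⁻¹)) r by additivity in r (zg_hom_ext).
 (4) zeta μ g = η (μ ∘ d3) g (θ (μ ∘ d3) = 0 by `X.θker`).
 (5) μ ∘ d3 = ∑ l, rmul (L l) (μ (d3 (e l))) (ext: y = ∑ L l y • e l).  So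
     zeta μ g = ∑ l, extZ (fun k => ψ l (g k⁻¹)) (μ (d3 (e l))),   ψ l := η (L l).
 (6) ψ l is equivariant: ψ l (h g) = ψ l g * f (of h⁻¹) (`zeta_left`, hφ1) and its support is in finitely many cosets
     (`zeta_fin`, hφ3).  Let Y l : Finset G with tr y = y for y ∈ Y l and tr g ∈ Y l whenever ψ l g ≠ 0
     (image of the FinCos set under tr; tr g = tr y if g y⁻¹ ∈ H).  Then for all g
       ψ l g = ∑ t ∈ Y l, ψ l t * f (inc (resH (of t * of g⁻¹)))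
     [only t = tr g contributes: g = h t, of t * of g⁻¹ = of h⁻¹, ψ l g = ψ l t * f (of h⁻¹)], hence
       extZ (fun k => ψ l (g k⁻¹)) r = ∑ t ∈ Y l, ψ l t * f (inc (resH (of t * r * of g⁻¹)))  (additivity in r).
 (7) I' := Σ l : Fin m, {t // t ∈ Y l}, d' (l,t) = ψ l t, y' (l,t) = of t • e l,
     μ (d3 (of t • e l)) = of t * μ (d3 (e l)).
-/

namespace Pool.Agent.PDC

open MonoidAlgebra

private theorem exp_sum {G : Type} [Group G] (H : Subgroup G) {D : Type} [DivisionRing D]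
    (f : MonoidAlgebra ℤ G →+* D) (ψ : G → D)
    (h1 : ∀ h ∈ H, ∀ g, ψ (h * g) = ψ g * f (of ℤ G h⁻¹)) (Y : Finset G)
    (hY1 : ∀ y ∈ Y, tr H y = y) (hY2 : ∀ g, ψ g ≠ 0 → tr H g ∈ Y) (g : G) :
    ψ g = ∑ t ∈ Y, ψ t * f (inc H (resH H (of ℤ G t * of ℤ G g⁻¹))) := by
  classical
  have hz : ∀ t ∈ Y, t ≠ tr H g → ψ t * f (inc H (resH H (of ℤ G t * of ℤ G g⁻¹))) = 0 := by
    intro t ht hne
    rw [← map_mul, resH_of_not_mem, map_zero, map_zero, mul_zero]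
    intro hm
    apply hne
    rw [← hY1 t ht]
    exact (tr_eq_iff H t g).2 hm
  by_cases hg : tr H g ∈ Y
  · rw [Finset.sum_eq_single (tr H g) hz (fun h => absurd hg h)]
    have hm := tr_mem H g
    have hm' : tr H g * g⁻¹ ∈ H := by
      have := H.inv_mem hm
      simpa using this
    rw [← map_mul, resH_of_mem H hm', inc_of]
    have e := h1 (g * (tr H g)⁻¹) hm (tr H g)
    rw [inv_mul_cancel_right] at e
    have e2 : (g * (tr H g)⁻¹)⁻¹ = tr H g * g⁻¹ := by group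
    rw [e2] at e
    exact e
  · have h0 : ψ g = 0 := by
      by_contra h
      exact hg (hY2 g h)
    rw [h0, Finset.sum_eq_zero]
    intro t ht
    exact hz t ht (fun h => hg (h ▸ ht))

private theorem exp_ext {G : Type} [Group G] (H : Subgroup G) {D : Type} [DivisionRing D]
    (f : MonoidAlgebra ℤ G →+* D) (ψ : G → D) (Y : Finset G)
    (hs : ∀ g, ψ g = ∑ t ∈ Y, ψ t * f (inc H (resH H (of ℤ G t * of ℤ G g⁻¹))))
    (r : MonoidAlgebra ℤ G) (g : G) :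
    extZ (fun k => ψ (g * k⁻¹)) r =
      ∑ t ∈ Y, ψ t * f (inc H (resH H (of ℤ G t * r * of ℤ G g⁻¹))) := by
  refine zg_hom_ext (F := extZ (fun k => ψ (g * k⁻¹)))
    (F' := AddMonoidHom.mk' (fun r => ∑ t ∈ Y, ψ t * f (inc H (resH H (of ℤ G t * r * of ℤ G g⁻¹))))
      (fun x y => ?_)) (fun k => ?_) r
  · rw [← Finset.sum_add_distrib]
    refine Finset.sum_congr rfl fun t _ => ?_
    rw [mul_add, add_mul, map_add, map_add, map_add, mul_add]
  · rw [extZ_of]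
    change ψ (g * k⁻¹) = ∑ t ∈ Y, ψ t * f (inc H (resH H (of ℤ G t * of ℤ G k * of ℤ G g⁻¹)))
    rw [hs (g * k⁻¹)]
    refine Finset.sum_congr rfl fun t _ => ?_
    have e : (g * k⁻¹)⁻¹ = k * g⁻¹ := by group
    have e' : of ℤ G (k * g⁻¹) = of ℤ G k * of ℤ G g⁻¹ := map_mul _ _ _
    rw [e, e', mul_assoc]

private theorem rmul_add' {G : Type} [Group G] {M : Type} [AddCommGroup M]
    [Module (MonoidAlgebra ℤ G) M] (μ : M →ₗ[MonoidAlgebra ℤ G] MonoidAlgebra ℤ G)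
    (x y : MonoidAlgebra ℤ G) : rmul μ (x + y) = rmul μ x + rmul μ y := by
  ext z
  rw [LinearMap.add_apply, rmul_apply, rmul_apply, rmul_apply, mul_add]

theorem eta_exists {G : Type} [Group G] (X : PD3 G) (H : Subgroup G) {D : Type} [DivisionRing D]
    (f : MonoidAlgebra ℤ G →+* D) {I : Type} [Fintype I] (d : I → D) (q : I → X.P2)
    (w : G → ℤ)
    (hwθ : ∀ (g : G) (φ : X.P3 →ₗ[MonoidAlgebra ℤ G] MonoidAlgebra ℤ G),
        X.θ (rmul φ (of ℤ G g)) = w g * X.θ φ)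
    (l0 : X.P3 →ₗ[MonoidAlgebra ℤ G] MonoidAlgebra ℤ G) (hl0 : X.θ l0 = 1)
    (hz : ∀ (μ : X.P2 →ₗ[MonoidAlgebra ℤ G] MonoidAlgebra ℤ G), μ.comp X.d3 = 0 → ∀ g : G,
      zeta H f d q μ g = 0)
    (φ : G → D) (hφ1 : ∀ h ∈ H, ∀ g, φ (h * g) = φ g * f (of ℤ G h⁻¹))
    (hφ2 : ∀ (k g : G) (μ : X.P2 →ₗ[MonoidAlgebra ℤ G] MonoidAlgebra ℤ G),
        μ.comp X.d3 = rmul l0 (of ℤ G k) - w k • l0 →
        φ (g * k⁻¹) = w k • φ g + zeta H f d q μ g)
    (hφ3 : FinCos H {g : G | φ g ≠ 0}) :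
    ∃ (I' : Type) (_ : Fintype I') (d' : I' → D) (y' : I' → X.P3),
      ∀ (μ : X.P2 →ₗ[MonoidAlgebra ℤ G] MonoidAlgebra ℤ G) (g : G),
        zeta H f d q μ g = zeta H f d' (fun b => X.d3 (y' b)) μ g := by
  classical
  have hdiff : ∀ l : X.P3 →ₗ[MonoidAlgebra ℤ G] MonoidAlgebra ℤ G,
      ∃ ψ : X.P2 →ₗ[MonoidAlgebra ℤ G] MonoidAlgebra ℤ G, l - X.θ l • l0 = ψ.comp X.d3 := by
    intro l
    rw [← X.θker, map_sub, map_zsmul, hl0]
    simp
  choose Mf hMf using hdiff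
  have hz0 : ∀ (μ μ' : X.P2 →ₗ[MonoidAlgebra ℤ G] MonoidAlgebra ℤ G),
      μ.comp X.d3 = μ'.comp X.d3 → ∀ g, zeta H f d q μ g = zeta H f d q μ' g := by
    intro μ μ' h g
    have h1 := hz (μ - μ') (by rw [LinearMap.sub_comp, h, sub_self]) g
    rw [zeta_sub] at h1
    exact sub_eq_zero.1 h1
  have hgen : ∀ (l : X.P3 →ₗ[MonoidAlgebra ℤ G] MonoidAlgebra ℤ G)
      (N : X.P2 →ₗ[MonoidAlgebra ℤ G] MonoidAlgebra ℤ G), N.comp X.d3 = l - X.θ l • l0 →
      ∀ g, zeta H f d q (Mf l) g = zeta H f d q N g := by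
    intro l N hN g
    exact hz0 _ _ (by rw [hN, hMf]) g
  have hadd : ∀ g (l l' : X.P3 →ₗ[MonoidAlgebra ℤ G] MonoidAlgebra ℤ G),
      zeta H f d q (Mf (l + l')) g + X.θ (l + l') • φ g =
        (zeta H f d q (Mf l) g + X.θ l • φ g) + (zeta H f d q (Mf l') g + X.θ l' • φ g) := by
    intro g l l'
    rw [hgen (l + l') (Mf l + Mf l') (by
      rw [LinearMap.add_comp, ← hMf, ← hMf, map_add, add_smul]; abel) g, zeta_add, map_add, add_smul]
    abel
  have hη : ∃ η : G → ((X.P3 →ₗ[MonoidAlgebra ℤ G] MonoidAlgebra ℤ G) →+ D), ∀ g l,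
      η g l = zeta H f d q (Mf l) g + X.θ l • φ g :=
    ⟨fun g => AddMonoidHom.mk' (fun l => zeta H f d q (Mf l) g + X.θ l • φ g) (hadd g),
      fun g l => rfl⟩
  obtain ⟨η, hη⟩ := hη
  have h2 : ∀ (l : X.P3 →ₗ[MonoidAlgebra ℤ G] MonoidAlgebra ℤ G) (k g : G),
      η g (rmul l (of ℤ G k)) = η (g * k⁻¹) l := by
    intro l k g
    have hk : (Mf (rmul l0 (of ℤ G k))).comp X.d3 = rmul l0 (of ℤ G k) - w k • l0 := by
      rw [← hMf, hwθ, hl0, mul_one]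
    have hN : (rmul (Mf l) (of ℤ G k) + X.θ l • Mf (rmul l0 (of ℤ G k))).comp X.d3 =
        rmul l (of ℤ G k) - X.θ (rmul l (of ℤ G k)) • l0 := by
      rw [hwθ]
      have e1 : (rmul (Mf l) (of ℤ G k)).comp X.d3 = rmul (l - X.θ l • l0) (of ℤ G k) := by
        rw [hMf]
        ext z
        simp only [LinearMap.comp_apply, rmul_apply]
      have e2 : (X.θ l • Mf (rmul l0 (of ℤ G k))).comp X.d3 =
          X.θ l • (rmul l0 (of ℤ G k) - w k • l0) := by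
        rw [← hk]
        ext z
        simp only [LinearMap.comp_apply, LinearMap.smul_apply]
      rw [LinearMap.add_comp, e1, e2]
      apply LinearMap.ext
      intro z
      simp only [LinearMap.add_apply, LinearMap.sub_apply, LinearMap.smul_apply, rmul_apply,
        sub_mul, smul_mul_assoc, smul_sub, smul_smul]
      rw [mul_comm (w k) (X.θ l)]
      abel
    rw [hη, hη, hgen _ _ hN g, zeta_add, zeta_zsmul, zeta_rmul_of, hwθ,
      hφ2 k g _ hk, smul_add, smul_smul, mul_comm (w k)]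
    abel
  have h3 : ∀ (l : X.P3 →ₗ[MonoidAlgebra ℤ G] MonoidAlgebra ℤ G) (g : G) (r : MonoidAlgebra ℤ G),
      η g (rmul l r) = extZ (fun k => η (g * k⁻¹) l) r := by
    intro l g r
    refine zg_hom_ext (F := AddMonoidHom.mk' (fun r => η g (rmul l r))
      (fun x y => by rw [rmul_add', map_add])) (F' := extZ (fun k => η (g * k⁻¹) l)) (fun k => ?_) r
    rw [extZ_of]
    exact h2 l k g
  have h4 : ∀ (μ : X.P2 →ₗ[MonoidAlgebra ℤ G] MonoidAlgebra ℤ G) (g : G),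
      zeta H f d q μ g = η g (μ.comp X.d3) := by
    intro μ g
    have ht : X.θ (μ.comp X.d3) = 0 := (X.θker _).2 ⟨μ, rfl⟩
    rw [hη, ht, zero_smul, add_zero, hgen (μ.comp X.d3) μ (by rw [ht, zero_smul, sub_zero]) g]
  obtain ⟨m, e, L, hL⟩ := dual_basis (MonoidAlgebra ℤ G) X.P3
  have h5 : ∀ (μ : X.P2 →ₗ[MonoidAlgebra ℤ G] MonoidAlgebra ℤ G),
      μ.comp X.d3 = ∑ l, rmul (L l) (μ (X.d3 (e l))) := by
    intro μ
    apply LinearMap.ext
    intro y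
    rw [LinearMap.comp_apply, LinearMap.sum_apply]
    conv_lhs => rw [hL y]
    rw [map_sum, map_sum]
    refine Finset.sum_congr rfl fun l _ => ?_
    rw [map_smul, map_smul, smul_eq_mul, rmul_apply]
  have h6 : ∀ (l : X.P3 →ₗ[MonoidAlgebra ℤ G] MonoidAlgebra ℤ G), ∀ h ∈ H, ∀ g,
      η (h * g) l = η g l * f (of ℤ G h⁻¹) := by
    intro l h hh g
    rw [hη, hη, zeta_left H f d q _ hh, hφ1 h hh, add_mul, smul_mul_assoc]
  have h7 : ∀ (l : X.P3 →ₗ[MonoidAlgebra ℤ G] MonoidAlgebra ℤ G), ∃ Y : Finset G,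
      (∀ y ∈ Y, tr H y = y) ∧ ∀ g, η g l ≠ 0 → tr H g ∈ Y := by
    intro l
    obtain ⟨Y1, hY1⟩ := zeta_fin H f d q (Mf l)
    obtain ⟨Y2, hY2⟩ := hφ3
    refine ⟨(Y1 ∪ Y2).image (tr H), ?_, ?_⟩
    · intro y hy
      obtain ⟨z, -, rfl⟩ := Finset.mem_image.1 hy
      exact tr_tr H z
    · intro g hg
      have hor : zeta H f d q (Mf l) g ≠ 0 ∨ φ g ≠ 0 := by
        by_contra hcon
        push Not at hcon
        apply hg
        rw [hη, hcon.1, hcon.2, smul_zero, add_zero]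
      rcases hor with ho | ho
      · obtain ⟨y, hy, hm⟩ := hY1 g ho
        rw [(tr_eq_iff H g y).2 hm]
        exact Finset.mem_image_of_mem _ (Finset.mem_union_left _ hy)
      · obtain ⟨y, hy, hm⟩ := hY2 g ho
        rw [(tr_eq_iff H g y).2 hm]
        exact Finset.mem_image_of_mem _ (Finset.mem_union_right _ hy)
  choose Y hY1 hY2 using h7
  refine ⟨Σ l : Fin m, {t : G // t ∈ Y (L l)}, inferInstance, fun b => η b.2.1 (L b.1),
    fun b => of ℤ G b.2.1 • e b.1, ?_⟩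
  intro μ g
  rw [h4, h5, map_sum]
  have hR : zeta H f (fun b : Σ l : Fin m, {t : G // t ∈ Y (L l)} => η b.2.1 (L b.1))
      (fun b => X.d3 (of ℤ G b.2.1 • e b.1)) μ g =
      ∑ l : Fin m, ∑ t : {t : G // t ∈ Y (L l)}, η t.1 (L l) *
        f (inc H (resH H (μ (X.d3 (of ℤ G t.1 • e l)) * of ℤ G g⁻¹))) := by
    unfold zeta
    rw [Fintype.sum_sigma]
  rw [hR]
  refine Finset.sum_congr rfl fun l _ => ?_
  rw [h3, exp_ext H f (fun g => η g (L l)) (Y (L l)) (fun g => exp_sum H f (fun g => η g (L l))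
    (h6 (L l)) (Y (L l)) (hY1 (L l)) (hY2 (L l)) g) (μ (X.d3 (e l))) g]
  rw [← Finset.sum_coe_sort (Y (L l))]
  refine Finset.sum_congr rfl fun t _ => ?_
  rw [map_smul, map_smul, smul_eq_mul]

end Pool.Agent.PDC
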