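import Mathlib
import Pool.Agent.PDC.DualB

set_option autoImplicit false

/-!
# PDC-FIA: restriction of finitely generated projective modules to a subgroup of finite index

PLAN.  Y := the finite set Set.range (tr H) (the quotient by `QuotientGroup.rightRel H` is finite, tr factors through it;
`Set.Finite.toFinset`).  dual basis e k, μ k of M over ZG.  By `expand` (for Λ r := r • e k, M as ZH-module through inc):
 q = ∑ k, μ k q • e k = ∑ k, ∑ t ∈ Y, resH (μ k q * of t⁻¹) • (of t • e k).
So {of t • e k} spans (Module.Finite) and it is a dual basis with the ZH-linear functionals q ↦ resH (μ k q * of t⁻¹)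
(`resH_inc_mul`): M is a direct summand of a finite free module (Module.Projective.of_split with
(I → ZH) → M → (I → ZH), or `Module.projective_def'`).
-/

namespace Pool.Agent.PDC

open MonoidAlgebra

private theorem of_dual {R : Type} [Ring R] {M : Type} [AddCommGroup M] [Module R M]
    {ι : Type} [Fintype ι] (e : ι → M) (μ : ι → (M →ₗ[R] R)) (h : ∀ q : M, q = ∑ i, μ i q • e i) :
    Module.Finite R M ∧ Module.Projective R M := by
  classical
  have hs : (Fintype.linearCombination R e).comp (LinearMap.pi μ) = LinearMap.id := by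
    refine LinearMap.ext fun q => ?_
    rw [LinearMap.comp_apply, Fintype.linearCombination_apply, LinearMap.id_apply]
    conv_rhs => rw [h q]
    rfl
  constructor
  · refine Module.Finite.of_surjective (Fintype.linearCombination R e) fun q => ?_
    exact ⟨LinearMap.pi μ q, by
      have := congrArg (fun F => F q) hs
      simpa using this⟩
  · exact Module.Projective.of_split _ _ hs

section
variable {G : Type} [Group G] (H : Subgroup G) [H.FiniteIndex] (M : Type) [AddCommGroup M]
  [Module (MonoidAlgebra ℤ G) M] [Module.Finite (MonoidAlgebra ℤ G) M]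
  [Module.Projective (MonoidAlgebra ℤ G) M]

private theorem finite_tr : (Set.range (tr H)).Finite := by
  haveI : Finite (Quotient (QuotientGroup.rightRel H)) :=
    Finite.of_equiv _ (QuotientGroup.quotientRightRelEquivQuotientLeftRel H).symm
  refine (Set.finite_range
    (fun x : Quotient (QuotientGroup.rightRel H) => (Quotient.out x : G))).subset ?_
  rintro _ ⟨g, rfl⟩
  exact ⟨Quotient.mk _ g, rfl⟩

private theorem restrict_both :
    @Module.Finite (MonoidAlgebra ℤ H) M _ _ (Module.compHom M (inc H)) ∧
    @Module.Projective (MonoidAlgebra ℤ H) _ M _ (Module.compHom M (inc H)) := by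
  classical
  obtain ⟨m, e, μ, hμ⟩ := dual_basis (MonoidAlgebra ℤ G) M
  letI iM : Module (MonoidAlgebra ℤ H) M := Module.compHom M (inc H)
  have sm : ∀ (a : MonoidAlgebra ℤ H) (q : M), a • q = inc H a • q := fun a q => rfl
  let Y : Finset G := (finite_tr H).toFinset
  have hY : ∀ y ∈ Y, tr H y = y := by
    intro y hy
    obtain ⟨g, rfl⟩ := (Set.Finite.mem_toFinset _).1 hy
    exact tr_tr H g
  have hY2 : ∀ g, tr H g ∈ Y := fun g => (Set.Finite.mem_toFinset _).2 ⟨g, rfl⟩
  let ν : Fin m × Y → (M →ₗ[MonoidAlgebra ℤ H] MonoidAlgebra ℤ H) := fun i =>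
    { toFun := fun q => resH H (μ i.1 q * of ℤ G (i.2 : G)⁻¹)
      map_add' := fun q q' => by rw [map_add, add_mul, map_add]
      map_smul' := fun a q => by
        rw [sm, map_smul, smul_eq_mul, mul_assoc, resH_inc_mul, RingHom.id_apply, smul_eq_mul] }
  refine of_dual (fun i : Fin m × Y => of ℤ G (i.2 : G) • e i.1) ν fun q => ?_
  rw [Fintype.sum_prod_type]
  conv_lhs => rw [hμ q]
  refine Finset.sum_congr rfl fun k _ => ?_
  have h := expand H (AddMonoidHom.mk' (fun r : MonoidAlgebra ℤ G => r • e k)
    (fun r r' => add_smul r r' (e k))) (fun a r => by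
      change (inc H a * r) • e k = inc H a • (r • e k)
      rw [mul_smul]) (μ k q) Y hY (fun g _ => hY2 g)
  have h1 : μ k q • e k = ∑ y ∈ Y, resH H (μ k q * of ℤ G y⁻¹) • (of ℤ G y • e k) := h
  rw [h1, ← Finset.sum_coe_sort Y]
  rfl

theorem restrict_finite :
    @Module.Finite (MonoidAlgebra ℤ H) M _ _ (Module.compHom M (inc H)) :=
  (restrict_both H M).1

theorem restrict_projective :
    @Module.Projective (MonoidAlgebra ℤ H) _ M _ (Module.compHom M (inc H)) :=
  (restrict_both H M).2

end

end Pool.Agent.PDC
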