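import Mathlib
import Pool.Agent.PDC.Basic

set_option autoImplicit false

/-!
# PDC-FIB: ZG-linear maps M → ZG correspond to ZH-linear maps M → ZH (finite index)

PLAN ext_exists.  Y := Set.range (tr H), finite.  Φ q := ∑ t ∈ Y, of t⁻¹ * inc (φ (of t • q)).  Additive.
 * of g: Φ (of g • q) = ∑_t of t⁻¹ * inc (φ (of (t g) • q)); t g = h t' with t' = tr (t g), h ∈ H; t ↦ tr (t g) is a bijection of Y
   (inverse t' ↦ tr (t' g⁻¹)); φ(of (h t') • q) = of h * φ(of t' • q); of (t⁻¹ h) = of (g t'⁻¹).  So Φ(of g • q) = of g * Φ q.  General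
   scalars by `zg_induction`.
 * resH (Φ q) = φ q: for t ∈ Y, resH (of t⁻¹ * inc a) = resH (of t⁻¹) * a (`resH_mul_inc`), which is 0 unless t ∈ H, i.e. t = tr 1
   =: t0 ∈ H, giving of t0⁻¹ * φ (of t0 • q) = φ q.
PLAN ext_unique.  (Ψ q).coeff g = (of g⁻¹ * Ψ q).coeff 1 = (Ψ (of g⁻¹ • q)).coeff 1 = (resH (Ψ (of g⁻¹ • q))).coeff 1.
-/

namespace Pool.Agent.PDC

open MonoidAlgebra

section
variable {G : Type} [Group G] (H : Subgroup G) {M : Type} [AddCommGroup M]
  [Module (MonoidAlgebra ℤ G) M]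

private theorem fin_range_tr [H.FiniteIndex] : (Set.range (tr H)).Finite := by
  have h1 : Finite (G ⧸ H) := inferInstance
  have h2 : Finite (Quotient (QuotientGroup.rightRel H)) :=
    Finite.of_equiv _ (QuotientGroup.quotientRightRelEquivQuotientLeftRel H).symm
  refine (Set.finite_range (fun x : Quotient (QuotientGroup.rightRel H) =>
    (Quotient.out x : G))).subset ?_
  rintro _ ⟨g, rfl⟩
  exact ⟨_, rfl⟩

theorem ext_exists [H.FiniteIndex] (φ : M →+ MonoidAlgebra ℤ H)
    (hφ : ∀ (a : MonoidAlgebra ℤ H) (q : M), φ (inc H a • q) = a * φ q) :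
    ∃ Φ : M →ₗ[MonoidAlgebra ℤ G] MonoidAlgebra ℤ G, ∀ q, resH H (Φ q) = φ q := by
  classical
  set Y : Finset G := (fin_range_tr H).toFinset with hY
  have hmem : ∀ g, g ∈ Y ↔ tr H g = g := by
    intro g
    rw [hY, Set.Finite.mem_toFinset]
    constructor
    · rintro ⟨k, rfl⟩
      exact tr_tr H k
    · intro h
      exact ⟨g, h⟩
  have hin : ∀ g, tr H g ∈ Y := fun g => (hmem _).2 (tr_tr H g)
  set F : M →+ MonoidAlgebra ℤ G :=
    { toFun := fun q => ∑ t ∈ Y, of ℤ G t⁻¹ * inc H (φ (of ℤ G t • q))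
      map_zero' := by simp
      map_add' := by
        intro x y
        rw [← Finset.sum_add_distrib]
        refine Finset.sum_congr rfl fun t _ => ?_
        rw [smul_add, map_add, map_add, mul_add] } with hF
  have hFa : ∀ q, F q = ∑ t ∈ Y, of ℤ G t⁻¹ * inc H (φ (of ℤ G t • q)) := fun q => rfl
  have hg : ∀ (g : G) (q : M), F (of ℤ G g • q) = of ℤ G g * F q := by
    intro g q
    rw [hFa, hFa, Finset.mul_sum]
    refine Finset.sum_bij' (fun t _ => tr H (t * g)) (fun t _ => tr H (t * g⁻¹))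
      (fun t _ => hin _) (fun t _ => hin _) ?_ ?_ ?_
    · intro t ht
      conv_rhs => rw [← (hmem t).1 ht]
      rw [tr_eq_iff]
      have h1 := H.inv_mem (tr_mem H (t * g))
      have e : (t * g * (tr H (t * g))⁻¹)⁻¹ = tr H (t * g) * g⁻¹ * t⁻¹ := by group
      rwa [e] at h1
    · intro t ht
      conv_rhs => rw [← (hmem t).1 ht]
      rw [tr_eq_iff]
      have h1 := H.inv_mem (tr_mem H (t * g⁻¹))
      have e : (t * g⁻¹ * (tr H (t * g⁻¹))⁻¹)⁻¹ = tr H (t * g⁻¹) * g * t⁻¹ := by group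
      rwa [e] at h1
    · intro t ht
      set t' := tr H (t * g) with ht'
      have hh : t * g * t'⁻¹ ∈ H := tr_mem H (t * g)
      have e1 : of ℤ G t • of ℤ G g • q =
          inc H (of ℤ H ⟨t * g * t'⁻¹, hh⟩) • of ℤ G t' • q := by
        rw [inc_of, smul_smul, smul_smul, ← map_mul, ← map_mul, inv_mul_cancel_right]
      rw [e1, hφ, map_mul, inc_of, ← mul_assoc, ← mul_assoc, ← map_mul, ← map_mul]
      have e2 : t⁻¹ * (t * g * t'⁻¹) = g * t'⁻¹ := by group
      rw [show t⁻¹ * ((⟨t * g * t'⁻¹, hh⟩ : H) : G) = g * t'⁻¹ from e2]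
  have hlin : ∀ (r : MonoidAlgebra ℤ G) (q : M), F (r • q) = r * F q := by
    intro r q
    induction r using zg_induction with
    | h0 => simp
    | hadd x y hx hy => rw [add_smul, map_add, hx, hy, add_mul]
    | hneg x hx => rw [neg_smul, map_neg, hx, neg_mul]
    | hof g => exact hg g q
  refine ⟨{ toFun := F, map_add' := fun x y => map_add F x y, map_smul' := hlin }, ?_⟩
  intro q
  change resH H (F q) = φ q
  rw [hFa, map_sum, Finset.sum_eq_single (tr H 1)]
  · have h1 : (tr H 1)⁻¹ ∈ H := by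
      have := tr_mem H 1
      rwa [one_mul] at this
    have h2 : tr H 1 ∈ H := by
      have := H.inv_mem h1
      rwa [inv_inv] at this
    rw [resH_mul_inc, resH_of_mem H h1]
    have e1 : of ℤ G (tr H 1) • q = inc H (of ℤ H ⟨tr H 1, h2⟩) • q := by rw [inc_of]
    rw [e1, hφ, ← mul_assoc, ← map_mul]
    have e2 : (⟨(tr H 1)⁻¹, h1⟩ * ⟨tr H 1, h2⟩ : H) = 1 := by
      ext
      simp
    rw [e2, map_one, one_mul]
  · intro t ht hne
    rw [resH_mul_inc, resH_of_not_mem, zero_mul]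
    intro h
    apply hne
    have h1 : t ∈ H := by
      have := H.inv_mem h
      rwa [inv_inv] at this
    rw [← (hmem t).1 ht, tr_eq_iff]
    simpa using h1
  · intro h
    exact absurd (hin 1) h

private theorem coeff_of_inv_mul (g : G) (x : MonoidAlgebra ℤ G) :
    (of ℤ G g⁻¹ * x).coeff 1 = x.coeff g := by
  induction x using zg_induction with
  | h0 => simp
  | hadd x y hx hy => rw [mul_add, coeff_add, coeff_add, Finsupp.add_apply, Finsupp.add_apply, hx, hy]
  | hneg x hx => rw [mul_neg, coeff_neg, coeff_neg, Finsupp.neg_apply, Finsupp.neg_apply, hx]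
  | hof k =>
    classical
    rw [← map_mul, of_apply, of_apply, coeff_single, coeff_single, Finsupp.single_apply,
      Finsupp.single_apply]
    by_cases h : k = g
    · rw [if_pos h, if_pos (by rw [h, inv_mul_cancel])]
    · rw [if_neg h, if_neg]
      intro h'
      exact h (inv_mul_eq_one.1 h').symm

theorem ext_unique (Φ Ψ : M →ₗ[MonoidAlgebra ℤ G] MonoidAlgebra ℤ G)
    (h : ∀ q, resH H (Φ q) = resH H (Ψ q)) : Φ = Ψ := by
  refine LinearMap.ext fun q => ?_
  have key : ∀ g, (Φ q).coeff g = (Ψ q).coeff g := by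
    intro g
    rw [← coeff_of_inv_mul g (Φ q), ← coeff_of_inv_mul g (Ψ q), ← smul_eq_mul, ← smul_eq_mul,
      ← map_smul, ← map_smul]
    have h1 := congrArg (fun z => MonoidAlgebra.coeff z (1 : H)) (h (of ℤ G g⁻¹ • q))
    rw [coeff_resH, coeff_resH] at h1
    exact h1
  exact MonoidAlgebra.ext (Finsupp.ext key)

end

end Pool.Agent.PDC
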