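import Mathlib
import Pool.Agent.PDC.FIA
import Pool.Agent.PDC.FIB

set_option autoImplicit false

/-!
# PDC-FIC: a subgroup of finite index of a PD3-group is a PD3-group

PLAN.  Same groups P_i with the ZH-module structure `Module.compHom _ (inc H)`; d_i, ε the same additive maps (d_i is ZH-linear).
fin, proj: `restrict_finite`, `restrict_projective`.  Exactness, injectivity, surjectivity are statements on functions.  inv: inc_of.
For φ : P_i → ZH ZH-linear let ext φ be the ZG-linear map of `ext_exists` (choose), unique by `ext_unique`; resH ∘ ext φ = φ; ext is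
additive; ext (φ ∘ d) = (ext φ) ∘ d (uniqueness).  h0: φ ∘ d1 = 0 ⟹ (ext φ) ∘ d1 = 0 ⟹ ext φ = 0 ⟹ φ = 0.  h1, h2: ext φ = ψ ∘ d,
then φ = (resH ∘ ψ) ∘ d, resH ∘ ψ is ZH-linear (`resH_inc_mul`).  θ' φ := θ (ext φ); surjective: θ λ = z, φ := resH ∘ λ, ext φ = λ.
θ' φ = 0 ↔ ext φ = ψ ∘ d3 ↔ φ = (resH ∘ ψ) ∘ d3 (←: φ = ψ' ∘ d3 gives ext φ = (ext ψ') ∘ d3).
-/

namespace Pool.Agent.PDC

open MonoidAlgebra

/-- The module `M`, as a module over the group ring of the subgroup. -/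
private def Rs {G : Type} [Group G] (_H : Subgroup G) (M : Type) : Type := M

private instance rsAdd {G : Type} [Group G] (H : Subgroup G) (M : Type) [AddCommGroup M] :
    AddCommGroup (Rs H M) := inferInstanceAs (AddCommGroup M)

private noncomputable instance rsMod {G : Type} [Group G] (H : Subgroup G) (M : Type)
    [AddCommGroup M] [Module (MonoidAlgebra ℤ G) M] : Module (MonoidAlgebra ℤ H) (Rs H M) :=
  Module.compHom M (inc H)

section
variable {G : Type} [Group G] (H : Subgroup G) {M N : Type} [AddCommGroup M]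
  [Module (MonoidAlgebra ℤ G) M] [AddCommGroup N] [Module (MonoidAlgebra ℤ G) N]

private noncomputable def rsL (f : M →ₗ[MonoidAlgebra ℤ G] N) :
    Rs H M →ₗ[MonoidAlgebra ℤ H] Rs H N where
  toFun q := f q
  map_add' x y := f.map_add x y
  map_smul' a x := f.map_smul (inc H a) x

private theorem rsL_apply (f : M →ₗ[MonoidAlgebra ℤ G] N) (q : M) : rsL H f q = f q := rfl

private theorem fcR_addA (Ψ : M →ₗ[MonoidAlgebra ℤ G] MonoidAlgebra ℤ G) (x y : M) :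
    resH H (Ψ (x + y)) = resH H (Ψ x) + resH H (Ψ y) := by
  rw [map_add, map_add]

private theorem fcR_smulA (Ψ : M →ₗ[MonoidAlgebra ℤ G] MonoidAlgebra ℤ G)
    (a : MonoidAlgebra ℤ H) (x : M) : resH H (Ψ (inc H a • x)) = a * resH H (Ψ x) := by
  rw [map_smul, smul_eq_mul, resH_inc_mul]

private noncomputable def fcR (Ψ : M →ₗ[MonoidAlgebra ℤ G] MonoidAlgebra ℤ G) :
    Rs H M →ₗ[MonoidAlgebra ℤ H] MonoidAlgebra ℤ H where
  toFun q := resH H (Ψ q)
  map_add' x y := fcR_addA H Ψ x y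
  map_smul' a x := fcR_smulA H Ψ a x

private theorem fcR_apply (Ψ : M →ₗ[MonoidAlgebra ℤ G] MonoidAlgebra ℤ G) (q : M) :
    fcR H Ψ q = resH H (Ψ q) := rfl

variable [H.FiniteIndex]

private noncomputable def fcE (φ : Rs H M →ₗ[MonoidAlgebra ℤ H] MonoidAlgebra ℤ H) :
    M →ₗ[MonoidAlgebra ℤ G] MonoidAlgebra ℤ G :=
  (ext_exists H (M := M) φ.toAddMonoidHom (fun a q => φ.map_smul a q)).choose

private theorem fcE_spec (φ : Rs H M →ₗ[MonoidAlgebra ℤ H] MonoidAlgebra ℤ H) (q : M) :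
    resH H (fcE H φ q) = φ q :=
  (ext_exists H (M := M) φ.toAddMonoidHom (fun a q => φ.map_smul a q)).choose_spec q

private theorem fcE_uniq (φ : Rs H M →ₗ[MonoidAlgebra ℤ H] MonoidAlgebra ℤ H)
    (Φ : M →ₗ[MonoidAlgebra ℤ G] MonoidAlgebra ℤ G) (h : ∀ q : M, resH H (Φ q) = φ q) :
    fcE H φ = Φ :=
  ext_unique H _ _ fun q => by rw [fcE_spec, h]

private theorem fcE_fcR (Ψ : M →ₗ[MonoidAlgebra ℤ G] MonoidAlgebra ℤ G) :
    fcE H (fcR H Ψ) = Ψ := fcE_uniq H _ _ fun _ => rfl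

private theorem fcR_fcE (φ : Rs H M →ₗ[MonoidAlgebra ℤ H] MonoidAlgebra ℤ H) :
    fcR H (fcE H φ) = φ := LinearMap.ext fun q => fcE_spec H φ q

private theorem fcE_comp (φ : Rs H N →ₗ[MonoidAlgebra ℤ H] MonoidAlgebra ℤ H)
    (d : M →ₗ[MonoidAlgebra ℤ G] N) : fcE H (φ.comp (rsL H d)) = (fcE H φ).comp d :=
  fcE_uniq H _ _ fun q => fcE_spec H φ (d q)

omit [H.FiniteIndex] in
private theorem fcR_comp (Ψ : N →ₗ[MonoidAlgebra ℤ G] MonoidAlgebra ℤ G)
    (d : M →ₗ[MonoidAlgebra ℤ G] N) : fcR H (Ψ.comp d) = (fcR H Ψ).comp (rsL H d) :=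
  LinearMap.ext fun _ => rfl

private theorem fcE_zero :
    fcE H (0 : Rs H M →ₗ[MonoidAlgebra ℤ H] MonoidAlgebra ℤ H) = 0 :=
  fcE_uniq H _ _ fun _ => map_zero _

private theorem fcE_add (φ ψ : Rs H M →ₗ[MonoidAlgebra ℤ H] MonoidAlgebra ℤ H) :
    fcE H (φ + ψ) = fcE H φ + fcE H ψ :=
  fcE_uniq H _ _ fun q => by
    rw [LinearMap.add_apply, map_add, fcE_spec, fcE_spec]
    rfl

omit [H.FiniteIndex] in
private theorem fcR_zero : fcR H (0 : M →ₗ[MonoidAlgebra ℤ G] MonoidAlgebra ℤ G) = 0 :=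
  LinearMap.ext fun _ => map_zero (resH H)

private theorem fcE_eq_zero (φ : Rs H M →ₗ[MonoidAlgebra ℤ H] MonoidAlgebra ℤ H)
    (h : fcE H φ = 0) : φ = 0 := by
  rw [← fcR_fcE H φ, h, fcR_zero]

private theorem fc_lift (φ : Rs H M →ₗ[MonoidAlgebra ℤ H] MonoidAlgebra ℤ H)
    (d : M →ₗ[MonoidAlgebra ℤ G] N) :
    (∃ ψ : N →ₗ[MonoidAlgebra ℤ G] MonoidAlgebra ℤ G, fcE H φ = ψ.comp d) ↔
      ∃ ψ : Rs H N →ₗ[MonoidAlgebra ℤ H] MonoidAlgebra ℤ H, φ = ψ.comp (rsL H d) := by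
  constructor
  · rintro ⟨ψ, hψ⟩
    refine ⟨fcR H ψ, ?_⟩
    rw [← fcR_comp, ← hψ, fcR_fcE]
  · rintro ⟨ψ, rfl⟩
    exact ⟨fcE H ψ, fcE_comp H ψ d⟩

private theorem fc_comp_zero (φ : Rs H N →ₗ[MonoidAlgebra ℤ H] MonoidAlgebra ℤ H)
    (d : M →ₗ[MonoidAlgebra ℤ G] N) (h : φ.comp (rsL H d) = 0) : (fcE H φ).comp d = 0 := by
  rw [← fcE_comp, h, fcE_zero]

private theorem rs_finite [Module.Finite (MonoidAlgebra ℤ G) M]
    [Module.Projective (MonoidAlgebra ℤ G) M] : Module.Finite (MonoidAlgebra ℤ H) (Rs H M) :=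
  restrict_finite H M

private theorem rs_projective [Module.Finite (MonoidAlgebra ℤ G) M]
    [Module.Projective (MonoidAlgebra ℤ G) M] : Module.Projective (MonoidAlgebra ℤ H) (Rs H M) :=
  restrict_projective H M

end

theorem pd3_finiteIndex {G : Type} [Group G] (X : PD3 G) (H : Subgroup G) [H.FiniteIndex] :
    Nonempty (PD3 H) := by
  refine ⟨{
    P0 := Rs H X.P0
    P1 := Rs H X.P1
    P2 := Rs H X.P2
    P3 := Rs H X.P3
    i0 := rsAdd H X.P0
    m0 := rsMod H X.P0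
    i1 := rsAdd H X.P1
    m1 := rsMod H X.P1
    i2 := rsAdd H X.P2
    m2 := rsMod H X.P2
    i3 := rsAdd H X.P3
    m3 := rsMod H X.P3
    fin0 := rs_finite H
    proj0 := rs_projective H
    fin1 := rs_finite H
    proj1 := rs_projective H
    fin2 := rs_finite H
    proj2 := rs_projective H
    fin3 := rs_finite H
    proj3 := rs_projective H
    d1 := rsL H X.d1
    d2 := rsL H X.d2
    d3 := rsL H X.d3
    ε := X.ε
    inj3 := X.inj3
    ex2 := X.ex2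
    ex1 := X.ex1
    ex0 := X.ex0
    surj := X.surj
    inv := ?_
    h0 := ?_
    h1 := ?_
    h2 := ?_
    θ := { toFun := fun φ => X.θ (fcE H φ)
           map_zero' := ?_
           map_add' := ?_ }
    θsurj := ?_
    θker := ?_ }⟩
  · intro h x
    have h1 := X.inv (h : G) x
    rw [← inc_of H h] at h1
    exact h1
  · intro φ hφ
    exact fcE_eq_zero H φ (X.h0 _ (fc_comp_zero H φ X.d1 hφ))
  · intro φ hφ
    exact (fc_lift H φ X.d1).1 (X.h1 _ (fc_comp_zero H φ X.d2 hφ))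
  · intro φ hφ
    exact (fc_lift H φ X.d2).1 (X.h2 _ (fc_comp_zero H φ X.d3 hφ))
  · rw [fcE_zero, map_zero]
  · intro φ ψ
    rw [fcE_add, map_add]
  · intro z
    obtain ⟨l, hl⟩ := X.θsurj z
    refine ⟨fcR H l, ?_⟩
    change X.θ (fcE H (fcR H l)) = z
    rw [fcE_fcR, hl]
  · intro φ
    change X.θ (fcE H φ) = 0 ↔ _
    rw [X.θker]
    exact fc_lift H φ X.d3

end Pool.Agent.PDC
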