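import Mathlib
import Pool.Agent.PDC.AugI

set_option autoImplicit false

/-!
# PDC-FP2: type FP_2 from finitely generated relation modules
-/

namespace Pool.Agent.PDC

open MonoidAlgebra

/-- `K` is of type `FP₂`: the trivial module `ℤ` has a resolution by finitely generated free
modules, exact up to degree one. -/
def TypeFP2 (K : Type) [Group K] : Prop :=
  ∃ (m n : ℕ) (δ2 : (Fin m → MonoidAlgebra ℤ K) →ₗ[MonoidAlgebra ℤ K] (Fin n → MonoidAlgebra ℤ K))
    (δ1 : (Fin n → MonoidAlgebra ℤ K) →ₗ[MonoidAlgebra ℤ K] MonoidAlgebra ℤ K),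
    Function.Exact ⇑δ2 ⇑δ1 ∧ Function.Exact ⇑δ1 ⇑(aug : MonoidAlgebra ℤ K →+* ℤ) ∧
    Function.Surjective ⇑(aug : MonoidAlgebra ℤ K →+* ℤ)

theorem fp2_of_relFG {K : Type} [Group K] [Group.FG K] (h : RelFG K) : TypeFP2 K := by
  obtain ⟨n, x, hx⟩ : ∃ (n : ℕ) (x : Fin n → K), Subgroup.closure (Set.range x) = ⊤ := by
    obtain ⟨S, hS⟩ := (Group.fg_def (G := K)).1 inferInstance
    refine ⟨S.card, fun i => (S.equivFin.symm i : K), ?_⟩
    have : Set.range (fun i => (S.equivFin.symm i : K)) = (S : Set K) := by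
      ext k
      constructor
      · rintro ⟨i, rfl⟩
        exact (S.equivFin.symm i).2
      · intro hk
        exact ⟨S.equivFin ⟨k, hk⟩, by simp⟩
    rw [this, hS]
  have hfg := h n x hx
  obtain ⟨m, s, hs⟩ := Submodule.fg_iff_exists_fin_generating_family.1 hfg
  refine ⟨m, n, Fintype.linearCombination (MonoidAlgebra ℤ K) s, bd x, ?_, ?_, ?_⟩
  · intro a
    constructor
    · intro ha
      have h1 : a ∈ LinearMap.ker (bd x) := ha
      rw [← hs, ← Fintype.range_linearCombination] at h1
      exact h1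
    · intro ha
      have h1 : a ∈ LinearMap.range (Fintype.linearCombination (MonoidAlgebra ℤ K) s) := ha
      rw [Fintype.range_linearCombination, hs] at h1
      exact h1
  · intro a
    constructor
    · intro ha
      obtain ⟨p, hp⟩ := aug_exact x hx a ha
      exact ⟨p, hp⟩
    · rintro ⟨p, rfl⟩
      exact bd_aug x p
  · intro z
    refine ⟨z • (1 : MonoidAlgebra ℤ K), ?_⟩
    rw [map_zsmul, map_one]
    simp

end Pool.Agent.PDC
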