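import Mathlib
import Pool.Agent.Helper13.FPTools

set_option autoImplicit false

/-!
# PDC-FPUp: finite presentability passes up from a subgroup of finite index

PLAN.  K is finitely generated (N finitely generated and coset representatives).  π : F = FreeGroup (Fin n) →* K surjective.
F1 := N.comap π has finite index in F, so it is finitely generated (`Subgroup.fg_of_index_ne_zero`, F is FG).  p : F1 →* N the
restriction, surjective.  `Pool.Agent.Helper13.ker_fng p`: p.ker is the normal closure in F1 of a finite set Σ.  π.ker ≤ F1, so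
π.ker = (p.ker).map F1.subtype, contained in the normal closure in F of the image of Σ (comap of that normal closure to F1
is normal and contains Σ), and conversely.
-/

namespace Pool.Agent.PDC

private theorem fg_up {K : Type} [Group K] (N : Subgroup K) [N.FiniteIndex]
    (hN : Group.FG N) : Group.FG K := by
  classical
  obtain ⟨S, hS⟩ := hN.out
  have hfin : Finite (K ⧸ N) := inferInstance
  have hT : (Set.range (fun q : K ⧸ N => (q.out : K))).Finite := Set.finite_range _
  refine ⟨⟨(S.image (fun s : N => (s : K))) ∪ hT.toFinset, ?_⟩⟩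
  rw [eq_top_iff]
  intro k _
  set C : Subgroup K := Subgroup.closure
    (((S.image (fun s : N => (s : K))) ∪ hT.toFinset : Finset K) : Set K) with hC
  have h1 : ∀ x : N, (x : K) ∈ C := by
    intro x
    have hx : x ∈ Subgroup.closure (S : Set N) := by
      rw [hS]
      trivial
    have hle : Subgroup.closure (S : Set N) ≤ C.comap N.subtype := by
      rw [Subgroup.closure_le]
      intro s hs
      apply Subgroup.subset_closure
      exact Finset.mem_coe.2 (Finset.mem_union_left _ (Finset.mem_image_of_mem _ hs))
    exact hle hx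
  have h2 : ((k : K ⧸ N).out : K) ∈ C := by
    apply Subgroup.subset_closure
    exact Finset.mem_coe.2 (Finset.mem_union_right _ (hT.mem_toFinset.2 ⟨_, rfl⟩))
  have h3 : ((k : K ⧸ N).out : K)⁻¹ * k ∈ N := by
    rw [← QuotientGroup.eq]
    exact QuotientGroup.out_eq' _
  have h4 : k = ((k : K ⧸ N).out : K) * (((k : K ⧸ N).out : K)⁻¹ * k) := by group
  rw [h4]
  exact C.mul_mem h2 (h1 ⟨_, h3⟩)

theorem fp_of_finiteIndex {K : Type} [Group K] (N : Subgroup K) [N.FiniteIndex]
    [Group.IsFinitelyPresented N] : Group.IsFinitelyPresented K := by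
  have hN : Group.IsFinitelyPresented N := inferInstance
  have hNfg : Group.FG N := by
    obtain ⟨n, φ, hφ, -⟩ := hN.out
    exact Group.fg_of_surjective hφ
  have hK : Group.FG K := fg_up N hNfg
  obtain ⟨α, hα, π, hπ⟩ := Group.fg_iff_exists_freeGroup_hom_surjective_finite.1 hK
  refine Group.IsFinitelyPresented.of_surjective π hπ ?_
  have hF1 : (N.comap π).FiniteIndex := by
    refine ⟨?_⟩
    rw [Subgroup.index_comap_of_surjective N hπ]
    exact Subgroup.FiniteIndex.index_ne_zero
  have hFG : Group.FG (N.comap π) := inferInstance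
  have hp : Function.Surjective (π.subgroupComap N) := by
    rintro ⟨x, hx⟩
    obtain ⟨y, rfl⟩ := hπ x
    exact ⟨⟨y, hx⟩, rfl⟩
  obtain ⟨R, hR, hRk⟩ := Pool.Agent.Helper13.ker_fng (π.subgroupComap N) hp
  refine ⟨(N.comap π).subtype '' R, hR.image _, ?_⟩
  apply le_antisymm
  · apply Subgroup.normalClosure_le_normal
    rintro _ ⟨r, hr, rfl⟩
    have h1 : r ∈ (π.subgroupComap N).ker := by
      rw [← hRk]
      exact Subgroup.subset_normalClosure hr
    have h2 : (π.subgroupComap N) r = 1 := h1
    have h3 := congrArg (fun z : N => (z : K)) h2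
    exact h3
  · intro x hx
    have hxN : x ∈ N.comap π := by
      rw [Subgroup.mem_comap, MonoidHom.mem_ker.1 hx]
      exact N.one_mem
    have h1 : (⟨x, hxN⟩ : N.comap π) ∈ (π.subgroupComap N).ker := by
      rw [MonoidHom.mem_ker]
      apply Subtype.ext
      exact MonoidHom.mem_ker.1 hx
    rw [← hRk] at h1
    have hle : Subgroup.normalClosure R ≤
        (Subgroup.normalClosure ((N.comap π).subtype '' R)).comap (N.comap π).subtype := by
      apply Subgroup.normalClosure_le_normal
      intro r hr
      exact Subgroup.subset_normalClosure ⟨r, hr, rfl⟩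
    exact hle h1

end Pool.Agent.PDC
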