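import Mathlib
import Pool.Agent.PDC.DualB
import Pool.Agent.PDC.AugI

set_option autoImplicit false

/-!
# PDC-FinG: finite generation of the relation module from finite supports

PLAN.  ker (bd x) = span of the finite set {g1 (d2 (of t • e k)) | t ∈ Y, k} ∪ {σ j | j}.
 ⊇: bd x (g1 (d2 ..)) = 0 by hg1' (d1 ∘ d2 = 0, `X.ex1`), bd x (σ j) = 0.
 ⊆: p ∈ ker: take q from hsupp; p = g1 (d2 q) - ∑ p j • σ j, q = ∑ k, μ k q • e k; apply `expand` to
   Λk : ZG →+ (Fin n → ZH), Λk r = g1 (d2 (r • e k)) (H-linear by hg1):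
   g1 (d2 q) = ∑ k, Λk (μ k q) = ∑ k, ∑ t ∈ Y, resH (μ k q * of t⁻¹) • g1 (d2 (of t • e k)).
-/

namespace Pool.Agent.PDC

open MonoidAlgebra

theorem fin_gen {G : Type} [Group G] (X : PD3 G) (H : Subgroup G) {n : ℕ} (x : Fin n → H)
    (y : Fin n → X.P1) (g1 : X.P1 →+ (Fin n → MonoidAlgebra ℤ H))
    (σ : Fin n → (Fin n → MonoidAlgebra ℤ H))
    (hg1 : ∀ (a : MonoidAlgebra ℤ H) (q : X.P1), g1 (inc H a • q) = a • g1 q)
    (hg1' : ∀ z : X.P1, X.d1 z = 0 → bd x (g1 z) = 0)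
    (hσ : ∀ j, bd x (σ j) = 0)
    (hp : ∀ p : Fin n → MonoidAlgebra ℤ H, bd x p = 0 →
        p = g1 (∑ j, inc H (p j) • y j) - ∑ j, p j • σ j)
    {m : ℕ} (e : Fin m → X.P2) (μ : Fin m → (X.P2 →ₗ[MonoidAlgebra ℤ G] MonoidAlgebra ℤ G))
    (hμ : ∀ q : X.P2, q = ∑ k, μ k q • e k)
    (Y : Finset G) (hY : ∀ t ∈ Y, tr H t = t)
    (hsupp : ∀ p : Fin n → MonoidAlgebra ℤ H, bd x p = 0 →
      ∃ q : X.P2, X.d2 q = ∑ j, inc H (p j) • y j ∧
        ∀ k g, (μ k q).coeff g ≠ 0 → tr H g ∈ Y) :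
    (LinearMap.ker (bd x)).FG := by
  classical
  have hz : ∀ q : X.P2, bd x (g1 (X.d2 q)) = 0 := fun q =>
    hg1' _ (X.ex1.apply_apply_eq_zero q)
  let Λ : Fin m → (MonoidAlgebra ℤ G →+ (Fin n → MonoidAlgebra ℤ H)) := fun k =>
    AddMonoidHom.mk' (fun r => g1 (X.d2 (r • e k))) (fun a b => by
      rw [add_smul, map_add, map_add])
  have hΛ : ∀ k r, Λ k r = g1 (X.d2 (r • e k)) := fun _ _ => rfl
  rw [Submodule.fg_def]
  refine ⟨(Set.range fun z : Y × Fin m => Λ z.2 (of ℤ G (z.1 : G))) ∪ Set.range σ,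
    (Set.finite_range _).union (Set.finite_range _), le_antisymm ?_ ?_⟩
  · rw [Submodule.span_le]
    rintro v (⟨z, rfl⟩ | ⟨j, rfl⟩)
    · exact LinearMap.mem_ker.2 (hz _)
    · exact LinearMap.mem_ker.2 (hσ j)
  · intro p hpk
    rw [LinearMap.mem_ker] at hpk
    obtain ⟨q, hq1, hq2⟩ := hsupp p hpk
    have h1 := hp p hpk
    rw [← hq1] at h1
    have h2 : g1 (X.d2 q) = ∑ k, Λ k (μ k q) := by
      conv_lhs => rw [hμ q]
      rw [map_sum, map_sum]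
      rfl
    have h3 : ∀ k, Λ k (μ k q) ∈ Submodule.span (MonoidAlgebra ℤ H)
        ((Set.range fun z : Y × Fin m => Λ z.2 (of ℤ G (z.1 : G))) ∪ Set.range σ) := by
      intro k
      rw [expand H (Λ k) (fun a r => by rw [hΛ, hΛ, mul_smul, map_smul, hg1]) (μ k q) Y hY
        (hq2 k)]
      refine Submodule.sum_mem _ fun t ht => Submodule.smul_mem _ _ ?_
      exact Submodule.subset_span (Or.inl ⟨(⟨t, ht⟩, k), rfl⟩)
    rw [h1, h2]
    refine sub_mem (Submodule.sum_mem _ fun k _ => h3 k) (Submodule.sum_mem _ fun j _ => ?_)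
    exact Submodule.smul_mem _ _ (Submodule.subset_span (Or.inr ⟨j, rfl⟩))

end Pool.Agent.PDC
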