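import Mathlib
import Pool.Agent.PDC.DualB

set_option autoImplicit false

/-!
# PDC-GFG: a PD3-group is finitely generated

PLAN.  R = ZG.  `tau_exists` gives τ : P0 → R linear with aug τ = ε.  Take p0 with ε p0 = 1
(`X.surj`), let b_1..b_m generate P1 (`Module.Finite.exists_fin'` or `dual_basis`).
Finite set of elements of the augmentation ideal: u_i = τ(d1 b_i) (aug = ε d1 = 0, by
`X.ex0`: ε (d1 q) = 0) and y = τ p0 - 1 (aug = 0).  For k in G: (k-1)p0 is in ker ε, so
(k-1) p0 = d1 q, q = ∑ r_i b_i (r_i in R), apply τ: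
  (k-1)(1 + y) = ∑ r_i u_i,  i.e.  k - 1 = ∑ r_i u_i - (k-1) y.            (*)
T = union of the supports (`coeff.support`) of the u_i and y; C = Subgroup.closure T.
Let Φ : ZG →+ ((G ⧸ C) →₀ ℤ), Φ r = Finsupp.mapDomain (QuotientGroup.mk) r.coeff
(e.g. `extZ (fun g => Finsupp.single (g : G ⧸ C) 1)`).
If u has support in T and aug u = 0 then Φ(r * u) = 0 for all r: by additivity in r it is enough
that Φ(of g * u) = ∑_t u(t) [g t C] = (∑_t u(t)) [g C] = 0 (t in C).  So (*) gives [kC] = [C], k in C.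
Final S = T ∪ T⁻¹.
-/

namespace Pool.Agent.PDC

open MonoidAlgebra

private theorem hom_ext_supp {G : Type} [Group G] {M : Type*} [AddCommGroup M]
    (F F' : MonoidAlgebra ℤ G →+ M) (v : MonoidAlgebra ℤ G)
    (h : ∀ g ∈ v.coeff.support, F (of ℤ G g) = F' (of ℤ G g)) : F v = F' v := by
  have hr' : v = v.coeff.sum (fun g n => n • of ℤ G g) := by
    conv_lhs => rw [← sum_coeff_single v]
    refine Finsupp.sum_congr ?_
    intro g _
    rw [of_apply, smul_single]
    simp
  rw [hr', Finsupp.sum, map_sum, map_sum]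
  refine Finset.sum_congr rfl fun g hg => ?_
  rw [map_zsmul, map_zsmul, h g hg]

theorem fg_of_PD3 {G : Type} [Group G] (X : PD3 G) :
    ∃ S : Finset G, (∀ s ∈ S, s⁻¹ ∈ S) ∧ Subgroup.closure (S : Set G) = ⊤ := by
  classical
  obtain ⟨τ, hτ⟩ := tau_exists X
  obtain ⟨p0, hp0⟩ := X.surj 1
  obtain ⟨m, b, μ, hb⟩ := dual_basis (MonoidAlgebra ℤ G) X.P1
  set u : Fin m → MonoidAlgebra ℤ G := fun i => τ (X.d1 (b i)) with hu
  set y : MonoidAlgebra ℤ G := τ p0 - 1 with hy
  have hu0 : ∀ i, aug (u i) = 0 := by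
    intro i
    change aug (τ (X.d1 (b i))) = 0
    rw [hτ]
    exact (X.ex0 (X.d1 (b i))).2 ⟨b i, rfl⟩
  have hy0 : aug y = 0 := by
    rw [hy, map_sub, hτ, hp0, map_one, sub_self]
  set T : Finset G := (Finset.univ.biUnion fun i => (u i).coeff.support) ∪ y.coeff.support with hT
  set C : Subgroup G := Subgroup.closure (T : Set G) with hC
  have huC : ∀ i, ∀ g ∈ (u i).coeff.support, g ∈ C := by
    intro i g hg
    apply Subgroup.subset_closure
    rw [hT]
    exact Finset.mem_coe.2 (Finset.mem_union_left _ (Finset.mem_biUnion.2 ⟨i, Finset.mem_univ i, hg⟩))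
  have hyC : ∀ g ∈ y.coeff.support, g ∈ C := by
    intro g hg
    apply Subgroup.subset_closure
    rw [hT]
    exact Finset.mem_coe.2 (Finset.mem_union_right _ hg)
  let Φ : MonoidAlgebra ℤ G →+ ((G ⧸ C) →₀ ℤ) :=
    extZ (fun g => Finsupp.single ((g : G) : G ⧸ C) (1 : ℤ))
  have hΦof : ∀ g : G, Φ (of ℤ G g) = Finsupp.single ((g : G) : G ⧸ C) (1 : ℤ) := fun g =>
    extZ_of _ g
  have hΦ : ∀ v : MonoidAlgebra ℤ G, (∀ g ∈ v.coeff.support, g ∈ C) → aug v = 0 →
      ∀ r, Φ (r * v) = 0 := by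
    intro v hv hv0 r
    induction r using zg_induction with
    | h0 => simp
    | hadd a b ha hb => rw [add_mul, map_add, ha, hb, add_zero]
    | hneg a ha => rw [neg_mul, map_neg, ha, neg_zero]
    | hof g =>
      have h1 := hom_ext_supp (Φ.comp (AddMonoidHom.mulLeft (of ℤ G g)))
        (((smulAddHom ℤ ((G ⧸ C) →₀ ℤ)).flip (Finsupp.single ((g : G) : G ⧸ C) (1 : ℤ))).comp
          (aug (G := G)).toAddMonoidHom) v ?_
      · have h2 : Φ (of ℤ G g * v) = aug v • Finsupp.single ((g : G) : G ⧸ C) (1 : ℤ) := h1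
        rw [h2, hv0, zero_smul]
      · intro t ht
        change Φ (of ℤ G g * of ℤ G t) =
          aug (of ℤ G t) • Finsupp.single ((g : G) : G ⧸ C) (1 : ℤ)
        rw [← map_mul, hΦof, aug_of, one_smul]
        congr 1
        rw [QuotientGroup.eq]
        have e : (g * t)⁻¹ * g = t⁻¹ := by group
        rw [e]
        exact C.inv_mem (hv t ht)
  have hall : ∀ k : G, k ∈ C := by
    intro k
    have h1 : X.ε (of ℤ G k • p0 - p0) = 0 := by
      rw [map_sub, X.inv, sub_self]
    obtain ⟨q, hq⟩ := (X.ex0 _).1 h1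
    have h2 : τ (X.d1 q) = (of ℤ G k - 1) * (1 + y) := by
      rw [hq, map_sub, map_smul, smul_eq_mul, hy]
      noncomm_ring
    have h3 : τ (X.d1 q) = ∑ i, μ i q * u i := by
      conv_lhs => rw [hb q]
      rw [map_sum, map_sum]
      refine Finset.sum_congr rfl fun i _ => ?_
      rw [map_smul, map_smul, smul_eq_mul]
    have h4 : Φ (τ (X.d1 q)) = 0 := by
      rw [h3, map_sum]
      exact Finset.sum_eq_zero fun i _ => hΦ (u i) (huC i) (hu0 i) (μ i q)
    have h5 : (of ℤ G k - 1) * (1 + y) = of ℤ G k - of ℤ G 1 + (of ℤ G k * y - 1 * y) := by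
      rw [map_one]
      noncomm_ring
    rw [h2, h5, map_add, map_sub, map_sub, hΦ y hyC hy0, hΦ y hyC hy0, hΦof, hΦof, sub_zero,
      add_zero, sub_eq_zero] at h4
    have h6 := (Finsupp.single_left_inj (one_ne_zero)).1 h4
    rw [QuotientGroup.eq] at h6
    have h7 : k⁻¹ * 1 = k⁻¹ := mul_one _
    rw [h7] at h6
    exact (Subgroup.inv_mem_iff C).1 h6
  refine ⟨T ∪ T.image (fun g => g⁻¹), ?_, ?_⟩
  · intro s hs
    rcases Finset.mem_union.1 hs with h | h
    · exact Finset.mem_union_right _ (Finset.mem_image_of_mem _ h)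
    · obtain ⟨t, ht, rfl⟩ := Finset.mem_image.1 h
      rw [inv_inv]
      exact Finset.mem_union_left _ ht
  · rw [eq_top_iff]
    intro k _
    have h1 : C ≤ Subgroup.closure ((T ∪ T.image (fun g => g⁻¹) : Finset G) : Set G) := by
      apply Subgroup.closure_mono
      intro g hg
      exact Finset.mem_coe.2 (Finset.mem_union_left _ (Finset.mem_coe.1 hg))
    exact h1 (hall k)

end Pool.Agent.PDC
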