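import Mathlib
import Pool.Agent.PDC.Defs

set_option autoImplicit false

/-!
# PDC: the class `HierD`
-/

namespace Pool.Agent.PDC

/-- The integral group ring of `K` embeds in a division ring. -/
def EmbD (K : Type) [Group K] : Prop :=
  ∃ (D : Type) (_ : DivisionRing D) (f : MonoidAlgebra ℤ K →+* D), Function.Injective f

/-- Every finitely generated subgroup `K` of `L` has a subgroup of finite index whose integral group
ring embeds in a division ring. -/
def LocEmb {Γ : Type} [Group Γ] (L : Subgroup Γ) : Prop :=
  ∀ K : Subgroup Γ, K ≤ L → K.FG → ∃ K₀ : Subgroup Γ, K₀ ≤ K ∧ K₀.relIndex K ≠ 0 ∧ EmbD K₀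

/-- The smallest class of subgroups of `Γ` which contains every `L` all of whose finitely generated
subgroups are finitely presented, and every `L` with `LocEmb L` which acts without inversions on a
tree with all vertex stabilisers in the class. -/
inductive HierD {Γ : Type} [Group Γ] : Subgroup Γ → Prop
  | base (L : Subgroup Γ)
      (h : ∀ K : Subgroup Γ, K ≤ L → K.FG → Group.IsFinitelyPresented K) : HierD L
  | tree (L : Subgroup Γ) (hL : LocEmb L) (V : Type) (T : SimpleGraph V) (_ : MulAction L V)
      (hT : T.IsTree) (hadj : ∀ (g : L) (v w : V), T.Adj v w → T.Adj (g • v) (g • w))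
      (hinv : ∀ (g : L) (v w : V), T.Adj v w → g • v = w → g • w ≠ v)
      (h : ∀ v : V, HierD ((MulAction.stabilizer L v).map L.subtype)) : HierD L

end Pool.Agent.PDC
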