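import Mathlib
import Pool.Agent.PDC.Basic

set_option autoImplicit false

/-!
# PDC-LemE: Lemma E (an almost equivariant twisted function has support in finitely many cosets)

PLAN.  Note: f(of h⁻¹) is a unit of D for every h; f (of h) = 1 or = -1 (h in G) implies h = 1
(f injective, `of` injective, `single h 1 = - single 1 1` is impossible: compare coefficients).
For d ≠ 0 put V d = {g | φ g = d ∨ φ g = -d}.
(1) For s in S, {g | ¬(g ∈ V d ↔ g s ∈ V d)} is finite: such a g is bad for s, i.e.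
    φ(g s) ≠ w s • φ g (w s = ±1), so g = h y with y in the finite set Y_s, h in H.  Moreover φ g = ±d or
    φ (g s) = ±d; φ g = φ y f(h⁻¹), φ(g s) = φ(y s) f(h⁻¹).  So f(h⁻¹) is one of ±(φ y)⁻¹ d, ±(φ (y s))⁻¹ d:
    finitely many h (h ↦ f(of h⁻¹) injective), finitely many g.
(2) OneEnded: V d is finite or cofinite.  Take h0 in H, h0 ≠ 1: g ↦ h0 g maps V d into its complement
    (φ(h0 g) = ±d f(h0⁻¹), which is ±d only if f(h0⁻¹) = ±1).  So V d is finite (G infinite).
(3) V d non-empty (φ g0 = d): there are s in S, g with ¬(g ∈ V d ↔ g s ∈ V d), since otherwise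
    {k | ∀ g, g ∈ V d ↔ g k ∈ V d} is a subgroup containing S, hence everything and V d = G is infinite.
    As in (1): some y in Y_s, h in H with φ(y)f(h⁻¹) = ±d or φ(y s) f(h⁻¹) = ±d, i.e. with z = y or z = y s:
    φ(h⁻¹ g0) = d f(h) = ± φ z, φ z ≠ 0: h⁻¹ g0 ∈ V (φ z).
(4) So {g | φ g ≠ 0} is contained in the union of H • V(φ z), z in ⋃_s (Y_s ∪ Y_s s) with φ z ≠ 0: the
    finite set Y := ⋃_z V (φ z) works.
-/

namespace Pool.Agent.PDC

open MonoidAlgebra

private theorem lemE_one {G : Type} [Group G] {D : Type} [DivisionRing D]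
    (f : MonoidAlgebra ℤ G →+* D) (hf : Function.Injective f) {h : G} (hh : f (of ℤ G h) = 1) :
    h = 1 := by
  have h1 : of ℤ G h = of ℤ G 1 := hf (by rw [hh, map_one, map_one])
  exact of_injective h1

private theorem lemE_neg {G : Type} [Group G] {D : Type} [DivisionRing D]
    (f : MonoidAlgebra ℤ G →+* D) (hf : Function.Injective f) (h : G) : f (of ℤ G h) ≠ -1 := by
  intro hh
  have h1 : of ℤ G h = -1 := hf (by rw [hh, map_neg, map_one])
  have h2 := congrArg aug h1
  rw [aug_of, map_neg, map_one] at h2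
  norm_num at h2

private theorem lemE_mul {G : Type} [Group G] {D : Type} [DivisionRing D]
    (f : MonoidAlgebra ℤ G →+* D) (h : G) : f (of ℤ G h⁻¹) * f (of ℤ G h) = 1 := by
  rw [← map_mul, ← map_mul, inv_mul_cancel, map_one, map_one]

private theorem lemE_inj {G : Type} [Group G] {D : Type} [DivisionRing D]
    (f : MonoidAlgebra ℤ G →+* D) (hf : Function.Injective f) {a b : G}
    (hab : f (of ℤ G a⁻¹) = f (of ℤ G b⁻¹) ∨ f (of ℤ G a⁻¹) = -f (of ℤ G b⁻¹)) : a = b := by
  have e : f (of ℤ G (a⁻¹ * b)) = f (of ℤ G a⁻¹) * f (of ℤ G b) := by rw [map_mul, map_mul]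
  rcases hab with h | h
  · rw [h, lemE_mul] at e
    have := lemE_one f hf e
    exact inv_mul_eq_one.1 this
  · rw [h, neg_mul, lemE_mul] at e
    exact absurd e (lemE_neg f hf _)

private theorem lemE_sub {G : Type} [Group G] {D : Type} [DivisionRing D]
    (f : MonoidAlgebra ℤ G →+* D) (hf : Function.Injective f) (c : D) {d : D} (hd : d ≠ 0) :
    {h : G | c * f (of ℤ G h⁻¹) = d ∨ c * f (of ℤ G h⁻¹) = -d}.Finite := by
  apply Set.Subsingleton.finite
  have hc : ∀ a : G, (c * f (of ℤ G a⁻¹) = d ∨ c * f (of ℤ G a⁻¹) = -d) → c ≠ 0 := by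
    rintro a ha rfl
    rw [zero_mul] at ha
    rcases ha with ha | ha
    · exact hd ha.symm
    · exact hd (neg_eq_zero.1 ha.symm)
  intro a ha b hb
  have hc0 := hc a ha
  apply lemE_inj f hf
  rcases ha with ha | ha <;> rcases hb with hb | hb
  · left
    exact mul_left_cancel₀ hc0 (ha.trans hb.symm)
  · right
    apply mul_left_cancel₀ hc0
    rw [mul_neg, hb, neg_neg]
    exact ha
  · right
    apply mul_left_cancel₀ hc0
    rw [mul_neg, hb]
    exact ha
  · left
    exact mul_left_cancel₀ hc0 (ha.trans hb.symm)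

private def lemE_V {G D : Type} [Neg D] (φ : G → D) (d : D) : Set G := {g | φ g = d ∨ φ g = -d}

/-- an edge of the boundary of `V d` is bad, and one of its ends is `h z` -/
private theorem lemE_edge {G : Type} [Group G] 
    {D : Type} [DivisionRing D] (f : MonoidAlgebra ℤ G →+* D)
    (H : Subgroup G) (w : G → ℤ) (hw : ∀ g, w g = 1 ∨ w g = -1)
    (φ : G → D) (hφ : ∀ h ∈ H, ∀ g, φ (h * g) = φ g * f (of ℤ G h⁻¹)) (s : G) (Y : Finset G)
    (hY : ∀ g ∈ {g : G | φ (g * s) ≠ w s • φ g}, ∃ y ∈ Y, g * y⁻¹ ∈ H) (d : D) (g : G)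
    (hg : ¬ (g ∈ lemE_V φ d ↔ g * s ∈ lemE_V φ d)) :
    ∃ y ∈ Y, ∃ h ∈ H, g = h * y ∧ ((φ y * f (of ℤ G h⁻¹) = d ∨ φ y * f (of ℤ G h⁻¹) = -d) ∨
      (φ (y * s) * f (of ℤ G h⁻¹) = d ∨ φ (y * s) * f (of ℤ G h⁻¹) = -d)) := by
  have hbad : φ (g * s) ≠ w s • φ g := by
    intro heq
    apply hg
    unfold lemE_V
    simp only [Set.mem_ofPred_eq]
    rcases hw s with h | h
    · rw [heq, h, one_smul]
    · rw [heq, h, neg_smul, one_smul]
      constructor
      · rintro (h1 | h1)
        · right; rw [h1]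
        · left; rw [h1, neg_neg]
      · rintro (h1 | h1)
        · right; rw [← h1, neg_neg]
        · left; exact neg_injective h1
  obtain ⟨y, hy, hyH⟩ := hY g hbad
  refine ⟨y, hy, g * y⁻¹, hyH, by group, ?_⟩
  have e1 : φ g = φ y * f (of ℤ G (g * y⁻¹)⁻¹) := by
    have := hφ _ hyH y
    rwa [inv_mul_cancel_right] at this
  have e2 : φ (g * s) = φ (y * s) * f (of ℤ G (g * y⁻¹)⁻¹) := by
    have := hφ _ hyH (y * s)
    have e : g * y⁻¹ * (y * s) = g * s := by group
    rwa [e] at this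
  rw [← e1, ← e2]
  by_contra hno
  apply hg
  have h1 : ¬ (φ g = d ∨ φ g = -d) := fun h => hno (Or.inl h)
  have h2 : ¬ (φ (g * s) = d ∨ φ (g * s) = -d) := fun h => hno (Or.inr h)
  exact ⟨fun h => absurd h h1, fun h => absurd h h2⟩

theorem lemma_E {G : Type} [Group G] [Infinite G] (hE : OneEnded G) (S : Finset G)
    (hS : Subgroup.closure (S : Set G) = ⊤)
    {D : Type} [DivisionRing D] (f : MonoidAlgebra ℤ G →+* D) (hf : Function.Injective f)
    (H : Subgroup G) (hH : H ≠ ⊥) (w : G → ℤ) (hw : ∀ g, w g = 1 ∨ w g = -1)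
    (φ : G → D) (hφ : ∀ h ∈ H, ∀ g, φ (h * g) = φ g * f (of ℤ G h⁻¹))
    (hb : ∀ s ∈ S, FinCos H {g : G | φ (g * s) ≠ w s • φ g}) :
    FinCos H {g : G | φ g ≠ 0} := by
  classical
  -- the finite sets `Y s`
  have hb' : ∀ s : G, ∃ Y : Finset G, s ∈ S →
      ∀ g ∈ {g : G | φ (g * s) ≠ w s • φ g}, ∃ y ∈ Y, g * y⁻¹ ∈ H := by
    intro s
    by_cases hs : s ∈ S
    · obtain ⟨Y, hY⟩ := hb s hs
      exact ⟨Y, fun _ => hY⟩
    · exact ⟨∅, fun h => absurd h hs⟩
  choose Y hY using hb'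
  -- step 1
  have step1 : ∀ d : D, d ≠ 0 → ∀ s ∈ S,
      {g : G | ¬ (g ∈ lemE_V φ d ↔ g * s ∈ lemE_V φ d)}.Finite := by
    intro d hd s hs
    have hfin : (⋃ y ∈ (Y s : Set G),
        ((fun h => h * y) '' {h : G | φ y * f (of ℤ G h⁻¹) = d ∨ φ y * f (of ℤ G h⁻¹) = -d}) ∪
        ((fun h => h * y) '' {h : G | φ (y * s) * f (of ℤ G h⁻¹) = d ∨
          φ (y * s) * f (of ℤ G h⁻¹) = -d})).Finite := by
      refine Set.Finite.biUnion (Y s).finite_toSet fun y _ => ?_
      exact ((lemE_sub f hf _ hd).image _).union ((lemE_sub f hf _ hd).image _)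
    refine hfin.subset ?_
    intro g hg
    obtain ⟨y, hy, h, -, hgy, hcase⟩ := lemE_edge f H w hw φ hφ s (Y s) (hY s hs) d g hg
    refine Set.mem_biUnion hy ?_
    rcases hcase with hc | hc
    · exact Or.inl ⟨h, hc, hgy.symm⟩
    · exact Or.inr ⟨h, hc, hgy.symm⟩
  -- step 2
  obtain ⟨⟨h0, hh0⟩, hne⟩ := (Subgroup.ne_bot_iff_exists_ne_one).1 hH
  have hne' : h0 ≠ 1 := fun h => hne (Subtype.ext h)
  have step2 : ∀ d : D, d ≠ 0 → (lemE_V φ d).Finite := by
    intro d hd
    rcases hE S hS (lemE_V φ d) (step1 d hd) with h | h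
    · exact h
    · have hsub : (fun g => h0 * g) '' lemE_V φ d ⊆ (lemE_V φ d)ᶜ := by
        rintro _ ⟨g, hg, rfl⟩ hg'
        have e := hφ h0 hh0 g
        change φ (h0 * g) = d ∨ φ (h0 * g) = -d at hg'
        rw [e] at hg'
        apply hne'
        rcases hg with hg | hg <;> rcases hg' with hg' | hg' <;> rw [hg] at hg'
        · have h2 := lemE_one f hf (mul_left_cancel₀ hd (hg'.trans (mul_one d).symm))
          exact inv_eq_one.1 h2
        · exact absurd (mul_left_cancel₀ hd (hg'.trans (mul_neg_one d).symm)) (lemE_neg f hf _)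
        · have h3 : d * f (of ℤ G h0⁻¹) = d * (-1) := by
            rw [neg_mul] at hg'
            rw [mul_neg_one]
            exact neg_injective (by rw [hg', neg_neg])
          exact absurd (mul_left_cancel₀ hd h3) (lemE_neg f hf _)
        · have h3 : d * f (of ℤ G h0⁻¹) = d * 1 := by
            rw [neg_mul] at hg'
            rw [mul_one]
            exact neg_injective hg'
          have h2 := lemE_one f hf (mul_left_cancel₀ hd h3)
          exact inv_eq_one.1 h2
      exact Set.Finite.of_finite_image (h.subset hsub) (mul_right_injective h0).injOn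
  -- step 3
  have step3 : ∀ g0 : G, φ g0 ≠ 0 → ∃ s ∈ S, ∃ g, 
      ¬ (g ∈ lemE_V φ (φ g0) ↔ g * s ∈ lemE_V φ (φ g0)) := by
    intro g0 h0
    by_contra hno
    push Not at hno
    have hall : ∀ k : G, ∀ g, g ∈ lemE_V φ (φ g0) ↔ g * k ∈ lemE_V φ (φ g0) := by
      intro k
      have hk : k ∈ Subgroup.closure (S : Set G) := by rw [hS]; trivial
      induction hk using Subgroup.closure_induction with
      | mem x hx => exact fun g => hno x hx g
      | one => intro g; rw [mul_one]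
      | mul x y _ _ hx hy => intro g; rw [hx g, hy (g * x), mul_assoc]
      | inv x _ hx =>
        intro g
        have := hx (g * x⁻¹)
        rw [inv_mul_cancel_right] at this
        exact this.symm
    have huniv : lemE_V φ (φ g0) = Set.univ := by
      rw [Set.eq_univ_iff_forall]
      intro k
      have h1 := (hall (g0⁻¹ * k) g0).1 (Or.inl rfl)
      rwa [mul_inv_cancel_left] at h1
    have hfin := step2 (φ g0) h0
    rw [huniv] at hfin
    exact Set.infinite_univ hfin
  -- step 4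
  have hfin : (⋃ s ∈ (S : Set G), ⋃ y ∈ (Y s : Set G),
      {g : G | φ y ≠ 0 ∧ g ∈ lemE_V φ (φ y)} ∪
      {g : G | φ (y * s) ≠ 0 ∧ g ∈ lemE_V φ (φ (y * s))}).Finite := by
    refine Set.Finite.biUnion S.finite_toSet fun s _ => ?_
    refine Set.Finite.biUnion (Y s).finite_toSet fun y _ => ?_
    refine Set.Finite.union ?_ ?_
    · by_cases hz : φ y = 0
      · simp [hz]
      · exact (step2 _ hz).subset fun g hg => hg.2
    · by_cases hz : φ (y * s) = 0
      · simp [hz]
      · exact (step2 _ hz).subset fun g hg => hg.2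
  refine ⟨hfin.toFinset, fun g0 hg0 => ?_⟩
  obtain ⟨s, hs, g, hg⟩ := step3 g0 hg0
  obtain ⟨y, hy, h, hhH, -, hcase⟩ := lemE_edge f H w hw φ hφ s (Y s) (hY s hs) (φ g0) g hg
  have e3 : φ (h⁻¹ * g0) = φ g0 * f (of ℤ G h) := by
    have := hφ h⁻¹ (H.inv_mem hhH) g0
    rwa [inv_inv] at this
  have key : ∀ c : D, (c * f (of ℤ G h⁻¹) = φ g0 ∨ c * f (of ℤ G h⁻¹) = -φ g0) →
      c ≠ 0 ∧ h⁻¹ * g0 ∈ lemE_V φ c := by
    intro c hc
    constructor
    · rintro rfl
      rw [zero_mul] at hc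
      rcases hc with hc | hc
      · exact hg0 hc.symm
      · exact hg0 (neg_eq_zero.1 hc.symm)
    · change φ (h⁻¹ * g0) = c ∨ φ (h⁻¹ * g0) = -c
      rw [e3]
      rcases hc with hc | hc
      · left
        rw [← hc, mul_assoc, lemE_mul, mul_one]
      · right
        have : φ g0 = -(c * f (of ℤ G h⁻¹)) := by rw [hc, neg_neg]
        rw [this, neg_mul, mul_assoc, lemE_mul, mul_one]
  refine ⟨h⁻¹ * g0, ?_, ?_⟩
  · rw [Set.Finite.mem_toFinset]
    refine Set.mem_biUnion (show s ∈ (S : Set G) from hs) ?_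
    refine Set.mem_biUnion (show y ∈ (Y s : Set G) from hy) ?_
    rcases hcase with hc | hc
    · exact Or.inl (key _ hc)
    · exact Or.inr (key _ hc)
  · have : g0 * (h⁻¹ * g0)⁻¹ = h := by group
    rw [this]
    exact hhH

end Pool.Agent.PDC
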