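import Mathlib
import Pool.Agent.PDC.Zeta

set_option autoImplicit false

/-!
# PDC-Phi: zeta only depends on μ ∘ d3; the function φ

Setting: q_a ∈ P2 with d2 q_a = ∑_j inc(p_{a,j}) • y_j and ∑_a d_a f(inc p_{a,j}) = 0 for all j.

PLAN zeta_of_comp: μ ∘ d3 = 0 ⟹ μ = ν ∘ d2 (`X.h2`), so μ (q a) = ν (d2 (q a)) = ∑_j inc(p a j) * ν (y j) and
 resH (μ (q a) * of g⁻¹) = ∑_j p a j * resH (ν (y j) * of g⁻¹) (`resH_inc_mul`); f, inc ring homs;
 swap the sums: zeta μ g = ∑_j (∑_a d_a f(inc (p a j))) * f(inc (resH ..)) = 0.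
PLAN phi_exists: by `X.θker` choose μ' k : P2 →ₗ ZG with (μ' k) ∘ d3 = rmul l0 (of k) - w k • l0 (θ of the right side
 is w k - w k = 0, by hwθ).  dl k g := zeta (μ' k) g.  By zeta_of_comp (applied to a difference, `zeta_sub`) dl k g = zeta μ g
 for every μ with μ ∘ d3 = rmul l0 (of k) - w k • l0.  In particular (μ := rmul (μ' k) (of k') + w k • μ' k'):
   dl (k k') g = dl k (g k'⁻¹) + w k • dl k' g.                                        (1)
 dl h 1 = 0 for h ∈ H: closure induction over the generators x_j (as elements of G; hx0):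
   for h' ∈ H dl k (h'⁻¹) = dl k 1 * f (of h') (`zeta_left` with g = 1) so (1) at g = 1 gives
   dl (k h') 1 = dl k 1 * f(of h') + w k • dl h' 1;  dl 1 1 = 0 [k = h' = 1, w 1 = 1 as w 1 = w 1 * w 1 and w 1 = ±1];
   inverse: 0 = dl (k k⁻¹) 1 = dl k 1 * .. + w k • dl k⁻¹ 1.
   (Use `Subgroup.closure_induction` in H with predicate dl (h : G) 1 = 0; hx.)
 φ g := dl g⁻¹ 1.
   φ (h g) = dl (g⁻¹ h⁻¹) 1 = dl g⁻¹ (h) + w g⁻¹ • dl h⁻¹ 1 = dl g⁻¹ 1 * f (of h⁻¹) = φ g * f (of h⁻¹)  (zeta_left)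
   φ (g k⁻¹) = dl (k g⁻¹) 1 = dl k g + w k • dl g⁻¹ 1  (since (g⁻¹)⁻¹ = g) = dl k g + w k • φ g.
-/

namespace Pool.Agent.PDC

open MonoidAlgebra

section
variable {G : Type} [Group G] (X : PD3 G) (H : Subgroup G) {D : Type} [DivisionRing D]
  (f : MonoidAlgebra ℤ G →+* D) {I : Type} [Fintype I] (d : I → D) (q : I → X.P2)
  {n : ℕ} (x : Fin n → H) (y : Fin n → X.P1) (p : I → Fin n → MonoidAlgebra ℤ H)

theorem zeta_of_comp (hq : ∀ a, X.d2 (q a) = ∑ j, inc H (p a j) • y j)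
    (hv : ∀ j, ∑ a, d a * f (inc H (p a j)) = 0)
    (μ : X.P2 →ₗ[MonoidAlgebra ℤ G] MonoidAlgebra ℤ G) (hμ : μ.comp X.d3 = 0) (g : G) :
    zeta H f d q μ g = 0 := by
  obtain ⟨ν, hν⟩ := X.h2 μ hμ
  have h1 : ∀ a, f (inc H (resH H (μ (q a) * of ℤ G g⁻¹))) =
      ∑ j, f (inc H (p a j)) * f (inc H (resH H (ν (y j) * of ℤ G g⁻¹))) := by
    intro a
    have h2 : μ (q a) = ∑ j, inc H (p a j) * ν (y j) := by
      rw [hν, LinearMap.comp_apply, hq a, map_sum]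
      refine Finset.sum_congr rfl fun j _ => ?_
      rw [map_smul, smul_eq_mul]
    rw [h2, Finset.sum_mul, map_sum, map_sum, map_sum]
    refine Finset.sum_congr rfl fun j _ => ?_
    rw [mul_assoc, resH_inc_mul, map_mul, map_mul]
  unfold zeta
  have h3 : ∑ a, d a * f (inc H (resH H (μ (q a) * of ℤ G g⁻¹))) =
      ∑ j, (∑ a, d a * f (inc H (p a j))) * f (inc H (resH H (ν (y j) * of ℤ G g⁻¹))) := by
    have h4 : ∀ a ∈ (Finset.univ : Finset I), d a * f (inc H (resH H (μ (q a) * of ℤ G g⁻¹))) =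
        ∑ j, d a * f (inc H (p a j)) * f (inc H (resH H (ν (y j) * of ℤ G g⁻¹))) := by
      intro a _
      rw [h1 a, Finset.mul_sum]
      refine Finset.sum_congr rfl fun j _ => ?_
      rw [mul_assoc]
    rw [Finset.sum_congr rfl h4, Finset.sum_comm]
    refine Finset.sum_congr rfl fun j _ => ?_
    rw [Finset.sum_mul]
  rw [h3]
  refine Finset.sum_eq_zero fun j _ => ?_
  rw [hv j, zero_mul]

theorem phi_exists (hx : Subgroup.closure (Set.range x) = ⊤)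
    (w : G → ℤ) (hw : ∀ g, w g = 1 ∨ w g = -1) (hwm : ∀ g g', w (g * g') = w g * w g')
    (hwθ : ∀ (g : G) (φ : X.P3 →ₗ[MonoidAlgebra ℤ G] MonoidAlgebra ℤ G),
        X.θ (rmul φ (of ℤ G g)) = w g * X.θ φ)
    (l0 : X.P3 →ₗ[MonoidAlgebra ℤ G] MonoidAlgebra ℤ G) (hl0 : X.θ l0 = 1)
    (hz : ∀ (μ : X.P2 →ₗ[MonoidAlgebra ℤ G] MonoidAlgebra ℤ G), μ.comp X.d3 = 0 → ∀ g : G,
      zeta H f d q μ g = 0)
    (hx0 : ∀ j, ∃ μ : X.P2 →ₗ[MonoidAlgebra ℤ G] MonoidAlgebra ℤ G,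
      μ.comp X.d3 = rmul l0 (of ℤ G (x j : G)) - w (x j : G) • l0 ∧ zeta H f d q μ 1 = 0) :
    ∃ φ : G → D, (∀ h ∈ H, ∀ g, φ (h * g) = φ g * f (of ℤ G h⁻¹)) ∧
      ∀ (k g : G) (μ : X.P2 →ₗ[MonoidAlgebra ℤ G] MonoidAlgebra ℤ G),
        μ.comp X.d3 = rmul l0 (of ℤ G k) - w k • l0 →
        φ (g * k⁻¹) = w k • φ g + zeta H f d q μ g := by
  have hex : ∀ k : G, ∃ ψ : X.P2 →ₗ[MonoidAlgebra ℤ G] MonoidAlgebra ℤ G,
      ψ.comp X.d3 = rmul l0 (of ℤ G k) - w k • l0 := by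
    intro k
    have h1 : X.θ (rmul l0 (of ℤ G k) - w k • l0) = 0 := by
      rw [map_sub, map_zsmul, hwθ, hl0]
      simp
    obtain ⟨ψ, hψ⟩ := (X.θker _).1 h1
    exact ⟨ψ, hψ.symm⟩
  choose μ' hμ' using hex
  have hdl : ∀ (k : G) (μ : X.P2 →ₗ[MonoidAlgebra ℤ G] MonoidAlgebra ℤ G),
      μ.comp X.d3 = rmul l0 (of ℤ G k) - w k • l0 → ∀ g,
      zeta H f d q μ g = zeta H f d q (μ' k) g := by
    intro k μ hμ g
    have h1 : (μ - μ' k).comp X.d3 = 0 := by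
      rw [LinearMap.sub_comp, hμ, hμ' k, sub_self]
    have h2 := hz (μ - μ' k) h1 g
    rw [zeta_sub] at h2
    exact sub_eq_zero.1 h2
  have hcoc : ∀ k k' g : G, zeta H f d q (μ' (k * k')) g =
      zeta H f d q (μ' k) (g * k'⁻¹) + w k • zeta H f d q (μ' k') g := by
    intro k k' g
    have h1 : (rmul (μ' k) (of ℤ G k') + w k • μ' k').comp X.d3 =
        rmul l0 (of ℤ G (k * k')) - w (k * k') • l0 := by
      have e1 : (rmul (μ' k) (of ℤ G k')).comp X.d3 = rmul ((μ' k).comp X.d3) (of ℤ G k') := by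
        ext1 z
        rw [LinearMap.comp_apply, rmul_apply, rmul_apply, LinearMap.comp_apply]
      have e2 : (w k • μ' k').comp X.d3 = w k • ((μ' k').comp X.d3) := by
        ext1 z
        rfl
      rw [LinearMap.add_comp, e1, e2, hμ', hμ']
      ext1 z
      simp only [LinearMap.add_apply, LinearMap.sub_apply, LinearMap.smul_apply, rmul_apply]
      rw [hwm, map_mul, sub_mul, smul_sub, smul_smul, smul_mul_assoc, mul_assoc]
      abel
    rw [← hdl (k * k') _ h1 g, zeta_add, zeta_zsmul, zeta_rmul_of]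
  have hw1 : w 1 = 1 := by
    have h1 := hwm 1 1
    rw [mul_one] at h1
    rcases hw 1 with h | h
    · exact h
    · rw [h] at h1
      norm_num at h1
  have hleft : ∀ (k h : G), h ∈ H → zeta H f d q (μ' k) h =
      zeta H f d q (μ' k) 1 * f (of ℤ G h⁻¹) := by
    intro k h hh
    have h1 := zeta_left H f d q (μ' k) hh 1
    rwa [mul_one] at h1
  have h0 : ∀ h : H, zeta H f d q (μ' (h : G)) 1 = 0 := by
    intro h
    have hmem : h ∈ Subgroup.closure (Set.range x) := by rw [hx]; exact Subgroup.mem_top h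
    induction hmem using Subgroup.closure_induction with
    | mem h hh =>
      obtain ⟨j, rfl⟩ := hh
      obtain ⟨μ, h1, h2⟩ := hx0 j
      rw [← hdl _ μ h1 1]
      exact h2
    | one =>
      have h1 := hcoc 1 1 1
      rw [mul_one, inv_one, mul_one, hw1, one_smul] at h1
      rw [Subgroup.coe_one]
      exact left_eq_add.1 h1
    | mul a b _ _ iha ihb =>
      rw [Subgroup.coe_mul, hcoc, ihb, smul_zero, add_zero, one_mul,
        hleft _ _ (H.inv_mem b.2), iha, zero_mul]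
    | inv a _ iha =>
      have h1 := hcoc (a : G) (a : G)⁻¹ 1
      have h2 : zeta H f d q (μ' 1) 1 = 0 := by
        have h1 := hcoc 1 1 1
        rw [mul_one, inv_one, mul_one, hw1, one_smul] at h1
        exact left_eq_add.1 h1
      rw [mul_inv_cancel, inv_inv, one_mul, h2, hleft _ _ a.2, iha, zero_mul, zero_add] at h1
      rw [Subgroup.coe_inv]
      rcases hw (a : G) with h | h
      · rw [h, one_smul] at h1
        exact h1.symm
      · rw [h, neg_smul, one_smul] at h1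
        exact neg_eq_zero.1 h1.symm
  refine ⟨fun g => zeta H f d q (μ' g⁻¹) 1, ?_, ?_⟩
  · intro h hh g
    change zeta H f d q (μ' (h * g)⁻¹) 1 = zeta H f d q (μ' g⁻¹) 1 * f (of ℤ G h⁻¹)
    have h1 : zeta H f d q (μ' h⁻¹) 1 = 0 := h0 ⟨h⁻¹, H.inv_mem hh⟩
    rw [mul_inv_rev, hcoc, inv_inv, one_mul, h1, smul_zero, add_zero, hleft _ _ hh]
  · intro k g μ hμ
    change zeta H f d q (μ' (g * k⁻¹)⁻¹) 1 = w k • zeta H f d q (μ' g⁻¹) 1 + zeta H f d q μ g
    rw [mul_inv_rev, inv_inv, hcoc, inv_inv, one_mul, hdl k μ hμ g, add_comm]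

end

end Pool.Agent.PDC
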