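import Mathlib
import Pool.Agent.PDC.Basic

set_option autoImplicit false

/-!
# PDC-Sign: the orientation character

PLAN.  Choose l0 with θ l0 = 1 (`X.θsurj`).  w g := θ (rmul l0 (of g)).
Every φ in P3^* is θ(φ) • l0 + φ', θ φ' = 0, so φ' = ψ ∘ d3 (`X.θker`),
rmul φ' r = (rmul ψ r) ∘ d3 (ext, `rmul_apply`), so θ (rmul φ' (of g)) = 0 and
θ (rmul φ (of g)) = θ φ * w g.  (rmul is additive in φ and commutes with zsmul: ext.)
rmul (rmul φ (of g)) (of g') = rmul φ (of (g * g')), rmul φ (of 1) = φ: w multiplicative, w 1 = 1,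
so w g * w g⁻¹ = 1 and w g is 1 or -1 (`Int.isUnit_iff`).
-/

namespace Pool.Agent.PDC

open MonoidAlgebra

theorem sign_exists {G : Type} [Group G] (X : PD3 G) :
    ∃ w : G → ℤ, (∀ g, w g = 1 ∨ w g = -1) ∧ (∀ g g', w (g * g') = w g * w g') ∧
      ∀ (g : G) (φ : X.P3 →ₗ[MonoidAlgebra ℤ G] MonoidAlgebra ℤ G),
        X.θ (rmul φ (of ℤ G g)) = w g * X.θ φ := by
  obtain ⟨l0, hl0⟩ := X.θsurj 1
  have key : ∀ (g : G) (φ : X.P3 →ₗ[MonoidAlgebra ℤ G] MonoidAlgebra ℤ G),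
      X.θ (rmul φ (of ℤ G g)) = X.θ (rmul l0 (of ℤ G g)) * X.θ φ := by
    intro g φ
    have h0 : X.θ (φ - X.θ φ • l0) = 0 := by
      rw [map_sub, map_zsmul, hl0, smul_eq_mul, mul_one, sub_self]
    obtain ⟨ψ, hψ⟩ := (X.θker _).1 h0
    have h1 : rmul φ (of ℤ G g) - X.θ φ • rmul l0 (of ℤ G g) =
        (rmul ψ (of ℤ G g)).comp X.d3 := by
      ext q : 1
      have h2 : φ q - X.θ φ • l0 q = ψ (X.d3 q) := by
        have h3 := congrArg (fun F => F q) hψ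
        simpa using h3
      rw [LinearMap.sub_apply, LinearMap.smul_apply, rmul_apply, rmul_apply,
        LinearMap.comp_apply, rmul_apply, ← h2, sub_mul, smul_mul_assoc]
    have h4 : X.θ (rmul φ (of ℤ G g) - X.θ φ • rmul l0 (of ℤ G g)) = 0 :=
      (X.θker _).2 ⟨_, h1⟩
    rw [map_sub, map_zsmul, smul_eq_mul, sub_eq_zero] at h4
    rw [h4, mul_comm]
  have hmul : ∀ g g', X.θ (rmul l0 (of ℤ G (g * g'))) =
      X.θ (rmul l0 (of ℤ G g)) * X.θ (rmul l0 (of ℤ G g')) := by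
    intro g g'
    have e : rmul l0 (of ℤ G (g * g')) = rmul (rmul l0 (of ℤ G g)) (of ℤ G g') := by
      ext q : 1
      rw [rmul_apply, rmul_apply, rmul_apply, map_mul, mul_assoc]
    rw [e, key, mul_comm]
  have hone : X.θ (rmul l0 (of ℤ G 1)) = 1 := by
    have e : rmul l0 (of ℤ G (1 : G)) = l0 := by
      ext q : 1
      rw [rmul_apply, map_one, mul_one]
    rw [e, hl0]
  refine ⟨fun g => X.θ (rmul l0 (of ℤ G g)), ?_, hmul, key⟩
  intro g
  have h : X.θ (rmul l0 (of ℤ G g)) * X.θ (rmul l0 (of ℤ G g⁻¹)) = 1 := by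
    rw [← hmul, mul_inv_cancel, hone]
  exact Int.isUnit_iff.1 (IsUnit.of_mul_eq_one _ h)

end Pool.Agent.PDC
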