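import Mathlib
import Pool.Agent.PDC.GFG
import Pool.Agent.PDC.Sign
import Pool.Agent.PDC.End1
import Pool.Agent.PDC.LemE
import Pool.Agent.PDC.Phi
import Pool.Agent.PDC.Eta
import Pool.Agent.PDC.Sep

set_option autoImplicit false

/-!
# PDC-Heart: the main claim

PLAN.  hz := `zeta_of_comp` hq hv.  φ from `phi_exists`.
For s ∈ S (S from `fg_of_PD3`), {g | φ (g s) ≠ w s • φ g}: with k = s⁻¹ and μ_k (exists by X.θker, as
θ(rmul l0 (of k) - w k • l0) = 0): φ (g s) = w s⁻¹ • φ g + zeta μ_k g, w s⁻¹ = w s (w s * w s⁻¹ = w 1 = 1), so the set is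
contained in {g | zeta μ_k g ≠ 0}, FinCos by `zeta_fin`.  `lemma_E` (G infinite because H.index = 0:
`Subgroup.index_eq_zero_iff_infinite` / finite groups have finite index; OneEnded from `oneEnded_of_PD3`):
FinCos {φ ≠ 0}.  `eta_exists`: I', d', y'.
`sep` for the family on I ⊕ I' (d ⊕ -d', q ⊕ d3 y'): zeta of it is 0, so for every H-linear Λ : P2 →+ D
  ∑_a d a * Λ (q a) = ∑_b d' b * Λ (d3 (y' b)).                                            (1)
Given μ, g: Λ q := f (inc (resH (μ q * of g⁻¹))) (additive, H-linear by `resH_inc_mul`), and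
Λ' q := Λ (d3 (ρ q)) (H-linear since ρ and d3 are).  Λ' (d3 y) = Λ (d3 y).  So by (1) twice
 zeta μ g = ∑ d a * Λ (q a) = ∑ d' b * Λ (d3 (y' b)) = ∑ d' b * Λ' (d3 (y' b)) = ∑ d a * Λ' (q a)
          = ∑ d a * Λ (d3 (ρ (q a))) = 0.
-/

namespace Pool.Agent.PDC

open MonoidAlgebra

theorem heart {G : Type} [Group G] (X : PD3 G) (H : Subgroup G) (hinf : H.index = 0)
    (hne : H ≠ ⊥) {D : Type} [DivisionRing D]
    (f : MonoidAlgebra ℤ G →+* D) (hf : Function.Injective f)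
    (ρ : X.P2 →+ X.P3) (hρ1 : ∀ (a : MonoidAlgebra ℤ H) (q : X.P2), ρ (inc H a • q) = inc H a • ρ q)
    (hρ2 : ∀ y : X.P3, ρ (X.d3 y) = y)
    {I : Type} [Fintype I] (d : I → D) (q : I → X.P2)
    {n : ℕ} (x : Fin n → H) (hx : Subgroup.closure (Set.range x) = ⊤)
    (y : Fin n → X.P1) (p : I → Fin n → MonoidAlgebra ℤ H)
    (w : G → ℤ) (hw : ∀ g, w g = 1 ∨ w g = -1) (hwm : ∀ g g', w (g * g') = w g * w g')
    (hwθ : ∀ (g : G) (φ : X.P3 →ₗ[MonoidAlgebra ℤ G] MonoidAlgebra ℤ G),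
        X.θ (rmul φ (of ℤ G g)) = w g * X.θ φ)
    (l0 : X.P3 →ₗ[MonoidAlgebra ℤ G] MonoidAlgebra ℤ G) (hl0 : X.θ l0 = 1)
    (hq : ∀ a, X.d2 (q a) = ∑ j, inc H (p a j) • y j)
    (hρq : ∀ a, ρ (q a) = 0)
    (hv : ∀ j, ∑ a, d a * f (inc H (p a j)) = 0)
    (hx0 : ∀ j, ∃ μ : X.P2 →ₗ[MonoidAlgebra ℤ G] MonoidAlgebra ℤ G,
      μ.comp X.d3 = rmul l0 (of ℤ G (x j : G)) - w (x j : G) • l0 ∧ zeta H f d q μ 1 = 0)
    (μ : X.P2 →ₗ[MonoidAlgebra ℤ G] MonoidAlgebra ℤ G) (g : G) :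
    zeta H f d q μ g = 0 := by
  classical
  have hz := fun (μ : X.P2 →ₗ[MonoidAlgebra ℤ G] MonoidAlgebra ℤ G) (hμ : μ.comp X.d3 = 0) (g : G) =>
    zeta_of_comp X H f d q y p hq hv μ hμ g
  obtain ⟨φ, hφ1, hφ2⟩ := phi_exists X H f d q x hx w hw hwm hwθ l0 hl0 hz hx0
  obtain ⟨S, -, hS⟩ := fg_of_PD3 X
  have : Infinite G := by
    rw [← not_finite_iff_infinite]
    intro hfin
    have := hfin
    exact (Subgroup.FiniteIndex.index_ne_zero (H := H)) hinf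
  have hw1 : w 1 = 1 := by
    have h1 := hwm 1 1
    rw [mul_one] at h1
    rcases hw 1 with h | h
    · exact h
    · rw [h] at h1
      norm_num at h1
  have hwinv : ∀ s, w s⁻¹ = w s := by
    intro s
    have h1 : w s * w s⁻¹ = 1 := by rw [← hwm, mul_inv_cancel, hw1]
    rcases hw s with h | h <;> rcases hw s⁻¹ with h' | h' <;> rw [h, h'] at h1 ⊢ <;>
      first | rfl | (norm_num at h1)
  have hb : ∀ s ∈ S, FinCos H {g : G | φ (g * s) ≠ w s • φ g} := by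
    intro s _
    have h0 : X.θ (rmul l0 (of ℤ G s⁻¹) - w s⁻¹ • l0) = 0 := by
      rw [map_sub, map_zsmul, hwθ, hl0, smul_eq_mul, sub_self]
    obtain ⟨ν, hν⟩ := (X.θker _).1 h0
    obtain ⟨Y, hY⟩ := zeta_fin H f d q ν
    refine ⟨Y, ?_⟩
    intro g hg
    apply hY g
    change zeta H f d q ν g ≠ 0
    intro h1
    apply hg
    have h2 := hφ2 s⁻¹ g ν hν.symm
    rw [inv_inv, h1, add_zero, hwinv] at h2
    exact h2
  have hφ3 := lemma_E (oneEnded_of_PD3 X) S hS f hf H hne w hw φ hφ1 hb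
  obtain ⟨I', fI', d', y', hη⟩ := eta_exists X H f d q w hwθ l0 hl0 hz φ hφ1 hφ2 hφ3
  have key : ∀ Λ : X.P2 →+ D, (∀ (a : MonoidAlgebra ℤ H) (m : X.P2),
      Λ (inc H a • m) = f (inc H a) * Λ m) →
      ∑ a, d a * Λ (q a) = ∑ b, d' b * Λ (X.d3 (y' b)) := by
    intro Λ hΛ
    have h1 := sep H f (Sum.elim d (fun b => - d' b)) (Sum.elim q (fun b => X.d3 (y' b)))
      (by
        intro μ g
        have h2 := hη μ g
        unfold zeta at h2 ⊢
        rw [Fintype.sum_sum_type]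
        simp only [Sum.elim_inl, Sum.elim_inr, neg_mul, Finset.sum_neg_distrib]
        rw [h2]
        exact add_neg_cancel _) Λ hΛ
    rw [Fintype.sum_sum_type] at h1
    simp only [Sum.elim_inl, Sum.elim_inr, neg_mul, Finset.sum_neg_distrib] at h1
    exact add_neg_eq_zero.1 h1
  let Λ : X.P2 →+ D :=
    { toFun := fun q => f (inc H (resH H (μ q * of ℤ G g⁻¹)))
      map_zero' := by simp
      map_add' := fun a b => by rw [map_add, add_mul, map_add, map_add, map_add] }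
  have hΛ : ∀ (a : MonoidAlgebra ℤ H) (m : X.P2), Λ (inc H a • m) = f (inc H a) * Λ m := by
    intro a m
    change f (inc H (resH H (μ (inc H a • m) * of ℤ G g⁻¹))) =
      f (inc H a) * f (inc H (resH H (μ m * of ℤ G g⁻¹)))
    rw [map_smul, smul_eq_mul, mul_assoc, resH_inc_mul, map_mul, map_mul]
  let Λ' : X.P2 →+ D := Λ.comp ((X.d3 : X.P3 →+ X.P2).comp ρ)
  have hΛ'v : ∀ m, Λ' m = Λ (X.d3 (ρ m)) := fun m => rfl
  have hΛ' : ∀ (a : MonoidAlgebra ℤ H) (m : X.P2), Λ' (inc H a • m) = f (inc H a) * Λ' m := by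
    intro a m
    rw [hΛ'v, hΛ'v, hρ1, map_smul, hΛ]
  have h1 := key Λ hΛ
  have h2 := key Λ' hΛ'
  have h3 : ∑ a, d a * Λ' (q a) = 0 := by
    apply Finset.sum_eq_zero
    intro a _
    rw [hΛ'v, hρq, map_zero, map_zero, mul_zero]
  have h4 : ∑ b, d' b * Λ' (X.d3 (y' b)) = ∑ b, d' b * Λ (X.d3 (y' b)) := by
    apply Finset.sum_congr rfl
    intro b _
    rw [hΛ'v, hρ2]
  have h5 : zeta H f d q μ g = ∑ a, d a * Λ (q a) := rfl
  rw [h5, h1, ← h4, ← h2, h3]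

end Pool.Agent.PDC
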