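import Mathlib
import Pool.Agent.PDC.Basic

set_option autoImplicit false

/-!
# PDC-RelEq: RelFG is invariant under isomorphism
-/

namespace Pool.Agent.PDC

open MonoidAlgebra

theorem relFG_of_equiv {K K' : Type} [Group K] [Group K'] (e : K ≃* K') (h : RelFG K) :
    RelFG K' := by
  classical
  intro n x hx
  have hx' : Subgroup.closure (Set.range (fun i => e.symm (x i))) = ⊤ := by
    have h1 : Set.range (fun i => e.symm (x i)) = e.symm.toMonoidHom '' Set.range x := by
      rw [← Set.range_comp]
      rfl
    rw [h1, ← MonoidHom.map_closure, hx]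
    exact Subgroup.map_top_of_surjective _ e.symm.surjective
  obtain ⟨S, hS⟩ := h n (fun i => e.symm (x i)) hx'
  let φ : MonoidAlgebra ℤ K →+* MonoidAlgebra ℤ K' :=
    MonoidAlgebra.mapDomainRingHom ℤ (e : K →* K')
  let ψ : MonoidAlgebra ℤ K' →+* MonoidAlgebra ℤ K :=
    MonoidAlgebra.mapDomainRingHom ℤ (e.symm : K' →* K)
  have hφof : ∀ k, φ (of ℤ K k) = of ℤ K' (e k) := by
    intro k
    simp [φ, of_apply]
  have hψof : ∀ k, ψ (of ℤ K' k) = of ℤ K (e.symm k) := by
    intro k
    simp [ψ, of_apply]
  have hφψ : ∀ r, φ (ψ r) = r := by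
    intro r
    induction r using zg_induction with
    | h0 => simp
    | hadd a b ha hb => rw [map_add, map_add, ha, hb]
    | hneg a ha => rw [map_neg, map_neg, ha]
    | hof g => rw [hψof, hφof, e.apply_symm_apply]
  have hbdφ : ∀ a : Fin n → MonoidAlgebra ℤ K,
      bd x (fun i => φ (a i)) = φ (bd (fun i => e.symm (x i)) a) := by
    intro a
    rw [bd_apply, bd_apply, map_sum]
    refine Finset.sum_congr rfl ?_
    intro j _
    rw [map_mul, map_sub, hφof, e.apply_symm_apply, map_one]
  have hbdψ : ∀ a : Fin n → MonoidAlgebra ℤ K',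
      bd (fun i => e.symm (x i)) (fun i => ψ (a i)) = ψ (bd x a) := by
    intro a
    rw [bd_apply, bd_apply, map_sum]
    refine Finset.sum_congr rfl ?_
    intro j _
    rw [map_mul, map_sub, hψof, map_one]
  refine ⟨S.image (fun (a : Fin n → MonoidAlgebra ℤ K) i => φ (a i)), ?_⟩
  apply le_antisymm
  · rw [Submodule.span_le]
    intro b hb
    rw [Finset.coe_image] at hb
    obtain ⟨a, ha, rfl⟩ := hb
    have ha' : a ∈ LinearMap.ker (bd (fun i => e.symm (x i))) := by
      rw [← hS]
      exact Submodule.subset_span ha
    change (fun i => φ (a i)) ∈ LinearMap.ker (bd x)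
    rw [LinearMap.mem_ker] at ha' ⊢
    rw [hbdφ, ha', map_zero]
  · intro p hp
    rw [LinearMap.mem_ker] at hp
    have hp' : (fun i => ψ (p i)) ∈ LinearMap.ker (bd (fun i => e.symm (x i))) := by
      rw [LinearMap.mem_ker, hbdψ, hp, map_zero]
    rw [← hS] at hp'
    have key : ∀ q : Fin n → MonoidAlgebra ℤ K, q ∈ Submodule.span (MonoidAlgebra ℤ K)
        (S : Set (Fin n → MonoidAlgebra ℤ K)) →
        (fun i => φ (q i)) ∈ Submodule.span (MonoidAlgebra ℤ K')
          ((S.image (fun (a : Fin n → MonoidAlgebra ℤ K) i => φ (a i)) :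
            Finset (Fin n → MonoidAlgebra ℤ K')) : Set (Fin n → MonoidAlgebra ℤ K')) := by
      intro q hq
      induction hq using Submodule.span_induction with
      | mem a ha =>
        apply Submodule.subset_span
        rw [Finset.coe_image]
        exact ⟨a, ha, rfl⟩
      | zero =>
        have : (fun i => φ ((0 : Fin n → MonoidAlgebra ℤ K) i)) = 0 := by
          funext i
          simp
        rw [this]
        exact Submodule.zero_mem _
      | add a b _ _ ha hb =>
        have : (fun i => φ ((a + b) i)) = (fun i => φ (a i)) + (fun i => φ (b i)) := by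
          funext i
          simp
        rw [this]
        exact Submodule.add_mem _ ha hb
      | smul c a _ ha =>
        have : (fun i => φ ((c • a) i)) = φ c • (fun i => φ (a i)) := by
          funext i
          simp
        rw [this]
        exact Submodule.smul_mem _ _ ha
    have h2 := key _ hp'
    have h3 : (fun i => φ (ψ (p i))) = p := funext fun i => hφψ (p i)
    rw [h3] at h2
    exact h2

end Pool.Agent.PDC
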