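import Mathlib

set_option autoImplicit false

/-!
# PDC-LinA: a family of vectors detected on a finite set of coordinates has supports covered by finitely many members

PLAN.  U := Submodule.span D (Set.range v) ⊆ (J → D).  The restriction map U →ₗ[D] (J0 → D) is injective: an element
of U is c.sum (fun i d => d • v i) for some c : I →₀ D (`Finsupp.mem_span_range_iff_exists_finsupp`); if it vanishes on
J0 then it is 0 by h.  So U is finite dimensional (`Module.Finite.of_injective`), `Submodule.fg_span_iff_fg_span_finset_subset`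
(or `Submodule.fg_iff..`) gives a finite subset of Set.range v spanning U: I0.  Each v i is a combination of the
v i0, i0 ∈ I0: if all v i0 j = 0 then v i j = 0 (`Submodule.span_induction`).
-/

namespace Pool.Agent.PDC

theorem lin_alg {D : Type} [DivisionRing D] {J I : Type} (J0 : Finset J) (v : I → (J → D))
    (h : ∀ c : I →₀ D, (∀ j ∈ J0, c.sum (fun i d => d * v i j) = 0) →
      ∀ j, c.sum (fun i d => d * v i j) = 0) :
    ∃ I0 : Finset I, ∀ i j, v i j ≠ 0 → ∃ i0 ∈ I0, v i0 j ≠ 0 := by
  classical
  set U : Submodule D (J → D) := Submodule.span D (Set.range v) with hU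
  let ρ : U →ₗ[D] (J0 → D) := (LinearMap.funLeft D D (fun j : J0 => (j : J))).comp U.subtype
  have hρ : Function.Injective ρ := by
    rw [← LinearMap.ker_eq_bot, LinearMap.ker_eq_bot']
    intro x hx
    obtain ⟨x, hxU⟩ := x
    obtain ⟨c, hc⟩ := (Finsupp.mem_span_range_iff_exists_finsupp).1 hxU
    have key : ∀ j, c.sum (fun i d => d * v i j) = x j := by
      intro j
      rw [← hc, Finsupp.sum, Finsupp.sum, Finset.sum_apply]
      rfl
    have h0 : ∀ j ∈ J0, c.sum (fun i d => d * v i j) = 0 := by
      intro j hj
      rw [key]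
      exact congrFun hx ⟨j, hj⟩
    ext j
    have h1 := h c h0 j
    rw [key] at h1
    exact h1
  have hfin : Module.Finite D U := Module.Finite.of_injective ρ hρ
  have hfg : (Submodule.span D (Set.range v)).FG := Module.Finite.iff_fg.1 hfin
  obtain ⟨t, ht, hspan⟩ := (Submodule.fg_span_iff_fg_span_finset_subset (Set.range v)).1 hfg
  refine ⟨t.attach.image (fun w => (ht w.2).choose), ?_⟩
  intro i j hij
  by_contra hc
  push Not at hc
  apply hij
  have h1 : Submodule.span D (t : Set (J → D)) ≤ LinearMap.ker (LinearMap.proj j : (J → D) →ₗ[D] D) := by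
    rw [Submodule.span_le]
    intro w hw
    have hw' : w ∈ t := hw
    have h2 := hc ((ht hw).choose) (Finset.mem_image.2 ⟨⟨w, hw'⟩, Finset.mem_attach _ _, rfl⟩)
    rw [(ht hw).choose_spec] at h2
    exact h2
  have h3 : v i ∈ Submodule.span D (t : Set (J → D)) := by
    rw [← hspan]
    exact Submodule.subset_span ⟨i, rfl⟩
  exact h1 h3

end Pool.Agent.PDC
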