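import Mathlib

set_option autoImplicit false

/-!
# PDC-Next: the flow to infinity on an infinite connected locally finite graph

PLAN.  Root x0, d x = Γ.dist x0 x.  For x ≠ x0 choose a neighbour par x with d (par x) + 1 = d x
(last step of a shortest walk); children of x: y ≠ x0 with par y = x (then Γ.Adj x y; finitely many).
Desc x = {y | ∃ k, par^[k] y = x, with all iterates before ≠ x0} (or: inductive predicate
`Desc x y`: refl, and y ≠ x0 → Desc x (par y) → Desc x y; use Relation.ReflTransGen).
 * Desc x0 = everything (induction on d).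
 * Desc x = {x} ∪ ⋃_{c child of x} Desc c.  Hence if Desc x is infinite some child c of x has Desc c
   infinite (Koenig).
Define nx x: if Desc x infinite: a child with infinite Desc; otherwise par x (x ≠ x0 as Desc x0 = univ).
Well-foundedness of r y x := (nx y = x):
 (i) x with Desc x finite: if nx y = x then y is a child of x with Desc y finite [if Desc y were infinite then
     nx y = x would have infinite Desc], Desc y ⊂ Desc x strictly (x ∉ Desc y: d increases along Desc), so Acc x
     by strong induction on the cardinality of Desc x.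
 (ii) x with Desc x infinite: if nx y = x then either Desc y is finite (Acc by (i)) or Desc y is infinite,
     x is a child of y, d y < d x: strong induction on d x.
-/

namespace Pool.Agent.PDC

theorem next_exists (X : Type) [Infinite X] (Γ : SimpleGraph X) (hc : Γ.Connected)
    (hf : ∀ x, (Γ.neighborSet x).Finite) :
    ∃ nx : X → X, (∀ x, Γ.Adj x (nx x)) ∧ WellFounded (fun y x => nx y = x) := by
  classical
  obtain ⟨x0⟩ : Nonempty X := inferInstance
  set d : X → ℕ := fun x => Γ.dist x0 x with hd
  have hd0 : ∀ x, d x = 0 → x = x0 := by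
    intro x hx
    have := (hc x0 x).dist_eq_zero_iff.1 hx
    exact this.symm
  have hpar : ∀ x, ∃ y, (x ≠ x0 → Γ.Adj x y ∧ d y + 1 = d x) ∧ (x = x0 → y = x0) := by
    intro x
    by_cases hx : x = x0
    · exact ⟨x0, fun h => absurd hx h, fun _ => rfl⟩
    · obtain ⟨p, hp⟩ := hc.exists_walk_length_eq_dist x x0
      cases p with
      | nil => exact absurd rfl hx
      | @cons _ y _ hadj q =>
        refine ⟨y, fun _ => ⟨hadj, ?_⟩, fun h => absurd h hx⟩
        rw [SimpleGraph.Walk.length_cons] at hp
        have h1 : Γ.dist y x0 ≤ q.length := SimpleGraph.dist_le q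
        have h2 : Γ.dist x x0 ≤ Γ.dist y x0 + 1 := by
          obtain ⟨r, hr⟩ := hc.exists_walk_length_eq_dist y x0
          have := SimpleGraph.dist_le (SimpleGraph.Walk.cons hadj r)
          rw [SimpleGraph.Walk.length_cons, hr] at this
          exact this
        change Γ.dist x0 y + 1 = Γ.dist x0 x
        rw [SimpleGraph.dist_comm (u := x0) (v := y), SimpleGraph.dist_comm (u := x0) (v := x)]
        omega
  choose par hpar1 hpar2 using hpar
  have hdpar : ∀ x, d (par x) = d x - 1 := by
    intro x
    by_cases hx : x = x0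
    · rw [hpar2 x hx, hx]
      have : d x0 = 0 := SimpleGraph.dist_self
      rw [this]
    · have := (hpar1 x hx).2
      omega
  have hdit : ∀ k x, d (par^[k] x) = d x - k := by
    intro k
    induction k with
    | zero => intro x; simp
    | succ k ih =>
      intro x
      rw [Function.iterate_succ_apply', hdpar, ih]
      omega
  set De : X → Set X := fun x => {y | d x ≤ d y ∧ par^[d y - d x] y = x} with hDe
  have hroot : De x0 = Set.univ := by
    refine Set.eq_univ_of_forall fun y => ?_
    have h0 : d x0 = 0 := SimpleGraph.dist_self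
    refine ⟨by rw [h0]; exact Nat.zero_le _, ?_⟩
    refine hd0 _ ?_
    rw [hdit, h0]
    omega
  have hself : ∀ x, x ∈ De x := fun x => ⟨le_rfl, by rw [Nat.sub_self]; rfl⟩
  have hsub : ∀ x c, c ≠ x0 → par c = x → De c ⊂ De x := by
    intro x c hc0 hcx
    have h1 := (hpar1 c hc0).2
    rw [hcx] at h1
    refine ⟨fun z hz => ?_, fun h => ?_⟩
    · obtain ⟨hz1, hz2⟩ := hz
      refine ⟨by omega, ?_⟩
      have : d z - d x = (d z - d c) + 1 := by omega
      rw [this, Function.iterate_succ_apply', hz2, hcx]
    · have := (h (hself x)).1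
      omega
  have hunion : ∀ x, De x ⊆ {x} ∪ ⋃ c ∈ {c | c ≠ x0 ∧ par c = x}, De c := by
    intro x y hy
    obtain ⟨hy1, hy2⟩ := hy
    rcases Nat.eq_or_lt_of_le hy1 with h | h
    · left
      rw [← h, Nat.sub_self] at hy2
      exact hy2
    · right
      have hdc : d (par^[d y - d x - 1] y) = d x + 1 := by rw [hdit]; omega
      have h0 : d x0 = 0 := SimpleGraph.dist_self
      refine Set.mem_iUnion₂.2 ⟨par^[d y - d x - 1] y, ⟨fun h' => ?_, ?_⟩, ?_⟩
      · rw [h', h0] at hdc
        omega
      · rw [← Function.iterate_succ_apply' par]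
        have : (d y - d x - 1).succ = d y - d x := by omega
        rw [this, hy2]
      · refine ⟨by rw [hdc]; omega, ?_⟩
        rw [hdc]
        have h3 : d y - (d x + 1) = d y - d x - 1 := by omega
        rw [h3]
  have hchild : ∀ x, (De x).Infinite → ∃ c, (c ≠ x0 ∧ par c = x) ∧ (De c).Infinite := by
    intro x hx
    by_contra hcon
    push Not at hcon
    refine hx ?_
    refine Set.Finite.subset ?_ (hunion x)
    refine (Set.finite_singleton x).union (Set.Finite.biUnion ?_ ?_)
    · refine (hf x).subset fun c hc' => ?_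
      have := (hpar1 c hc'.1).1
      rw [hc'.2] at this
      exact this.symm
    · intro c hc'
      exact hcon c hc'
  have hnx : ∀ x, ∃ y, Γ.Adj x y ∧ ((De x).Infinite → (y ≠ x0 ∧ par y = x) ∧ (De y).Infinite) ∧
      ((De x).Finite → x ≠ x0 ∧ par x = y) := by
    intro x
    by_cases hx : (De x).Finite
    · have hx0 : x ≠ x0 := by
        rintro rfl
        rw [hroot] at hx
        exact Set.infinite_univ hx
      exact ⟨par x, (hpar1 x hx0).1, fun h => absurd hx h, fun _ => ⟨hx0, rfl⟩⟩
    · obtain ⟨c, hc1, hc2⟩ := hchild x hx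
      refine ⟨c, ?_, fun _ => ⟨hc1, hc2⟩, fun h => absurd h hx⟩
      have := (hpar1 c hc1.1).1
      rw [hc1.2] at this
      exact this.symm
  choose nx hn1 hn2 hn3 using hnx
  refine ⟨nx, hn1, ?_⟩
  set m : X → ℕ ×ₗ ℕ := fun x => if (De x).Finite then toLex (0, (De x).ncard) else toLex (1, d x)
    with hm
  refine Subrelation.wf (r := InvImage (· < ·) m) (fun {y x} h => ?_) (InvImage.wf m wellFounded_lt)
  change m y < m x
  by_cases hy : (De y).Finite
  · have h1 := hn3 y hy
    rw [h] at h1
    by_cases hx : (De x).Finite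
    · simp only [hm, if_pos hy, if_pos hx]
      refine Prod.Lex.toLex_lt_toLex.2 (Or.inr ⟨rfl, ?_⟩)
      exact Set.ncard_lt_ncard (hsub x y h1.1 h1.2) hx
    · simp only [hm, if_pos hy, if_neg hx]
      exact Prod.Lex.toLex_lt_toLex.2 (Or.inl Nat.zero_lt_one)
  · have h1 := hn2 y hy
    rw [h] at h1
    have hx : ¬ (De x).Finite := h1.2
    simp only [hm, if_neg hy, if_neg hx]
    refine Prod.Lex.toLex_lt_toLex.2 (Or.inr ⟨rfl, ?_⟩)
    have h2 := (hpar1 x h1.1.1).2
    rw [h1.1.2] at h2
    omega

end Pool.Agent.PDC
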