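import Mathlib
import Pool.Agent.PDC.Basic
import Pool.Agent.PDC.Next

set_option autoImplicit false

/-!
# PDC-Transp: Strebel's transport to infinity

PLAN.  X := Quotient (QuotientGroup.rightRel H) (right cosets Hg), infinite because H.index = 0
(`QuotientGroup.quotientRightRelEquivQuotientLeftRel`, `Subgroup.index`, `Nat.card_eq_zero`).
Graph Γ on X: SimpleGraph.fromRel (fun a b => ∃ g, ∃ s ∈ S, a = [g] ∧ b = [g s]).
 * neighbour sets finite: the neighbours of [g] are among [g s], s ∈ S ([h g] = [g], S symmetric).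
 * connected: [1] is joined to [g] for all g, `Subgroup.closure_induction_right` (or induction on the closure,
   multiplying on the right by s ∈ S; S = S⁻¹).
`next_exists` gives nx : X → X.  Choose ν : X → G with ν x ∈ S and, for all g, nx [g] = [g (ν [g])⁻¹]:
x = [g], nx x adjacent to x: nx x = [g s] for some s ∈ S; independent of the representative g since [h g s] = [g s];
ν x := s⁻¹ ∈ S.
For g, s ∈ S with ν [g s] = s we have nx [g s] = [g].  Define T : G → M by well-founded recursion on [g]
(the relation r on G: r g' g := nx [g'] = [g] is well-founded: InvImage):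
   T g = F g + ∑ s ∈ S, if ν [g s] = s then w s • T (g s) else 0.
 * T (h g) = of h • T g for h ∈ H by well-founded induction ([h g s] = [g s], `smul_sum`, `smul_comm` for ℤ).
Fs s g := if ν [g] = s then - T g else 0.
 ∑ s ∈ S, (w s • Fs s (g s) - Fs s g) = - ∑_{s : ν[g s] = s} w s • T(g s) + T g = F g
(the second sum: exactly one s ∈ S, namely ν [g], contributes).
-/

namespace Pool.Agent.PDC

open MonoidAlgebra

/-- the right coset of `g` -/
private def tpC {G : Type} [Group G] (H : Subgroup G) (g : G) :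
    Quotient (QuotientGroup.rightRel H) := Quotient.mk _ g

private theorem tpC_eq {G : Type} [Group G] (H : Subgroup G) {g g' : G} :
    tpC H g = tpC H g' ↔ g' * g⁻¹ ∈ H := by
  unfold tpC
  rw [Quotient.eq, QuotientGroup.rightRel_apply]

private theorem tpC_left {G : Type} [Group G] (H : Subgroup G) {h : G} (hh : h ∈ H) (g : G) :
    tpC H (h * g) = tpC H g := by
  rw [tpC_eq]
  have : g * (h * g)⁻¹ = h⁻¹ := by group
  rw [this]
  exact H.inv_mem hh

/-- right multiplication on the cosets -/
private def tpR {G : Type} [Group G] (H : Subgroup G) (s : G)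
    (x : Quotient (QuotientGroup.rightRel H)) : Quotient (QuotientGroup.rightRel H) :=
  Quotient.liftOn x (fun g => tpC H (g * s)) (by
    intro a b hab
    have h1 : b * a⁻¹ ∈ H := QuotientGroup.rightRel_apply.1 hab
    change tpC H (a * s) = tpC H (b * s)
    rw [tpC_eq]
    have : b * s * (a * s)⁻¹ = b * a⁻¹ := by group
    rw [this]
    exact h1)

private theorem tpR_C {G : Type} [Group G] (H : Subgroup G) (s g : G) :
    tpR H s (tpC H g) = tpC H (g * s) := rfl

private theorem tpC_surj {G : Type} [Group G] (H : Subgroup G)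
    (x : Quotient (QuotientGroup.rightRel H)) : ∃ g, tpC H g = x := Quotient.exists_rep x

private theorem tpR_R {G : Type} [Group G] (H : Subgroup G) (s : G)
    (x : Quotient (QuotientGroup.rightRel H)) : tpR H s⁻¹ (tpR H s x) = x := by
  obtain ⟨g, rfl⟩ := tpC_surj H x
  rw [tpR_C, tpR_C, mul_inv_cancel_right]

/-- the coset graph -/
private def tpG {G : Type} [Group G] (H : Subgroup G) (S : Finset G)
    (hS : ∀ s ∈ S, s⁻¹ ∈ S) : SimpleGraph (Quotient (QuotientGroup.rightRel H)) where
  Adj a b := a ≠ b ∧ ∃ s ∈ S, b = tpR H s a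
  symm := ⟨by
    rintro a b ⟨h, s, hs, rfl⟩
    exact ⟨h.symm, s⁻¹, hS s hs, (tpR_R H s a).symm⟩⟩
  loopless := ⟨fun a h => h.1 rfl⟩

private theorem tp_conn {G : Type} [Group G] (H : Subgroup G) (S : Finset G)
    (hS : ∀ s ∈ S, s⁻¹ ∈ S) (hgen : Subgroup.closure (S : Set G) = ⊤) :
    (tpG H S hS).Connected := by
  have hstep : ∀ g : G, ∀ s ∈ S, (tpG H S hS).Reachable (tpC H g) (tpC H (g * s)) := by
    intro g s hs
    by_cases h : tpC H g = tpC H (g * s)
    · rw [← h]
    · exact SimpleGraph.Adj.reachable ⟨h, s, hs, rfl⟩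
  have h1 : ∀ g : G, (tpG H S hS).Reachable (tpC H 1) (tpC H g) := by
    intro g
    have hg : g ∈ Subgroup.closure (S : Set G) := by rw [hgen]; trivial
    induction hg using Subgroup.closure_induction_right with
    | one => exact SimpleGraph.Reachable.refl _
    | mul_right x hx y hy ih => exact ih.trans (hstep x y hy)
    | mul_inv_cancel x hx y hy ih => exact ih.trans (hstep x y⁻¹ (hS y hy))
  have : Nonempty (Quotient (QuotientGroup.rightRel H)) := ⟨tpC H 1⟩
  refine SimpleGraph.Connected.mk ?_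
  intro x y
  obtain ⟨g, rfl⟩ := tpC_surj H x
  obtain ⟨g', rfl⟩ := tpC_surj H y
  exact (h1 g).symm.trans (h1 g')

private theorem tp_fin {G : Type} [Group G] (H : Subgroup G) (S : Finset G)
    (hS : ∀ s ∈ S, s⁻¹ ∈ S) (x : Quotient (QuotientGroup.rightRel H)) :
    ((tpG H S hS).neighborSet x).Finite := by
  refine (S.finite_toSet.image fun s => tpR H s x).subset ?_
  rintro y ⟨_, s, hs, rfl⟩
  exact ⟨s, hs, rfl⟩

private theorem tp_inf {G : Type} [Group G] (H : Subgroup G) (hH : H.index = 0) :
    Infinite (Quotient (QuotientGroup.rightRel H)) := by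
  have h1 : Nat.card (G ⧸ H) = 0 := hH
  have h2 : Infinite (G ⧸ H) := by
    rcases Nat.card_eq_zero.1 h1 with h | h
    · exact absurd ⟨((1 : G) : G ⧸ H)⟩ (not_nonempty_iff.2 h)
    · exact h
  exact (QuotientGroup.quotientRightRelEquivQuotientLeftRel H).infinite_iff.2 h2

theorem transport {G : Type} [Group G] (H : Subgroup G) (hH : H.index = 0) (S : Finset G)
    (hS : ∀ s ∈ S, s⁻¹ ∈ S) (hgen : Subgroup.closure (S : Set G) = ⊤)
    {M : Type} [AddCommGroup M] [Module (MonoidAlgebra ℤ G) M] (w : G → ℤ)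
    (F : G → M) (hF : ∀ h ∈ H, ∀ g, F (h * g) = of ℤ G h • F g) :
    ∃ Fs : G → G → M, (∀ s, ∀ h ∈ H, ∀ g, Fs s (h * g) = of ℤ G h • Fs s g) ∧
      ∀ g, F g = ∑ s ∈ S, (w s • Fs s (g * s) - Fs s g) := by
  classical
  have hinf := tp_inf H hH
  obtain ⟨nx, hadj, hwf⟩ := next_exists (Quotient (QuotientGroup.rightRel H)) (tpG H S hS)
    (tp_conn H S hS hgen) (tp_fin H S hS)
  choose hne σ hσS hσ using hadj
  set ν : Quotient (QuotientGroup.rightRel H) → G := fun x => (σ x)⁻¹ with hν
  have hνS : ∀ x, ν x ∈ S := fun x => hS _ (hσS x)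
  have hnu : ∀ g s : G, ν (tpC H (g * s)) = s → nx (tpC H (g * s)) = tpC H g := by
    intro g s h
    have h2 : (σ (tpC H (g * s)))⁻¹ = s := h
    have h1 : σ (tpC H (g * s)) = s⁻¹ := inv_eq_iff_eq_inv.1 h2
    rw [hσ, h1, tpR_C, mul_inv_cancel_right]
  have hwf' : WellFounded (fun g' g : G => nx (tpC H g') = tpC H g) :=
    InvImage.wf (tpC H) hwf
  set T : G → M := hwf'.fix (fun g ih => F g + ∑ s ∈ S,
    if h : ν (tpC H (g * s)) = s then w s • ih (g * s) (hnu g s h) else 0) with hT
  have hTeq : ∀ g, T g = F g + ∑ s ∈ S,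
      if ν (tpC H (g * s)) = s then w s • T (g * s) else 0 := by
    intro g
    rw [hT, hwf'.fix_eq]
    rfl
  have hTH : ∀ h ∈ H, ∀ g, T (h * g) = of ℤ G h • T g := by
    intro h hh g
    induction g using hwf'.induction with
    | _ g ih =>
      rw [hTeq (h * g), hTeq g, hF h hh, smul_add, Finset.smul_sum]
      congr 1
      refine Finset.sum_congr rfl fun s _ => ?_
      rw [mul_assoc, tpC_left H hh]
      by_cases h1 : ν (tpC H (g * s)) = s
      · rw [if_pos h1, if_pos h1, ih (g * s) (hnu g s h1), smul_comm]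
      · rw [if_neg h1, if_neg h1, smul_zero]
  refine ⟨fun s g => if ν (tpC H g) = s then - T g else 0, ?_, ?_⟩
  · intro s h hh g
    simp only
    rw [tpC_left H hh]
    by_cases h1 : ν (tpC H g) = s
    · rw [if_pos h1, if_pos h1, hTH h hh, smul_neg]
    · rw [if_neg h1, if_neg h1, smul_zero]
  · intro g
    rw [Finset.sum_sub_distrib, Finset.sum_ite_eq, if_pos (hνS _), sub_neg_eq_add]
    have h1 : ∑ s ∈ S, w s • (if ν (tpC H (g * s)) = s then - T (g * s) else 0) =
        - ∑ s ∈ S, if ν (tpC H (g * s)) = s then w s • T (g * s) else 0 := by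
      rw [← Finset.sum_neg_distrib]
      refine Finset.sum_congr rfl fun s _ => ?_
      by_cases h1 : ν (tpC H (g * s)) = s
      · rw [if_pos h1, if_pos h1, smul_neg]
      · rw [if_neg h1, if_neg h1, smul_zero, neg_zero]
    rw [h1, hTeq g]
    abel

end Pool.Agent.PDC
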