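import Mathlib
import Pool.Agent.PDC.GFG
import Pool.Agent.PDC.Sign
import Pool.Agent.PDC.Transp

set_option autoImplicit false

/-!
# PDC-Rho: an H-linear retraction of d3 for H of infinite index

PLAN.  S from `fg_of_PD3`, w from `sign_exists`, dual basis e_l, l_l (l : Fin m) of P3 (`dual_basis`).
For each l: `transport` with F g = of g • e_l (F(hg) = of h • F g) gives Fs l : G → G → P3.
 extend additively: E l s := extZ (Fs l s) : ZG →+ P3.  Facts (by `zg_induction`/`zg_hom_ext`):
   r • e_l = ∑ s ∈ S, (w s • E l s (r * of s) - E l s r)                              (1)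
   E l s (inc H a * r) = inc H a • E l s r   (a : ZH)                                  (2)
For l and s: θ (rmul l_l (of s) - w s • l_l) = w s θ(l_l) - w s θ(l_l) = 0, so `X.θker` gives μ l s : P2 →ₗ ZG
with rmul l_l (of s) - w s • l_l = (μ l s) ∘ d3.
 rho q := ∑ l, ∑ s ∈ S, w s • E l s (μ l s q)   (an additive map; use `∑` of AddMonoidHom or mk').
 rho (d3 y) = ∑_l ∑_s w s • E l s (l_l(y) * of s - w s • l_l(y)) = ∑_l ∑_s (w s • E l s (l_l y * of s) - E l s (l_l y))
   (w s * w s = 1) = ∑_l l_l(y) • e_l = y by (1).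
-/

namespace Pool.Agent.PDC

open MonoidAlgebra

theorem rho_exists {G : Type} [Group G] (X : PD3 G) (H : Subgroup G) (hH : H.index = 0) :
    ∃ ρ : X.P2 →+ X.P3, (∀ (a : MonoidAlgebra ℤ H) (q : X.P2), ρ (inc H a • q) = inc H a • ρ q) ∧
      ∀ y : X.P3, ρ (X.d3 y) = y := by
  classical
  obtain ⟨S, hS, hgen⟩ := fg_of_PD3 X
  obtain ⟨w, hw1, hw2, hw3⟩ := sign_exists X
  obtain ⟨m, e, l, hl⟩ := dual_basis (MonoidAlgebra ℤ G) X.P3
  have hT : ∀ k : Fin m, ∃ Fs : G → G → X.P3,
      (∀ s, ∀ h ∈ H, ∀ g, Fs s (h * g) = of ℤ G h • Fs s g) ∧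
      ∀ g, of ℤ G g • e k = ∑ s ∈ S, (w s • Fs s (g * s) - Fs s g) := by
    intro k
    refine transport H hH S hS hgen w (fun g => of ℤ G g • e k) ?_
    intro h _ g
    rw [map_mul, mul_smul]
  choose Fs hFs1 hFs2 using hT
  let E : Fin m → G → (MonoidAlgebra ℤ G →+ X.P3) := fun k s => extZ (Fs k s)
  have hEof : ∀ k s g, E k s (of ℤ G g) = Fs k s g := fun k s g => extZ_of _ g
  have hE1 : ∀ (k : Fin m) (r : MonoidAlgebra ℤ G),
      r • e k = ∑ s ∈ S, (w s • E k s (r * of ℤ G s) - E k s r) := by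
    intro k r
    induction r using zg_induction with
    | h0 => simp
    | hadd x y hx hy =>
      rw [add_smul, hx, hy, ← Finset.sum_add_distrib]
      refine Finset.sum_congr rfl fun s _ => ?_
      rw [add_mul, map_add, map_add, smul_add]
      abel
    | hneg x hx =>
      rw [neg_smul, hx, ← Finset.sum_neg_distrib]
      refine Finset.sum_congr rfl fun s _ => ?_
      rw [neg_mul, map_neg, map_neg, smul_neg]
      abel
    | hof g =>
      rw [hFs2 k g]
      refine Finset.sum_congr rfl fun s _ => ?_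
      rw [← map_mul, hEof, hEof]
  have hE2 : ∀ (k : Fin m) (s : G) (a : MonoidAlgebra ℤ H) (r : MonoidAlgebra ℤ G),
      E k s (inc H a * r) = inc H a • E k s r := by
    intro k s a r
    induction a using zg_induction with
    | h0 => simp
    | hadd x y hx hy => rw [map_add, add_mul, map_add, hx, hy, add_smul]
    | hneg x hx => rw [map_neg, neg_mul, map_neg, hx, neg_smul]
    | hof h =>
      induction r using zg_induction with
      | h0 => simp
      | hadd x y hx hy => rw [mul_add, map_add, hx, hy, map_add, smul_add]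
      | hneg x hx => rw [mul_neg, map_neg, hx, map_neg, smul_neg]
      | hof g => rw [inc_of, ← map_mul, hEof, hEof, hFs1 k s h h.2 g]
  have hμ : ∀ (k : Fin m) (s : G), ∃ μ : X.P2 →ₗ[MonoidAlgebra ℤ G] MonoidAlgebra ℤ G,
      rmul (l k) (of ℤ G s) - w s • l k = μ.comp X.d3 := by
    intro k s
    refine (X.θker _).1 ?_
    rw [map_sub, map_zsmul, hw3, smul_eq_mul, sub_self]
  choose μ hμ using hμ
  have hμ' : ∀ k s y, μ k s (X.d3 y) = l k y * of ℤ G s - w s • l k y := by
    intro k s y
    have h1 := congrArg (fun F => F y) (hμ k s)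
    have h2 : rmul (l k) (of ℤ G s) y - w s • l k y = μ k s (X.d3 y) := h1
    rw [← h2, rmul_apply]
  let ρ : X.P2 →+ X.P3 := AddMonoidHom.mk' (fun q => ∑ k, ∑ s ∈ S, w s • E k s (μ k s q)) (by
    intro a b
    simp only [map_add, smul_add, Finset.sum_add_distrib])
  refine ⟨ρ, ?_, ?_⟩
  · intro a q
    change ∑ k, ∑ s ∈ S, w s • E k s (μ k s (inc H a • q)) =
      inc H a • ∑ k, ∑ s ∈ S, w s • E k s (μ k s q)
    rw [Finset.smul_sum]
    refine Finset.sum_congr rfl fun k _ => ?_
    rw [Finset.smul_sum]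
    refine Finset.sum_congr rfl fun s _ => ?_
    rw [map_smul, smul_eq_mul, hE2, smul_comm]
  · intro y
    change ∑ k, ∑ s ∈ S, w s • E k s (μ k s (X.d3 y)) = y
    conv_rhs => rw [hl y]
    refine Finset.sum_congr rfl fun k _ => ?_
    rw [hE1 k (l k y)]
    refine Finset.sum_congr rfl fun s _ => ?_
    have hww : w s * w s = 1 := by
      rcases hw1 s with h | h <;> rw [h] <;> norm_num
    rw [hμ', map_sub, map_zsmul, smul_sub, smul_smul, hww, one_smul]

end Pool.Agent.PDC
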