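import Mathlib
import Pool.Agent.PDC.BDefs

set_option autoImplicit false

/-!
# PDC part S: quotient data of an action on a tree
-/

namespace Pool.Agent.PDC

/-- `AE P a b`: some translate of the pair `(a, b)` belongs to the finite set of pairs `P`. -/
def AE (K : Type) {V : Type} [Group K] [MulAction K V] (P : Finset (V × V)) (a b : V) : Prop :=
  ∃ k : K, (k • a, k • b) ∈ P

/-- Quotient data: vertex representatives `xr 0, …, xr m` (a subtree: `xr (i+1)` is adjacent to
`xr (par i)`), and further edge representatives `(xr (o1 e), g1 e • xr (t1 e))`. -/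
structure QD (K : Type) (V : Type) [Group K] [MulAction K V] (T : SimpleGraph V) where
  m : ℕ
  E1 : Type
  fE1 : Finite E1
  xr : Fin (m + 1) → V
  par : Fin m → Fin (m + 1)
  par_le : ∀ i, (par i).val ≤ i.val
  o1 : E1 → Fin (m + 1)
  t1 : E1 → Fin (m + 1)
  g1 : E1 → K
  adj0 : ∀ i, T.Adj (xr (par i)) (xr i.succ)
  adj1 : ∀ e, T.Adj (xr (o1 e)) (g1 e • xr (t1 e))
  ineq : ∀ (k : K) (a b : Fin m ⊕ E1),
    k • (Sum.elim (fun i => xr (par i)) (fun e => xr (o1 e)) a : V) =
      Sum.elim (fun i => xr (par i)) (fun e => xr (o1 e)) b →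
    k • (Sum.elim (fun i : Fin m => xr i.succ) (fun e => g1 e • xr (t1 e)) a : V) =
      Sum.elim (fun i : Fin m => xr i.succ) (fun e => g1 e • xr (t1 e)) b → a = b
  noinv : ∀ (k : K) (a b : Fin m ⊕ E1),
    k • (Sum.elim (fun i => xr (par i)) (fun e => xr (o1 e)) a : V) =
      Sum.elim (fun i : Fin m => xr i.succ) (fun e => g1 e • xr (t1 e)) b →
    k • (Sum.elim (fun i : Fin m => xr i.succ) (fun e => g1 e • xr (t1 e)) a : V) ≠
      Sum.elim (fun i => xr (par i)) (fun e => xr (o1 e)) b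
  gen : Subgroup.closure ({k : K | ∃ i, k • xr i = xr i} ∪ Set.range g1) = ⊤

end Pool.Agent.PDC
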