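import Mathlib
import Pool.Agent.PDC.BWords

set_option autoImplicit false

/-!
# PDC-SWord: every element is the value of a valid closed word

Vertex types Fin (m+1), edge types Fin m ⊕ E1; edge inl i runs from par i to i.succ with τ = 1 (maximal tree).

PLAN.  Write V(x, y, u) := ∃ l b, Valid x l b y ∧ val τ l b = u.
 (1) V(x,y,u), V(y,z,v) → V(x,z,u v): word (l, b) followed by (l', b'): if l' = [] take (l, b b'), else multiply the first group element
     of l' by b on the left (b ∈ B y).  [`val_append`, `valid_append` or direct induction on l.]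
 (2) V(x,x,a) for a ∈ B x (l = []).  V(par i, i.succ, 1) and V(i.succ, par i, 1) (one letter (1, inl i, true/false), b = 1).
     V(o1 e, t1 e, τ1 e), V(t1 e, o1 e, (τ1 e)⁻¹).
 (3) V(0, x, 1) and V(x, 0, 1) for all x : strong induction on x.val (x = i.succ, par i ≤ i).
 (4) hence V(0,0,a), V(0,0,a⁻¹) for a ∈ A x, V(0,0,τ1 e), V(0,0,(τ1 e)⁻¹); {u | V(0,0,u)} is closed under products, contains 1:
     `Subgroup.closure_induction''` or closure_induction with the predicate V(0,0,u) ∧ V(0,0,u⁻¹).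
-/

namespace Pool.Agent.PDC

section
variable {F R E : Type} [Group F] (o t : E → R) (τ : E → F) (B : R → Subgroup F)

private def VW (x y : R) (u : F) : Prop :=
  ∃ (l : List (F × E × Bool)) (b : F), Valid o t B x l b y ∧ val τ l b = u

private theorem VW_nil (x : R) (a : F) (ha : a ∈ B x) : VW o t τ B x x a :=
  ⟨[], a, ⟨rfl, ha⟩, rfl⟩

private theorem VW_left (x y : R) (a u : F) (ha : a ∈ B x) (h : VW o t τ B x y u) :
    VW o t τ B x y (a * u) := by
  obtain ⟨l, b, h1, h2⟩ := h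
  cases l with
  | nil =>
    obtain ⟨h3, h4⟩ := h1
    subst h3
    refine ⟨[], a * b, ⟨rfl, mul_mem ha h4⟩, ?_⟩
    rw [← h2]
    rfl
  | cons c l =>
    obtain ⟨h3, h4, h5⟩ := h1
    refine ⟨(a * c.1, c.2) :: l, b, ⟨h3, mul_mem ha h4, h5⟩, ?_⟩
    rw [← h2]
    simp only [val, mul_assoc]

private theorem VW_mul (x y z : R) (u v : F) (h : VW o t τ B x y u) (h' : VW o t τ B y z v) :
    VW o t τ B x z (u * v) := by
  obtain ⟨l, b, h1, h2⟩ := h
  induction l generalizing x u with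
  | nil =>
    obtain ⟨h3, h4⟩ := h1
    subst h3
    have h5 : u = b := h2.symm
    rw [h5]
    exact VW_left o t τ B x z b v h4 h'
  | cons c l ih =>
    obtain ⟨h3, h4, h5⟩ := h1
    obtain ⟨l', b', h6, h7⟩ := ih _ _ h5 rfl
    refine ⟨c :: l', b', ⟨h3, h4, h6⟩, ?_⟩
    rw [← h2]
    simp only [val] at h7 ⊢
    rw [h7]
    simp only [mul_assoc]

private theorem VW_pos (e : E) : VW o t τ B (o e) (t e) (τ e) := by
  refine ⟨[(1, e, true)], 1, ⟨?_, one_mem _, ?_, one_mem _⟩, ?_⟩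
  · simp [sE]
  · simp [tE]
  · simp [val, sg]

private theorem VW_neg (e : E) : VW o t τ B (t e) (o e) (τ e)⁻¹ := by
  refine ⟨[(1, e, false)], 1, ⟨?_, one_mem _, ?_, one_mem _⟩, ?_⟩
  · simp [sE]
  · simp [tE]
  · simp [val, sg]

end

theorem words_exist {F : Type} [Group F] (m : ℕ) (E1 : Type) (par : Fin m → Fin (m + 1))
    (hpar : ∀ i, (par i).val ≤ i.val) (o1 t1 : E1 → Fin (m + 1)) (A : Fin (m + 1) → Set F)
    (τ1 : E1 → F) (hgen : Subgroup.closure ((⋃ x, A x) ∪ Set.range τ1) = ⊤) (u : F) :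
    ∃ (l : List (F × (Fin m ⊕ E1) × Bool)) (b : F),
      Valid (Sum.elim par o1) (Sum.elim Fin.succ t1) (fun x => Subgroup.closure (A x)) 0 l b 0 ∧
      val (Sum.elim (fun _ : Fin m => (1 : F)) τ1) l b = u := by
  let o' : (Fin m ⊕ E1) → Fin (m + 1) := Sum.elim par o1
  let t' : (Fin m ⊕ E1) → Fin (m + 1) := Sum.elim Fin.succ t1
  let τ' : (Fin m ⊕ E1) → F := Sum.elim (fun _ : Fin m => (1 : F)) τ1
  let B' : Fin (m + 1) → Subgroup F := fun x => Subgroup.closure (A x)
  have hbase : ∀ n : ℕ, ∀ x : Fin (m + 1), x.val ≤ n →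
      VW o' t' τ' B' 0 x 1 ∧ VW o' t' τ' B' x 0 1 := by
    intro n
    induction n with
    | zero =>
      intro x hx
      have hx0 : x = 0 := Fin.ext (by simpa using hx)
      subst hx0
      exact ⟨VW_nil o' t' τ' B' 0 1 (one_mem _), VW_nil o' t' τ' B' 0 1 (one_mem _)⟩
    | succ n ih =>
      intro x hx
      induction x using Fin.cases with
      | zero => exact ⟨VW_nil o' t' τ' B' 0 1 (one_mem _), VW_nil o' t' τ' B' 0 1 (one_mem _)⟩
      | succ i =>
        have hi : i.val ≤ n := by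
          have := hx
          simp only [Fin.val_succ] at this
          omega
        obtain ⟨h1, h2⟩ := ih (par i) ((hpar i).trans hi)
        have h3 := VW_pos o' t' τ' B' (Sum.inl i)
        have h4 := VW_neg o' t' τ' B' (Sum.inl i)
        have e1 : τ' (Sum.inl i) = 1 := rfl
        have e2 : o' (Sum.inl i) = par i := rfl
        have e3 : t' (Sum.inl i) = i.succ := rfl
        rw [e1, e2, e3] at h3
        rw [e1, e2, e3, inv_one] at h4
        refine ⟨?_, ?_⟩
        · have := VW_mul o' t' τ' B' _ _ _ _ _ h1 h3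
          rwa [one_mul] at this
        · have := VW_mul o' t' τ' B' _ _ _ _ _ h4 h2
          rwa [one_mul] at this
  have hb : ∀ x : Fin (m + 1), VW o' t' τ' B' 0 x 1 ∧ VW o' t' τ' B' x 0 1 :=
    fun x => hbase x.val x le_rfl
  have htr : ∀ (x y : Fin (m + 1)) (v : F), VW o' t' τ' B' x y v → VW o' t' τ' B' 0 0 v := by
    intro x y v h
    have h1 := VW_mul o' t' τ' B' _ _ _ _ _ (hb x).1 h
    have h2 := VW_mul o' t' τ' B' _ _ _ _ _ h1 (hb y).2
    rwa [one_mul, mul_one] at h2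
  have hall : ∀ v ∈ Subgroup.closure ((⋃ x, A x) ∪ Set.range τ1),
      VW o' t' τ' B' 0 0 v ∧ VW o' t' τ' B' 0 0 v⁻¹ := by
    intro v hv
    induction hv using Subgroup.closure_induction with
    | mem v hv =>
      rcases hv with hv | hv
      · obtain ⟨x, hx⟩ := Set.mem_iUnion.1 hv
        have hx' : v ∈ B' x := Subgroup.subset_closure hx
        exact ⟨htr x x v (VW_nil o' t' τ' B' x v hx'),
          htr x x v⁻¹ (VW_nil o' t' τ' B' x v⁻¹ (inv_mem hx'))⟩
      · obtain ⟨e, rfl⟩ := hv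
        exact ⟨htr _ _ _ (VW_pos o' t' τ' B' (Sum.inr e)),
          htr _ _ _ (VW_neg o' t' τ' B' (Sum.inr e))⟩
    | one =>
      rw [inv_one]
      exact ⟨VW_nil o' t' τ' B' 0 1 (one_mem _), VW_nil o' t' τ' B' 0 1 (one_mem _)⟩
    | mul v w _ _ h1 h2 =>
      refine ⟨VW_mul o' t' τ' B' _ _ _ _ _ h1.1 h2.1, ?_⟩
      rw [mul_inv_rev]
      exact VW_mul o' t' τ' B' _ _ _ _ _ h2.2 h1.2
    | inv v _ h =>
      rw [inv_inv]
      exact ⟨h.2, h.1⟩
  exact (hall u (by rw [hgen]; exact Subgroup.mem_top u)).1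

end Pool.Agent.PDC
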