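import Mathlib
import Pool.Agent.PDC.SDefs
import Pool.Agent.PDC.SWord
import Pool.Agent.PDC.BFoxA

set_option autoImplicit false

/-!
# PDC-SMk: graph data from quotient data

PLAN.  (1) Finite subset: K is finitely generated and closure (St ∪ range g1) = ⊤, St = {k | ∃ i, k • xr i = xr i}: there is a finite
 Φ ⊆ St ∪ range g1 with closure Φ = ⊤ (each generator lies in the closure of a finite subset:
 `Subgroup.exists_finset_..` or the directed-union argument; the trivial group needs no care).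
 A' i := {k ∈ Φ | k • xr i = xr i} (finite).
(2) GD: R := Fin (m+1), E := Fin m ⊕ E1, Y := (Σ i : Fin (m+1), {k // k ∈ A' i}) ⊕ E1, r0 := 0, o := Sum.elim par o1,
 t := Sum.elim Fin.succ t1, π := FreeGroup.lift (Sum.elim (fun p => p.2) g1), A x := {of (inl ⟨x, a⟩) | a ∈ A' x},
 τ := Sum.elim (fun _ => 1) (fun e => of (inr e)).
 π surjective: the range contains Φ and range g1.
 n : Fin (m+1) → E → ℤ with n 0 = 0 and n i.succ e = n (par i) e + if inl i = e then 1 else 0 : well-founded recursion on x.val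
   (or prove ∃ n by strong induction; e.g. define nn : ℕ → E → ℤ by Nat.strongRec).
 D e := from `der_exists` with vals (inl ⟨x, a⟩) = n x e • (1 - of a), vals (inr e') = n (o1 e') e • 1 + (if e = inr e' then 1 else 0)
   - n (t1 e') e • of (g1 e').   (smul on ZK by ZK is mul.)
 DA clear.  Dτ for inr e' clear; for inl i: D e 1 = 0 and n (par i) e + (if e = inl i ..) - n i.succ e = 0 (π 1 = 1).
 words: `words_exist` with F = FreeGroup Y, τ1 e = of (inr e); hgen: the union contains all `of y` (`FreeGroup.closure_range_of`).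
(3) TA: xr; stabA; adj from adj0, adj1 (π(τ (inl i)) = 1, one_smul); ineq, noinv from Q.ineq, Q.noinv by cases on e, e'
 (Sum.elim with π(τ (inl i)) • xr i.succ = xr i.succ).
-/

namespace Pool.Agent.PDC

open MonoidAlgebra

private def nrec {α : Type} {m : ℕ} (par : Fin m → Fin (m + 1)) (hpar : ∀ i, (par i).val ≤ i.val)
    (a0 : α) (step : Fin m → α → α) : Fin (m + 1) → α
  | ⟨0, _⟩ => a0
  | ⟨k + 1, h⟩ =>
    step ⟨k, Nat.lt_of_succ_lt_succ h⟩
      (nrec par hpar a0 step (par ⟨k, Nat.lt_of_succ_lt_succ h⟩))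
termination_by x => x.val
decreasing_by
  have := hpar ⟨k, Nat.lt_of_succ_lt_succ h⟩
  simp only at this ⊢
  omega

private theorem exists_rec {α : Type} {m : ℕ} (par : Fin m → Fin (m + 1))
    (hpar : ∀ i, (par i).val ≤ i.val) (a0 : α) (step : Fin m → α → α) :
    ∃ n : Fin (m + 1) → α, n 0 = a0 ∧ ∀ i : Fin m, n i.succ = step i (n (par i)) := by
  refine ⟨nrec par hpar a0 step, ?_, ?_⟩
  · rw [show (0 : Fin (m + 1)) = ⟨0, Nat.succ_pos m⟩ from rfl, nrec]
  · rintro ⟨k, hk⟩
    rw [show (⟨k, hk⟩ : Fin m).succ = ⟨k + 1, Nat.succ_lt_succ hk⟩ from rfl, nrec]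

private theorem fin_of_mem_closure {K : Type} [Group K] {B : Set K} {x : K}
    (hx : x ∈ Subgroup.closure B) :
    ∃ F : Set K, F ⊆ B ∧ F.Finite ∧ x ∈ Subgroup.closure F := by
  induction hx using Subgroup.closure_induction with
  | mem x hx => exact ⟨{x}, by simpa using hx, Set.finite_singleton x, Subgroup.subset_closure rfl⟩
  | one => exact ⟨∅, by simp, Set.finite_empty, Subgroup.one_mem _⟩
  | mul x y _ _ hx hy =>
    obtain ⟨F, f1, f2, f3⟩ := hx
    obtain ⟨G, g1, g2, g3⟩ := hy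
    exact ⟨F ∪ G, Set.union_subset f1 g1, f2.union g2, Subgroup.mul_mem _
      (Subgroup.closure_mono Set.subset_union_left f3)
      (Subgroup.closure_mono Set.subset_union_right g3)⟩
  | inv x _ hx =>
    obtain ⟨F, f1, f2, f3⟩ := hx
    exact ⟨F, f1, f2, Subgroup.inv_mem _ f3⟩

private theorem fin_gen {K : Type} [Group K] [Group.FG K] {B : Set K}
    (hB : Subgroup.closure B = ⊤) :
    ∃ F : Set K, F ⊆ B ∧ F.Finite ∧ Subgroup.closure F = ⊤ := by
  obtain ⟨S, hS⟩ := Group.fg_def.1 (inferInstance : Group.FG K)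
  have h1 : ∀ s : K, ∃ F : Set K, F ⊆ B ∧ F.Finite ∧ s ∈ Subgroup.closure F := fun s =>
    fin_of_mem_closure (by rw [hB]; trivial)
  choose F f1 f2 f3 using h1
  refine ⟨⋃ s ∈ S, F s, Set.iUnion₂_subset fun s _ => f1 s,
    S.finite_toSet.biUnion fun s _ => f2 s, ?_⟩
  rw [eq_top_iff, ← hS, Subgroup.closure_le]
  intro s hs
  exact Subgroup.closure_mono (Set.subset_biUnion_of_mem (u := F) hs) (f3 s)

open scoped Classical in
theorem gd_of_qd {K V : Type} [Group K] [Group.FG K] [MulAction K V] {T : SimpleGraph V}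
    (Q : QD K V T) : ∃ X : GD K, Nonempty (TA X V T) := by
  obtain ⟨Φ, hΦ1, hΦ2, hΦ3⟩ := fin_gen Q.gen
  have := Q.fE1
  -- the letters
  let A' : Fin (Q.m + 1) → Set K := fun i => {k | k ∈ Φ ∧ k • Q.xr i = Q.xr i}
  have hA' : ∀ i, (A' i).Finite := fun i => hΦ2.subset fun k hk => hk.1
  have : ∀ i, Finite (A' i) := fun i => (hA' i).to_subtype
  let Y : Type := (Σ i : Fin (Q.m + 1), A' i) ⊕ Q.E1
  let π : FreeGroup Y →* K := FreeGroup.lift (Sum.elim (fun p => (p.2 : K)) Q.g1)
  have πl : ∀ i (k : A' i), π (FreeGroup.of (Sum.inl ⟨i, k⟩)) = k := fun i k => by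
    simp [π]
  have πr : ∀ e, π (FreeGroup.of (Sum.inr e)) = Q.g1 e := fun e => by
    simp [π]
  have πs : Function.Surjective π := by
    rw [← MonoidHom.range_eq_top, eq_top_iff, ← hΦ3, Subgroup.closure_le]
    intro k hk
    rcases hΦ1 hk with ⟨i, hi⟩ | ⟨e, rfl⟩
    · exact ⟨FreeGroup.of (Sum.inl ⟨i, ⟨k, hk, hi⟩⟩), πl i ⟨k, hk, hi⟩⟩
    · exact ⟨FreeGroup.of (Sum.inr e), πr e⟩
  -- the potentials
  have hn : ∀ e : Fin Q.m ⊕ Q.E1, ∃ n : Fin (Q.m + 1) → ℤ, n 0 = 0 ∧
      ∀ i : Fin Q.m, n i.succ = n (Q.par i) + (if e = Sum.inl i then 1 else 0) := fun e =>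
    exists_rec Q.par Q.par_le 0 (fun i a => a + (if e = Sum.inl i then 1 else 0))
  choose n n0 ns using hn
  -- the derivations
  have hD : ∀ e : Fin Q.m ⊕ Q.E1, ∃ D : FreeGroup Y → MonoidAlgebra ℤ K,
      (∀ u v, D (u * v) = D u + of ℤ K (π u) • D v) ∧
      ∀ y, D (FreeGroup.of y) = Sum.elim
        (fun p : Σ i : Fin (Q.m + 1), A' i => n e p.1 • ((1 : MonoidAlgebra ℤ K) - of ℤ K (p.2 : K)))
        (fun e' => n e (Q.o1 e') • (1 : MonoidAlgebra ℤ K) + (if e = Sum.inr e' then 1 else 0) -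
          n e (Q.t1 e') • of ℤ K (Q.g1 e')) y := fun e => der_exists π _
  choose D Dm Dv using hD
  have D1 : ∀ e, D e 1 = 0 := fun e => der_one π (D e) (Dm e)
  let A : Fin (Q.m + 1) → Set (FreeGroup Y) := fun x =>
    Set.range (fun a : A' x => FreeGroup.of (Sum.inl ⟨x, a⟩))
  let X : GD K :=
    { R := Fin (Q.m + 1)
      E := Fin Q.m ⊕ Q.E1
      Y := Y
      fR := inferInstance
      fE := inferInstance
      fY := inferInstance
      o := Sum.elim Q.par Q.o1
      t := Sum.elim Fin.succ Q.t1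
      r0 := 0
      π := π
      πsurj := πs
      A := A
      fA := fun x => Set.finite_range _
      τ := Sum.elim (fun _ => 1) (fun e => FreeGroup.of (Sum.inr e))
      n := fun x e => n e x
      n0 := n0
      D := D
      Dmul := Dm
      DA := by
        rintro e x a ⟨k, rfl⟩
        simp only
        rw [Dv, πl]
        rfl
      Dτ := by
        rintro e (i | e')
        · simp only [Sum.elim_inl]
          rw [D1, ns, map_one, map_one]
          split_ifs with h
          · simp only [add_smul, one_smul, sub_self]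
          · simp
        · simp only [Sum.elim_inr]
          rw [Dv, πr]
          by_cases h : e = Sum.inr e'
          · simp only [Sum.elim_inr, if_pos h]
          · simp only [Sum.elim_inr, if_neg h]
      words := by
        intro u
        have hgen : Subgroup.closure ((⋃ x, A x) ∪
            Set.range (fun e : Q.E1 => (FreeGroup.of (Sum.inr e) : FreeGroup Y))) = ⊤ := by
          rw [eq_top_iff, ← FreeGroup.closure_range_of, Subgroup.closure_le]
          rintro _ ⟨y, rfl⟩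
          refine Subgroup.subset_closure ?_
          rcases y with ⟨x, a⟩ | e
          · exact Or.inl (Set.mem_iUnion.2 ⟨x, a, rfl⟩)
          · exact Or.inr ⟨e, rfl⟩
        exact words_exist Q.m Q.E1 Q.par Q.par_le Q.o1 Q.t1 A _ hgen u }
  have eo : ∀ e : Fin Q.m ⊕ Q.E1, Q.xr (X.o e) =
      Sum.elim (fun i => Q.xr (Q.par i)) (fun e => Q.xr (Q.o1 e)) e := by
    rintro (i | e) <;> rfl
  have et : ∀ e : Fin Q.m ⊕ Q.E1, X.π (X.τ e) • Q.xr (X.t e) =
      Sum.elim (fun i : Fin Q.m => Q.xr i.succ) (fun e => Q.g1 e • Q.xr (Q.t1 e)) e := by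
    rintro (i | e)
    · show π 1 • Q.xr i.succ = Q.xr i.succ
      rw [map_one, one_smul]
    · show π (FreeGroup.of (Sum.inr e)) • Q.xr (Q.t1 e) = Q.g1 e • Q.xr (Q.t1 e)
      rw [πr]
  refine ⟨X, ⟨{ xr := Q.xr, stabA := ?_, adj := ?_, ineq := ?_, noinv := ?_ }⟩⟩
  · rintro x _ ⟨k, rfl⟩
    show π (FreeGroup.of (Sum.inl ⟨x, k⟩)) • Q.xr x = Q.xr x
    rw [πl]
    exact k.2.2
  · intro e
    rw [et, eo]
    rcases e with i | e
    · exact Q.adj0 i
    · exact Q.adj1 e
  · intro k e e' h1 h2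
    rw [eo, eo] at h1
    rw [et, et] at h2
    exact Q.ineq k e e' h1 h2
  · intro k e e' h1
    rw [eo, et] at h1
    rw [et, eo]
    exact Q.noinv k e e' h1

end Pool.Agent.PDC
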