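import Mathlib
import Pool.Agent.PDC.SDefs

set_option autoImplicit false

/-!
# PDC-SQA: a finite set of edges joining v0 to its translates under generators

PLAN.  v0 from hT.isConnected.nonempty.  S a finite generating set of K (Group.FG).  For s ∈ S a walk p_s from v0 to
s • v0 (hT.isConnected); P := the finite set of all pairs (a, b), (b, a) for the darts of the p_s (`SimpleGraph.Walk.darts`,
or by induction on the walk: for every walk there is a finite symmetric set of adjacent pairs such that its ends are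
related by ReflTransGen).
-/

namespace Pool.Agent.PDC

private theorem walk_edges {V : Type} (T : SimpleGraph V) {a b : V} (w : T.Walk a b) :
    ∃ P : Finset (V × V), (∀ p ∈ P, T.Adj p.1 p.2 ∧ (p.2, p.1) ∈ P) ∧
      Relation.ReflTransGen (fun x y => (x, y) ∈ P) a b := by
  classical
  induction w with
  | nil => exact ⟨∅, fun p hp => absurd hp (Finset.notMem_empty p), Relation.ReflTransGen.refl⟩
  | @cons u v w h p ih =>
    obtain ⟨P, hP1, hP2⟩ := ih
    refine ⟨insert (u, v) (insert (v, u) P), ?_, ?_⟩
    · intro p hp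
      rcases Finset.mem_insert.1 hp with hp | hp
      · subst hp
        exact ⟨h, Finset.mem_insert_of_mem (Finset.mem_insert_self _ _)⟩
      · rcases Finset.mem_insert.1 hp with hp | hp
        · subst hp
          exact ⟨h.symm, Finset.mem_insert_self _ _⟩
        · exact ⟨(hP1 p hp).1,
            Finset.mem_insert_of_mem (Finset.mem_insert_of_mem (hP1 p hp).2)⟩
    · refine Relation.ReflTransGen.head (Finset.mem_insert_self _ _)
        (Relation.ReflTransGen.mono (fun a b hab => ?_) v w hP2)
      exact Finset.mem_insert_of_mem (Finset.mem_insert_of_mem hab)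

theorem finite_edges (K V : Type) [Group K] [Group.FG K] [MulAction K V] (T : SimpleGraph V)
    (hc : T.Connected) :
    ∃ (v0 : V) (P : Finset (V × V)) (S : Finset K),
      (∀ p ∈ P, T.Adj p.1 p.2 ∧ (p.2, p.1) ∈ P) ∧ Subgroup.closure (S : Set K) = ⊤ ∧
      ∀ s ∈ S, Relation.ReflTransGen (fun a b => (a, b) ∈ P) v0 (s • v0) := by
  classical
  obtain ⟨v0⟩ := hc.nonempty
  obtain ⟨S, hS⟩ := (Group.fg_def (G := K)).1 inferInstance
  have hw : ∀ s : K, ∃ P : Finset (V × V), (∀ p ∈ P, T.Adj p.1 p.2 ∧ (p.2, p.1) ∈ P) ∧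
      Relation.ReflTransGen (fun x y => (x, y) ∈ P) v0 (s • v0) := by
    intro s
    obtain ⟨w⟩ := hc.preconnected v0 (s • v0)
    exact walk_edges T w
  choose P hP1 hP2 using hw
  refine ⟨v0, S.biUnion P, S, ?_, hS, ?_⟩
  · intro p hp
    obtain ⟨s, hs, hps⟩ := Finset.mem_biUnion.1 hp
    exact ⟨(hP1 s p hps).1, Finset.mem_biUnion.2 ⟨s, hs, (hP1 s p hps).2⟩⟩
  · intro s hs
    exact Relation.ReflTransGen.mono (fun a b hab => Finset.mem_biUnion.2 ⟨s, hs, hab⟩)
      v0 (s • v0) (hP2 s)

end Pool.Agent.PDC
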