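import Mathlib
import Pool.Agent.PDC.SDefs

set_option autoImplicit false

/-!
# PDC-SQB: a subtree of representatives of the vertices reachable from v0

PLAN.  AE is K-invariant (AE a b → AE (k a) (k b)).  A partial solution of size m: (xr, par) with all properties except
the covering property.  Injection of Fin (m+1) into the finite set {v0} ∪ (image of P under Prod.fst and Prod.snd): for i = 0 take
v0; for i > 0, AE (xr (par _)) (xr i) gives k with k • xr i ∈ Prod.snd '' P; the chosen points for different i are different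
(equal points would make xr i, xr j K-equivalent, hence i = j; for i = 0 against j the same).  So m is bounded by 2 |P| + 1;
m = 0 is a partial solution; take a partial solution with m maximal (Nat.findGreatest or strong induction on the
difference).  Covering: the set U of z with ∃ k i, z = k • xr i contains v0; if AE y z, y = k • xr i ∈ U and z ∉ U then
AE (xr i) (k⁻¹ • z), and Fin.snoc xr (k⁻¹ • z), Fin.snoc par i (with casts: par : Fin (m+1) → Fin (m+2)) is a partial solution of
size m + 1, contradiction.  So U is closed along ReflTransGen.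
-/

namespace Pool.Agent.PDC

/-- partial solutions -/
private def PSol (K V : Type) [Group K] [MulAction K V] (v0 : V) (P : Finset (V × V)) (m : ℕ) :
    Prop :=
  ∃ (xr : Fin (m + 1) → V) (par : Fin m → Fin (m + 1)),
      xr 0 = v0 ∧ (∀ i, (par i).val ≤ i.val) ∧ (∀ i : Fin m, AE K P (xr (par i)) (xr i.succ)) ∧
      (∀ (k : K) i j, k • xr i = xr j → i = j)

private lemma PSol_zero (K V : Type) [Group K] [MulAction K V] (v0 : V) (P : Finset (V × V)) :
    PSol K V v0 P 0 :=
  ⟨fun _ => v0, fun i => i.elim0, rfl, fun i => i.elim0, fun i => i.elim0,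
    fun _ i j _ => Fin.ext (by omega)⟩

private lemma PSol_card (K V : Type) [Group K] [MulAction K V] (v0 : V) (P : Finset (V × V))
    (m : ℕ) (h : PSol K V v0 P m) : m ≤ P.card := by
  obtain ⟨xr, par, -, -, h3, h4⟩ := h
  choose k hk using h3
  have hinj : Function.Injective (fun i : Fin m => (k i • xr (par i), k i • xr i.succ)) := by
    intro i j hij
    have h5 : k i • xr i.succ = k j • xr j.succ := congrArg Prod.snd hij
    have h6 : ((k j)⁻¹ * k i) • xr i.succ = xr j.succ := by
      rw [mul_smul, h5, inv_smul_smul]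
    exact Fin.succ_injective _ (h4 _ _ _ h6)
  have h7 := Finset.card_le_card_of_injOn (s := (Finset.univ : Finset (Fin m))) (t := P)
    (fun i : Fin m => (k i • xr (par i), k i • xr i.succ)) (fun i _ => hk i) hinj.injOn
  rwa [Finset.card_univ, Fintype.card_fin] at h7

private lemma PSol_succ (K V : Type) [Group K] [MulAction K V] (v0 : V) (P : Finset (V × V))
    (m : ℕ) (xr : Fin (m + 1) → V) (par : Fin m → Fin (m + 1))
    (h1 : xr 0 = v0) (h2 : ∀ i, (par i).val ≤ i.val)
    (h3 : ∀ i : Fin m, AE K P (xr (par i)) (xr i.succ))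
    (h4 : ∀ (k : K) i j, k • xr i = xr j → i = j) (i0 : Fin (m + 1)) (w : V)
    (hw : AE K P (xr i0) w) (hn : ∀ (k : K) i, k • xr i ≠ w) : PSol K V v0 P (m + 1) := by
  refine ⟨Fin.snoc (α := fun _ => V) xr w,
    Fin.snoc (α := fun _ => Fin (m + 2)) (fun j => (par j).castSucc) i0.castSucc, ?_, ?_, ?_, ?_⟩
  · rw [← Fin.castSucc_zero, Fin.snoc_castSucc, h1]
  · intro j
    refine Fin.lastCases ?_ (fun j => ?_) j
    · rw [Fin.snoc_last, Fin.val_castSucc, Fin.val_last]
      exact Fin.is_le i0
    · rw [Fin.snoc_castSucc, Fin.val_castSucc, Fin.val_castSucc]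
      exact h2 j
  · intro j
    refine Fin.lastCases ?_ (fun j => ?_) j
    · rw [Fin.snoc_last, Fin.snoc_castSucc, Fin.succ_last, Fin.snoc_last]
      exact hw
    · rw [Fin.snoc_castSucc, Fin.snoc_castSucc, Fin.succ_castSucc, Fin.snoc_castSucc]
      exact h3 j
  · intro k i j
    refine Fin.lastCases ?_ (fun i => ?_) i
    · refine Fin.lastCases ?_ (fun j => ?_) j
      · intro _; rfl
      · intro h
        rw [Fin.snoc_last, Fin.snoc_castSucc] at h
        exact absurd (by rw [← h, inv_smul_smul]) (hn k⁻¹ j)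
    · refine Fin.lastCases ?_ (fun j => ?_) j
      · intro h
        rw [Fin.snoc_last, Fin.snoc_castSucc] at h
        exact absurd h (hn k i)
      · intro h
        rw [Fin.snoc_castSucc, Fin.snoc_castSucc] at h
        rw [h4 k i j h]

theorem vertex_reps (K V : Type) [Group K] [MulAction K V] (v0 : V) (P : Finset (V × V))
    (hP : ∀ p ∈ P, (p.2, p.1) ∈ P) :
    ∃ (m : ℕ) (xr : Fin (m + 1) → V) (par : Fin m → Fin (m + 1)),
      xr 0 = v0 ∧ (∀ i, (par i).val ≤ i.val) ∧ (∀ i : Fin m, AE K P (xr (par i)) (xr i.succ)) ∧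
      (∀ (k : K) i j, k • xr i = xr j → i = j) ∧
      ∀ z, Relation.ReflTransGen (AE K P) v0 z → ∃ (k : K) (i : Fin (m + 1)), z = k • xr i := by
  have hmax : ∃ m, PSol K V v0 P m ∧ ¬ PSol K V v0 P (m + 1) := by
    by_contra hcon
    push Not at hcon
    have hall : ∀ m, PSol K V v0 P m := fun m => by
      induction m with
      | zero => exact PSol_zero K V v0 P
      | succ m ih => exact hcon m ih
    have := PSol_card K V v0 P _ (hall (P.card + 1))
    omega
  obtain ⟨m, ⟨xr, par, h1, h2, h3, h4⟩, hnot⟩ := hmax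
  refine ⟨m, xr, par, h1, h2, h3, h4, ?_⟩
  intro z hz
  induction hz with
  | refl => exact ⟨1, 0, by rw [one_smul, h1]⟩
  | @tail y z _ hab ih =>
    obtain ⟨k, i, hy⟩ := ih
    by_contra hcon
    push Not at hcon
    refine hnot (PSol_succ K V v0 P m xr par h1 h2 h3 h4 i (k⁻¹ • z) ?_ ?_)
    · obtain ⟨k0, hk0⟩ := hab
      refine ⟨k0 * k, ?_⟩
      rw [mul_smul, mul_smul, smul_inv_smul, ← hy]
      exact hk0
    · intro k' j hj
      refine hcon (k * k') j ?_
      rw [mul_smul, hj, smul_inv_smul]

end Pool.Agent.PDC
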