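import Mathlib
import Pool.Agent.PDC.SDefs

set_option autoImplicit false

/-!
# PDC-SQC: representatives of the edges

PLAN.  Ends of an index a ∈ Fin m ⊕ Fin q: (en1 a, en2 a) := (xr (par i), xr i.succ) or (xr (o1 e), g1 e • xr (t1 e)).
Partial solution of size q: (o1, t1, g1) on Fin q with AE (xr (o1 e)) (g1 e • xr (t1 e)), hineq and hnoinv.
 * q = 0 is a partial solution: for tree edges k • (xr(par i), xr i.succ) = (xr(par j), xr j.succ) gives i.succ = j.succ by hx;
   swapped: par i = j.succ and i.succ = par j: par i ≤ i < i+1 = par j ≤ j < j+1 = par i, contradiction.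
 * q ≤ |P|: each index a has k with k • (ends a) ∈ P; this is injective in a by hineq.
 Take q maximal.  Cover: let AE a b with a = k • xr i.  If no index c is equivalent to (xr i, k⁻¹ • b) (directly or swapped) then
 (xr i, k⁻¹ • b), where k⁻¹ • b = g • xr j (hcov: b is reachable, see hypothesis hcovb), is a new edge: o1 := i, t1 := j, g1 := g;
 hineq, hnoinv for the enlarged family: new against old by assumption, new against itself swapped: k' exchanges the two adjacent
 vertices, excluded by hinv (T has no inversions; P consists of adjacent pairs and T.Adj is invariant: hadj).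
-/

namespace Pool.Agent.PDC

/-- two pairs are equivalent, up to translation and exchange -/
private def Eqv (K : Type) {V : Type} [Group K] [MulAction K V] (p p' : V × V) : Prop :=
  ∃ k : K, (k • p.1 = p'.1 ∧ k • p.2 = p'.2) ∨ (k • p.1 = p'.2 ∧ k • p.2 = p'.1)

private theorem Eqv.rfl' {K V : Type} [Group K] [MulAction K V] (p : V × V) : Eqv K p p :=
  ⟨1, Or.inl ⟨one_smul K _, one_smul K _⟩⟩

private theorem Eqv.symm' {K V : Type} [Group K] [MulAction K V] {p p' : V × V}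
    (h : Eqv K p p') : Eqv K p' p := by
  obtain ⟨k, ⟨h1, h2⟩ | ⟨h1, h2⟩⟩ := h
  · exact ⟨k⁻¹, Or.inl ⟨by rw [← h1, inv_smul_smul], by rw [← h2, inv_smul_smul]⟩⟩
  · exact ⟨k⁻¹, Or.inr ⟨by rw [← h2, inv_smul_smul], by rw [← h1, inv_smul_smul]⟩⟩

private theorem Eqv.trans' {K V : Type} [Group K] [MulAction K V] {p p' p'' : V × V}
    (h : Eqv K p p') (h' : Eqv K p' p'') : Eqv K p p'' := by
  obtain ⟨k, ⟨h1, h2⟩ | ⟨h1, h2⟩⟩ := h <;> obtain ⟨l, ⟨h3, h4⟩ | ⟨h3, h4⟩⟩ := h'
  · exact ⟨l * k, Or.inl ⟨by rw [mul_smul, h1, h3], by rw [mul_smul, h2, h4]⟩⟩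
  · exact ⟨l * k, Or.inr ⟨by rw [mul_smul, h1, h3], by rw [mul_smul, h2, h4]⟩⟩
  · exact ⟨l * k, Or.inr ⟨by rw [mul_smul, h1, h4], by rw [mul_smul, h2, h3]⟩⟩
  · exact ⟨l * k, Or.inl ⟨by rw [mul_smul, h1, h4], by rw [mul_smul, h2, h3]⟩⟩

theorem edge_reps (K V : Type) [Group K] [MulAction K V] (T : SimpleGraph V)
    (hadj : ∀ (g : K) (v w : V), T.Adj v w → T.Adj (g • v) (g • w))
    (hinv : ∀ (g : K) (v w : V), T.Adj v w → g • v = w → g • w ≠ v)
    (P : Finset (V × V)) (hP : ∀ p ∈ P, T.Adj p.1 p.2 ∧ (p.2, p.1) ∈ P)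
    (m : ℕ) (xr : Fin (m + 1) → V) (par : Fin m → Fin (m + 1))
    (hpar : ∀ i, (par i).val ≤ i.val) (hae : ∀ i : Fin m, AE K P (xr (par i)) (xr i.succ))
    (hx : ∀ (k : K) i j, k • xr i = xr j → i = j)
    (hcovb : ∀ (k : K) (i : Fin (m + 1)) (b : V), AE K P (k • xr i) b →
      ∃ (g : K) (j : Fin (m + 1)), b = g • xr j) :
    ∃ (q : ℕ) (o1 t1 : Fin q → Fin (m + 1)) (g1 : Fin q → K),
      (∀ e, T.Adj (xr (o1 e)) (g1 e • xr (t1 e))) ∧
      (∀ (k : K) (a b : Fin m ⊕ Fin q),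
        k • (Sum.elim (fun i => xr (par i)) (fun e => xr (o1 e)) a : V) =
          Sum.elim (fun i => xr (par i)) (fun e => xr (o1 e)) b →
        k • (Sum.elim (fun i : Fin m => xr i.succ) (fun e => g1 e • xr (t1 e)) a : V) =
          Sum.elim (fun i : Fin m => xr i.succ) (fun e => g1 e • xr (t1 e)) b → a = b) ∧
      (∀ (k : K) (a b : Fin m ⊕ Fin q),
        k • (Sum.elim (fun i => xr (par i)) (fun e => xr (o1 e)) a : V) =
          Sum.elim (fun i : Fin m => xr i.succ) (fun e => g1 e • xr (t1 e)) b →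
        k • (Sum.elim (fun i : Fin m => xr i.succ) (fun e => g1 e • xr (t1 e)) a : V) ≠
          Sum.elim (fun i => xr (par i)) (fun e => xr (o1 e)) b) ∧
      ∀ (k : K) (i : Fin (m + 1)) (b : V), AE K P (k • xr i) b →
        ∃ (k' : K) (c : Fin m ⊕ Fin q),
          (k' • (Sum.elim (fun i => xr (par i)) (fun e => xr (o1 e)) c : V) = k • xr i ∧
            k' • (Sum.elim (fun i : Fin m => xr i.succ) (fun e => g1 e • xr (t1 e)) c : V) = b) ∨
          (k' • (Sum.elim (fun i => xr (par i)) (fun e => xr (o1 e)) c : V) = b ∧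
            k' • (Sum.elim (fun i : Fin m => xr i.succ) (fun e => g1 e • xr (t1 e)) c : V) =
              k • xr i) := by
  classical
  let R : Set (V × V) := {p | p ∈ P ∧ (∃ (k : K) (i : Fin (m + 1)), p.1 = k • xr i) ∧
    ∀ a : Fin m, ¬ Eqv K (xr (par a), xr a.succ) p}
  have hRfin : R.Finite := P.finite_toSet.subset fun p hp => hp.1
  have hRF : Finite R := hRfin.to_subtype
  let r : Setoid R := ⟨fun p p' => Eqv K p.1 p'.1, ⟨fun p => Eqv.rfl' p.1, fun h => h.symm',
    fun h h' => h.trans' h'⟩⟩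
  obtain ⟨q, ⟨eq⟩⟩ := Finite.exists_equiv_fin (Quotient r)
  have hdata : ∀ p : R, ∃ (k : K) (i : Fin (m + 1)) (g : K) (j : Fin (m + 1)),
      p.1 = (k • xr i, k • (g • xr j)) := by
    rintro ⟨⟨p1, p2⟩, hp, ⟨k, i, hk⟩, -⟩
    change p1 = k • xr i at hk
    subst hk
    have hAE : AE K P ((1 : K) • xr i) (k⁻¹ • p2) := by
      refine ⟨k, ?_⟩
      rw [one_smul, smul_inv_smul]
      exact hp
    obtain ⟨g, j, hg⟩ := hcovb 1 i (k⁻¹ • p2) hAE
    refine ⟨k, i, g, j, ?_⟩
    rw [← hg, smul_inv_smul]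
  choose kk oo gg tt hkk using hdata
  let pe : Fin q → R := fun e => Quotient.out (eq.symm e)
  have hpe : ∀ e, Eqv K (xr (oo (pe e)), gg (pe e) • xr (tt (pe e))) (pe e).1 := by
    intro e
    refine ⟨kk (pe e), Or.inl ⟨?_, ?_⟩⟩
    · exact (congrArg Prod.fst (hkk (pe e))).symm
    · exact (congrArg Prod.snd (hkk (pe e))).symm
  have F1 : ∀ (e : Fin q) (a : Fin m),
      ¬ Eqv K (xr (par a), xr a.succ) (xr (oo (pe e)), gg (pe e) • xr (tt (pe e))) := by
    intro e a h
    exact (pe e).2.2.2 a (h.trans' (hpe e))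
  have F2 : ∀ e e' : Fin q, Eqv K (xr (oo (pe e)), gg (pe e) • xr (tt (pe e)))
      (xr (oo (pe e')), gg (pe e') • xr (tt (pe e'))) → e = e' := by
    intro e e' h
    have h1 : Eqv K (pe e).1 (pe e').1 := ((hpe e).symm'.trans' h).trans' (hpe e')
    have h2 : (Quotient.mk r (pe e)) = Quotient.mk r (pe e') := Quotient.sound h1
    have h3 : eq.symm e = eq.symm e' := by
      have h4 : Quotient.mk r (pe e) = eq.symm e := Quotient.out_eq _
      have h5 : Quotient.mk r (pe e') = eq.symm e' := Quotient.out_eq _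
      rw [← h4, ← h5, h2]
    exact eq.symm.injective h3
  have F3 : ∀ e : Fin q, T.Adj (xr (oo (pe e))) (gg (pe e) • xr (tt (pe e))) := by
    intro e
    have h1 := (hP _ (pe e).2.1).1
    rw [hkk (pe e)] at h1
    have h2 := hadj (kk (pe e))⁻¹ _ _ h1
    simpa only [inv_smul_smul] using h2
  refine ⟨q, fun e => oo (pe e), fun e => tt (pe e), fun e => gg (pe e), F3, ?_, ?_, ?_⟩
  · rintro k (i | e) (j | e') h1 h2
    · simp only [Sum.elim_inl] at h1 h2
      rw [Fin.succ_injective _ (hx k _ _ h2)]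
    · simp only [Sum.elim_inl, Sum.elim_inr] at h1 h2
      exact absurd ⟨k, Or.inl ⟨h1, h2⟩⟩ (F1 e' i)
    · simp only [Sum.elim_inl, Sum.elim_inr] at h1 h2
      have h3 : Eqv K (xr (oo (pe e)), gg (pe e) • xr (tt (pe e))) (xr (par j), xr j.succ) :=
        ⟨k, Or.inl ⟨h1, h2⟩⟩
      exact absurd h3.symm' (F1 e j)
    · simp only [Sum.elim_inr] at h1 h2
      have h3 : Eqv K (xr (oo (pe e)), gg (pe e) • xr (tt (pe e)))
          (xr (oo (pe e')), gg (pe e') • xr (tt (pe e'))) := ⟨k, Or.inl ⟨h1, h2⟩⟩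
      rw [F2 e e' h3]
  · rintro k (i | e) (j | e') h1 h2
    · simp only [Sum.elim_inl] at h1 h2
      have h3 := hx k _ _ h1
      have h4 := hx k _ _ h2
      have h5 := hpar i
      have h6 := hpar j
      rw [h3] at h5
      rw [← h4] at h6
      simp only [Fin.val_succ] at h5 h6
      omega
    · simp only [Sum.elim_inl, Sum.elim_inr] at h1 h2
      exact F1 e' i ⟨k, Or.inr ⟨h1, h2⟩⟩
    · simp only [Sum.elim_inl, Sum.elim_inr] at h1 h2
      have h3 : Eqv K (xr (oo (pe e)), gg (pe e) • xr (tt (pe e))) (xr (par j), xr j.succ) :=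
        ⟨k, Or.inr ⟨h1, h2⟩⟩
      exact F1 e j h3.symm'
    · simp only [Sum.elim_inr] at h1 h2
      have h3 : Eqv K (xr (oo (pe e)), gg (pe e) • xr (tt (pe e)))
          (xr (oo (pe e')), gg (pe e') • xr (tt (pe e'))) := ⟨k, Or.inr ⟨h1, h2⟩⟩
      have h4 := F2 e e' h3
      subst h4
      exact hinv k _ _ (F3 e) h1 h2
  · rintro k i b ⟨l, hl⟩
    by_cases ht : ∃ a : Fin m, Eqv K (xr (par a), xr a.succ) (l • k • xr i, l • b)
    · obtain ⟨a, k1, ⟨h1, h2⟩ | ⟨h1, h2⟩⟩ := ht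
      · refine ⟨l⁻¹ * k1, Sum.inl a, Or.inl ⟨?_, ?_⟩⟩
        · simp only [Sum.elim_inl]
          rw [mul_smul]
          rw [show k1 • xr (par a) = l • k • xr i from h1, inv_smul_smul]
        · simp only [Sum.elim_inl]
          rw [mul_smul, show k1 • xr a.succ = l • b from h2, inv_smul_smul]
      · refine ⟨l⁻¹ * k1, Sum.inl a, Or.inr ⟨?_, ?_⟩⟩
        · simp only [Sum.elim_inl]
          rw [mul_smul, show k1 • xr (par a) = l • b from h1, inv_smul_smul]
        · simp only [Sum.elim_inl]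
          rw [mul_smul, show k1 • xr a.succ = l • k • xr i from h2, inv_smul_smul]
    · have hpR : (l • k • xr i, l • b) ∈ R := by
        refine ⟨hl, ⟨l * k, i, (mul_smul l k (xr i)).symm⟩, fun a ha => ht ⟨a, ha⟩⟩
      have h0 : Eqv K (pe (eq (Quotient.mk r ⟨_, hpR⟩))).1 (l • k • xr i, l • b) := by
        have h1 : Quotient.mk r (pe (eq (Quotient.mk r ⟨_, hpR⟩))) =
            Quotient.mk r ⟨_, hpR⟩ := by
          have h4 : Quotient.mk r (pe (eq (Quotient.mk r ⟨_, hpR⟩))) =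
            eq.symm (eq (Quotient.mk r ⟨_, hpR⟩)) := Quotient.out_eq _
          rw [h4, Equiv.symm_apply_apply]
        exact Quotient.exact h1
      have h0' := (hpe (eq (Quotient.mk r ⟨_, hpR⟩))).trans' h0
      generalize eq (Quotient.mk r ⟨_, hpR⟩) = e at h0'
      obtain ⟨k1, ⟨h1, h2⟩ | ⟨h1, h2⟩⟩ := h0'
      · refine ⟨l⁻¹ * k1, Sum.inr e, Or.inl ⟨?_, ?_⟩⟩
        · simp only [Sum.elim_inr]
          rw [mul_smul, show k1 • xr (oo (pe e)) = l • k • xr i from h1, inv_smul_smul]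
        · simp only [Sum.elim_inr]
          rw [mul_smul, show k1 • (gg (pe e) • xr (tt (pe e))) = l • b from h2, inv_smul_smul]
      · refine ⟨l⁻¹ * k1, Sum.inr e, Or.inr ⟨?_, ?_⟩⟩
        · simp only [Sum.elim_inr]
          rw [mul_smul, show k1 • xr (oo (pe e)) = l • b from h1, inv_smul_smul]
        · simp only [Sum.elim_inr]
          rw [mul_smul, show k1 • (gg (pe e) • xr (tt (pe e))) = l • k • xr i from h2,
            inv_smul_smul]

end Pool.Agent.PDC
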