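import Mathlib
import Pool.Agent.PDC.SQA
import Pool.Agent.PDC.SQB
import Pool.Agent.PDC.SQC

set_option autoImplicit false

/-!
# PDC-SQD: existence of quotient data

PLAN.  `finite_edges`: v0, P, S.  `vertex_reps`: m, xr, par.  hcovb for `edge_reps`: a vertex k • xr i is reachable from v0:
  (a) k • v0 is reachable for all k: closure induction (k = s: ReflTransGen of (a,b) ∈ P is contained in ReflTransGen AE (k = 1);
      AE is K-invariant and symmetric (P symmetric), so reachability is K-invariant and an equivalence relation;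
      k k': v0 ~ k v0 ~ k k' v0; inverse: v0 ~ k v0 gives k⁻¹ v0 ~ v0).
  (b) xr i is reachable (strong induction on i, hae), so k • v0 ~ k • xr i, hence k • xr i is reachable; then b with AE (k xr i) b
      is reachable, vertex_reps gives b = g • xr j.
`edge_reps`: q, o1, t1, g1.  E1 := Fin q.  adj0 from AE: T.Adj is invariant (hadj with k⁻¹), elements of P are adjacent.
gen: let K' := closure(..).  Claim: every z reachable from v0 is k' • xr i with k' ∈ K', by induction on ReflTransGen: v0 = xr 0 = 1 • xr 0.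
 y = k' • xr i, AE y z.  `edge_reps` last part with k = k', b = z: k'' and c, two cases:
  direct: k'' • en1 c = k' • xr i, k'' • en2 c = z.  en1 c = xr a (a = par j or o1 e): hx gives a = i, and k'⁻¹ k'' fixes xr i, so
   k'' ∈ K'; en2 c = xr (j.succ) or g1 e • xr (t1 e): z = k'' • xr .. or (k'' g1 e) • xr ..: in K'.
  swapped: k'' • en2 c = k' • xr i, k'' • en1 c = z: en2 c = g • xr b (g = 1 or g1 e): b = i, k'⁻¹ k'' g fixes xr i so
   k'' g ∈ K', g ∈ K', k'' ∈ K'; z = k'' • xr a.
 For k ∈ K: k • v0 is reachable, = k' • xr i, k' ∈ K'; xr 0 = v0 so k'⁻¹ k • xr 0 = xr i, i = 0, k'⁻¹ k fixes xr 0, in K'.  So k ∈ K'.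
-/

namespace Pool.Agent.PDC

section

variable {K V : Type} [Group K] [MulAction K V] {P : Finset (V × V)}

private theorem AE_smul {a b : V} (h : AE K P a b) (g : K) : AE K P (g • a) (g • b) := by
  obtain ⟨k, hk⟩ := h
  refine ⟨k * g⁻¹, ?_⟩
  rw [← mul_smul, ← mul_smul, inv_mul_cancel_right]
  exact hk

private theorem AE_symm (hP : ∀ p ∈ P, (p.2, p.1) ∈ P) {a b : V} (h : AE K P a b) :
    AE K P b a := by
  obtain ⟨k, hk⟩ := h
  exact ⟨k, hP _ hk⟩

private theorem R_smul {a b : V} (h : Relation.ReflTransGen (AE K P) a b) (g : K) :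
    Relation.ReflTransGen (AE K P) (g • a) (g • b) := by
  induction h with
  | refl => exact Relation.ReflTransGen.refl
  | tail _ hbc ih => exact ih.tail (AE_smul hbc g)

private theorem R_symm (hP : ∀ p ∈ P, (p.2, p.1) ∈ P) {a b : V}
    (h : Relation.ReflTransGen (AE K P) a b) : Relation.ReflTransGen (AE K P) b a := by
  induction h with
  | refl => exact Relation.ReflTransGen.refl
  | tail _ hbc ih => exact Relation.ReflTransGen.head (AE_symm hP hbc) ih

private theorem key_mem {m : ℕ} {xr : Fin (m + 1) → V} (hx : ∀ (k : K) i j, k • xr i = xr j → i = j)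
    {K' : Subgroup K} (hst : ∀ (k : K) i, k • xr i = xr i → k ∈ K') {k' : K} (hk' : k' ∈ K')
    {g : K} {i j : Fin (m + 1)} (h : g • xr j = k' • xr i) : g ∈ K' := by
  have h1 : (k'⁻¹ * g) • xr j = xr i := by
    rw [mul_smul, h, inv_smul_smul]
  have h2 := hx _ _ _ h1
  rw [h2] at h1
  have h3 := hst _ _ h1
  have h4 := K'.mul_mem hk' h3
  rwa [mul_inv_cancel_left] at h4

end

theorem qd_exists (K V : Type) [Group K] [Group.FG K] [MulAction K V] (T : SimpleGraph V)
    (hc : T.Connected)
    (hadj : ∀ (g : K) (v w : V), T.Adj v w → T.Adj (g • v) (g • w))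
    (hinv : ∀ (g : K) (v w : V), T.Adj v w → g • v = w → g • w ≠ v) :
    Nonempty (QD K V T) := by
  obtain ⟨v0, P, S, hP, hS, hw⟩ := finite_edges K V T hc
  have hPs : ∀ p ∈ P, (p.2, p.1) ∈ P := fun p hp => (hP p hp).2
  obtain ⟨m, xr, par, hx0, hpar, hae, hx, hcov⟩ := vertex_reps K V v0 P hPs
  have hAdj : ∀ {a b : V}, AE K P a b → T.Adj a b := by
    rintro a b ⟨k, hk⟩
    have h := hadj k⁻¹ _ _ (hP _ hk).1
    simpa only [inv_smul_smul] using h
  have hv0 : ∀ k : K, Relation.ReflTransGen (AE K P) v0 (k • v0) := by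
    intro k
    have hk : k ∈ Subgroup.closure (S : Set K) := by rw [hS]; exact Subgroup.mem_top k
    induction hk using Subgroup.closure_induction with
    | mem s hs =>
      have hh : ∀ b, Relation.ReflTransGen (fun a b => (a, b) ∈ P) v0 b →
          Relation.ReflTransGen (AE K P) v0 b := by
        intro b hb
        induction hb with
        | refl => exact Relation.ReflTransGen.refl
        | tail _ hbc ih => exact ih.tail ⟨1, by rw [one_smul, one_smul]; exact hbc⟩
      exact hh _ (hw s hs)
    | one => rw [one_smul]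
    | mul x y _ _ hx' hy' =>
      rw [mul_smul]
      exact hx'.trans (R_smul hy' x)
    | inv x _ hx' =>
      have h := R_smul hx' x⁻¹
      rw [inv_smul_smul] at h
      exact R_symm hPs h
  have hxr : ∀ (n : ℕ) (i : Fin (m + 1)), i.val = n → Relation.ReflTransGen (AE K P) v0 (xr i) := by
    intro n
    induction n using Nat.strong_induction_on with
    | _ n ih =>
      intro i hi
      induction i using Fin.cases with
      | zero => rw [hx0]
      | succ j =>
        have h1 : (par j).val < n := by
          have := hpar j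
          rw [← hi, Fin.val_succ]
          omega
        exact (ih _ h1 (par j) rfl).tail (hae j)
  have hkx : ∀ (k : K) (i : Fin (m + 1)), Relation.ReflTransGen (AE K P) v0 (k • xr i) :=
    fun k i => (hv0 k).trans (R_smul (hxr i.val i rfl) k)
  have hcovb : ∀ (k : K) (i : Fin (m + 1)) (b : V), AE K P (k • xr i) b →
      ∃ (g : K) (j : Fin (m + 1)), b = g • xr j := fun k i b hb => hcov b ((hkx k i).tail hb)
  obtain ⟨q, o1, t1, g1, hadj1, hineq, hnoinv, hlast⟩ :=
    edge_reps K V T hadj hinv P hP m xr par hpar hae hx hcovb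
  refine ⟨{
    m := m
    E1 := Fin q
    fE1 := inferInstance
    xr := xr
    par := par
    par_le := hpar
    o1 := o1
    t1 := t1
    g1 := g1
    adj0 := fun i => hAdj (hae i)
    adj1 := hadj1
    ineq := hineq
    noinv := hnoinv
    gen := ?_ }⟩
  set K' : Subgroup K := Subgroup.closure ({k : K | ∃ i, k • xr i = xr i} ∪ Set.range g1) with hK'
  have hst : ∀ (k : K) i, k • xr i = xr i → k ∈ K' := fun k i hk =>
    Subgroup.subset_closure (Or.inl ⟨i, hk⟩)
  have hg1 : ∀ e, g1 e ∈ K' := fun e => Subgroup.subset_closure (Or.inr ⟨e, rfl⟩)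
  have claim : ∀ z, Relation.ReflTransGen (AE K P) v0 z → ∃ k' ∈ K', ∃ i, z = k' • xr i := by
    intro z hz
    induction hz with
    | refl => exact ⟨1, K'.one_mem, 0, by rw [one_smul, hx0]⟩
    | tail _ hbc ih =>
      obtain ⟨k', hk', i, rfl⟩ := ih
      obtain ⟨k'', c, h | h⟩ := hlast k' i _ hbc
      · obtain ⟨h1, h2⟩ := h
        rcases c with j | e
        · exact ⟨k'', key_mem hx hst hk' h1, j.succ, h2.symm⟩
        · refine ⟨k'' * g1 e, K'.mul_mem (key_mem hx hst hk' h1) (hg1 e), t1 e, ?_⟩
          rw [mul_smul]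
          exact h2.symm
      · obtain ⟨h1, h2⟩ := h
        rcases c with j | e
        · exact ⟨k'', key_mem hx hst hk' h2, par j, h1.symm⟩
        · have h3 : (k'' * g1 e) • xr (t1 e) = k' • xr i := by
            rw [mul_smul]
            exact h2
          have h4 := key_mem hx hst hk' h3
          have h5 : k'' ∈ K' := by
            have h6 := K'.mul_mem h4 (K'.inv_mem (hg1 e))
            rwa [mul_inv_cancel_right] at h6
          exact ⟨k'', h5, o1 e, h1.symm⟩
  refine (Subgroup.eq_top_iff' K').mpr fun k => ?_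
  obtain ⟨k', hk', i, hi⟩ := claim _ (hv0 k)
  refine key_mem hx hst hk' (g := k) (j := 0) (i := i) ?_
  rw [hx0]
  exact hi

end Pool.Agent.PDC
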