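import Mathlib
import Pool.Agent.PDC.BFin
import Pool.Agent.PDC.SQD
import Pool.Agent.PDC.SMk

set_option autoImplicit false

/-!
# PDC-TreeFP: a finitely generated group with f.g. relation modules acting on a tree, all of whose
# finitely generated subgroups of vertex stabilisers are finitely presented, is finitely presented
-/

namespace Pool.Agent.PDC

theorem tree_fp (K : Type) [Group K] [Group.FG K] (hrel : RelFG K) (V : Type) (T : SimpleGraph V)
    [MulAction K V] (hT : T.IsTree)
    (hadj : ∀ (g : K) (v w : V), T.Adj v w → T.Adj (g • v) (g • w))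
    (hinv : ∀ (g : K) (v w : V), T.Adj v w → g • v = w → g • w ≠ v)
    (hst : ∀ v : V, ∀ B : Subgroup K, B ≤ MulAction.stabilizer K v → B.FG →
      Group.IsFinitelyPresented B) : Group.IsFinitelyPresented K := by
  obtain ⟨Q⟩ := qd_exists K V T hT.1 hadj hinv
  obtain ⟨X, ⟨Z⟩⟩ := gd_of_qd Q
  exact fp_of_data X hT.2 hadj Z hrel hst

end Pool.Agent.PDC
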