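import Mathlib
import Pool.Agent.PDC.TreeFP

set_option autoImplicit false

/-!
# PDC-TreeStep: the induction step for subgroups acting on trees
-/

namespace Pool.Agent.PDC

theorem tree_step {Γ : Type} [Group Γ] (L : Subgroup Γ) (V : Type) (T : SimpleGraph V)
    (act : MulAction L V) (hT : T.IsTree)
    (hadj : ∀ (g : L) (v w : V), T.Adj v w → T.Adj (g • v) (g • w))
    (hinv : ∀ (g : L) (v w : V), T.Adj v w → g • v = w → g • w ≠ v)
    (ih : ∀ v : V, ∀ B : Subgroup Γ, B ≤ (MulAction.stabilizer L v).map L.subtype → B.FG →
      Group.IsFinitelyPresented B)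
    (K : Subgroup Γ) (hK : K ≤ L) (hfg : K.FG) (hrel : RelFG K) :
    Group.IsFinitelyPresented K := by
  have hKfg : Group.FG K := (Group.fg_iff_subgroup_fg K).2 hfg
  let actK : MulAction K V := MulAction.compHom V (Subgroup.inclusion hK)
  have hsm : ∀ (k : K) (v : V), k • v = (Subgroup.inclusion hK k) • v := fun _ _ => rfl
  refine tree_fp K hrel V T hT (fun g v w h => ?_) (fun g v w h => ?_) ?_
  · rw [hsm, hsm]
    exact hadj _ v w h
  · rw [hsm, hsm]
    exact hinv _ v w h
  · intro v B hB hBfg
    have hle : B.map K.subtype ≤ (MulAction.stabilizer L v).map L.subtype := by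
      rintro _ ⟨b, hb, rfl⟩
      refine ⟨Subgroup.inclusion hK b, ?_, rfl⟩
      have := hB hb
      rw [MulAction.mem_stabilizer_iff] at this
      change (Subgroup.inclusion hK b) • v = v
      rw [← hsm]
      exact this
    have hmfg : (B.map K.subtype).FG := by
      have hg : Group.FG B := (Group.fg_iff_subgroup_fg B).2 hBfg
      have hg2 : Group.FG (B.map K.subtype) :=
        Group.fg_of_surjective
          (f := (B.equivMapOfInjective K.subtype K.subtype_injective).toMonoidHom)
          (B.equivMapOfInjective K.subtype K.subtype_injective).surjective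
      exact (Group.fg_iff_subgroup_fg _).1 hg2
    have h1 := ih v _ hle hmfg
    exact Group.IsFinitelyPresented.equiv
      (B.equivMapOfInjective K.subtype K.subtype_injective).symm

end Pool.Agent.PDC
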