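import Mathlib
import Pool.Agent.PDC.HDefs
import Pool.Agent.PDC.TreeStep
import Pool.Agent.PDC.FPUp
import Pool.Agent.PDC.FIC
import Pool.Agent.PDC.RelEq
import Pool.Agent.PDC.SH.ThmA
import Pool.Agent.PDC.SH.Virt

set_option autoImplicit false

/-!
# PDC-HierDFP: finitely generated subgroups of members of `HierD` (in a PD3-group) are finitely presented
-/

namespace Pool.Agent.PDC

theorem relFG_of_locEmb {Γ : Type} [Group Γ] (X : PD3 Γ) (L : Subgroup Γ) (hL : LocEmb L)
    (K : Subgroup Γ) (hK : K ≤ L) (hfg : K.FG) : RelFG K := by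
  obtain ⟨K₀, h0, hi, D, _, f, hf⟩ := hL K hK hfg
  have h1 : RelFG K₀ := SH.thmA X K₀ f hf
  -- `K₀` and `K₀.subgroupOf K` are isomorphic
  let e : K₀.subgroupOf K ≃* K₀ := Subgroup.subgroupOfEquivOfLe h0
  have h2 : RelFG (K₀.subgroupOf K) := relFG_of_equiv e.symm h1
  exact SH.relFG_of_finiteIndex (K₀.subgroupOf K) hi h2

theorem hierD_fp {Γ : Type} [Group Γ] (X : PD3 Γ) (L : Subgroup Γ) (h : HierD L) :
    ∀ K : Subgroup Γ, K ≤ L → K.FG → Group.IsFinitelyPresented K := by
  induction h with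
  | base L h => exact h
  | tree L hL V T act hT hadj hinv h ih =>
    intro K hK hfg
    exact tree_step L V T act hT hadj hinv ih K hK hfg (relFG_of_locEmb X L hL K hK hfg)

end Pool.Agent.PDC
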