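import Mathlib
import Pool.Agent.PDC.TreeFP

set_option autoImplicit false

/-!
# PDC-HierFP: in a group all of whose subgroups have f.g. relation modules, the finitely generated
# subgroups of members of `Hier` are finitely presented

PLAN.  Induction on Hier.  base: h.  tree L V T act ...: K ≤ L finitely generated.  K acts on V: MulAction K V by
`MulAction.compHom V (Subgroup.inclusion hKL)`.  `tree_fp (K := K)` (Group.FG K from K.FG: `Group.fg_iff_subgroup_fg`), hrel := hrel K,
hadj, hinv restricted.  hst: B ≤ stabilizer K v, B.FG: B' := B.map K.subtype ≤ (stabilizer L v).map L.subtype, B'.FG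
(`Subgroup.FG.map`), so B' is finitely presented by the induction hypothesis at v; B ≃* B' (`Subgroup.equivMapOfInjective`),
`Group.IsFinitelyPresented.equiv`.
-/

namespace Pool.Agent.PDC

theorem hier_fp {Γ : Type} [Group Γ] (hrel : ∀ K : Subgroup Γ, RelFG K) (L : Subgroup Γ)
    (h : Hier L) (K : Subgroup Γ) (hK : K ≤ L) (hfg : K.FG) : Group.IsFinitelyPresented K := by
  induction h generalizing K with
  | base L h => exact h K hK hfg
  | tree L V T act hT hadj hinv h ih =>
    let _ : MulAction K V := MulAction.compHom V (Subgroup.inclusion hK)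
    have hg : Group.FG K := (Group.fg_iff_subgroup_fg K).mpr hfg
    refine tree_fp K (hrel K) V T hT (fun g v w => hadj (Subgroup.inclusion hK g) v w)
      (fun g v w => hinv (Subgroup.inclusion hK g) v w) ?_
    intro v B hB hBfg
    have hB' : B.map K.subtype ≤ (MulAction.stabilizer L v).map L.subtype := by
      rintro _ ⟨b, hb, rfl⟩
      refine ⟨Subgroup.inclusion hK b, ?_, rfl⟩
      exact hB hb
    have hfg' : (B.map K.subtype).FG := by
      classical
      obtain ⟨S, hS⟩ := hBfg
      refine ⟨S.image K.subtype, ?_⟩
      rw [Finset.coe_image, ← MonoidHom.map_closure, hS]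
    have hfp := ih v (B.map K.subtype) hB' hfg'
    exact Group.IsFinitelyPresented.equiv
      (B.equivMapOfInjective K.subtype K.subtype_injective).symm

end Pool.Agent.PDC
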