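import Mathlib
import Pool.Agent.PDC.Rho
import Pool.Agent.PDC.Comp
import Pool.Agent.PDC.Heart
import Pool.Agent.PDC.LinA
import Pool.Agent.PDC.FinG

set_option autoImplicit false

/-!
# PDC-ThmA: Theorem A (almost coherence)

PLAN.  intro n x hx.
(a) H = ⊥ (or H finite): ZH is a finite ℤ-module, so Noetherian (`isNoetherian_of_isNoetherianRing_of_finite`, restrict scalars:
   `isNoetherian_of_tower ℤ`): every submodule of (Fin n → ZH) is FG.
(b) comparison: y g1 σ ..., dual basis e, μ of P2.  If H.index ≠ 0: Y := the finite set Set.range (tr H) (finite since the quotient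
   is finite: tr factors through Quotient (rightRel H)), and q exists by `X.ex1` (d1 (∑ inc (p j) • y j) = 0).  `fin_gen`.
(c) H.index = 0, H ≠ ⊥: ρ from `rho_exists`, S, w, l0 (X.θsurj 1).  For j choose μ' j with
   (μ' j) ∘ d3 = rmul l0 (of (x j)) - w (x j) • l0 (X.θker).
   I := {p // bd x p = 0}; for p choose q_p with d2 q_p = ∑ inc (p j) • y j and ρ q_p = 0
     (q0 from X.ex1, q_p := q0 - d3 (ρ q0), d2 ∘ d3 = 0 by X.ex2).
   J := ((X.P2 →ₗ ZG) × G) ⊕ Fin n;  v p (inl (μ, g)) := f (inc (resH (μ q_p * of g⁻¹))), v p (inr j) := f (inc (p j)).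
   J0 := image of {inl (μ' j, 1)} ∪ {inr j}.  `lin_alg`: the hypothesis h for c : I →₀ D is `heart` with index type
   {p // p ∈ c.support} (a Fintype), d = c, for the coordinates inl; for inr j it is in J0.
     (c.sum = ∑ over the subtype: Finset.sum_coe_sort / Finset.sum_attach.)
   Get I0.  Y := image of tr H on ⋃_{p0 ∈ I0, k} (μ k q_{p0}).coeff.support.  If (μ k q_p).coeff g ≠ 0 then
   resH (μ k q_p * of g⁻¹) has coefficient ≠ 0 at 1 (`coeff_resH`, `coeff_mul_single_apply`), so v p (inl (μ k, g)) ≠ 0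
   (f, inc injective), so for some p0 ∈ I0: resH (μ k q_{p0} * of g⁻¹) ≠ 0, some h ∈ H with
   (μ k q_{p0}).coeff (h g) ≠ 0, tr (h g) = tr g ∈ Y.  `fin_gen`.
-/

namespace Pool.Agent.PDC

open MonoidAlgebra

private theorem fg_bot {G : Type} [Group G] (H : Subgroup G) (hb : H = ⊥) {n : ℕ} (x : Fin n → H) :
    (LinearMap.ker (bd x)).FG := by
  have hs : Function.Surjective (Int.castRingHom (MonoidAlgebra ℤ H)) := by
    intro r
    induction r using zg_induction with
    | h0 => exact ⟨0, by simp⟩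
    | hadd x y hx hy =>
      obtain ⟨a, ha⟩ := hx
      obtain ⟨b, hb⟩ := hy
      exact ⟨a + b, by rw [map_add, ha, hb]⟩
    | hneg x hx =>
      obtain ⟨a, ha⟩ := hx
      exact ⟨-a, by rw [map_neg, ha]⟩
    | hof g =>
      refine ⟨1, ?_⟩
      have hg : g = 1 := by
        apply Subtype.ext
        have h1 : ∀ g : G, g ∈ H → g = 1 := by
          intro g hg
          rw [hb] at hg
          exact Subgroup.mem_bot.1 hg
        exact h1 _ g.2
      rw [hg, map_one, map_one]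
  have : IsNoetherianRing (MonoidAlgebra ℤ H) := isNoetherianRing_of_surjective ℤ _ _ hs
  exact IsNoetherian.noetherian _

private theorem finite_tr {G : Type} [Group G] (H : Subgroup G) (hi : H.index ≠ 0) :
    (Set.range (tr H)).Finite := by
  have : H.FiniteIndex := ⟨hi⟩
  have : Finite (G ⧸ H) := Subgroup.finite_quotient_of_finiteIndex
  have : Finite (Quotient (QuotientGroup.rightRel H)) :=
    Finite.of_equiv _ (QuotientGroup.quotientRightRelEquivQuotientLeftRel H).symm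
  refine (Set.finite_range
    (fun c : Quotient (QuotientGroup.rightRel H) => (Quotient.out c : G))).subset ?_
  rintro _ ⟨g, rfl⟩
  exact ⟨Quotient.mk _ g, rfl⟩

private theorem sum_coe {D : Type} [DivisionRing D] {I : Type} (c : I →₀ D) (F : I → D) :
    c.sum (fun i d => d * F i) = ∑ a : {i // i ∈ c.support}, c a.1 * F a.1 := by
  rw [Finsupp.sum, ← Finset.sum_coe_sort]

theorem thmA {G : Type} [Group G] (X : PD3 G) {D : Type} [DivisionRing D]
    (f : MonoidAlgebra ℤ G →+* D) (hf : Function.Injective f) (H : Subgroup G) : RelFG H := by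
  classical
  intro n x hx
  by_cases hbot : H = ⊥
  · exact fg_bot H hbot x
  obtain ⟨y, g1, σ, hg1, hg1', hσ, hcomp⟩ := comparison X H x hx
  obtain ⟨m, e, μ, hμ⟩ := dual_basis (MonoidAlgebra ℤ G) X.P2
  by_cases hind : H.index = 0
  swap
  · refine fin_gen X H x y g1 σ hg1 hg1' hσ (fun p hp => (hcomp p hp).2) e μ hμ
      (finite_tr H hind).toFinset ?_ ?_
    · intro t ht
      rw [Set.Finite.mem_toFinset] at ht
      obtain ⟨g, rfl⟩ := ht
      exact tr_tr H g
    · intro p hp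
      obtain ⟨q, hq⟩ := (X.ex1 _).1 (hcomp p hp).1
      refine ⟨q, hq, ?_⟩
      intro k g _
      rw [Set.Finite.mem_toFinset]
      exact ⟨g, rfl⟩
  obtain ⟨ρ, hρ1, hρ2⟩ := rho_exists X H hind
  obtain ⟨w, hw, hwm, hwθ⟩ := sign_exists X
  obtain ⟨l0, hl0⟩ := X.θsurj 1
  have hμ' : ∀ j, ∃ ν : X.P2 →ₗ[MonoidAlgebra ℤ G] MonoidAlgebra ℤ G,
      ν.comp X.d3 = rmul l0 (of ℤ G (x j : G)) - w (x j : G) • l0 := by
    intro j
    have h0 : X.θ (rmul l0 (of ℤ G (x j : G)) - w (x j : G) • l0) = 0 := by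
      rw [map_sub, hwθ, map_zsmul, hl0]
      simp
    obtain ⟨ψ, hψ⟩ := (X.θker _).1 h0
    exact ⟨ψ, hψ.symm⟩
  choose μ' hμ' using hμ'
  have hq : ∀ p : {p : Fin n → MonoidAlgebra ℤ H // bd x p = 0}, ∃ q : X.P2,
      X.d2 q = ∑ j, inc H (p.1 j) • y j ∧ ρ q = 0 := by
    rintro ⟨p, hp⟩
    obtain ⟨q0, hq0⟩ := (X.ex1 _).1 (hcomp p hp).1
    refine ⟨q0 - X.d3 (ρ q0), ?_, ?_⟩
    · have h0 : X.d2 (X.d3 (ρ q0)) = 0 := (X.ex2 _).2 ⟨_, rfl⟩
      rw [map_sub, hq0, h0, sub_zero]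
    · rw [map_sub, hρ2, sub_self]
  choose q hq2 hqρ using hq
  let v : {p : Fin n → MonoidAlgebra ℤ H // bd x p = 0} →
      ((X.P2 →ₗ[MonoidAlgebra ℤ G] MonoidAlgebra ℤ G) × G) ⊕ Fin n → D :=
    fun p => Sum.elim (fun t => f (inc H (resH H (t.1 (q p) * of ℤ G t.2⁻¹))))
      (fun j => f (inc H (p.1 j)))
  let J0 : Finset (((X.P2 →ₗ[MonoidAlgebra ℤ G] MonoidAlgebra ℤ G) × G) ⊕ Fin n) :=
    (Finset.univ.image (fun j : Fin n => Sum.inl (μ' j, (1 : G)))) ∪
      (Finset.univ.image (fun j : Fin n => Sum.inr j))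
  have hJl : ∀ j, Sum.inl (μ' j, (1 : G)) ∈ J0 := fun j =>
    Finset.mem_union_left _ (Finset.mem_image_of_mem _ (Finset.mem_univ j))
  have hJr : ∀ j : Fin n, Sum.inr j ∈ J0 := fun j =>
    Finset.mem_union_right _ (Finset.mem_image_of_mem _ (Finset.mem_univ j))
  obtain ⟨I0, hI0⟩ := lin_alg J0 v (by
    intro c hc j
    rcases j with ⟨ν, g⟩ | j
    · rw [sum_coe c (fun i => v i (Sum.inl (ν, g)))]
      refine heart X H hind hbot f hf ρ hρ1 hρ2 (fun a : {i // i ∈ c.support} => c a.1)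
        (fun a => q a.1) x hx y (fun a => a.1.1) w hw hwm hwθ l0 hl0 (fun a => hq2 a.1)
        (fun a => hqρ a.1) ?_ ?_ ν g
      · intro j
        have := hc _ (hJr j)
        rw [sum_coe c (fun i => v i (Sum.inr j))] at this
        exact this
      · intro j
        refine ⟨μ' j, hμ' j, ?_⟩
        have := hc _ (hJl j)
        rw [sum_coe c (fun i => v i (Sum.inl (μ' j, 1)))] at this
        exact this
    · exact hc _ (hJr j))
  refine fin_gen X H x y g1 σ hg1 hg1' hσ (fun p hp => (hcomp p hp).2) e μ hμ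
    (I0.biUnion (fun p0 => Finset.univ.biUnion
      (fun k => ((μ k (q p0)).coeff.support).image (tr H)))) ?_ ?_
  · intro t ht
    simp only [Finset.mem_biUnion, Finset.mem_image] at ht
    obtain ⟨_, _, _, _, g, _, rfl⟩ := ht
    exact tr_tr H g
  · intro p hp
    refine ⟨q ⟨p, hp⟩, hq2 ⟨p, hp⟩, ?_⟩
    intro k g hkg
    have h1 : v ⟨p, hp⟩ (Sum.inl (μ k, g)) ≠ 0 := by
      intro h0
      have h2 : f (inc H (resH H (μ k (q ⟨p, hp⟩) * of ℤ G g⁻¹))) = 0 := h0
      have h3 : inc H (resH H (μ k (q ⟨p, hp⟩) * of ℤ G g⁻¹)) = 0 :=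
        hf (by rw [h2, map_zero])
      have h4 : resH H (μ k (q ⟨p, hp⟩) * of ℤ G g⁻¹) = 0 :=
        inc_injective H (by rw [h3, map_zero])
      apply hkg
      have h5 : (resH H (μ k (q ⟨p, hp⟩) * of ℤ G g⁻¹)).coeff 1 = 0 := by
        rw [h4]; simp
      rw [coeff_resH, of_apply, coeff_mul_single_apply] at h5
      simpa using h5
    obtain ⟨p0, hp0, h2⟩ := hI0 _ _ h1
    have h3 : resH H (μ k (q p0) * of ℤ G g⁻¹) ≠ 0 := by
      intro h0
      apply h2
      change f (inc H (resH H (μ k (q p0) * of ℤ G g⁻¹))) = 0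
      rw [h0, map_zero, map_zero]
    obtain ⟨h, hh⟩ : ∃ h : H, (resH H (μ k (q p0) * of ℤ G g⁻¹)).coeff h ≠ 0 := by
      by_contra hcon
      push Not at hcon
      apply h3
      ext h
      simpa using hcon h
    rw [coeff_resH, of_apply, coeff_mul_single_apply] at hh
    simp only [inv_inv, mul_one] at hh
    simp only [Finset.mem_biUnion, Finset.mem_image, Finsupp.mem_support_iff]
    exact ⟨p0, hp0, k, Finset.mem_univ _, (h : G) * g, hh, tr_mul H h.2 g⟩

end Pool.Agent.PDC
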