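import Mathlib
import Pool.Agent.PDC.HierDFP

set_option autoImplicit false

/-!
# PDC-ThmBF: Theorem B, final form
-/

namespace Pool.Agent.PDC

/-- The two descriptions of the intersection are isomorphic. -/
private noncomputable def swapEq {G : Type} [Group G] (A B : Subgroup G) :
    A.subgroupOf B ≃* B.subgroupOf A :=
  ((MulEquiv.subgroupCongr (Subgroup.inf_subgroupOf_right A B).symm).trans
    (Subgroup.subgroupOfEquivOfLe (inf_le_right : A ⊓ B ≤ B))).trans
  ((Subgroup.subgroupOfEquivOfLe (inf_le_left : A ⊓ B ≤ A)).symm.trans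
    (MulEquiv.subgroupCongr (Subgroup.inf_subgroupOf_left B A)))

/-- `EmbD` passes to groups which inject. -/
theorem embD_of_injective {K K' : Type} [Group K] [Group K'] (j : K →* K')
    (hj : Function.Injective j) (h : EmbD K') : EmbD K := by
  obtain ⟨D, i, f, hf⟩ := h
  refine ⟨D, i, f.comp (MonoidAlgebra.mapDomainRingHom ℤ j), hf.comp ?_⟩
  have : Function.Injective (MonoidAlgebra.mapDomain (R := ℤ) (j : K → K')) :=
    MonoidAlgebra.mapDomain_injective hj
  exact this

/-- Let `G` be a PD3-group and `G1` a subgroup of finite index acting on a tree with all vertex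
stabilisers in `HierD`.  Every finitely generated subgroup `K` of `G` which has finite index or
which has a finite index subgroup with group ring embeddable in a division ring is finitely
presented. -/
theorem thmB_final {G : Type} [Group G] (X : PD3 G) (G1 : Subgroup G) [G1.FiniteIndex]
    (V : Type) (T : SimpleGraph V) (act : MulAction G1 V) (hT : T.IsTree)
    (hadj : ∀ (g : G1) (v w : V), T.Adj v w → T.Adj (g • v) (g • w))
    (hinv : ∀ (g : G1) (v w : V), T.Adj v w → g • v = w → g • w ≠ v)
    (h : ∀ v : V, HierD (MulAction.stabilizer G1 v)) (K : Subgroup G) (hK : K.FG)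
    (hE : K.FiniteIndex ∨ ∃ K₀ : Subgroup G, K₀ ≤ K ∧ K₀.relIndex K ≠ 0 ∧ EmbD K₀) :
    Group.IsFinitelyPresented K := by
  obtain ⟨X1⟩ := pd3_finiteIndex X G1
  have hKfg : Group.FG K := (Group.fg_iff_subgroup_fg K).2 hK
  have hNfg : Group.FG (G1.subgroupOf K) := Subgroup.fg_of_index_ne_zero _
  have h1 : Group.FG (K.subgroupOf G1) :=
    Group.fg_of_surjective (f := (swapEq G1 K).toMonoidHom) (swapEq G1 K).surjective
  have hrel : RelFG (K.subgroupOf G1) := by
    rcases hE with hE | ⟨K₀, h0, hi, hemb⟩
    · have hfi : (K.subgroupOf G1).FiniteIndex := inferInstance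
      exact SH.relFG_index X1 _ hfi.index_ne_zero
    · -- the finite index subgroup `K₀ ⊓ G1` of `K ⊓ G1`
      have hle : K₀.subgroupOf G1 ≤ K.subgroupOf G1 := fun g hg => h0 hg
      have hidx : (K₀.subgroupOf G1).relIndex (K.subgroupOf G1) ≠ 0 := by
        have h2 : (K₀.subgroupOf G1).relIndex (K.subgroupOf G1) = K₀.relIndex (K ⊓ G1) := by
          have h3 := Subgroup.relIndex_subgroupOf (H := K₀) (K := K ⊓ G1) (L := G1) inf_le_right
          rw [← h3]
          congr 1
          ext g
          simp [Subgroup.mem_subgroupOf]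
        rw [h2]
        intro h4
        apply hi
        have h5 : K₀.relIndex K ∣ K₀.relIndex K := dvd_rfl
        exact Subgroup.relIndex_eq_zero_of_le_right inf_le_left h4
      have hml : (K₀.subgroupOf G1).map G1.subtype ≤ K₀ := by
        rintro _ ⟨g, hg, rfl⟩
        exact hg
      have hemb' : EmbD (K₀.subgroupOf G1) :=
        embD_of_injective ((Subgroup.inclusion hml).comp
          ((K₀.subgroupOf G1).equivMapOfInjective G1.subtype G1.subtype_injective).toMonoidHom)
          ((Subgroup.inclusion_injective hml).comp (MulEquiv.injective _)) hemb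
      obtain ⟨D, _, f, hf⟩ := hemb'
      have h6 : RelFG (K₀.subgroupOf G1) := SH.thmA X1 _ f hf
      let e : (K₀.subgroupOf G1).subgroupOf (K.subgroupOf G1) ≃* K₀.subgroupOf G1 :=
        Subgroup.subgroupOfEquivOfLe hle
      exact SH.relFG_of_finiteIndex ((K₀.subgroupOf G1).subgroupOf (K.subgroupOf G1)) hidx
        (relFG_of_equiv e.symm h6)
  have h2 : Group.IsFinitelyPresented (K.subgroupOf G1) := by
    refine tree_fp _ hrel V T hT (fun g v w h3 => hadj g v w h3)
      (fun g v w h3 => hinv g v w h3) ?_
    intro v B hB hBfg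
    have hle : B.map (K.subgroupOf G1).subtype ≤ MulAction.stabilizer G1 v := by
      rintro _ ⟨b, hb, rfl⟩
      exact hB hb
    have hmfg : (B.map (K.subgroupOf G1).subtype).FG := by
      have hg : Group.FG B := (Group.fg_iff_subgroup_fg B).2 hBfg
      have hg2 : Group.FG (B.map (K.subgroupOf G1).subtype) :=
        Group.fg_of_surjective
          (f := (B.equivMapOfInjective (K.subgroupOf G1).subtype
            (K.subgroupOf G1).subtype_injective).toMonoidHom)
          (B.equivMapOfInjective (K.subgroupOf G1).subtype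
            (K.subgroupOf G1).subtype_injective).surjective
      exact (Group.fg_iff_subgroup_fg _).1 hg2
    have h4 := hierD_fp X1 _ (h v) _ hle hmfg
    exact Group.IsFinitelyPresented.equiv
      (B.equivMapOfInjective (K.subgroupOf G1).subtype (K.subgroupOf G1).subtype_injective).symm
  have h3 : Group.IsFinitelyPresented (G1.subgroupOf K) :=
    Group.IsFinitelyPresented.equiv (swapEq G1 K).symm
  exact fp_of_finiteIndex (G1.subgroupOf K)

end Pool.Agent.PDC
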